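import Mathlib
import Pool.Agent.Q2.TN.Stm

set_option linter.style.haveILetI false

namespace Q271.TN_D2
open Q2.TN Subgroup

theorem exists_maxAb {G : Type} [Group G] [Finite G] (P : Subgroup G) : ∃ A, IsMaxAb P A := by
  let S : Set (Subgroup G) := {A | A ≤ P ∧ IsAb A}
  have hne : S.Nonempty := ⟨⊥, bot_le, by
    intro x hx y hy
    rw [mem_bot] at hx hy
    rw [hx, hy]⟩
  obtain ⟨A, hA, hmax⟩ := Set.exists_max_image S (fun A => Nat.card A) (Set.toFinite S) hne
  exact ⟨A, hA.1, hA.2, fun B hB hB' => hmax B ⟨hB, hB'⟩⟩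

theorem mem_Nm {G : Type} [Group G] {P : Subgroup G} {g : G} :
    g ∈ Nm P ↔ ∀ h, h ∈ P ↔ g * h * g⁻¹ ∈ P := by
  rw [Nm, Subgroup.mem_normalizer_iff]

theorem maxAb_conj {G : Type} [Group G] [Finite G] {P A : Subgroup G} {g : G} (hg : g ∈ Nm P)
    (hA : IsMaxAb P A) : IsMaxAb P (A.map (MulAut.conj g).toMonoidHom) := by
  obtain ⟨h1, h2, h3⟩ := hA
  refine ⟨?_, ?_, ?_⟩
  · rintro _ ⟨x, hx, rfl⟩
    exact (mem_Nm.1 hg x).1 (h1 hx)
  · rintro _ ⟨x, hx, rfl⟩ _ ⟨y, hy, rfl⟩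
    rw [← map_mul, ← map_mul, h2 x hx y hy]
  · intro B hB hB'
    have : Nat.card (A.map (MulAut.conj g).toMonoidHom) = Nat.card A :=
      Nat.card_congr (A.equivMapOfInjective _ (MulAut.conj g).injective).toEquiv.symm
    rw [this]
    exact h3 B hB hB'

theorem conj_mem_W {G : Type} [Group G] [Finite G] (P : Subgroup G) (b : Bool) (g : G) (hg : g ∈ Nm P)
    (x : G) (hx : x ∈ W b P) : g * x * g⁻¹ ∈ W b P := by
  cases b with
  | true =>
    have h : W true P ≤ (W true P).comap (MulAut.conj g).toMonoidHom := by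
      apply sSup_le
      intro A hA
      rw [← map_le_iff_le_comap]
      exact le_sSup (maxAb_conj hg hA)
    exact h hx
  | false =>
    obtain ⟨h1, h2⟩ := hx
    refine ⟨(mem_Nm.1 hg x).1 h1, ?_⟩
    intro y hy
    have hy' : y ∈ P := hy
    have h3 : g⁻¹ * y * g ∈ P := by
      rw [mem_Nm.1 hg]
      have : g * (g⁻¹ * y * g) * g⁻¹ = y := by group
      rwa [this]
    have h4 : (g⁻¹ * y * g) * x = x * (g⁻¹ * y * g) := h2 _ h3
    calc y * (g * x * g⁻¹) = g * ((g⁻¹ * y * g) * x) * g⁻¹ := by group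
      _ = g * (x * (g⁻¹ * y * g)) * g⁻¹ := by rw [h4]
      _ = g * x * g⁻¹ * y := by group

theorem maxAb_le {G : Type} [Group G] {P A : Subgroup G} (h : IsMaxAb P A) : A ≤ W true P :=
  le_sSup (show A ∈ {A : Subgroup G | IsMaxAb P A} from h)

theorem W_le {G : Type} [Group G] (P : Subgroup G) (b : Bool) : W b P ≤ P := by
  cases b with
  | true => exact sSup_le fun A hA => hA.1
  | false => exact inf_le_left

theorem W_ne {G : Type} [Group G] [Finite G] (p : ℕ) (hp : p.Prime) (P : Subgroup G) (hP : IsPGroup p P)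
    (h1 : P ≠ ⊥) (b : Bool) : W b P ≠ ⊥ := by
  haveI := Fact.mk hp
  cases b with
  | true =>
    obtain ⟨A, hA⟩ := exists_maxAb P
    obtain ⟨x, hx, hx1⟩ := (Subgroup.bot_or_exists_ne_one P).resolve_left h1
    intro hW
    have hle : A ≤ W true P := le_sSup hA
    rw [hW, le_bot_iff] at hle
    have h2 := hA.2.2 (zpowers (x : G)) (zpowers_le.2 hx) (by
      rintro _ ⟨i, rfl⟩ _ ⟨j, rfl⟩
      exact (Commute.refl (x : G)).zpow_zpow i j)
    rw [hle, Nat.card_zpowers, Subgroup.card_bot] at h2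
    have h3 : orderOf (x : G) ≠ 0 := (isOfFinOrder_of_finite _).orderOf_pos.ne'
    have h4 : orderOf (x : G) = 1 := by omega
    rw [orderOf_eq_one_iff] at h4
    exact hx1 h4
  | false =>
    haveI : Nontrivial P := (Subgroup.nontrivial_iff_ne_bot P).2 h1
    haveI := hP.center_nontrivial
    obtain ⟨z, hz⟩ := exists_ne (1 : center P)
    intro hW
    have h2 : ((z : P) : G) ∈ W false P := by
      refine ⟨(z : P).2, ?_⟩
      intro y hy
      have h3 := (mem_center_iff.1 z.2) ⟨y, hy⟩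
      exact congrArg Subtype.val h3
    rw [hW, mem_bot] at h2
    exact hz (Subtype.ext (Subtype.ext h2))

theorem d2 : S_D2 := by
  intro p hp G _ _ P
  refine ⟨fun b => ?_, ?_⟩
  · have hN : Nm P ≤ Nm (W b P) := by
      intro g hg
      rw [mem_Nm]
      intro h
      refine ⟨fun hh => conj_mem_W P b g hg h hh, fun hh => ?_⟩
      have h1 := conj_mem_W P b g⁻¹ ((Nm P).inv_mem hg) _ hh
      have h2 : g⁻¹ * (g * h * g⁻¹) * g⁻¹⁻¹ = h := by group
      rwa [h2] at h1
    refine ⟨W_le P b, fun hP h1 => W_ne p hp P hP h1 b, hN, ?_⟩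
    intro hP
    have h1 : Nm P = ⊤ := by
      rw [eq_top_iff]
      intro g _
      rw [mem_Nm]
      intro h
      refine ⟨fun hh => hP.conj_mem h hh g, fun hh => ?_⟩
      have h1 := hP.conj_mem _ hh g⁻¹
      have h2 : g⁻¹ * (g * h * g⁻¹) * g⁻¹⁻¹ = h := by group
      rwa [h2] at h1
    refine ⟨fun x hx g => conj_mem_W P b g (h1 ▸ mem_top g) x hx⟩
  · intro U hU hW
    have h : ∀ A : Subgroup G, IsMaxAb U A ↔ IsMaxAb P A := by
      intro A
      constructor
      · rintro ⟨h1, h2, h3⟩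
        refine ⟨h1.trans hU, h2, ?_⟩
        intro B hB hB'
        obtain ⟨A', hA'⟩ := exists_maxAb P
        exact (hA'.2.2 B hB hB').trans (h3 A' ((maxAb_le hA').trans hW) hA'.2.1)
      · rintro ⟨h1, h2, h3⟩
        exact ⟨(maxAb_le (show IsMaxAb P A from ⟨h1, h2, h3⟩)).trans hW, h2, fun B hB hB' => h3 B (hB.trans hU) hB'⟩
    show sSup {A : Subgroup G | IsMaxAb U A} = sSup {A : Subgroup G | IsMaxAb P A}
    congr 1
    ext A
    exact h A

end Q271.TN_D2
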