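import Mathlib
import Pool.Agent.Q2.TN.Stm

set_option linter.style.haveILetI false

namespace Q271.TN_M11
open Q2.TN Subgroup

theorem m11 (hF2 : S_F2) : S_M11 := by
  intro p hp hp2 G _ _ P U M T _ hU hT hch hpow hcomm K hF hex
  obtain ⟨e, m, heK, hm, hem, t0, ht0, hte⟩ := hex
  obtain ⟨hMn, hTn, hMT, hmax⟩ := hch
  obtain ⟨hPs, hKn, hKc, hKP, hK1, hP1, hKab, hKmin, hfaith⟩ := hF
  haveI := Fact.mk hp
  haveI := hMn
  haveI := hTn
  haveI := hKn
  by_contra hcon
  push Not at hcon
  have hsurj : Function.Surjective (QuotientGroup.mk' M) := QuotientGroup.mk'_surjective M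
  let V : Subgroup (G ⧸ M) := T.map (QuotientGroup.mk' M)
  haveI hVn : V.Normal := hTn.map _ hsurj
  have hmem : ∀ g : G, QuotientGroup.mk' M g = 1 ↔ g ∈ M := by
    intro g
    simp
  have hcommV : ∀ a b : V, a * b = b * a := by
    rintro ⟨a, x, hx, rfl⟩ ⟨b, y, hy, rfl⟩
    apply Subtype.ext
    show QuotientGroup.mk' M x * QuotientGroup.mk' M y = QuotientGroup.mk' M y * QuotientGroup.mk' M x
    have h1 := (hmem _).2 (hcomm x hx y hy)
    simp only [map_mul, map_inv] at h1
    rwa [mul_inv_eq_one, mul_inv_eq_iff_eq_mul] at h1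
  letI cg : CommGroup V := { (inferInstance : Group V) with mul_comm := hcommV }
  let φ : G →* MulAut V := (MulAut.conjNormal (H := V)).comp (QuotientGroup.mk' M)
  have hφ : ∀ (g : G) (v : V), ((φ g v : V) : G ⧸ M) =
      QuotientGroup.mk' M g * v * (QuotientGroup.mk' M g)⁻¹ := by
    intro g v
    rfl
  -- `U` acts trivially
  have hUtriv : ∀ u ∈ U, φ u = 1 := by
    let T₁ : Subgroup G := (V ⊓ centralizer ((U.map (QuotientGroup.mk' M) : Subgroup (G ⧸ M)) : Set (G ⧸ M))).comap
      (QuotientGroup.mk' M)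
    haveI : (U.map (QuotientGroup.mk' M)).Normal := (inferInstance : U.Normal).map _ hsurj
    have hT₁n : T₁.Normal := inferInstance
    have h1 : M ≤ T₁ := by
      intro g hg
      rw [Subgroup.mem_comap, (hmem g).2 hg]
      exact one_mem _
    have h2 : T₁ ≤ T := by
      intro g hg
      obtain ⟨⟨t, ht, htg⟩, -⟩ := hg
      have h3 : t⁻¹ * g ∈ M := by
        rw [← hmem, map_mul, map_inv, htg]
        simp
      have h4 := T.mul_mem ht (hMT.le h3)
      simpa using h4
    have h3 : T₁ = T := by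
      rcases hmax T₁ hT₁n h1 h2 with h | h
      · exfalso
        letI act : MulAction U V := MulAction.compHom V (φ.comp U.subtype)
        have hsm : ∀ (u : U) (v : V), u • v = φ (u : G) v := fun u v => rfl
        have hVp : IsPGroup p V := hT.map _
        have hVne : Nontrivial V := by
          obtain ⟨t, ht, htM⟩ := SetLike.exists_of_lt hMT
          refine ⟨⟨⟨QuotientGroup.mk' M t, mem_map_of_mem _ ht⟩, 1, ?_⟩⟩
          intro h
          apply htM
          rw [← hmem]
          exact congrArg Subtype.val h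
        have hdvd : p ∣ Nat.card V := by
          obtain ⟨n, hn⟩ := (IsPGroup.iff_card).1 hVp
          have : 1 < Nat.card V := Finite.one_lt_card
          rw [hn] at this ⊢
          rcases n with _ | n
          · simp at this
          · exact dvd_pow_self p (Nat.succ_ne_zero n)
        obtain ⟨b, hb, hb1⟩ := hU.exists_fixed_point_of_prime_dvd_card_of_fixed_point V hdvd
          (a := (1 : V)) (by
            intro u
            rw [hsm, map_one])
        obtain ⟨b, t, ht, rfl⟩ := b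
        have htT₁ : t ∈ T₁ := by
          refine ⟨mem_map_of_mem _ ht, ?_⟩
          rintro _ ⟨u, hu, rfl⟩
          have h5 := congrArg Subtype.val (hb ⟨u, hu⟩)
          rw [hsm, hφ] at h5
          simp only at h5
          rwa [mul_inv_eq_iff_eq_mul] at h5
        rw [h] at htT₁
        apply hb1
        apply Subtype.ext
        show (1 : G ⧸ M) = QuotientGroup.mk' M t
        rw [(hmem t).2 htT₁]
      · exact h
    intro u hu
    ext v
    obtain ⟨b, t, ht, rfl⟩ := v
    rw [hφ]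
    have h4 : t ∈ T₁ := by rw [h3]; exact ht
    have h5 := h4.2 (QuotientGroup.mk' M u) (mem_map_of_mem _ hu)
    show QuotientGroup.mk' M u * QuotientGroup.mk' M t * (QuotientGroup.mk' M u)⁻¹ = QuotientGroup.mk' M t
    rw [mul_inv_eq_iff_eq_mul]
    exact h5
  let ψ : G ⧸ U →* MulAut V := QuotientGroup.lift U φ (fun u hu => hUtriv u hu)
  have hψ : ∀ g : G, ψ (QuotientGroup.mk' U g) = φ g := fun g => rfl
  letI act : MulDistribMulAction (G ⧸ U) V := MulDistribMulAction.compHom V ψ
  have hact : ∀ (x : G ⧸ U) (v : V), x • v = ψ x v := fun x v => rfl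
  have hexp : ∀ v : V, v ^ p = 1 := by
    rintro ⟨b, t, ht, rfl⟩
    apply Subtype.ext
    show (QuotientGroup.mk' M t) ^ p = 1
    rw [← map_pow]
    exact (hmem _).2 (hpow t ht)
  have key : ∀ z ∈ P, ∀ x ∈ K, ψ (QuotientGroup.mk' U z * x * (QuotientGroup.mk' U z)⁻¹) = ψ x := by
    intro z hz x hx
    ext v : 1
    rw [← hact, ← hact]
    refine hF2 p hp hp2 (G ⧸ U) V K ⊤ (QuotientGroup.mk' U z) inferInstance (fun v _ => hexp v) hKab hKc
      (fun x hx => ⟨hKn.conj_mem x hx _, ?_⟩) (fun _ _ _ _ => mem_top _)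
      (fun _ _ => ⟨mem_top _, mem_top _⟩) ?_ x hx v (mem_top _)
    · have := hKn.conj_mem x hx (QuotientGroup.mk' U z)⁻¹
      rwa [inv_inv] at this
    · rintro ⟨b, t, ht, rfl⟩ -
      have h1 := (hmem _).2 (hcon z hz t ht)
      simp only [hact, hψ]
      apply Subtype.ext
      rw [hφ]
      rw [div_eq_mul_inv]
      have h2 : ((φ z ⟨QuotientGroup.mk' M t, ⟨t, ht, rfl⟩⟩ * (⟨QuotientGroup.mk' M t, ⟨t, ht, rfl⟩⟩ : V)⁻¹ : V) : G ⧸ M)
        = QuotientGroup.mk' M (z * t * z⁻¹ * t⁻¹) := by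
        show ((φ z ⟨QuotientGroup.mk' M t, ⟨t, ht, rfl⟩⟩ : V) : G ⧸ M) * (QuotientGroup.mk' M t)⁻¹ = _
        rw [hφ]
        simp
      rw [h2]
      rw [map_mul, map_inv, mul_inv_eq_one] at h1
      rw [map_mul, map_mul, map_inv] at h1
      exact h1
  have hLmin := hKmin (K ⊓ ψ.ker) inf_le_left (by
    intro g _ x hx
    exact ⟨hKn.conj_mem x hx.1 g, (inferInstance : ψ.ker.Normal).conj_mem x hx.2 g⟩)
  rcases hLmin with hL | hL
  · apply hP1
    rw [eq_bot_iff]
    rintro _ ⟨z, hz, rfl⟩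
    rw [mem_bot]
    apply hfaith _ (mem_map_of_mem _ hz)
    intro x hx
    have h1 : QuotientGroup.mk' U z * x * (QuotientGroup.mk' U z)⁻¹ * x⁻¹ ∈ K ⊓ ψ.ker := by
      refine ⟨K.mul_mem (hKn.conj_mem x hx _) (K.inv_mem hx), ?_⟩
      show ψ _ = 1
      rw [map_mul, key z hz x hx, ← map_mul]
      simp
    rw [hL, mem_bot, mul_inv_eq_one, mul_inv_eq_iff_eq_mul] at h1
    exact h1
  · have h1 : QuotientGroup.mk' U e ∈ K ⊓ ψ.ker := by rw [hL]; exact heK
    have h2 : φ e = 1 := h1.2
    apply hte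
    rw [← hmem]
    have h3 := congrArg (fun f : MulAut V => ((f ⟨QuotientGroup.mk' M t0, mem_map_of_mem _ ht0⟩ : V) : G ⧸ M)) h2
    simp only [hφ] at h3
    have h4 : QuotientGroup.mk' M e * QuotientGroup.mk' M t0 * (QuotientGroup.mk' M e)⁻¹ = QuotientGroup.mk' M t0 := h3
    simp only [map_mul, map_inv]
    calc _ = QuotientGroup.mk' M t0 * (QuotientGroup.mk' M e * QuotientGroup.mk' M t0 * (QuotientGroup.mk' M e)⁻¹)⁻¹ := by group
      _ = 1 := by rw [h4]; simp

end Q271.TN_M11
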