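import Mathlib
import Pool.Agent.Q2.TN.Stm

set_option linter.style.haveILetI false

namespace Q271.TN_M6
open Q2.TN Subgroup

theorem dvd_of_ne_one {p : ℕ} (hp : p.Prime) {n k : ℕ} (h : n = p ^ k) (h1 : n ≠ 1) : p ∣ n := by
  rcases k with _ | k
  · exact absurd (by simpa using h) h1
  · rw [h]; exact dvd_pow_self p (Nat.succ_ne_zero k)

theorem exists_central (p : ℕ) (hp : p.Prime) (G : Type) [Group G] [Finite G] (N V : Subgroup G)
    (_hN : N.Normal) (hV : V.Normal) (k : ℕ) (hidx : N.index = p ^ k) (hVp : IsPGroup p V) (hV1 : V ≠ ⊥)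
    (hcomm : ∀ n ∈ N, ∀ v ∈ V, n * v = v * n) :
    ∃ b ∈ V, b ∈ center G ∧ orderOf b = p := by
  haveI := Fact.mk hp
  haveI := hV
  obtain ⟨P⟩ : Nonempty (Sylow p G) := inferInstance
  letI act : MulAction P V := MulAction.compHom V ((MulAut.conjNormal (H := V)).comp (P : Subgroup G).subtype)
  have hsm : ∀ (u : P) (v : V), ((u • v : V) : G) = (u : G) * v * (u : G)⁻¹ := fun u v => rfl
  haveI hnt : Nontrivial V := (Subgroup.nontrivial_iff_ne_bot V).2 hV1
  have hdvd : p ∣ Nat.card V := by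
    obtain ⟨n, hn⟩ := (IsPGroup.iff_card).1 hVp
    exact dvd_of_ne_one hp hn Finite.one_lt_card.ne'
  obtain ⟨b, hb, hb1⟩ := P.isPGroup'.exists_fixed_point_of_prime_dvd_card_of_fixed_point V hdvd
    (a := (1 : V)) (by
      intro u
      apply Subtype.ext
      rw [hsm]; simp)
  have htop : N ⊔ (P : Subgroup G) ≤ centralizer {(b : G)} := by
    rw [sup_le_iff]
    constructor
    · intro n hn
      rw [mem_centralizer_singleton_iff]
      exact hcomm n hn b b.2
    · intro x hx
      rw [mem_centralizer_singleton_iff]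
      have h1 := congrArg Subtype.val (hb ⟨x, hx⟩)
      rw [hsm] at h1
      simpa [mul_inv_eq_iff_eq_mul] using h1
  have htop' : N ⊔ (P : Subgroup G) = ⊤ := by
    rw [← Subgroup.index_eq_one]
    have h1 : (N ⊔ (P : Subgroup G)).index ∣ p ^ k := by
      rw [← hidx]; exact index_dvd_of_le le_sup_left
    have h2 : (N ⊔ (P : Subgroup G)).index ∣ (P : Subgroup G).index := index_dvd_of_le le_sup_right
    have h3 : ¬ p ∣ (P : Subgroup G).index := P.not_dvd_index
    obtain ⟨j, hj, hj'⟩ := (Nat.dvd_prime_pow hp).1 h1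
    by_contra hne
    exact h3 ((dvd_of_ne_one hp hj' hne).trans h2)
  have hbc : (b : G) ∈ center G := by
    rw [mem_center_iff]
    intro g
    have h1 : g ∈ centralizer {(b : G)} := htop (htop' ▸ mem_top g)
    rw [mem_centralizer_singleton_iff] at h1
    exact h1
  -- now an element of order `p` in `V ⊓ center`
  let W : Subgroup G := V ⊓ center G
  have hWp : IsPGroup p W := hVp.to_le inf_le_left
  have hWdvd : p ∣ Nat.card W := by
    obtain ⟨n, hn⟩ := (IsPGroup.iff_card).1 hWp
    apply dvd_of_ne_one hp hn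
    intro h
    rw [Subgroup.card_eq_one] at h
    have h1 : (b : G) ∈ W := ⟨b.2, hbc⟩
    rw [h, mem_bot] at h1
    exact hb1 (Subtype.ext h1.symm)
  obtain ⟨x, hx⟩ := exists_prime_orderOf_dvd_card' p hWdvd
  exact ⟨x, x.2.1, x.2.2, by rw [← hx, Subgroup.orderOf_coe]⟩

theorem card_map_mk {G : Type} [Group G] [Finite G] (K H : Subgroup G) [K.Normal] :
    Nat.card (H.map (QuotientGroup.mk' K)) = K.relIndex H := by
  have h1 : ((QuotientGroup.mk' K).comp H.subtype).range = H.map (QuotientGroup.mk' K) := by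
    rw [MonoidHom.range_comp, H.range_subtype]
  rw [← h1, ← Subgroup.index_ker]
  have h2 : ((QuotientGroup.mk' K).comp H.subtype).ker = K.subgroupOf H := by
    ext x
    rw [MonoidHom.mem_ker, mem_subgroupOf]
    simp
  rw [h2]
  rfl

theorem pss (p : ℕ) (hp : p.Prime) (G : Type) [Group G] [Finite G] (h : IsPNil p G) : IsPSS p G := by
  obtain ⟨N, hN, hNc, k, hk⟩ := h
  intro K H hch
  obtain ⟨hK, hH, hKH, hmax⟩ := hch
  haveI := hK
  haveI := hH
  haveI := hN
  have hLn : (K ⊔ (H ⊓ N)).Normal := inferInstance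
  rcases hmax _ hLn le_sup_left (sup_le hKH.le inf_le_left) with h | h
  · left
    have hle : H ⊓ N ≤ K := by rw [← h]; exact le_sup_right
    -- relIndex is a power of `p`
    have hpow : ∃ j, K.relIndex H = p ^ j := by
      have h1 : K.relIndex H ∣ N.index := by
        have h2 : K.relIndex H ∣ (H ⊓ N).relIndex H := relIndex_dvd_of_le_left H hle
        rw [inf_comm, inf_relIndex_right] at h2
        exact h2.trans (relIndex_dvd_index_of_normal N H)
      rw [hk] at h1
      obtain ⟨j, -, hj⟩ := (Nat.dvd_prime_pow hp).1 h1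
      exact ⟨j, hj⟩
    obtain ⟨j, hj⟩ := hpow
    have hsurj : Function.Surjective (QuotientGroup.mk' K) := QuotientGroup.mk'_surjective K
    let V : Subgroup (G ⧸ K) := H.map (QuotientGroup.mk' K)
    have hVn : V.Normal := hH.map _ hsurj
    have hVcard : Nat.card V = p ^ j := by rw [card_map_mk, hj]
    have hVp : IsPGroup p V := IsPGroup.of_card hVcard
    have hV1 : V ≠ ⊥ := by
      intro hV
      have h1 : K.relIndex H = 1 := by
        rw [← card_map_mk, Subgroup.card_eq_one]; exact hV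
      rw [relIndex_eq_one] at h1
      exact absurd h1 (not_le_of_gt hKH)
    have hNidx : ∃ i, (N.map (QuotientGroup.mk' K)).index = p ^ i := by
      have h1 : (N.map (QuotientGroup.mk' K)).index ∣ N.index := N.index_map_dvd hsurj
      rw [hk] at h1
      obtain ⟨i, -, hi⟩ := (Nat.dvd_prime_pow hp).1 h1
      exact ⟨i, hi⟩
    obtain ⟨i, hi⟩ := hNidx
    obtain ⟨b, hbV, hbc, hbo⟩ := exists_central p hp (G ⧸ K) (N.map (QuotientGroup.mk' K)) V
      (hN.map _ hsurj) hVn i hi hVp hV1 (by
        rintro _ ⟨n, hn, rfl⟩ _ ⟨v, hv, rfl⟩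
        have h1 : n * v * n⁻¹ * v⁻¹ ∈ K := by
          apply hle
          refine ⟨H.mul_mem (hH.conj_mem v hv n) (H.inv_mem hv), ?_⟩
          have h2 := hN.conj_mem n⁻¹ (N.inv_mem hn) v
          have h3 := N.mul_mem hn h2
          have h4 : n * (v * n⁻¹ * v⁻¹) = n * v * n⁻¹ * v⁻¹ := by group
          rwa [h4] at h3
        have h2 : QuotientGroup.mk' K (n * v * n⁻¹ * v⁻¹) = 1 := by
          rw [QuotientGroup.mk'_apply, QuotientGroup.eq_one_iff]; exact h1
        rw [map_mul, map_mul, map_mul, map_inv, map_inv, mul_inv_eq_one, mul_inv_eq_iff_eq_mul] at h2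
        exact h2)
    have hZn : (zpowers b).Normal := by
      refine ⟨fun x hx g => ?_⟩
      obtain ⟨t, rfl⟩ := hx
      have h1 : (b ^ t : G ⧸ K) ∈ center (G ⧸ K) := (center (G ⧸ K)).zpow_mem hbc t
      rw [mem_center_iff] at h1
      show g * b ^ t * g⁻¹ ∈ _
      rw [h1 g, mul_inv_cancel_right]
      exact zpow_mem (mem_zpowers b) t
    have hL := hmax ((zpowers b).comap (QuotientGroup.mk' K)) inferInstance (by
      intro x hx
      rw [Subgroup.mem_comap, QuotientGroup.mk'_apply, (QuotientGroup.eq_one_iff x).2 hx]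
      exact one_mem _) (by
      intro x hx
      rw [Subgroup.mem_comap] at hx
      have h1 : QuotientGroup.mk' K x ∈ V := (zpowers_le.2 hbV) hx
      obtain ⟨y, hy, hxy⟩ := h1
      have h2 : y⁻¹ * x ∈ K := by
        rw [← QuotientGroup.eq_one_iff, ← QuotientGroup.mk'_apply, map_mul, map_inv, hxy]
        simp
      have h3 := H.mul_mem hy (hKH.le h2)
      simpa using h3)
    have hbne : b ≠ 1 := by
      intro hb
      rw [hb, orderOf_one] at hbo
      exact hp.one_lt.ne hbo
    rcases hL with hL | hL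
    · exfalso
      apply hbne
      obtain ⟨y, rfl⟩ := hsurj b
      have h1 : y ∈ (zpowers (QuotientGroup.mk' K y)).comap (QuotientGroup.mk' K) := by
        rw [Subgroup.mem_comap]; exact mem_zpowers _
      rw [hL] at h1
      rw [QuotientGroup.mk'_apply, QuotientGroup.eq_one_iff]; exact h1
    · rw [← card_map_mk, ← hL, Subgroup.map_comap_eq_self_of_surjective hsurj, Nat.card_zpowers, hbo]
  · right
    have h1 : K.relIndex H = K.relIndex (H ⊓ N) := by
      conv_lhs => rw [← h, sup_comm, relIndex_sup_right]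
    have h2 : K.relIndex (H ⊓ N) ∣ Nat.card N :=
      (relIndex_dvd_card K (H ⊓ N)).trans (card_dvd_of_le inf_le_right)
    rw [h1]
    exact Nat.Coprime.coprime_dvd_left h2 hNc

theorem a2 (p : ℕ) (hp : p.Prime) (G H : Type) [Group G] [Group H] [Finite G] [Finite H]
    (f : G →* H) (hf : Function.Surjective f) (h : IsPNil p G) : IsPNil p H := by
  obtain ⟨N, hN, hNc, k, hk⟩ := h
  refine ⟨N.map f, hN.map f hf, Nat.Coprime.coprime_dvd_left (N.card_map_dvd f) hNc, ?_⟩
  have h1 : (N.map f).index ∣ N.index := N.index_map_dvd hf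
  rw [hk] at h1
  obtain ⟨i, -, hi⟩ := (Nat.dvd_prime_pow hp).1 h1
  exact ⟨i, hi⟩

theorem m6 : S_M6 := by
  intro p hp G _ _
  refine ⟨fun h => ⟨pss p hp G h, ?_⟩, ?_⟩
  · rw [eq_bot_iff]
    apply sInf_le
    refine ⟨inferInstance, ?_⟩
    exact pss p hp _ (a2 p hp G (G ⧸ (⊥ : Subgroup G)) (QuotientGroup.mk' ⊥) (QuotientGroup.mk'_surjective _) h)
  · intro U hU h
    exact sInf_le ⟨hU, pss p hp _ h⟩

end Q271.TN_M6
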