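import Mathlib
import Pool.Agent.Q2.TN.Stm

set_option linter.style.haveILetI false

namespace Q271.TN_M7
open Q2.TN Subgroup

/-- `q` acts on a chief factor of order `p` inside a normal `p`-subgroup trivially. -/
theorem act_triv (p : ℕ) (hp : p.Prime) (G : Type) [Group G] [Finite G] (P K M T : Subgroup G)
    [hMn : M.Normal] [hTn : T.Normal] (hP : IsPGroup p P) (hidx : M.relIndex T = p)
    (q : G) (hq : q ∈ ⁅K, P⁆) : ∀ t ∈ T, q * t * q⁻¹ * t⁻¹ ∈ M := by
  haveI := Fact.mk hp
  have hsurj : Function.Surjective (QuotientGroup.mk' M) := QuotientGroup.mk'_surjective M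
  let V : Subgroup (G ⧸ M) := T.map (QuotientGroup.mk' M)
  haveI hVn : V.Normal := hTn.map _ hsurj
  have hmem : ∀ g : G, QuotientGroup.mk' M g = 1 ↔ g ∈ M := by
    intro g
    simp
  let φ : G →* MulAut V := (MulAut.conjNormal (H := V)).comp (QuotientGroup.mk' M)
  have hφ : ∀ (g : G) (v : V), ((φ g v : V) : G ⧸ M) =
      QuotientGroup.mk' M g * v * (QuotientGroup.mk' M g)⁻¹ := by
    intro g v
    rfl
  have hcard : Nat.card V = p := by
    have h1 : ((QuotientGroup.mk' M).comp T.subtype).range = V := by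
      rw [MonoidHom.range_comp, T.range_subtype]
    rw [← h1, ← Subgroup.index_ker, ← hidx]
    have h2 : ((QuotientGroup.mk' M).comp T.subtype).ker = M.subgroupOf T := by
      ext x
      rw [MonoidHom.mem_ker, mem_subgroupOf]
      exact hmem _
    rw [h2]
    rfl
  letI act : MulAction P V := MulAction.compHom V (φ.comp P.subtype)
  have hsm : ∀ (u : P) (v : V), u • v = φ (u : G) v := fun u v => rfl
  obtain ⟨b, hb, hb1⟩ := hP.exists_fixed_point_of_prime_dvd_card_of_fixed_point V (by rw [hcard])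
    (a := (1 : V)) (by
      intro u
      rw [hsm, map_one])
  have hPker : ∀ x ∈ P, φ x = 1 := by
    intro x hx
    ext v : 1
    have h1 : φ x b = b := hb ⟨x, hx⟩
    obtain ⟨k, rfl⟩ := mem_zpowers_of_prime_card (g' := v) hcard (Ne.symm hb1)
    show φ x (b ^ k) = b ^ k
    rw [map_zpow, h1]
  have hqker : φ q = 1 := by
    have h1 : ⁅K, P⁆ ≤ φ.ker := by
      rw [commutator_le]
      intro k _ x hx
      rw [MonoidHom.mem_ker, map_commutatorElement, hPker x hx]
      simp
    exact h1 hq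
  intro t ht
  rw [← hmem]
  have h3 := hφ q ⟨QuotientGroup.mk' M t, mem_map_of_mem _ ht⟩
  rw [hqker] at h3
  have h4 : QuotientGroup.mk' M t = QuotientGroup.mk' M q * QuotientGroup.mk' M t * (QuotientGroup.mk' M q)⁻¹ := h3
  rw [map_mul, map_mul, map_mul, map_inv, map_inv, ← h4, mul_inv_cancel]

theorem conj_pow_aux {G : Type} [Group G] (q l c : G) (h : q * l * q⁻¹ = c * l) (hc : q * c = c * q) (j : ℕ) :
    q ^ j * l * (q ^ j)⁻¹ = c ^ j * l := by
  induction j with
  | zero => simp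
  | succ n ih =>
    have h1 : q * c ^ n * q⁻¹ = c ^ n := by
      have : Commute q (c ^ n) := (show Commute q c from hc).pow_right n
      rw [this.eq]; group
    calc q ^ (n+1) * l * (q ^ (n+1))⁻¹ = q * (q ^ n * l * (q ^ n)⁻¹) * q⁻¹ := by
          rw [pow_succ' q n]; group
      _ = q * (c ^ n * l) * q⁻¹ := by rw [ih]
      _ = (q * c ^ n * q⁻¹) * (q * l * q⁻¹) := by group
      _ = c ^ (n+1) * l := by rw [h1, h, pow_succ]; group

theorem key (p : ℕ) (hp : p.Prime) (G : Type) [Group G] [Finite G] (P U K : Subgroup G)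
    (hU : U.Normal) (hP : IsPGroup p P) (hUp : IsPGroup p U) (hS : IsPSS p G)
    (q : G) (m : ℕ) (hq : q ∈ ⁅K, P⁆) (hm : m.Coprime p) (hqm : q ^ m = 1) :
    ∀ u ∈ U, q * u = u * q := by
  haveI := Fact.mk hp
  let S : Set (Subgroup G) := {L | L.Normal ∧ L ≤ U ∧ ∀ l ∈ L, q * l = l * q}
  obtain ⟨L₀, hL₀⟩ := (Set.toFinite S).exists_maximal ⟨⊥, inferInstance, bot_le, by
    intro l hl
    rw [mem_bot] at hl
    rw [hl]; simp⟩
  obtain ⟨⟨hn0, h0U, h0c⟩, hmax⟩ := hL₀
  by_cases hLU : L₀ = U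
  · rw [← hLU]; exact h0c
  exfalso
  let S' : Set (Subgroup G) := {L | L.Normal ∧ L₀ < L ∧ L ≤ U}
  obtain ⟨L₁, hL₁⟩ := (Set.toFinite S').exists_minimal ⟨U, hU, lt_of_le_of_ne h0U hLU, le_rfl⟩
  obtain ⟨⟨hn1, h01, h1U⟩, hmin⟩ := hL₁
  have hchief : IsChief L₀ L₁ := by
    refine ⟨hn0, hn1, h01, ?_⟩
    intro L hL hle hle'
    rcases eq_or_lt_of_le hle with h | h
    · exact Or.inl h.symm
    · right
      exact le_antisymm hle' (hmin ⟨hL, h, hle'.trans h1U⟩ hle')
  have h1p : IsPGroup p L₁ := hUp.to_le h1U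
  have hidx : L₀.relIndex L₁ = p := by
    rcases hS _ _ hchief with h | h
    · exact h
    · exfalso
      obtain ⟨n, hn⟩ := h1p.index (L₀.subgroupOf L₁)
      have h2 : L₀.relIndex L₁ = p ^ n := hn
      rw [h2] at h
      rcases n with _ | n
      · rw [pow_zero, relIndex_eq_one] at h2
        exact absurd h2 (not_le_of_gt h01)
      · rw [Nat.coprime_pow_left_iff (Nat.succ_pos n)] at h
        exact hp.one_lt.ne' ((Nat.coprime_self p).1 h)
  haveI := hn0
  haveI := hn1
  have hact := act_triv p hp G P K L₀ L₁ hP hidx q hq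
  have hL₁S : L₁ ∈ S := by
    refine ⟨hn1, h1U, ?_⟩
    intro l hl
    set c := q * l * q⁻¹ * l⁻¹ with hc
    have hc0 : c ∈ L₀ := hact l hl
    have hcc : q * c = c * q := h0c c hc0
    have h1 : q * l * q⁻¹ = c * l := by rw [hc]; group
    have h2 := conj_pow_aux q l c h1 hcc m
    rw [hqm] at h2
    have h3 : c ^ m = 1 := by
      have : (1:G) * l * 1⁻¹ = l := by simp
      rw [this] at h2
      exact (right_eq_mul.1 h2)
    obtain ⟨k, hk⟩ := hUp ⟨c, h0U hc0⟩
    have hk' : c ^ p ^ k = 1 := by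
      have := congrArg Subtype.val hk
      simpa using this
    have h4 : orderOf c ∣ m := orderOf_dvd_of_pow_eq_one h3
    have h5 : orderOf c ∣ p ^ k := orderOf_dvd_of_pow_eq_one hk'
    have h6 : orderOf c = 1 := Nat.eq_one_of_dvd_coprimes (Nat.Coprime.pow_right k hm) h4 h5
    rw [orderOf_eq_one_iff] at h6
    rw [h6, one_mul, mul_inv_eq_iff_eq_mul] at h1
    exact h1
  exact absurd (hmax hL₁S h01.le) (not_le_of_gt h01)

theorem m7 : S_M7 := by
  intro p hp G _ _ P U K N _ hP hU hUp hK hS q m hq hm hqm u hu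
  have hsurj : Function.Surjective (QuotientGroup.mk' N) := QuotientGroup.mk'_surjective N
  have h := key p hp (G ⧸ N) (P.map (QuotientGroup.mk' N)) (U.map (QuotientGroup.mk' N))
    (K.map (QuotientGroup.mk' N)) (hU.map _ hsurj) (hP.1.map _) (hUp.map _) hS (QuotientGroup.mk' N q) m
    (by rw [← map_commutator]; exact mem_map_of_mem _ hq) hm (by rw [← map_pow, hqm, map_one])
    (QuotientGroup.mk' N u) (mem_map_of_mem _ hu)
  have h1 : QuotientGroup.mk' N (u * q * u⁻¹ * q⁻¹) = 1 := by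
    rw [map_mul, map_mul, map_mul, map_inv, map_inv, ← h]
    group
  rwa [QuotientGroup.mk'_apply, QuotientGroup.eq_one_iff] at h1

end Q271.TN_M7
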