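import Mathlib

/-!
# The Hausdorff–Cantelli lemma, in levels
-/

set_option autoImplicit false

namespace Q271

open MeasureTheory Filter Topology Set
open scoped ENNReal NNReal

/-- **Hausdorff–Cantelli.** If every point of `S` lies in sets `C q i` for infinitely many `q`,
where level `q` consists of finitely many sets of diameter at most `ρ q` and
`∑ q, #(ι q) * (ρ q) ^ d < ∞`, then `dimH S ≤ d`. -/
theorem dimH_le_of_cantelli {X : Type} [MetricSpace X] (S : Set X) (d : ℝ≥0)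
    (ι : ℕ → Type) [∀ q, Fintype (ι q)] (C : ∀ q, ι q → Set X) (ρ : ℕ → ℝ≥0∞)
    (hC : ∀ q i, Metric.ediam (C q i) ≤ ρ q) (hanti : Antitone ρ) (hρ : Tendsto ρ atTop (𝓝 0))
    (hS : ∀ x ∈ S, ∀ n : ℕ, ∃ q, n ≤ q ∧ ∃ i, x ∈ C q i)
    (hsum : ∑' q, (Fintype.card (ι q) : ℝ≥0∞) * ρ q ^ (d : ℝ) ≠ ∞) : dimH S ≤ d := by
  borelize X
  apply dimH_le_of_hausdorffMeasure_ne_top
  have h1 := Measure.hausdorffMeasure_le_liminf_tsum (X := X) (β := ℕ)
    (ι := fun n => (Σ q : ℕ, ι (q + n))) (d : ℝ) S (l := atTop) ρ hρ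
    (fun n p => C (p.1 + n) p.2)
    (Eventually.of_forall fun n p => (hC _ _).trans (hanti (Nat.le_add_left _ _)))
    (Eventually.of_forall fun n x hx => by
      obtain ⟨q, hq, i, hi⟩ := hS x hx n
      obtain ⟨k, rfl⟩ := Nat.exists_eq_add_of_le' hq
      exact mem_iUnion.2 ⟨⟨k, i⟩, hi⟩)
  have h2 : ∀ n : ℕ, ∑' p : (Σ q : ℕ, ι (q + n)), Metric.ediam (C (p.1 + n) p.2) ^ (d : ℝ) ≤
      ∑' q, (Fintype.card (ι (q + n)) : ℝ≥0∞) * ρ (q + n) ^ (d : ℝ) := by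
    intro n
    rw [ENNReal.tsum_sigma']
    apply ENNReal.tsum_le_tsum
    intro q
    rw [tsum_fintype]
    calc ∑ i : ι (q + n), Metric.ediam (C (q + n) i) ^ (d : ℝ) ≤
        ∑ _i : ι (q + n), ρ (q + n) ^ (d : ℝ) :=
          Finset.sum_le_sum fun i _ => ENNReal.rpow_le_rpow (hC _ _) d.2
      _ = _ := by rw [Finset.sum_const, Finset.card_univ, nsmul_eq_mul]
  have h3 : Tendsto (fun n : ℕ => ∑' q, (Fintype.card (ι (q + n)) : ℝ≥0∞) *
      ρ (q + n) ^ (d : ℝ)) atTop (𝓝 0) :=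
    ENNReal.tendsto_sum_nat_add (fun q => (Fintype.card (ι q) : ℝ≥0∞) * ρ q ^ (d : ℝ)) hsum
  have h4 : μH[(d : ℝ)] S ≤ 0 := by
    refine h1.trans ?_
    rw [← h3.liminf_eq]
    exact liminf_le_liminf (Eventually.of_forall h2)
  rw [le_antisymm h4 bot_le]
  exact ENNReal.zero_ne_top

end Q271
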