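import Mathlib

/-!
# Lower bounds for Hausdorff dimension by linearly ordered Cantor constructions

`Data s U W` : in every closed ball `B(x, r) ⊆ U` and for every `k` there are points
`y 0, y 1, ..., y ⌊r / (16 σ)⌋` with `dist (y i) (y j) ≥ 4 |i - j| σ` such that the closed balls
of radius `τ` around them lie in `B(x, r) ∩ W k`, where `16 σ r ^ s ≤ r τ ^ s`.
Then the intersection of `U` and all `W k` has Hausdorff dimension at least `s`.
-/

set_option autoImplicit false

namespace Q271.Cantor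

open Metric Set

variable {X : Type} [MetricSpace X]

/-- The refinement property. -/
def Data (s : ℝ) (U : Set X) (W : ℕ → Set X) : Prop :=
  ∀ (k : ℕ) (x : X) (r : ℝ), 0 < r → closedBall x r ⊆ U →
    ∃ (σ τ : ℝ) (y : ℕ → X), 0 < τ ∧ τ ≤ σ ∧ τ ≤ r / 32 ∧ 16 * σ * r ^ s ≤ r * τ ^ s ∧
      (∀ i : ℕ, 16 * i * σ ≤ r → closedBall (y i) τ ⊆ W k ∩ closedBall x r) ∧
      (∀ i j : ℕ, 16 * i * σ ≤ r → 16 * j * σ ≤ r → 4 * |(i : ℝ) - j| * σ ≤ dist (y i) (y j))

/-- a node of the tree: a ball and an interval `[a, a + l)` -/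
structure Node (X : Type) where
  x : X
  r : ℝ
  a : ℝ
  l : ℝ

section
variable {s : ℝ} {U : Set X} {W : ℕ → Set X}

open Classical in
/-- the chosen data: `(σ, τ, y)` -/
noncomputable def pick (h : Data s U W) (k : ℕ) (x : X) (r : ℝ) : ℝ × ℝ × (ℕ → X) :=
  if hx : 0 < r ∧ closedBall x r ⊆ U then
    ⟨(h k x r hx.1 hx.2).choose, (h k x r hx.1 hx.2).choose_spec.choose,
      (h k x r hx.1 hx.2).choose_spec.choose_spec.choose⟩
  else (1, 1, fun _ => x)

lemma pick_spec (h : Data s U W) (k : ℕ) (x : X) (r : ℝ) (hr : 0 < r)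
    (hx : closedBall x r ⊆ U) :
    0 < (pick h k x r).2.1 ∧ (pick h k x r).2.1 ≤ (pick h k x r).1 ∧
    (pick h k x r).2.1 ≤ r / 32 ∧
    16 * (pick h k x r).1 * r ^ s ≤ r * (pick h k x r).2.1 ^ s ∧
      (∀ i : ℕ, 16 * i * (pick h k x r).1 ≤ r →
        closedBall ((pick h k x r).2.2 i) (pick h k x r).2.1 ⊆ W k ∩ closedBall x r) ∧
      (∀ i j : ℕ, 16 * i * (pick h k x r).1 ≤ r → 16 * j * (pick h k x r).1 ≤ r →
        4 * |(i : ℝ) - j| * (pick h k x r).1 ≤
          dist ((pick h k x r).2.2 i) ((pick h k x r).2.2 j)) := by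
  rw [pick, dif_pos ⟨hr, hx⟩]
  exact (h k x r hr hx).choose_spec.choose_spec.choose_spec

/-- the number of children -/
noncomputable def num (h : Data s U W) (k : ℕ) (N : Node X) : ℕ :=
  ⌊N.r / (16 * (pick h k N.x N.r).1)⌋₊ + 1

/-- the index of the child that belongs to `z` -/
noncomputable def idx (h : Data s U W) (k : ℕ) (N : Node X) (z : ℝ) : ℕ :=
  ⌊(z - N.a) * num h k N / N.l⌋₊

/-- the child with index `i` -/
noncomputable def child (h : Data s U W) (k : ℕ) (N : Node X) (i : ℕ) : Node X :=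
  ⟨(pick h k N.x N.r).2.2 i, (pick h k N.x N.r).2.1, N.a + i * (N.l / num h k N),
    N.l / num h k N⟩

/-- the nodes that belong to `z` -/
noncomputable def node (h : Data s U W) (x0 : X) (r0 : ℝ) (z : ℝ) : ℕ → Node X
  | 0 => ⟨x0, r0, 0, 1⟩
  | k + 1 => child h k (node h x0 r0 z k) (idx h k (node h x0 r0 z k) z)

/-- the invariant -/
structure Inv (s C : ℝ) (U : Set X) (N : Node X) (z : ℝ) : Prop where
  r_pos : 0 < N.r
  sub : closedBall N.x N.r ⊆ U
  l_pos : 0 < N.l
  l_le : N.l ≤ C * N.r ^ s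
  a_le : N.a ≤ z
  z_lt : z < N.a + N.l

lemma num_ge (h : Data s U W) (k : ℕ) (N : Node X) {C z : ℝ} (hI : Inv s C U N z) :
    N.r / (16 * (pick h k N.x N.r).1) ≤ num h k N := by
  rw [num]
  push_cast
  exact (Nat.lt_floor_add_one _).le

lemma num_pos (h : Data s U W) (k : ℕ) (N : Node X) : 0 < num h k N := Nat.succ_pos _

lemma two_le_num (hs : 0 < s) (h : Data s U W) (k : ℕ) (N : Node X) {C z : ℝ}
    (hI : Inv s C U N z) : 2 ≤ num h k N := by
  obtain ⟨h1, h2, h3, h4, -, -⟩ := pick_spec h k N.x N.r hI.r_pos hI.sub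
  rw [num]
  have hr := hI.r_pos
  have hσ : 0 < (pick h k N.x N.r).1 := lt_of_lt_of_le h1 h2
  have h5 : (pick h k N.x N.r).2.1 ^ s ≤ N.r ^ s :=
    Real.rpow_le_rpow h1.le (by linarith) hs.le
  have h6 : 0 < N.r ^ s := Real.rpow_pos_of_pos hr s
  have h7 : 16 * (pick h k N.x N.r).1 * N.r ^ s ≤ N.r * N.r ^ s :=
    h4.trans (mul_le_mul_of_nonneg_left h5 hr.le)
  have h8 : 16 * (pick h k N.x N.r).1 ≤ N.r := le_of_mul_le_mul_right h7 h6
  have h9 : 1 ≤ ⌊N.r / (16 * (pick h k N.x N.r).1)⌋₊ := by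
    apply Nat.le_floor
    rw [Nat.cast_one, le_div_iff₀ (by positivity)]
    linarith
  omega

lemma idx_lt (h : Data s U W) (k : ℕ) (N : Node X) {C z : ℝ} (hI : Inv s C U N z) :
    idx h k N z < num h k N := by
  rw [idx, Nat.floor_lt' (num_pos h k N).ne']
  have h0 : (0:ℝ) < num h k N := by exact_mod_cast num_pos h k N
  rw [div_lt_iff₀ hI.l_pos]
  have h1 := hI.z_lt
  nlinarith

lemma idx_valid (h : Data s U W) (k : ℕ) (N : Node X) {C z : ℝ} (hI : Inv s C U N z) (i : ℕ)
    (hi : i < num h k N) : 16 * i * (pick h k N.x N.r).1 ≤ N.r := by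
  obtain ⟨h1, h2, -, -, -, -⟩ := pick_spec h k N.x N.r hI.r_pos hI.sub
  have hσ : 0 < (pick h k N.x N.r).1 := lt_of_lt_of_le h1 h2
  rw [num, Nat.lt_succ_iff] at hi
  have h3 : (i:ℝ) ≤ N.r / (16 * (pick h k N.x N.r).1) :=
    le_trans (by exact_mod_cast hi) (Nat.floor_le (div_nonneg hI.r_pos.le (by positivity)))
  rw [le_div_iff₀ (by positivity)] at h3
  linarith

lemma child_inv (h : Data s U W) (k : ℕ) (N : Node X) {C z : ℝ}
    (hI : Inv s C U N z) : Inv s C U (child h k N (idx h k N z)) z ∧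
      closedBall (child h k N (idx h k N z)).x (child h k N (idx h k N z)).r ⊆
        W k ∩ closedBall N.x N.r := by
  obtain ⟨h1, h2, h3, h4, h5, h6⟩ := pick_spec h k N.x N.r hI.r_pos hI.sub
  have hσ : 0 < (pick h k N.x N.r).1 := lt_of_lt_of_le h1 h2
  have hr := hI.r_pos
  have hm : (0:ℝ) < num h k N := by exact_mod_cast num_pos h k N
  have hv := idx_valid h k N hI _ (idx_lt h k N hI)
  have hsub := h5 _ hv
  refine ⟨⟨h1, ?_, ?_, ?_, ?_, ?_⟩, hsub⟩
  · exact fun w hw => hI.sub (hsub hw).2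
  · exact div_pos hI.l_pos hm
  · show N.l / num h k N ≤ C * (pick h k N.x N.r).2.1 ^ s
    rw [div_le_iff₀ hm]
    have h7 := num_ge h k N hI
    rw [div_le_iff₀ (by positivity)] at h7
    have h8 : 0 < N.r ^ s := Real.rpow_pos_of_pos hr s
    have hC : 0 ≤ C := by
      by_contra hneg
      push Not at hneg
      have := hI.l_le
      have := hI.l_pos
      nlinarith
    -- N.l ≤ C r^s, r ≤ num * 16 σ, 16 σ r^s ≤ r τ^s
    refine hI.l_le.trans ?_
    rw [mul_assoc]
    apply mul_le_mul_of_nonneg_left _ hC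
    have h9 : N.r * N.r ^ s ≤ N.r * ((pick h k N.x N.r).2.1 ^ s * num h k N) := by
      calc N.r * N.r ^ s ≤ (num h k N * (16 * (pick h k N.x N.r).1)) * N.r ^ s := by gcongr
        _ = num h k N * (16 * (pick h k N.x N.r).1 * N.r ^ s) := by ring
        _ ≤ num h k N * (N.r * (pick h k N.x N.r).2.1 ^ s) := by gcongr
        _ = _ := by ring
    exact le_of_mul_le_mul_left h9 hr
  · show N.a + (idx h k N z : ℝ) * (N.l / num h k N) ≤ z
    have h7 : (idx h k N z : ℝ) ≤ (z - N.a) * num h k N / N.l :=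
      Nat.floor_le (div_nonneg (mul_nonneg (by linarith [hI.a_le]) hm.le) hI.l_pos.le)
    rw [le_div_iff₀ hI.l_pos] at h7
    have h8 : (idx h k N z : ℝ) * (N.l / num h k N) ≤ z - N.a := by
      rw [← mul_div_assoc, div_le_iff₀ hm]
      exact h7
    linarith
  · show z < N.a + (idx h k N z : ℝ) * (N.l / num h k N) + N.l / num h k N
    have h7 : (z - N.a) * num h k N / N.l < (idx h k N z : ℝ) + 1 := Nat.lt_floor_add_one _
    rw [div_lt_iff₀ hI.l_pos] at h7
    have h8 : z - N.a < ((idx h k N z : ℝ) + 1) * (N.l / num h k N) := by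
      rw [← mul_div_assoc, lt_div_iff₀ hm]
      exact h7
    linarith

lemma node_inv (hs : 0 < s) (h : Data s U W) (x0 : X) (r0 : ℝ) (hr0 : 0 < r0)
    (hx0 : closedBall x0 r0 ⊆ U) (z : ℝ) (hz : z ∈ Ico (0:ℝ) 1) (k : ℕ) :
    Inv s ((r0 ^ s)⁻¹) U (node h x0 r0 z k) z := by
  induction k with
  | zero =>
    have h1 : 0 < r0 ^ s := Real.rpow_pos_of_pos hr0 s
    refine ⟨hr0, hx0, one_pos, ?_, hz.1, ?_⟩
    · show (1:ℝ) ≤ (r0 ^ s)⁻¹ * r0 ^ s
      rw [inv_mul_cancel₀ h1.ne']
    · show z < 0 + 1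
      linarith [hz.2]
  | succ k ih => exact (child_inv h k _ ih).1

lemma node_l (hs : 0 < s) (h : Data s U W) (x0 : X) (r0 : ℝ) (hr0 : 0 < r0)
    (hx0 : closedBall x0 r0 ⊆ U) (z : ℝ) (hz : z ∈ Ico (0:ℝ) 1) (k : ℕ) :
    (node h x0 r0 z k).l ≤ (1 / 2) ^ k := by
  induction k with
  | zero => simp [node]
  | succ k ih =>
    have hI := node_inv hs h x0 r0 hr0 hx0 z hz k
    show (node h x0 r0 z k).l / num h k (node h x0 r0 z k) ≤ _
    have h2 : (2:ℝ) ≤ num h k (node h x0 r0 z k) := by exact_mod_cast two_le_num hs h k _ hI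
    rw [pow_succ, div_le_iff₀ (by linarith)]
    have h3 : (0:ℝ) ≤ (1 / 2) ^ k := by positivity
    nlinarith

end

/-- **The dimension bound.** -/
theorem le_dimH [ProperSpace X] {s : ℝ} (hs : 0 < s) (hs1 : s ≤ 1) {U : Set X} {W : ℕ → Set X}
    (hU : IsOpen U) (hne : U.Nonempty) (h : Data s U W) :
    ENNReal.ofReal s ≤ dimH (U ∩ ⋂ k, W k) := by
  obtain ⟨x0, hx0⟩ := hne
  obtain ⟨r0, hr0, hsub⟩ := Metric.nhds_basis_closedBall.mem_iff.1 (hU.mem_nhds hx0)
  set nd := node h x0 r0 with hnd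
  set C := (r0 ^ s)⁻¹ with hC
  have hCpos : 0 < C := inv_pos.2 (Real.rpow_pos_of_pos hr0 s)
  have hI : ∀ z ∈ Ico (0:ℝ) 1, ∀ k, Inv s C U (nd z k) z := fun z hz k =>
    node_inv hs h x0 r0 hr0 hsub z hz k
  have hstep : ∀ z ∈ Ico (0:ℝ) 1, ∀ k, closedBall (nd z (k + 1)).x (nd z (k + 1)).r ⊆
      W k ∩ closedBall (nd z k).x (nd z k).r := fun z hz k => (child_inv h k _ (hI z hz k)).2
  -- the limit point
  have hlim : ∀ z ∈ Ico (0:ℝ) 1, ∃ g : X, ∀ k, g ∈ closedBall (nd z k).x (nd z k).r := by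
    intro z hz
    have := IsCompact.nonempty_iInter_of_sequence_nonempty_isCompact_isClosed
      (fun k => closedBall (nd z k).x (nd z k).r) (fun k => (hstep z hz k).trans inter_subset_right)
      (fun k => ⟨_, mem_closedBall_self (hI z hz k).r_pos.le⟩) (isCompact_closedBall _ _)
      (fun k => isClosed_closedBall)
    obtain ⟨g, hg⟩ := this
    exact ⟨g, fun k => mem_iInter.1 hg k⟩
  have : Nonempty X := ⟨x0⟩
  choose! g hg using hlim
  have hmem : ∀ z ∈ Ico (0:ℝ) 1, g z ∈ U ∩ ⋂ k, W k := by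
    intro z hz
    refine ⟨(hI z hz 0).sub (hg z hz 0), mem_iInter.2 fun k => (hstep z hz k (hg z hz (k + 1))).1⟩
  -- the key estimate
  have key : ∀ z ∈ Ico (0:ℝ) 1, ∀ z' ∈ Ico (0:ℝ) 1, z < z' →
      z' - z ≤ 32 * C * dist (g z) (g z') ^ s := by
    intro z hz z' hz' hzz
    have hex : ∃ k, nd z k ≠ nd z' k := by
      by_contra hcon
      push Not at hcon
      obtain ⟨k, hk⟩ := exists_pow_lt_of_lt_one (sub_pos.2 hzz) (show (1 / 2 : ℝ) < 1 by norm_num)
      have h1 := (hI z hz k).a_le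
      have h2 := (hI z' hz' k).z_lt
      rw [← hcon k] at h2
      have h3 := node_l hs h x0 r0 hr0 hsub z hz k
      rw [← hnd] at h3
      linarith
    classical
    obtain ⟨K, hK, hKmin⟩ : ∃ K, nd z (K + 1) ≠ nd z' (K + 1) ∧ nd z K = nd z' K := by
      refine ⟨Nat.find hex - 1, ?_, ?_⟩
      · have h0 : Nat.find hex ≠ 0 := by
          intro h0
          exact (Nat.find_spec hex) (by rw [h0]; rfl)
        rw [Nat.sub_add_cancel (Nat.one_le_iff_ne_zero.2 h0)]
        exact Nat.find_spec hex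
      · have h0 : Nat.find hex ≠ 0 := by
          intro h0
          exact (Nat.find_spec hex) (by rw [h0]; rfl)
        by_contra hne
        exact Nat.find_min hex (by omega) hne
    set N := nd z K with hN
    have hIz := hI z hz K
    have hIz' := hI z' hz' K
    rw [← hN] at hIz
    rw [← hKmin] at hIz'
    obtain ⟨h1, h2, h3, h4, h5, h6⟩ := pick_spec h K N.x N.r hIz.r_pos hIz.sub
    set σ := (pick h K N.x N.r).1
    set τ := (pick h K N.x N.r).2.1
    set y := (pick h K N.x N.r).2.2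
    have hσ : 0 < σ := lt_of_lt_of_le h1 h2
    have hr := hIz.r_pos
    set i := idx h K N z with hi
    set j := idx h K N z' with hj
    have e1 : nd z (K + 1) = child h K N i := rfl
    have e2 : nd z' (K + 1) = child h K N j := by
      show child h K (nd z' K) (idx h K (nd z' K) z') = _
      rw [← hKmin]
    have hij : i ≠ j := by
      intro e
      apply hK
      rw [e1, e2, e]
    have hm : (0:ℝ) < num h K N := by exact_mod_cast num_pos h K N
    have hle : i ≤ j := by
      apply Nat.floor_le_floor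
      apply div_le_div_of_nonneg_right _ hIz.l_pos.le
      apply mul_le_mul_of_nonneg_right _ hm.le
      linarith
    have hlt : (i:ℝ) + 1 ≤ j := by exact_mod_cast lt_of_le_of_ne hle hij
    have hi' := (child_inv h K N hIz).1
    have hj' := (child_inv h K N hIz').1
    have hz1 : N.a + i * (N.l / num h K N) ≤ z := hi'.a_le
    have hz2 : z' < N.a + j * (N.l / num h K N) + N.l / num h K N := hj'.z_lt
    have hgz : g z ∈ closedBall (y i) τ := by
      have := hg z hz (K + 1)
      rw [e1] at this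
      exact this
    have hgz' : g z' ∈ closedBall (y j) τ := by
      have := hg z' hz' (K + 1)
      rw [e2] at this
      exact this
    have hsep := h6 i j (idx_valid h K N hIz i (idx_lt h K N hIz))
      (idx_valid h K N hIz j (idx_lt h K N hIz'))
    have habs : |(i:ℝ) - j| = j - i := by rw [abs_sub_comm, abs_of_pos (by linarith)]
    rw [habs] at hsep
    set D := dist (g z) (g z') with hD
    have hD1 : 2 * ((j:ℝ) - i) * σ ≤ D := by
      have t1 : dist (y i) (y j) ≤ dist (y i) (g z) + dist (g z) (g z') + dist (g z') (y j) :=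
        dist_triangle4 _ _ _ _
      have t2 : dist (g z) (y i) ≤ τ := hgz
      have t3 : dist (g z') (y j) ≤ τ := hgz'
      rw [dist_comm (y i) (g z)] at t1
      nlinarith
    have hDpos : 0 < D := lt_of_lt_of_le (by nlinarith) hD1
    have hD2 : D ≤ 2 * N.r := by
      have t1 : dist (g z) N.x ≤ N.r := hg z hz K
      have t2 : dist (g z') N.x ≤ N.r := by
        have := hg z' hz' K
        rw [← hKmin] at this
        exact this
      calc D ≤ dist (g z) N.x + dist N.x (g z') := dist_triangle _ _ _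
        _ ≤ N.r + N.r := by rw [dist_comm N.x]; exact add_le_add t1 t2
        _ = 2 * N.r := by ring
    -- l / num ≤ 16 σ l / r
    have hnum := num_ge h K N hIz
    rw [div_le_iff₀ (by positivity)] at hnum
    have hq : N.l / num h K N ≤ 16 * σ * N.l / N.r := by
      rw [div_le_div_iff₀ hm hr]
      have := hIz.l_pos
      nlinarith
    have hstep1 : z' - z ≤ 16 * D * N.l / N.r := by
      have hq0 : 0 < N.l / num h K N := div_pos hIz.l_pos hm
      calc z' - z ≤ ((j:ℝ) - i + 1) * (N.l / num h K N) := by nlinarith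
        _ ≤ (2 * ((j:ℝ) - i)) * (N.l / num h K N) := by
            apply mul_le_mul_of_nonneg_right _ hq0.le
            linarith
        _ ≤ (2 * ((j:ℝ) - i)) * (16 * σ * N.l / N.r) := by
            apply mul_le_mul_of_nonneg_left hq
            linarith
        _ = 16 * (2 * ((j:ℝ) - i) * σ) * N.l / N.r := by ring
        _ ≤ 16 * D * N.l / N.r := by
            apply div_le_div_of_nonneg_right _ hr.le
            apply mul_le_mul_of_nonneg_right _ hIz.l_pos.le
            linarith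
    have hDs : D ≤ D ^ s * (2 * N.r) ^ (1 - s) := by
      calc D = D ^ s * D ^ (1 - s) := by
            rw [← Real.rpow_add hDpos]; simp
        _ ≤ D ^ s * (2 * N.r) ^ (1 - s) := by
            apply mul_le_mul_of_nonneg_left _ (Real.rpow_nonneg hDpos.le s)
            exact Real.rpow_le_rpow hDpos.le hD2 (by linarith)
    have h2s : (2:ℝ) ^ (1 - s) ≤ 2 := by
      calc (2:ℝ) ^ (1 - s) ≤ (2:ℝ) ^ (1:ℝ) := by
            apply Real.rpow_le_rpow_of_exponent_le (by norm_num); linarith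
        _ = 2 := Real.rpow_one 2
    have hrr : N.r ^ (1 - s) * N.r ^ s = N.r := by
      rw [← Real.rpow_add hr]; simp
    have hDs0 : 0 ≤ D ^ s := Real.rpow_nonneg hDpos.le s
    have hr1 : 0 ≤ N.r ^ (1 - s) := Real.rpow_nonneg hr.le _
    calc z' - z ≤ 16 * D * N.l / N.r := hstep1
      _ ≤ 16 * (D ^ s * (2 * N.r) ^ (1 - s)) * (C * N.r ^ s) / N.r := by
          apply div_le_div_of_nonneg_right _ hr.le
          have := hIz.l_le
          have := hIz.l_pos
          gcongr
      _ = 16 * C * D ^ s * 2 ^ (1 - s) * (N.r ^ (1 - s) * N.r ^ s) / N.r := by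
          rw [Real.mul_rpow (by norm_num) hr.le]; ring
      _ = 16 * C * D ^ s * 2 ^ (1 - s) := by
          rw [hrr]; field_simp
      _ ≤ 16 * C * D ^ s * 2 := by gcongr
      _ = 32 * C * D ^ s := by ring
  -- conclusion
  have key' : ∀ z ∈ Ico (0:ℝ) 1, ∀ z' ∈ Ico (0:ℝ) 1,
      |z' - z| ≤ 32 * C * dist (g z) (g z') ^ s := by
    intro z hz z' hz'
    rcases lt_trichotomy z z' with hlt | heq | hgt
    · rw [abs_of_pos (by linarith)]
      exact key z hz z' hz' hlt
    · rw [heq, sub_self, abs_zero, dist_self]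
      have := Real.rpow_nonneg (le_refl (0:ℝ)) s
      positivity
    · rw [abs_sub_comm, abs_of_pos (by linarith), dist_comm]
      exact key z' hz' z hz hgt
  have hinj : InjOn g (Ico (0:ℝ) 1) := by
    intro z hz z' hz' e
    have h1 := key' z hz z' hz'
    rw [e, dist_self, Real.zero_rpow hs.ne', mul_zero] at h1
    have h2 : z' - z = 0 := abs_eq_zero.1 (le_antisymm h1 (abs_nonneg _))
    linarith
  set φ := Function.invFunOn g (Ico (0:ℝ) 1) with hφ
  have hφg : ∀ z ∈ Ico (0:ℝ) 1, φ (g z) = z := fun z hz => hinj.leftInvOn_invFunOn hz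
  set T := g '' Ico (0:ℝ) 1 with hT
  have hHolder : HolderOnWith (Real.toNNReal (32 * C)) (Real.toNNReal s) φ T := by
    rintro _ ⟨z, hz, rfl⟩ _ ⟨z', hz', rfl⟩
    rw [hφg z hz, hφg z' hz', edist_dist, edist_dist, Real.dist_eq]
    have h1 := key' z' hz' z hz
    rw [dist_comm] at h1
    have h2 : ((Real.toNNReal s : NNReal) : ℝ) = s := Real.coe_toNNReal s hs.le
    rw [h2, ENNReal.ofReal_rpow_of_nonneg dist_nonneg hs.le]
    have h3 : ((Real.toNNReal (32 * C) : NNReal) : ENNReal) = ENNReal.ofReal (32 * C) := rfl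
    rw [h3, ← ENNReal.ofReal_mul (by positivity)]
    exact ENNReal.ofReal_le_ofReal h1
  have h1 := hHolder.dimH_image_le (by simpa using hs)
  have h2 : φ '' T = Ico (0:ℝ) 1 := by
    rw [hT, image_image]
    ext w
    constructor
    · rintro ⟨z, hz, rfl⟩
      show φ (g z) ∈ _
      rw [hφg z hz]; exact hz
    · intro hw
      exact ⟨w, hw, hφg w hw⟩
  have h3 : dimH (Ico (0:ℝ) 1) = 1 := by
    rw [Real.dimH_of_nonempty_interior]
    · simp
    · rw [interior_Ico]
      exact ⟨1 / 2, by norm_num, by norm_num⟩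
  rw [h2, h3] at h1
  have h4 : dimH T ≤ dimH (U ∩ ⋂ k, W k) := by
    apply dimH_mono
    rintro _ ⟨z, hz, rfl⟩
    exact hmem z hz
  refine le_trans ?_ h4
  have h5 : ENNReal.ofReal s = ((Real.toNNReal s : NNReal) : ENNReal) := rfl
  rw [h5]
  have h6 : ((Real.toNNReal s : NNReal) : ENNReal) ≠ 0 := by
    simpa using hs
  rwa [ENNReal.le_div_iff_mul_le (Or.inl h6) (Or.inl ENNReal.coe_ne_top), one_mul] at h1

end Q271.Cantor
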