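import Pool.Agent.Q271.CosetLevel

set_option autoImplicit false
set_option maxHeartbeats 1000000

/-! # The column vector and its special line -/

namespace Q271.Coset

open Filter

theorem core (ξ : ℝ) (hξ : Irrational ξ) (hξ2 : |ξ| ≤ 2) (ε z : ℕ → ℝ) (hε0 : ∀ k, 0 < ε k)
    (hε1 : ∀ k, ε k ≤ 1) (hz0 : ∀ k, 0 ≤ z k) (hz1 : ∀ k, z k ≤ 1 / 2) :
    ∃ α β : ℝ,
      (∀ y : ℝ, 1 / 2 < y → y < 1 → ∃ c : ℝ, 0 < c ∧ ∃ R : ℝ, ∀ Q P B : ℤ, R ≤ |(Q : ℝ)| →
        c < √|(Q : ℝ)| * max |Q * α - ξ - P| |Q * β - y - B|) ∧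
      (∀ y c : ℝ, 0 < c → (∃ᶠ k in atTop, ε k ≤ c ∧ |y - z k| ≤ c * ε k) → ∀ R : ℝ,
        ∃ Q P B : ℤ, R ≤ |(Q : ℝ)| ∧
          √|(Q : ℝ)| * max |Q * α - ξ - P| |Q * β - y - B| ≤ 8 * c) ∧
      ((∃ᶠ k in atTop, ε k = 1) → ∀ T₀ : ℝ, ∃ T : ℝ, T₀ ≤ T ∧ 0 < T ∧ ∀ r : ℤ, r ≠ 0 →
        |(r : ℝ)| ≤ T → ∀ P B : ℤ, 1 / 8 < √T * max |r * α - P| |r * β - B|) := by
  obtain ⟨q, p, b, n, hD⟩ := exists_data ξ hξ ε z hε0
  set u : ℕ → ℤ := fun k => q k * b (k + 1) - q (k + 1) * b k with hu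
  have hq2 : ∀ k, 2 ≤ q k := by
    intro k
    induction k with
    | zero => exact hD.two_le
    | succ k ih =>
      have h1 := hD.grow k
      have h2 : (2 : ℤ) ^ 4 ≤ q k ^ 4 := pow_le_pow_left₀ (by norm_num) ih 4
      linarith
  have hq2' : ∀ k, (2 : ℝ) ≤ q k := fun k => by exact_mod_cast hq2 k
  have hgrow' : ∀ k, (q k : ℝ) ^ 4 ≤ q (k + 1) := fun k => by exact_mod_cast hD.grow k
  have hsq : ∀ k, (q k : ℝ) ^ 2 ≤ √(q (k + 1) : ℝ) := by
    intro k
    apply Real.le_sqrt_of_sq_le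
    calc ((q k : ℝ) ^ 2) ^ 2 = (q k : ℝ) ^ 4 := by ring
      _ ≤ (q (k + 1) : ℝ) := hgrow' k
  have hkq : ∀ k : ℕ, (k : ℝ) ≤ q k := by
    intro k
    induction k with
    | zero =>
      have := hq2' 0
      push_cast
      linarith
    | succ k ih =>
      have h1 := hgrow' k
      have h2 := hq2' k
      have h3 : (2 : ℝ) ^ 3 ≤ (q k : ℝ) ^ 3 := pow_le_pow_left₀ (by norm_num) h2 3
      have h4 : 8 * (q k : ℝ) ≤ (q k : ℝ) ^ 4 := by
        calc 8 * (q k : ℝ) ≤ (q k : ℝ) ^ 3 * q k := by nlinarith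
          _ = (q k : ℝ) ^ 4 := by ring
      push_cast
      linarith
  have hkg : ∀ k : ℕ, (k : ℝ) ≤ √(q (k + 1) : ℝ) := by
    intro k
    have h1 := hkq k
    have h2 := hsq k
    have h3 := hq2' k
    nlinarith
  have hmono : Monotone q := monotone_nat_of_le_succ fun k => by
    have h1 := hD.grow k
    have h2 := hq2 k
    have h3 : q k ≤ q k ^ 4 := le_self_pow₀ (by omega) (by norm_num)
    linarith
  have hu0 : ∀ k, 0 ≤ u k := by
    intro k
    have h1 := hD.lower k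
    have h2 := hε0 k
    have h3 : (0 : ℝ) ≤ ((u k : ℤ) : ℝ) := le_trans (by positivity) h1
    exact_mod_cast h3
  have hu1 : ∀ k, (u k : ℝ) ≤ √(q (k + 1) : ℝ) := by
    intro k
    have h1 := hD.upper k
    have h2 := hε1 k
    have h3 := Real.sqrt_nonneg (q (k + 1) : ℝ)
    have h4 : ε k * √(q (k + 1) : ℝ) ≤ 1 * √(q (k + 1) : ℝ) := by gcongr
    simp only [hu]
    linarith
  obtain ⟨α, hα⟩ := exists_limit q p (fun _ => 1) hD.two_le hD.grow hD.det (fun _ => by norm_num)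
    (fun k => by
      rw [Int.cast_one, Real.one_le_sqrt]
      have := hq2' (k + 1)
      linarith)
  obtain ⟨β, hβ⟩ := exists_limit q b u hD.two_le hD.grow (fun k => by
      simp only [hu]
      ring) hu0 hu1
  have hL : ∀ k, Level α β (q k) (q (k + 1)) (q (k + 2)) (p k) (p (k + 1)) (b k) (b (k + 1))
      (u k) (√(q (k + 1) : ℝ)) := by
    intro k
    have e1 := hq2' (k + 1)
    have e2 := hq2' (k + 2)
    have e3 := hgrow' (k + 1)
    have hq1 : (0 : ℝ) < q (k + 1) := by linarith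
    have hq2p : (0 : ℝ) < q (k + 2) := by linarith
    have a := hα k
    have a1 := hα (k + 1)
    have c := hβ k
    have c1 := hβ (k + 1)
    rw [show k + 1 + 1 = k + 2 from rfl] at a1 c1 e3
    rw [Int.cast_one] at a a1
    refine ⟨hq2 k, hD.grow k, hD.grow (k + 1), hD.det k, Real.sqrt_nonneg _,
      Real.sq_sqrt hq1.le, hu0 k, hu1 k, rfl, a.1, a.2, ?_, ?_, c.1, c.2, ?_, ?_⟩
    · refine le_trans ?_ a1.1
      positivity
    · refine a1.2.trans ?_
      have h1 : 2 / (q (k + 2) : ℝ) ^ 2 ≤ 1 / q (k + 2) := by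
        rw [div_le_div_iff₀ (by positivity) hq2p]
        nlinarith
      have e : 2 / (q (k + 2) : ℝ) = 1 / q (k + 2) + 1 / q (k + 2) := by ring
      linarith
    · refine le_trans ?_ c1.1
      have : (0 : ℝ) ≤ u (k + 1) := by exact_mod_cast hu0 (k + 1)
      positivity
    · refine c1.2.trans ?_
      have h1 : (u (k + 1) : ℝ) / q (k + 2) ≤ 1 / (q (k + 1) : ℝ) ^ 2 := by
        have h2 := hu1 (k + 1)
        have h3 := hsq (k + 1)
        rw [show k + 1 + 1 = k + 2 from rfl] at h2 h3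
        have h4 : √(q (k + 2) : ℝ) * √(q (k + 2) : ℝ) = q (k + 2) := Real.mul_self_sqrt hq2p.le
        have h5 : 0 < √(q (k + 2) : ℝ) := Real.sqrt_pos.2 hq2p
        rw [div_le_div_iff₀ hq2p (by positivity), one_mul]
        calc (u (k + 1) : ℝ) * (q (k + 1) : ℝ) ^ 2 ≤ √(q (k + 2) : ℝ) * √(q (k + 2) : ℝ) := by
              gcongr
          _ = q (k + 2) := h4
      have h2 : 2 / (q (k + 2) : ℝ) ^ 2 ≤ 1 / (q (k + 1) : ℝ) ^ 2 := by
        rw [div_le_div_iff₀ (by positivity) (by positivity)]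
        have h3 : (q (k + 1) : ℝ) ≤ q (k + 2) := by exact_mod_cast hmono (by omega)
        have h4 : 2 * (q (k + 1) : ℝ) ≤ q (k + 2) := by
          refine le_trans ?_ e3
          have h3 : (2 : ℝ) ^ 3 ≤ (q (k + 1) : ℝ) ^ 3 := pow_le_pow_left₀ (by norm_num) e1 3
          calc 2 * (q (k + 1) : ℝ) ≤ (q (k + 1) : ℝ) ^ 3 * q (k + 1) := by nlinarith
            _ = (q (k + 1) : ℝ) ^ 4 := by ring
        nlinarith
      have e : 2 / (q (k + 1) : ℝ) ^ 2 = 1 / (q (k + 1) : ℝ) ^ 2 + 1 / (q (k + 1) : ℝ) ^ 2 := by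
        ring
      linarith
  refine ⟨α, β, ?_, ?_, ?_⟩
  · -- badly approximable targets
    intro y hy1 hy2
    set δ : ℝ := min (y - 1 / 2) (1 - y) with hδ
    have hδ0 : 0 < δ := lt_min (by linarith) (by linarith)
    have hδ1 : δ ≤ y - 1 / 2 := min_le_left _ _
    have hδ2 : δ ≤ 1 - y := min_le_right _ _
    have hδ4 : δ ≤ 1 / 4 := by linarith
    obtain ⟨k₀, hk₀⟩ := exists_nat_ge (64 / δ)
    refine ⟨δ / 16, by positivity, (q (k₀ + 1) : ℝ) ^ 2 + 1, fun Q P B hQ => ?_⟩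
    by_contra hcon
    rw [not_lt] at hcon
    have hex : ∃ k, |(Q : ℝ)| ≤ (q (k + 1) : ℝ) ^ 2 := by
      obtain ⟨N, hN⟩ := exists_nat_ge |(Q : ℝ)|
      refine ⟨N, hN.trans ?_⟩
      have h1 := hkq (N + 1)
      have h2 := hq2' (N + 1)
      push_cast at h1
      nlinarith
    classical
    set k := Nat.find hex with hk
    have hk1 : |(Q : ℝ)| ≤ (q (k + 1) : ℝ) ^ 2 := Nat.find_spec hex
    have hkk : k₀ + 1 ≤ k := by
      by_contra h
      have h1 : (q (k + 1) : ℝ) ≤ q (k₀ + 1) := by exact_mod_cast hmono (by omega)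
      have h2 := hq2' (k + 1)
      nlinarith
    obtain ⟨j, hj⟩ := Nat.exists_eq_succ_of_ne_zero (show k ≠ 0 by omega)
    have hk2 : (q k : ℝ) ^ 2 < |(Q : ℝ)| := by
      have h1 := Nat.find_min hex (m := j) (by rw [← hk]; omega)
      rw [not_le] at h1
      rw [hj]
      exact h1
    have hS0 := Real.sqrt_nonneg |(Q : ℝ)|
    obtain ⟨m, hm⟩ := (hL k).lower ξ y (δ / 16) (√|(Q : ℝ)|) hξ2 (by positivity) (by linarith)
      (by
        rw [hj]
        exact hD.half j) Q P B hS0 (Real.sq_sqrt (abs_nonneg _)) hk2 hk1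
      ((mul_le_mul_of_nonneg_left (le_max_left _ _) hS0).trans hcon)
      ((mul_le_mul_of_nonneg_left (le_max_right _ _) hS0).trans hcon)
    have hnear := hD.near k
    have hkreal : 64 / δ ≤ (k : ℝ) := by
      refine hk₀.trans ?_
      have : k₀ ≤ k := by omega
      exact_mod_cast this
    have hkpos : 0 < (k : ℝ) := lt_of_lt_of_le (by positivity) hkreal
    have hg := hkg k
    have t1 : 14 / √(q (k + 1) : ℝ) ≤ δ / 4 := by
      rw [div_le_iff₀ (by linarith)]
      rw [div_le_iff₀ hδ0] at hkreal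
      nlinarith
    have t2 : ε k / ((k : ℝ) + 1) ≤ δ / 4 := by
      rw [div_le_iff₀ (by linarith)]
      rw [div_le_iff₀ hδ0] at hkreal
      have := hε1 k
      nlinarith
    have hfin : |y - z k - ((m + n k : ℤ) : ℝ)| < δ := by
      have e : y - z k - ((m + n k : ℤ) : ℝ) = (y - ξ * (u k : ℝ) - m) +
          (ξ * (u k : ℝ) - z k - n k) := by
        push_cast
        ring
      rw [e]
      refine lt_of_le_of_lt (abs_add_le _ _) ?_
      have h1 : |ξ * (u k : ℝ) - z k - n k| ≤ ε k / ((k : ℝ) + 1) := hnear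
      linarith
    have h0 := hz0 k
    have h1 := hz1 k
    obtain ⟨h2, h3⟩ := abs_lt.1 hfin
    rcases le_or_gt (m + n k) 0 with h | h
    · have : ((m + n k : ℤ) : ℝ) ≤ 0 := by exact_mod_cast h
      linarith
    · have : (1 : ℝ) ≤ ((m + n k : ℤ) : ℝ) := by exact_mod_cast h
      linarith
  · -- well approximable targets
    intro y c hc hfreq R
    obtain ⟨K, hK⟩ := exists_nat_ge (max (max (19 / c) (1 / c)) (max (4 * c) R))
    obtain ⟨k, hkK, hk1, hk2⟩ := frequently_atTop.1 hfreq (K + 1)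
    have hKk : max (max (19 / c) (1 / c)) (max (4 * c) R) ≤ (k : ℝ) := by
      refine hK.trans ?_
      have : K ≤ k := by omega
      exact_mod_cast this
    have h19 : 19 / c ≤ (k : ℝ) := ((le_max_left _ _).trans (le_max_left _ _)).trans hKk
    have h1c : 1 / c ≤ (k : ℝ) := ((le_max_right _ _).trans (le_max_left _ _)).trans hKk
    have h4c : 4 * c ≤ (k : ℝ) := ((le_max_left _ _).trans (le_max_right _ _)).trans hKk
    have hRk : R ≤ (k : ℝ) := ((le_max_right _ _).trans (le_max_right _ _)).trans hKk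
    have hkpos : 0 < (k : ℝ) := by linarith
    have hg := hkg k
    have hg0 : 0 < √(q (k + 1) : ℝ) := by linarith
    have hnear := hD.near k
    have hεk := hε0 k
    have hκ : |y + n k - ξ * (u k : ℝ)| ≤ 2 * c * ε k := by
      have e : y + n k - ξ * (u k : ℝ) = (y - z k) - (ξ * (u k : ℝ) - z k - n k) := by ring
      rw [e]
      refine (abs_sub _ _).trans ?_
      have h1 : |ξ * (u k : ℝ) - z k - n k| ≤ ε k / ((k : ℝ) + 1) := hnear
      have h2 : ε k / ((k : ℝ) + 1) ≤ c * ε k := by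
        rw [div_le_iff₀ (by linarith)]
        rw [div_le_iff₀ hc] at h1c
        nlinarith
      linarith
    obtain ⟨Q, P, B, hQ1, hQ2, hP, hB⟩ := (hL k).upper ξ y hξ2 (n k) (ε k) hεk (hD.upper k)
      (hD.lower k) (by
        refine hκ.trans (le_trans ?_ (hD.lower k))
        nlinarith)
    have hq1 := hq2' (k + 1)
    have hQ0 : (0 : ℝ) < Q := by linarith
    refine ⟨Q, P, B, ?_, ?_⟩
    · rw [abs_of_pos hQ0]
      have h1 := hkq (k + 1)
      push_cast at h1
      linarith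
    · rw [abs_of_pos hQ0]
      have hsqrt : √(Q : ℝ) ≤ 3 / 2 * √(q (k + 1) : ℝ) := by
        rw [show (3 / 2 : ℝ) * √(q (k + 1) : ℝ) = √((3 / 2) ^ 2 * (q (k + 1) : ℝ)) by
          rw [Real.sqrt_mul (by positivity), Real.sqrt_sq (by norm_num)]]
        apply Real.sqrt_le_sqrt
        linarith
      have t1 : 19 / √(q (k + 1) : ℝ) ≤ c := by
        rw [div_le_iff₀ hg0]
        rw [div_le_iff₀ hc] at h19
        nlinarith
      have t2 : 18 / √(q (k + 1) : ℝ) ≤ c := by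
        refine le_trans ?_ t1
        gcongr
        norm_num
      have t3 : 2 * |y + n k - ξ * (u k : ℝ)| / ε k ≤ 4 * c := by
        rw [div_le_iff₀ hεk]
        linarith
      rw [mul_max_of_nonneg _ _ (Real.sqrt_nonneg _)]
      apply max_le
      · calc √(Q : ℝ) * |Q * α - ξ - P| ≤ 3 / 2 * √(q (k + 1) : ℝ) * |Q * α - ξ - P| := by
              gcongr
          _ = 3 / 2 * (√(q (k + 1) : ℝ) * |Q * α - ξ - P|) := by ring
          _ ≤ 8 * c := by linarith
      · calc √(Q : ℝ) * |Q * β - y - B| ≤ 3 / 2 * √(q (k + 1) : ℝ) * |Q * β - y - B| := by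
              gcongr
          _ = 3 / 2 * (√(q (k + 1) : ℝ) * |Q * β - y - B|) := by ring
          _ ≤ 8 * c := by linarith
  · -- non-singularity
    intro hfreq T₀
    obtain ⟨K, hK⟩ := exists_nat_ge (4 * T₀)
    obtain ⟨k, hkK, hk1⟩ := frequently_atTop.1 hfreq (K + 1)
    have hq1 := hq2' (k + 1)
    have hq1' : (0 : ℝ) < q (k + 1) := by linarith
    refine ⟨(q (k + 1) : ℝ) / 4, ?_, by positivity, fun r hr hrT P B => ?_⟩
    · have h1 := hkq (k + 1)
      push_cast at h1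
      have h2 : (K : ℝ) ≤ k := by
        have : K ≤ k := by omega
        exact_mod_cast this
      linarith
    · have hsT : √((q (k + 1) : ℝ) / 4) = √(q (k + 1) : ℝ) / 2 := by
        rw [Real.sqrt_div hq1'.le, show (4 : ℝ) = 2 ^ 2 by norm_num, Real.sqrt_sq (by norm_num)]
      rw [hsT]
      by_contra hcon
      rw [not_lt] at hcon
      have hg0 := Real.sqrt_nonneg (q (k + 1) : ℝ)
      have h1 : √(q (k + 1) : ℝ) / 2 * |r * α - P| ≤ 1 / 8 :=
        (mul_le_mul_of_nonneg_left (le_max_left _ _) (by positivity)).trans hcon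
      have h2 : √(q (k + 1) : ℝ) / 2 * |r * β - B| ≤ 1 / 8 :=
        (mul_le_mul_of_nonneg_left (le_max_right _ _) (by positivity)).trans hcon
      have hu2 : √(q (k + 1) : ℝ) / 2 ≤ u k := by
        have h3 := hD.lower k
        rw [hk1, one_mul] at h3
        exact h3
      have h3 := (hL k).nonsing hu2 r P B hr hrT (by linarith)
      linarith

end Q271.Coset
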