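import Mathlib

set_option autoImplicit false

/-! # Integer data for a column vector with a special line of badly approximable targets -/

namespace Q271.Coset

/-- multiples of an irrational number hit every arc of length `2 τ` within bounded windows -/
lemma window (ζ : ℝ) (hζ : Irrational ζ) (τ : ℝ) (hτ : 0 < τ) :
    ∃ L : ℕ, ∀ (z : ℝ) (a : ℤ), ∃ w n : ℤ, a ≤ w ∧ w ≤ a + L ∧ |w * ζ - z - n| ≤ τ := by
  obtain ⟨N, hN⟩ := exists_nat_gt (1 / τ)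
  have hN0 : 0 < N := by
    have h1 : (0 : ℝ) < N := lt_trans (by positivity) hN
    exact_mod_cast h1
  obtain ⟨j, k, hk0, hkN, hjk⟩ := Real.exists_int_int_abs_mul_sub_le ζ hN0
  set δ : ℝ := k * ζ - j with hδ
  have hδ0 : δ ≠ 0 := by
    intro h0
    have hk0' : (k : ℝ) ≠ 0 := by exact_mod_cast hk0.ne'
    apply hζ
    refine ⟨(j : ℚ) / k, ?_⟩
    push_cast
    rw [div_eq_iff hk0']
    rw [hδ] at h0
    linarith
  have hδpos : 0 < |δ| := abs_pos.2 hδ0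
  have hδτ : |δ| ≤ τ := by
    refine hjk.trans ?_
    rw [div_le_iff₀ (by positivity)]
    rw [div_lt_iff₀ hτ] at hN
    nlinarith
  refine ⟨(k * ⌈1 / |δ|⌉).toNat, fun z a => ?_⟩
  have hceil : 0 ≤ ⌈1 / |δ|⌉ := Int.ceil_nonneg (by positivity)
  have htoNat : ((k * ⌈1 / |δ|⌉).toNat : ℤ) = k * ⌈1 / |δ|⌉ :=
    Int.toNat_of_nonneg (mul_nonneg hk0.le hceil)
  rw [htoNat]
  -- common ending
  have fin : ∀ (g : ℝ) (n : ℤ), 0 ≤ g → g ≤ 1 →
      (∀ i : ℤ, |a * ζ - z - n + i * δ| = |g - i * (|δ|)|) →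
      ∃ w n' : ℤ, a ≤ w ∧ w ≤ a + k * ⌈1 / |δ|⌉ ∧ |w * ζ - z - n'| ≤ τ := by
    intro g n hg0 hg1 hg
    set i : ℤ := ⌊g / |δ|⌋ with hi
    have hi0 : 0 ≤ i := Int.floor_nonneg.2 (by positivity)
    have hi1 : i ≤ ⌈1 / |δ|⌉ := by
      have h1 : (i : ℝ) ≤ g / |δ| := Int.floor_le _
      have h2 : g / |δ| ≤ 1 / |δ| := by gcongr
      have h3 : (1 / |δ|) ≤ (⌈1 / |δ|⌉ : ℝ) := Int.le_ceil _
      exact_mod_cast h1.trans (h2.trans h3)
    refine ⟨a + k * i, n + i * j, ?_, ?_, ?_⟩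
    · have := mul_nonneg hk0.le hi0
      linarith
    · have := mul_le_mul_of_nonneg_left hi1 hk0.le
      linarith
    · have e : ((a + k * i : ℤ) : ℝ) * ζ - z - ((n + i * j : ℤ) : ℝ) =
          a * ζ - z - n + i * δ := by
        rw [hδ]
        push_cast
        ring
      rw [e, hg i]
      refine le_trans ?_ hδτ
      have h1 : (i : ℝ) ≤ g / |δ| := Int.floor_le _
      have h2 : g / |δ| < i + 1 := Int.lt_floor_add_one _
      rw [le_div_iff₀ hδpos] at h1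
      rw [div_lt_iff₀ hδpos] at h2
      rw [abs_le]
      constructor
      · linarith
      · linarith
  rcases lt_or_gt_of_ne hδ0 with hneg | hpos
  · refine fin (a * ζ - z - ⌊a * ζ - z⌋) ⌊a * ζ - z⌋ ?_ ?_ ?_
    · have := Int.floor_le (a * ζ - z)
      linarith
    · have := Int.lt_floor_add_one (a * ζ - z)
      linarith
    · intro i
      rw [abs_of_neg hneg]
      congr 1
      ring
  · refine fin (⌈a * ζ - z⌉ - (a * ζ - z)) ⌈a * ζ - z⌉ ?_ ?_ ?_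
    · have := Int.le_ceil (a * ζ - z)
      linarith
    · have := Int.ceil_lt_add_one (a * ζ - z)
      linarith
    · intro i
      rw [abs_of_pos hpos, ← abs_neg]
      congr 1
      ring

/-- one step of the construction -/
lemma step (ξ : ℝ) (hξ : Irrational ξ) (q p b : ℤ) (hq : 1 ≤ q) (hc : IsCoprime p q)
    (ε z τ : ℝ) (hε : 0 < ε) (hτ : 0 < τ) (M : ℤ) :
    ∃ q' p' b' n : ℤ, M ≤ q' ∧ 1 ≤ q' ∧ p' * q - q' * p = 1 ∧
      (∀ t : ℤ, 1 / 4 ≤ |ξ * q' - t|) ∧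
      ε * √(q' : ℝ) / 2 ≤ ((q * b' - q' * b : ℤ) : ℝ) ∧
      ((q * b' - q' * b : ℤ) : ℝ) ≤ ε * √(q' : ℝ) ∧
      |ξ * ((q * b' - q' * b : ℤ) : ℝ) - z - n| ≤ τ := by
  have hq0 : (q : ℝ) ≠ 0 := by
    have : q ≠ 0 := by omega
    exact_mod_cast this
  have hqpos : (0 : ℝ) < q := by
    have : 0 < q := by omega
    exact_mod_cast this
  have hirr : Irrational ((q : ℝ) * ξ) := by
    have h1 : q ≠ 0 := by omega
    exact hξ.intCast_mul h1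
  obtain ⟨L₁, hL₁⟩ := window _ hirr (1 / 4) (by norm_num)
  obtain ⟨L₂, hL₂⟩ := window _ hirr τ hτ
  obtain ⟨s, r, hsr⟩ := hc
  -- `s * p + r * q = 1`
  obtain ⟨K, hK⟩ := exists_nat_gt ((2 * q * (L₂ + 2) / ε) ^ 2)
  obtain ⟨t, n₁, ht1, -, ht3⟩ := hL₁ (1 / 2 + ξ * s) (max (max M 1) K + |s|)
  set q' : ℤ := -s + t * q with hq'
  have hq'M : max (max M 1) (K : ℤ) ≤ q' := by
    have h1 : (0 : ℤ) ≤ max (max M 1) (K : ℤ) := le_trans (by positivity) (le_max_right _ _)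
    have h2 := le_abs_self s
    have h3 : 0 ≤ t := by
      have := abs_nonneg s
      omega
    have h4 : t ≤ t * q := by nlinarith
    omega
  have hMq' : M ≤ q' := (le_max_left _ _).trans ((le_max_left _ _).trans hq'M)
  have h1q' : 1 ≤ q' := (le_max_right _ _).trans ((le_max_left _ _).trans hq'M)
  have hKq' : (K : ℤ) ≤ q' := (le_max_right _ _).trans hq'M
  have hq'pos : (0 : ℝ) < q' := by
    have : 0 < q' := by omega
    exact_mod_cast this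
  have hsq : 2 * q * (L₂ + 2) / ε ≤ √(q' : ℝ) := by
    apply Real.le_sqrt_of_sq_le
    have : (K : ℝ) ≤ q' := by exact_mod_cast hKq'
    linarith
  have hsq0 : 0 < √(q' : ℝ) := Real.sqrt_pos.2 hq'pos
  have hlen : 2 * q * (L₂ + 2) ≤ ε * √(q' : ℝ) := by
    rw [div_le_iff₀ hε] at hsq
    linarith
  obtain ⟨b', n, hb1, hb2, hb3⟩ := hL₂ (z + ξ * q' * b) ⌈(ε * √(q' : ℝ) / 2 + q' * b) / q⌉
  have hb1' : (ε * √(q' : ℝ) / 2 + q' * b) / q ≤ b' := by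
    refine (Int.le_ceil _).trans ?_
    exact_mod_cast hb1
  have hb2' : (b' : ℝ) ≤ (ε * √(q' : ℝ) / 2 + q' * b) / q + 1 + L₂ := by
    have h1 : (b' : ℝ) ≤ ((⌈(ε * √(q' : ℝ) / 2 + q' * b) / q⌉ : ℤ) : ℝ) + L₂ := by
      exact_mod_cast hb2
    have h2 := (Int.ceil_lt_add_one ((ε * √(q' : ℝ) / 2 + q' * b) / q)).le
    linarith
  refine ⟨q', r + t * p, b', n, hMq', h1q', ?_, ?_, ?_, ?_, ?_⟩
  · rw [hq']
    linear_combination hsr
  · intro m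
    have h1 : |ξ * q' - (n₁ : ℝ) - 1 / 2| ≤ 1 / 4 := by
      refine le_trans (le_of_eq ?_) ht3
      congr 1
      rw [hq']
      push_cast
      ring
    have h2 : (1 : ℝ) / 2 ≤ |((m - n₁ : ℤ) : ℝ) - 1 / 2| := by
      rcases le_or_gt (m - n₁) 0 with h | h
      · have : ((m - n₁ : ℤ) : ℝ) ≤ 0 := by exact_mod_cast h
        rw [abs_of_nonpos (by linarith)]
        linarith
      · have : (1 : ℝ) ≤ ((m - n₁ : ℤ) : ℝ) := by exact_mod_cast h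
        rw [abs_of_nonneg (by linarith)]
        linarith
    have h3 : |((m - n₁ : ℤ) : ℝ) - 1 / 2| ≤ |ξ * q' - (n₁ : ℝ) - 1 / 2| + |ξ * q' - m| := by
      have e : ((m - n₁ : ℤ) : ℝ) - 1 / 2 = (ξ * q' - (n₁ : ℝ) - 1 / 2) - (ξ * q' - m) := by
        push_cast
        ring
      rw [e]
      exact abs_sub _ _
    linarith
  · rw [div_le_iff₀ hqpos] at hb1'
    push_cast
    linarith
  · have h1 : (b' : ℝ) * q ≤ ((ε * √(q' : ℝ) / 2 + q' * b) / q + 1 + L₂) * q :=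
      mul_le_mul_of_nonneg_right hb2' hqpos.le
    have h2 : ((ε * √(q' : ℝ) / 2 + q' * b) / q + 1 + L₂) * q =
        ε * √(q' : ℝ) / 2 + q' * b + (1 + L₂) * q := by
      field_simp
      ring
    rw [h2] at h1
    push_cast
    nlinarith
  · refine le_trans (le_of_eq ?_) hb3
    congr 1
    push_cast
    ring

/-- the integer data -/
structure Data (ξ : ℝ) (ε z : ℕ → ℝ) (q p b n : ℕ → ℤ) : Prop where
  two_le : 2 ≤ q 0
  grow : ∀ k, q k ^ 4 ≤ q (k + 1)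
  det : ∀ k, p (k + 1) * q k - q (k + 1) * p k = 1
  half : ∀ k (t : ℤ), 1 / 4 ≤ |ξ * q (k + 1) - t|
  lower : ∀ k, ε k * √(q (k + 1) : ℝ) / 2 ≤ ((q k * b (k + 1) - q (k + 1) * b k : ℤ) : ℝ)
  upper : ∀ k, ((q k * b (k + 1) - q (k + 1) * b k : ℤ) : ℝ) ≤ ε k * √(q (k + 1) : ℝ)
  near : ∀ k, |ξ * ((q k * b (k + 1) - q (k + 1) * b k : ℤ) : ℝ) - z k - n k| ≤ ε k / (k + 1)

lemma exists_data (ξ : ℝ) (hξ : Irrational ξ) (ε z : ℕ → ℝ) (hε : ∀ k, 0 < ε k) :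
    ∃ q p b n : ℕ → ℤ, Data ξ ε z q p b n := by
  have h : ∀ (k : ℕ) (s : {s : ℤ × ℤ × ℤ // 1 ≤ s.1 ∧ IsCoprime s.2.1 s.1}),
      ∃ t : (ℤ × ℤ × ℤ) × ℤ, s.1.1 ^ 4 ≤ t.1.1 ∧ 1 ≤ t.1.1 ∧
        t.1.2.1 * s.1.1 - t.1.1 * s.1.2.1 = 1 ∧
        (∀ m : ℤ, 1 / 4 ≤ |ξ * t.1.1 - m|) ∧
        ε k * √(t.1.1 : ℝ) / 2 ≤ ((s.1.1 * t.1.2.2 - t.1.1 * s.1.2.2 : ℤ) : ℝ) ∧
        ((s.1.1 * t.1.2.2 - t.1.1 * s.1.2.2 : ℤ) : ℝ) ≤ ε k * √(t.1.1 : ℝ) ∧
        |ξ * ((s.1.1 * t.1.2.2 - t.1.1 * s.1.2.2 : ℤ) : ℝ) - z k - t.2| ≤ ε k / (k + 1) := by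
    rintro k ⟨⟨q, p, b⟩, hq, hc⟩
    have hpos : 0 < ε k / ((k : ℝ) + 1) := div_pos (hε k) (by positivity)
    obtain ⟨q', p', b', n, h1, h2, h3, h4, h5, h6, h7⟩ := step ξ hξ q p b hq hc (ε k) (z k)
      (ε k / (k + 1)) (hε k) hpos (q ^ 4)
    exact ⟨((q', p', b'), n), h1, h2, h3, h4, h5, h6, h7⟩
  choose T hT1 hT2 hT3 hT4 hT5 hT6 hT7 using h
  have hcop : ∀ k s, IsCoprime (T k s).1.2.1 (T k s).1.1 := by
    intro k s
    refine ⟨s.1.1, -s.1.2.1, ?_⟩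
    have := hT3 k s
    linear_combination this
  let st : ℕ → {s : ℤ × ℤ × ℤ // 1 ≤ s.1 ∧ IsCoprime s.2.1 s.1} := fun n =>
    Nat.rec ⟨(2, 1, 0), by norm_num, isCoprime_one_left⟩
      (fun k s => ⟨(T k s).1, hT2 k s, hcop k s⟩) n
  refine ⟨fun k => (st k).1.1, fun k => (st k).1.2.1, fun k => (st k).1.2.2,
    fun k => (T k (st k)).2, ⟨le_refl _, fun k => hT1 k _, fun k => hT3 k _, fun k => hT4 k _,
    fun k => hT5 k _, fun k => hT6 k _, fun k => hT7 k _⟩⟩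

end Q271.Coset
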