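import Mathlib

set_option autoImplicit false

/-! # Badly approximable targets, singular matrices and algebraic measures -/

namespace Q271.Coset

open Matrix MeasureTheory

/-- the image of `A q` in the torus `ℝ ^ m / ℤ ^ m` -/
def imageT {m n : ℕ} (A : Matrix (Fin m) (Fin n) ℝ) (q : Fin n → ℤ) : Fin m → UnitAddCircle :=
  fun i => (((A *ᵥ fun j => (q j : ℝ)) i : ℝ) : UnitAddCircle)

/-- The set of badly approximable targets:
`liminf ‖q‖ ^ (n / m) ⟨A q - η⟩ > 0` as `‖q‖ → ∞`. The norm of `Fin m → UnitAddCircle` is the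
sup-norm distance to the nearest integer point. -/
def Bad {m n : ℕ} (A : Matrix (Fin m) (Fin n) ℝ) : Set (Fin m → UnitAddCircle) :=
  {η | ∃ c : ℝ, 0 < c ∧ ∃ R : ℝ, ∀ q : Fin n → ℤ, R ≤ ‖q‖ →
    c ≤ ‖q‖ ^ ((n : ℝ) / m) * ‖imageT A q - η‖}

/-- singular matrices -/
def Singular {m n : ℕ} (A : Matrix (Fin m) (Fin n) ℝ) : Prop :=
  ∀ ε : ℝ, 0 < ε → ∃ T₀ : ℝ, ∀ T : ℝ, T₀ ≤ T → ∃ q : Fin n → ℤ, 0 < ‖q‖ ∧ ‖q‖ ≤ T ∧
    ‖imageT A q‖ ≤ ε * T ^ (-((n : ℝ) / m))

/-- `μ` is a `d`-dimensional algebraic measure: the image of the Haar probability measure of the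
`d`-dimensional torus under `t ↦ x + φ t`, where `φ` is an injective continuous homomorphism, that
is, the Haar probability measure of the coset `x + range φ` of a `d`-dimensional subtorus. -/
def IsAlgebraic (d : ℕ) {m : ℕ} (μ : Measure (Fin m → UnitAddCircle)) : Prop :=
  ∃ (x : Fin m → UnitAddCircle) (φ : (Fin d → UnitAddCircle) →+ (Fin m → UnitAddCircle)),
    Continuous φ ∧ Function.Injective φ ∧ μ = Measure.map (fun t => x + φ t) volume

end Q271.Coset
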