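import Pool.Agent.Q271.CosetData

set_option autoImplicit false
set_option maxHeartbeats 2000000

/-! # Estimates at one level -/

namespace Q271.Coset

/-- limits of the quotients `c k / q k` -/
lemma exists_limit (q c v : ℕ → ℤ) (h0 : 2 ≤ q 0) (hg : ∀ k, q k ^ 4 ≤ q (k + 1))
    (hc : ∀ k, c (k + 1) * q k - q (k + 1) * c k = v k) (hv0 : ∀ k, 0 ≤ v k)
    (hv1 : ∀ k, (v k : ℝ) ≤ √(q (k + 1) : ℝ)) :
    ∃ γ : ℝ, ∀ k, (v k : ℝ) / q (k + 1) ≤ q k * γ - c k ∧
      q k * γ - c k ≤ (v k : ℝ) / q (k + 1) + 2 / (q (k + 1) : ℝ) ^ 2 := by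
  have hq2 : ∀ k, 2 ≤ q k := by
    intro k
    induction k with
    | zero => exact h0
    | succ k ih =>
      have h1 := hg k
      have h2 : (2 : ℤ) ^ 4 ≤ q k ^ 4 := pow_le_pow_left₀ (by norm_num) ih 4
      linarith
  have hq2' : ∀ k, (2 : ℝ) ≤ q k := fun k => by exact_mod_cast hq2 k
  have hg' : ∀ k, (q k : ℝ) ^ 4 ≤ q (k + 1) := fun k => by exact_mod_cast hg k
  have hdouble : ∀ k, 2 * (q k : ℝ) ≤ q (k + 1) := by
    intro k
    refine le_trans ?_ (hg' k)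
    have h1 := hq2' k
    have h2 : (2 : ℝ) ^ 3 ≤ (q k : ℝ) ^ 3 := pow_le_pow_left₀ (by norm_num) h1 3
    calc 2 * (q k : ℝ) ≤ (q k : ℝ) ^ 3 * q k := by nlinarith
      _ = (q k : ℝ) ^ 4 := by ring
  have hgeo : ∀ k j, (q k : ℝ) * 2 ^ j ≤ q (k + j) := by
    intro k j
    induction j with
    | zero => simp
    | succ j ih =>
      have h1 := hdouble (k + j)
      rw [pow_succ]
      have : (q (k + (j + 1)) : ℝ) = q (k + j + 1) := rfl
      rw [this]
      linarith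
  have hsq : ∀ k, (q k : ℝ) ^ 2 ≤ √(q (k + 1) : ℝ) := by
    intro k
    apply Real.le_sqrt_of_sq_le
    calc ((q k : ℝ) ^ 2) ^ 2 = (q k : ℝ) ^ 4 := by ring
      _ ≤ (q (k + 1) : ℝ) := hg' k
  set f : ℕ → ℝ := fun j => (v j : ℝ) / (q j * q (j + 1)) with hf
  have hf0 : ∀ j, 0 ≤ f j := by
    intro j
    have h1 : (0 : ℝ) ≤ v j := by exact_mod_cast hv0 j
    have h2 := hq2' j
    have h3 := hq2' (j + 1)
    apply div_nonneg h1
    nlinarith
  have hf1 : ∀ j, f j ≤ 1 / (q j : ℝ) ^ 3 := by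
    intro j
    have h2 := hq2' j
    have h3 := hq2' (j + 1)
    have hj : (0 : ℝ) < q j := by linarith
    have hj1 : (0 : ℝ) < q (j + 1) := by linarith
    have h4 : 0 < √(q (j + 1) : ℝ) := Real.sqrt_pos.2 hj1
    have h5 : √(q (j + 1) : ℝ) * √(q (j + 1) : ℝ) = q (j + 1) := Real.mul_self_sqrt hj1.le
    simp only [hf]
    rw [div_le_div_iff₀ (mul_pos hj hj1) (by positivity), one_mul]
    calc (v j : ℝ) * (q j : ℝ) ^ 3 ≤ √(q (j + 1) : ℝ) * ((q j : ℝ) ^ 2 * q j) := by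
          have := hv1 j
          rw [show (q j : ℝ) ^ 3 = (q j : ℝ) ^ 2 * q j by ring]
          gcongr
      _ ≤ √(q (j + 1) : ℝ) * (√(q (j + 1) : ℝ) * q j) := by
          have := hsq j
          gcongr
      _ = q j * q (j + 1) := by rw [← mul_assoc, h5, mul_comm]
  have hf2 : ∀ k j, f (k + j) ≤ 1 / (q k : ℝ) ^ 3 * (1 / 2) ^ j := by
    intro k j
    refine (hf1 (k + j)).trans ?_
    have h2 := hq2' k
    have hk : (0 : ℝ) < q k := by linarith
    have h3 : (q k : ℝ) ^ 3 * 2 ^ j ≤ (q (k + j) : ℝ) ^ 3 := by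
      calc (q k : ℝ) ^ 3 * 2 ^ j ≤ (q k : ℝ) ^ 3 * (2 ^ j) ^ 3 := by
            gcongr
            have : (1 : ℝ) ≤ 2 ^ j := one_le_pow₀ (by norm_num)
            exact le_self_pow₀ this (by norm_num)
        _ = ((q k : ℝ) * 2 ^ j) ^ 3 := by ring
        _ ≤ (q (k + j) : ℝ) ^ 3 := by
            have := hgeo k j
            gcongr
    rw [one_div_pow, div_mul_div_comm, one_mul]
    exact one_div_le_one_div_of_le (by positivity) h3
  have hsum : ∀ k, Summable (fun j => f (k + j)) := by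
    intro k
    refine Summable.of_nonneg_of_le (fun j => hf0 _) (hf2 k) ?_
    exact (summable_geometric_of_lt_one (by norm_num) (by norm_num)).mul_left _
  have htail : ∀ k, ∑' j, f (k + j) ≤ 2 / (q k : ℝ) ^ 3 := by
    intro k
    refine ((hsum k).tsum_le_tsum (hf2 k)
      ((summable_geometric_of_lt_one (by norm_num) (by norm_num)).mul_left _)).trans ?_
    rw [tsum_mul_left, tsum_geometric_of_lt_one (by norm_num) (by norm_num)]
    refine le_of_eq ?_
    norm_num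
    ring
  have hpart : ∀ k, (c k : ℝ) / q k = c 0 / q 0 + ∑ i ∈ Finset.range k, f i := by
    intro k
    induction k with
    | zero => simp
    | succ k ih =>
      rw [Finset.sum_range_succ, ← add_assoc, ← ih]
      have h1 : (c (k + 1) : ℝ) * q k - q (k + 1) * c k = v k := by exact_mod_cast hc k
      have h2 : (q k : ℝ) ≠ 0 := by
        have := hq2' k
        linarith
      have h3 : (q (k + 1) : ℝ) ≠ 0 := by
        have := hq2' (k + 1)
        linarith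
      simp only [hf]
      field_simp
      linarith
  have hs0 : Summable f := by simpa using hsum 0
  refine ⟨c 0 / q 0 + ∑' i, f i, fun k => ?_⟩
  have hk : (0 : ℝ) < q k := by
    have := hq2' k
    linarith
  have hk1 : (0 : ℝ) < q (k + 1) := by
    have := hq2' (k + 1)
    linarith
  have h1 := hs0.sum_add_tsum_nat_add k
  have h3 : ∑' j, f (j + k) = ∑' j, f (k + j) := by
    congr 1
    ext j
    rw [add_comm]
  rw [h3] at h1
  have h4 : ∑' j, f (k + j) = f k + ∑' j, f (k + 1 + j) := by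
    rw [(hsum k).tsum_eq_zero_add]
    simp only [add_zero]
    congr 2
    ext j
    congr 1
    ring
  have h5 : 0 ≤ ∑' j, f (k + 1 + j) := tsum_nonneg fun j => hf0 _
  have h6 := htail (k + 1)
  have h7 : q k * ((c 0 : ℝ) / q 0 + ∑' i, f i) - c k =
      q k * f k + q k * ∑' j, f (k + 1 + j) := by
    rw [← h1, ← add_assoc, ← hpart k, h4]
    field_simp
    ring
  have h8 : (q k : ℝ) * f k = v k / q (k + 1) := by
    simp only [hf]
    field_simp
  rw [h7, h8]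
  constructor
  · have := mul_nonneg hk.le h5
    linarith
  · have h9 : (q k : ℝ) * ∑' j, f (k + 1 + j) ≤ q (k + 1) * (2 / (q (k + 1) : ℝ) ^ 3) := by
      apply mul_le_mul _ h6 h5 hk1.le
      have := hdouble k
      linarith
    have h10 : (q (k + 1) : ℝ) * (2 / (q (k + 1) : ℝ) ^ 3) = 2 / (q (k + 1) : ℝ) ^ 2 := by
      field_simp
    rw [h10] at h9
    linarith

/-- the data at one level -/
structure Level (α β : ℝ) (q0 q1 q2 p0 p1 b0 b1 u0 : ℤ) (g : ℝ) : Prop where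
  hq0 : 2 ≤ q0
  hq1 : q0 ^ 4 ≤ q1
  hq2 : q1 ^ 4 ≤ q2
  det : p1 * q0 - q1 * p0 = 1
  hg0 : 0 ≤ g
  hg : g ^ 2 = q1
  hu : 0 ≤ u0
  hu' : (u0 : ℝ) ≤ g
  hudef : u0 = q0 * b1 - q1 * b0
  a0 : 1 / (q1 : ℝ) ≤ q0 * α - p0
  a0' : q0 * α - p0 ≤ 1 / (q1 : ℝ) + 2 / (q1 : ℝ) ^ 2
  a1 : 0 ≤ q1 * α - p1
  a1' : q1 * α - p1 ≤ 2 / q2
  c0 : (u0 : ℝ) / q1 ≤ q0 * β - b0
  c0' : q0 * β - b0 ≤ (u0 : ℝ) / q1 + 2 / (q1 : ℝ) ^ 2
  c1 : 0 ≤ q1 * β - b1
  c1' : q1 * β - b1 ≤ 2 / (q1 : ℝ) ^ 2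

namespace Level

variable {α β : ℝ} {q0 q1 q2 p0 p1 b0 b1 u0 : ℤ} {g : ℝ}

lemma facts (L : Level α β q0 q1 q2 p0 p1 b0 b1 u0 g) :
    (2 : ℝ) ≤ q0 ∧ (q0 : ℝ) ^ 4 ≤ q1 ∧ (q1 : ℝ) ^ 4 ≤ q2 ∧ (16 : ℝ) ≤ q1 ∧ (4 : ℝ) ≤ g ∧
      (q0 : ℝ) ^ 2 ≤ g ∧ 8 * (q0 : ℝ) ≤ q1 := by
  have h0 : (2 : ℝ) ≤ q0 := by exact_mod_cast L.hq0
  have h1 : (q0 : ℝ) ^ 4 ≤ q1 := by exact_mod_cast L.hq1
  have h2 : (q1 : ℝ) ^ 4 ≤ q2 := by exact_mod_cast L.hq2
  have h3 : (2 : ℝ) ^ 4 ≤ (q0 : ℝ) ^ 4 := pow_le_pow_left₀ (by norm_num) h0 4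
  have h4 : (16 : ℝ) ≤ q1 := by linarith
  have hg := L.hg
  have hg0 := L.hg0
  have h5 : (q0 : ℝ) ^ 2 ≤ g := by
    refine (sq_le_sq₀ (by positivity) hg0).1 ?_
    rw [hg]
    calc ((q0 : ℝ) ^ 2) ^ 2 = (q0 : ℝ) ^ 4 := by ring
      _ ≤ (q1 : ℝ) := h1
  refine ⟨h0, h1, h2, h4, ?_, h5, ?_⟩
  · nlinarith
  · refine le_trans ?_ h1
    have h6 : (8 : ℝ) ≤ (q0 : ℝ) ^ 3 := by
      calc (8 : ℝ) = 2 ^ 3 := by norm_num
        _ ≤ (q0 : ℝ) ^ 3 := pow_le_pow_left₀ (by norm_num) h0 3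
    calc 8 * (q0 : ℝ) ≤ (q0 : ℝ) ^ 3 * q0 := by gcongr
      _ = (q0 : ℝ) ^ 4 := by ring

/-- **Level estimate for approximations.** -/
lemma lower (L : Level α β q0 q1 q2 p0 p1 b0 b1 u0 g) (ξ y c S : ℝ) (hξ : |ξ| ≤ 2)
    (hc0 : 0 < c) (hc : c ≤ 1 / 8) (hhalf : ∀ t : ℤ, 1 / 4 ≤ |ξ * q0 - t|) (Q P B : ℤ)
    (hS0 : 0 ≤ S) (hS : S ^ 2 = |(Q : ℝ)|) (hQ0 : (q0 : ℝ) ^ 2 < |(Q : ℝ)|)
    (hQ1 : |(Q : ℝ)| ≤ (q1 : ℝ) ^ 2) (hα : S * |Q * α - ξ - P| ≤ c)
    (hβ : S * |Q * β - y - B| ≤ c) :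
    ∃ m : ℤ, |y - ξ * u0 - m| ≤ 4 * c + 14 / g := by
  obtain ⟨f0, f1, f2, f3, f4, f5, f6⟩ := L.facts
  have hg0 : 0 < g := by linarith
  have hq0 : (0 : ℝ) < q0 := by linarith
  have hq1 : (0 : ℝ) < q1 := by linarith
  have hq2 : (0 : ℝ) < q2 := lt_of_lt_of_le (by positivity) f2
  have hg2 := L.hg
  have hSq : (q0 : ℝ) < S := by
    refine (sq_lt_sq₀ hq0.le hS0).1 ?_
    rw [hS]
    exact hQ0
  have hS1 : 0 < S := by linarith
  -- step 1
  set E : ℤ := Q * p0 - q0 * P with hE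
  have hαq : q0 * |Q * α - ξ - P| ≤ c :=
    (mul_le_mul_of_nonneg_right hSq.le (abs_nonneg _)).trans hα
  have h1 : |Q * (q0 * α - p0) - (ξ * q0 - E)| ≤ c := by
    refine le_trans (le_of_eq ?_) hαq
    rw [show q0 * |(Q : ℝ) * α - ξ - P| = |(q0 : ℝ)| * |Q * α - ξ - P| by rw [abs_of_pos hq0],
      ← abs_mul]
    congr 1
    rw [hE]
    push_cast
    ring
  have ha0 : 0 < q0 * α - p0 := lt_of_lt_of_le (by positivity) L.a0
  have ha0' : q0 * α - p0 ≤ 2 / q1 := by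
    refine L.a0'.trans ?_
    have : 2 / (q1 : ℝ) ^ 2 ≤ 1 / q1 := by
      rw [div_le_div_iff₀ (by positivity) hq1]
      nlinarith
    have e : 2 / (q1 : ℝ) = 1 / q1 + 1 / q1 := by ring
    linarith
  have h2 : 1 / 8 ≤ |(Q : ℝ)| * (2 / q1) := by
    have h3 := hhalf E
    have h4 : |ξ * q0 - E| ≤ |Q * (q0 * α - p0) - (ξ * q0 - E)| + |Q * (q0 * α - p0)| := by
      have := abs_sub (Q * (q0 * α - p0)) (Q * (q0 * α - p0) - (ξ * q0 - E))
      rw [sub_sub_cancel] at this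
      linarith
    rw [abs_mul, abs_of_pos ha0] at h4
    have h5 : |(Q : ℝ)| * (q0 * α - p0) ≤ |(Q : ℝ)| * (2 / q1) := by gcongr
    linarith
  have hQbig : (q1 : ℝ) / 16 ≤ |(Q : ℝ)| := by
    have e : |(Q : ℝ)| * (2 / q1) * q1 = |(Q : ℝ)| * 2 := by field_simp
    have := mul_le_mul_of_nonneg_right h2 hq1.le
    linarith
  have hSg : g / 4 ≤ S := by
    refine (sq_le_sq₀ (by positivity) hS0).1 ?_
    rw [hS]
    have : (g / 4) ^ 2 = q1 / 16 := by
      rw [div_pow, hg2]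
      norm_num
    rw [this]
    exact hQbig
  have hgα : g * |Q * α - ξ - P| ≤ 4 * c := by
    have h3 : g ≤ 4 * S := by linarith
    have := mul_le_mul_of_nonneg_right h3 (abs_nonneg (Q * α - ξ - P))
    linarith
  have hgβ : g * |Q * β - y - B| ≤ 4 * c := by
    have h3 : g ≤ 4 * S := by linarith
    have := mul_le_mul_of_nonneg_right h3 (abs_nonneg (Q * β - y - B))
    linarith
  -- step 2
  set D : ℤ := Q * p1 - q1 * P with hD
  have h3 : |(D : ℝ) - q1 * ξ| ≤ 4 * c * g + 1 := by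
    have e : (D : ℝ) - q1 * ξ = q1 * (Q * α - ξ - P) - Q * (q1 * α - p1) := by
      rw [hD]
      push_cast
      ring
    rw [e]
    refine (abs_sub _ _).trans ?_
    rw [abs_mul, abs_mul, abs_of_pos hq1, abs_of_nonneg L.a1]
    have h4 : (q1 : ℝ) * |Q * α - ξ - P| ≤ 4 * c * g := by
      rw [← hg2]
      have := mul_le_mul_of_nonneg_left hgα hg0.le
      nlinarith
    have h5 : |(Q : ℝ)| * (q1 * α - p1) ≤ 1 := by
      calc |(Q : ℝ)| * (q1 * α - p1) ≤ (q1 : ℝ) ^ 2 * (2 / q2) :=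
            mul_le_mul hQ1 L.a1' L.a1 (by positivity)
        _ ≤ (q1 : ℝ) ^ 2 * (2 / (q1 : ℝ) ^ 4) := by gcongr
        _ = 2 / (q1 : ℝ) ^ 2 := by
            field_simp
        _ ≤ 1 := by
            rw [div_le_one (by positivity)]
            nlinarith
    linarith
  have hgq : g ≤ q1 / 4 := by
    rw [← hg2]
    nlinarith
  have h4 : |(D : ℝ)| ≤ 4 * q1 := by
    have h5 : |(D : ℝ)| ≤ |(D : ℝ) - q1 * ξ| + |q1 * ξ| := by
      have := abs_add_le ((D : ℝ) - q1 * ξ) (q1 * ξ)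
      rwa [sub_add_cancel] at this
    rw [abs_mul, abs_of_pos hq1] at h5
    have h6 : (q1 : ℝ) * |ξ| ≤ q1 * 2 := by gcongr
    have h7 : 4 * c * g ≤ q1 := by nlinarith
    linarith
  have hQDE : (Q : ℝ) = D * q0 - E * q1 := by
    have h5 : (p1 : ℝ) * q0 - q1 * p0 = 1 := by exact_mod_cast L.det
    rw [hD, hE]
    push_cast
    linear_combination (-(Q : ℝ)) * h5
  have h5 : |(E : ℝ)| ≤ 2 * q1 := by
    have h6 : |(E : ℝ)| * q1 ≤ |(D : ℝ)| * q0 + |(Q : ℝ)| := by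
      have e : (E : ℝ) * q1 = D * q0 - Q := by
        rw [hQDE]
        ring
      calc |(E : ℝ)| * q1 = |(E : ℝ) * q1| := by rw [abs_mul, abs_of_pos hq1]
        _ = |(D : ℝ) * q0 - Q| := by rw [e]
        _ ≤ |(D : ℝ) * q0| + |(Q : ℝ)| := abs_sub _ _
        _ = |(D : ℝ)| * q0 + |(Q : ℝ)| := by rw [abs_mul, abs_of_pos hq0]
    have h7 : |(D : ℝ)| * q0 ≤ 4 * q1 * q0 := by gcongr
    have h8 : |(E : ℝ)| * q1 ≤ 2 * q1 * q1 := by nlinarith
    exact le_of_mul_le_mul_right h8 hq1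
  refine ⟨D * b0 - E * b1 - B, ?_⟩
  have hkey : y - ξ * u0 - ((D * b0 - E * b1 - B : ℤ) : ℝ) =
      (D - q1 * ξ) * (u0 / q1) + D * (q0 * β - b0 - u0 / q1) - E * (q1 * β - b1) -
        (Q * β - y - B) := by
    have h6 : (Q : ℝ) * β = (D * q0 - E * q1) * β := by rw [← hQDE]
    push_cast
    have h7 : (q1 : ℝ) * ξ * (u0 / q1) = ξ * u0 := by
      field_simp
    linear_combination h6 + h7
  rw [hkey]
  have hu0 : (0 : ℝ) ≤ u0 := by exact_mod_cast L.hu
  have hug : (u0 : ℝ) / q1 ≤ 1 / g := by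
    rw [div_le_div_iff₀ hq1 hg0, one_mul, ← hg2]
    have := L.hu'
    nlinarith
  have hu0' : 0 ≤ (u0 : ℝ) / q1 := by positivity
  have hinv : 1 / (q1 : ℝ) ≤ 1 / (4 * g) := by
    apply one_div_le_one_div_of_le (by positivity)
    linarith
  have t1 : |(D - q1 * ξ) * (u0 / q1)| ≤ 4 * c + 1 / g := by
    rw [abs_mul, abs_of_nonneg hu0']
    calc |(D : ℝ) - q1 * ξ| * (u0 / q1) ≤ (4 * c * g + 1) * (1 / g) :=
          mul_le_mul h3 hug hu0' (by positivity)
      _ = 4 * c + 1 / g := by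
          field_simp
  have t2 : |(D : ℝ) * (q0 * β - b0 - u0 / q1)| ≤ 2 / g := by
    have h6 : 0 ≤ q0 * β - b0 - u0 / q1 := by
      have := L.c0
      linarith
    have h7 : q0 * β - b0 - u0 / q1 ≤ 2 / (q1 : ℝ) ^ 2 := by
      have := L.c0'
      linarith
    rw [abs_mul, abs_of_nonneg h6]
    calc |(D : ℝ)| * (q0 * β - b0 - u0 / q1) ≤ 4 * q1 * (2 / (q1 : ℝ) ^ 2) :=
          mul_le_mul h4 h7 h6 (by positivity)
      _ = 8 * (1 / q1) := by
          field_simp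
          norm_num
      _ ≤ 8 * (1 / (4 * g)) := by gcongr
      _ = 2 / g := by
          field_simp
          norm_num
  have t3 : |(E : ℝ) * (q1 * β - b1)| ≤ 1 / g := by
    rw [abs_mul, abs_of_nonneg L.c1]
    calc |(E : ℝ)| * (q1 * β - b1) ≤ 2 * q1 * (2 / (q1 : ℝ) ^ 2) :=
          mul_le_mul h5 L.c1' L.c1 (by positivity)
      _ = 4 * (1 / q1) := by
          field_simp
          norm_num
      _ ≤ 4 * (1 / (4 * g)) := by gcongr
      _ = 1 / g := by
          field_simp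
  have t4 : |(Q : ℝ) * β - y - B| ≤ 1 / g := by
    rw [le_div_iff₀ hg0, mul_comm]
    linarith
  have s1 := abs_sub ((D - q1 * ξ) * (u0 / q1) + D * (q0 * β - b0 - u0 / q1) -
    E * (q1 * β - b1)) (Q * β - y - B)
  have s2 := abs_sub ((D - q1 * ξ) * (u0 / q1) + D * (q0 * β - b0 - u0 / q1))
    (E * (q1 * β - b1))
  have s3 := abs_add_le ((D - q1 * ξ) * (u0 / q1)) (D * (q0 * β - b0 - u0 / q1))
  have e : 4 * c + 14 / g = 4 * c + 14 * (1 / g) := by ring
  have e2 : 2 / g = 2 * (1 / g) := by ring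
  rw [e]
  rw [e2] at t2
  have hgi : 0 < 1 / g := by positivity
  linarith

/-- **Level estimate producing approximations.** -/
lemma upper (L : Level α β q0 q1 q2 p0 p1 b0 b1 u0 g) (ξ y : ℝ) (hξ : |ξ| ≤ 2) (n : ℤ) (ε : ℝ)
    (hε : 0 < ε) (hug : (u0 : ℝ) ≤ ε * g) (hu : ε * g / 2 ≤ u0)
    (hκ : |y + n - ξ * u0| ≤ u0) :
    ∃ Q P B : ℤ, (q1 : ℝ) ≤ Q ∧ (Q : ℝ) ≤ 2 * q1 ∧
      g * |Q * α - ξ - P| ≤ 2 * |y + n - ξ * u0| / ε + 19 / g ∧
      g * |Q * β - y - B| ≤ ε / 2 + 18 / g := by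
  obtain ⟨f0, f1, f2, f3, f4, f5, f6⟩ := L.facts
  have hg0 : 0 < g := by linarith
  have hq0 : (0 : ℝ) < q0 := by linarith
  have hq1 : (0 : ℝ) < q1 := by linarith
  have hq2 : (0 : ℝ) < q2 := lt_of_lt_of_le (by positivity) f2
  have hg2 := L.hg
  have hu0 : (0 : ℝ) < u0 := lt_of_lt_of_le (by positivity) hu
  set κ : ℝ := |y + n - ξ * u0| with hκdef
  set D : ℤ := round (q1 * (y + n) / u0) with hD
  have hDr : |q1 * (y + n) / u0 - D| ≤ 1 / 2 := abs_sub_round _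
  set E : ℤ := ⌊(D : ℝ) * q0 / q1⌋ - 1 with hE
  have hE1 : (E : ℝ) ≤ D * q0 / q1 - 1 := by
    rw [hE]
    push_cast
    have := Int.floor_le ((D : ℝ) * q0 / q1)
    linarith
  have hE2 : (D : ℝ) * q0 / q1 - 2 ≤ E := by
    rw [hE]
    push_cast
    have := Int.lt_floor_add_one ((D : ℝ) * q0 / q1)
    linarith
  have hdist : |(D : ℝ) / q1 - ξ| ≤ 1 / (2 * q1) + κ / u0 := by
    have e : (D : ℝ) / q1 - ξ = (y + n - ξ * u0) / u0 - (q1 * (y + n) / u0 - D) / q1 := by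
      field_simp
      ring
    rw [e]
    refine (abs_sub _ _).trans ?_
    rw [abs_div, abs_div, abs_of_pos hu0, abs_of_pos hq1, ← hκdef]
    have : |q1 * (y + n) / u0 - D| / q1 ≤ 1 / 2 / q1 := by gcongr
    have e2 : 1 / 2 / (q1 : ℝ) = 1 / (2 * q1) := by rw [div_div]
    linarith
  have hκ1 : κ / u0 ≤ 1 := (div_le_one hu0).2 hκ
  have hDb : |(D : ℝ)| ≤ 4 * q1 := by
    have h1 : |(D : ℝ) / q1| ≤ |(D : ℝ) / q1 - ξ| + |ξ| := by
      have := abs_add_le ((D : ℝ) / q1 - ξ) ξ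
      rwa [sub_add_cancel] at this
    have h2 : 1 / (2 * (q1 : ℝ)) ≤ 1 := by
      rw [div_le_one (by positivity)]
      linarith
    rw [abs_div, abs_of_pos hq1, div_le_iff₀ hq1] at h1
    nlinarith
  have hEb : |(E : ℝ)| ≤ 5 * q0 := by
    have h1 : |(D : ℝ) * q0 / q1| ≤ 4 * q0 := by
      rw [abs_div, abs_mul, abs_of_pos hq0, abs_of_pos hq1, div_le_iff₀ hq1]
      nlinarith
    obtain ⟨h2, h3⟩ := abs_le.1 h1
    rw [abs_le]
    constructor <;> linarith
  refine ⟨D * q0 - E * q1, D * p0 - E * p1, D * b0 - E * b1 - (-n), ?_, ?_, ?_, ?_⟩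
  · push_cast
    have := mul_le_mul_of_nonneg_right hE1 hq1.le
    have e : ((D : ℝ) * q0 / q1 - 1) * q1 = D * q0 - q1 := by field_simp
    linarith
  · push_cast
    have := mul_le_mul_of_nonneg_right hE2 hq1.le
    have e : ((D : ℝ) * q0 / q1 - 2) * q1 = D * q0 - 2 * q1 := by field_simp
    linarith
  · have hkey : ((D * q0 - E * q1 : ℤ) : ℝ) * α - ξ - ((D * p0 - E * p1 : ℤ) : ℝ) =
        (D / q1 - ξ) + D * (q0 * α - p0 - 1 / q1) - E * (q1 * α - p1) := by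
      push_cast
      field_simp
      ring
    rw [hkey]
    have h6 : 0 ≤ q0 * α - p0 - 1 / q1 := by
      have := L.a0
      linarith
    have h7 : q0 * α - p0 - 1 / q1 ≤ 2 / (q1 : ℝ) ^ 2 := by
      have := L.a0'
      linarith
    have t2 : g * |(D : ℝ) * (q0 * α - p0 - 1 / q1)| ≤ 8 / g := by
      rw [abs_mul, abs_of_nonneg h6]
      calc g * (|(D : ℝ)| * (q0 * α - p0 - 1 / q1)) ≤ g * (4 * q1 * (2 / (q1 : ℝ) ^ 2)) := by
            gcongr
        _ = 8 * g / q1 := by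
            field_simp
            norm_num
        _ = 8 / g := by
            rw [← hg2]
            field_simp
    have t3 : g * |(E : ℝ) * (q1 * α - p1)| ≤ 10 / g := by
      rw [abs_mul, abs_of_nonneg L.a1]
      have h8 : (5 : ℝ) * q0 ≤ 5 * q1 := by linarith
      have h9 : 2 / (q2 : ℝ) ≤ 2 / (q1 : ℝ) ^ 2 := by
        apply div_le_div_of_nonneg_left (by norm_num) (by positivity)
        refine le_trans ?_ f2
        exact pow_le_pow_right₀ (by linarith) (by norm_num)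
      calc g * (|(E : ℝ)| * (q1 * α - p1)) ≤ g * (5 * q1 * (2 / (q1 : ℝ) ^ 2)) := by
            have := L.a1'
            have h10 := L.a1
            gcongr
            · exact hEb.trans h8
            · exact this.trans h9
        _ = 10 * g / q1 := by
            field_simp
            norm_num
        _ = 10 / g := by
            rw [← hg2]
            field_simp
    have t1 : g * |(D : ℝ) / q1 - ξ| ≤ 1 / g + 2 * κ / ε := by
      calc g * |(D : ℝ) / q1 - ξ| ≤ g * (1 / (2 * q1) + κ / u0) := by gcongr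
        _ = g / (2 * q1) + κ * g / u0 := by ring
        _ ≤ 1 / g + 2 * κ / ε := by
            have h11 : g / (2 * (q1 : ℝ)) ≤ 1 / g := by
              rw [← hg2, div_le_div_iff₀ (by positivity) hg0]
              nlinarith
            have h12 : κ * g / u0 ≤ 2 * κ / ε := by
              rw [div_le_div_iff₀ hu0 hε]
              have hκ0 : 0 ≤ κ := abs_nonneg _
              nlinarith
            linarith
    have s1 := abs_sub (((D : ℝ) / q1 - ξ) + D * (q0 * α - p0 - 1 / q1)) (E * (q1 * α - p1))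
    have s2 := abs_add_le ((D : ℝ) / q1 - ξ) (D * (q0 * α - p0 - 1 / q1))
    have s3 := mul_le_mul_of_nonneg_left (s1.trans (add_le_add_left s2 _)) hg0.le
    rw [mul_add, mul_add] at s3
    have e : 19 / g = 1 / g + 8 / g + 10 / g := by
      field_simp
      norm_num
    rw [e]
    linarith
  · have hkey : ((D * q0 - E * q1 : ℤ) : ℝ) * β - y - ((D * b0 - E * b1 - (-n) : ℤ) : ℝ) =
        (D * (u0 / q1) - (y + n)) + D * (q0 * β - b0 - u0 / q1) - E * (q1 * β - b1) := by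
      push_cast
      field_simp
      ring
    rw [hkey]
    have h6 : 0 ≤ q0 * β - b0 - u0 / q1 := by
      have := L.c0
      linarith
    have h7 : q0 * β - b0 - u0 / q1 ≤ 2 / (q1 : ℝ) ^ 2 := by
      have := L.c0'
      linarith
    have t2 : g * |(D : ℝ) * (q0 * β - b0 - u0 / q1)| ≤ 8 / g := by
      rw [abs_mul, abs_of_nonneg h6]
      calc g * (|(D : ℝ)| * (q0 * β - b0 - u0 / q1)) ≤ g * (4 * q1 * (2 / (q1 : ℝ) ^ 2)) := by
            gcongr
        _ = 8 * g / q1 := by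
            field_simp
            norm_num
        _ = 8 / g := by
            rw [← hg2]
            field_simp
    have t3 : g * |(E : ℝ) * (q1 * β - b1)| ≤ 10 / g := by
      rw [abs_mul, abs_of_nonneg L.c1]
      have h8 : (5 : ℝ) * q0 ≤ 5 * q1 := by linarith
      calc g * (|(E : ℝ)| * (q1 * β - b1)) ≤ g * (5 * q1 * (2 / (q1 : ℝ) ^ 2)) := by
            have := L.c1'
            have h10 := L.c1
            gcongr
            exact hEb.trans h8
        _ = 10 * g / q1 := by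
            field_simp
            norm_num
        _ = 10 / g := by
            rw [← hg2]
            field_simp
    have t1 : g * |(D : ℝ) * (u0 / q1) - (y + n)| ≤ ε / 2 := by
      have e : (D : ℝ) * (u0 / q1) - (y + n) = -((q1 * (y + n) / u0 - D) * (u0 / q1)) := by
        field_simp
        ring
      rw [e, abs_neg, abs_mul, abs_of_nonneg (show 0 ≤ (u0 : ℝ) / q1 by positivity)]
      calc g * (|q1 * (y + n) / u0 - D| * (u0 / q1)) ≤ g * (1 / 2 * (ε * g / q1)) := by gcongr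
        _ = ε / 2 * (g ^ 2 / q1) := by ring
        _ = ε / 2 := by rw [hg2, div_self hq1.ne', mul_one]
    have s1 := abs_sub (((D : ℝ) * (u0 / q1) - (y + n)) + D * (q0 * β - b0 - u0 / q1))
      (E * (q1 * β - b1))
    have s2 := abs_add_le ((D : ℝ) * (u0 / q1) - (y + n)) (D * (q0 * β - b0 - u0 / q1))
    have s3 := mul_le_mul_of_nonneg_left (s1.trans (add_le_add_left s2 _)) hg0.le
    rw [mul_add, mul_add] at s3
    have e : 18 / g = 8 / g + 10 / g := by
      field_simp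
      norm_num
    rw [e]
    linarith

/-- **Level estimate for non-singularity.** -/
lemma nonsing (L : Level α β q0 q1 q2 p0 p1 b0 b1 u0 g) (hu : g / 2 ≤ u0) (r P B : ℤ)
    (hr : r ≠ 0) (hrT : |(r : ℝ)| ≤ q1 / 4) (hα : g * |r * α - P| ≤ 1 / 4) :
    1 / 4 < g * |r * β - B| := by
  obtain ⟨f0, f1, f2, f3, f4, f5, f6⟩ := L.facts
  have hg0 : 0 < g := by linarith
  have hq0 : (0 : ℝ) < q0 := by linarith
  have hq1 : (0 : ℝ) < q1 := by linarith
  have hg2 := L.hg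
  by_contra hcon
  rw [not_lt] at hcon
  have ha0 : 0 < q0 * α - p0 := lt_of_lt_of_le (by positivity) L.a0
  have ha0' : q0 * α - p0 ≤ 9 / 8 / q1 := by
    refine L.a0'.trans ?_
    have : 2 / (q1 : ℝ) ^ 2 ≤ 1 / 8 / q1 := by
      rw [div_le_div_iff₀ (by positivity) hq1]
      nlinarith
    have e : 9 / 8 / (q1 : ℝ) = 1 / q1 + 1 / 8 / q1 := by ring
    linarith
  set E : ℤ := r * p0 - q0 * P with hE
  have hE0 : E = 0 := by
    have h1 : |(E : ℝ)| < 1 := by
      have e : (E : ℝ) = q0 * (r * α - P) - r * (q0 * α - p0) := by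
        rw [hE]
        push_cast
        ring
      rw [e]
      refine lt_of_le_of_lt (abs_sub _ _) ?_
      rw [abs_mul, abs_mul, abs_of_pos hq0, abs_of_pos ha0]
      have h2 : (q0 : ℝ) * |r * α - P| ≤ 1 / 4 := by
        refine le_trans ?_ hα
        gcongr
        nlinarith
      have h3 : |(r : ℝ)| * (q0 * α - p0) ≤ q1 / 4 * (9 / 8 / q1) :=
        mul_le_mul hrT ha0' ha0.le (by positivity)
      have h4 : (q1 : ℝ) / 4 * (9 / 8 / q1) = 9 / 32 := by
        field_simp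
        norm_num
      linarith
    have h2 : |E| < 1 := by exact_mod_cast h1
    exact Int.abs_lt_one_iff.1 h2
  set D : ℤ := r * p1 - q1 * P with hD
  have hrDE : r = D * q0 - E * q1 := by
    have h5 := L.det
    rw [hD, hE]
    linear_combination (-r) * h5
  rw [hE0, zero_mul, sub_zero] at hrDE
  have hPD : P = D * p0 := by
    have h1 : r * p0 = q0 * P := by
      rw [hE, sub_eq_zero] at hE0
      exact hE0
    rw [hrDE] at h1
    have hq0' : q0 ≠ 0 := by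
      have := L.hq0
      omega
    have h2 : q0 * P = q0 * (D * p0) := by linarith
    exact mul_left_cancel₀ hq0' h2
  have hD0 : D ≠ 0 := by
    intro h0
    rw [h0, zero_mul] at hrDE
    exact hr hrDE
  have hD1 : (1 : ℝ) ≤ |(D : ℝ)| := by exact_mod_cast Int.one_le_abs hD0
  have hDα : |(r : ℝ) * α - P| = |(D : ℝ)| * (q0 * α - p0) := by
    have e : (r : ℝ) * α - P = D * (q0 * α - p0) := by
      have h1 : (r : ℝ) = D * q0 := by exact_mod_cast hrDE
      have h2 : (P : ℝ) = D * p0 := by exact_mod_cast hPD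
      rw [h1, h2]
      ring
    rw [e, abs_mul, abs_of_pos ha0]
  have hDg : |(D : ℝ)| ≤ g / 4 := by
    rw [hDα] at hα
    have h1 : g * (|(D : ℝ)| * (1 / q1)) ≤ 1 / 4 := by
      refine le_trans ?_ hα
      have := L.a0
      gcongr
    have h2 : g * (|(D : ℝ)| * (1 / q1)) = |(D : ℝ)| / g := by
      rw [← hg2]
      field_simp
    rw [h2, div_le_iff₀ hg0] at h1
    linarith
  have hc0 : 1 / (2 * g) ≤ q0 * β - b0 := by
    refine le_trans ?_ L.c0
    rw [div_le_div_iff₀ (by positivity) hq1, ← hg2]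
    nlinarith
  have hc0p : 0 < q0 * β - b0 := lt_of_lt_of_le (by positivity) hc0
  have hc0' : q0 * β - b0 ≤ 9 / 8 / g := by
    refine L.c0'.trans ?_
    have h1 : (u0 : ℝ) / q1 ≤ 1 / g := by
      rw [div_le_div_iff₀ hq1 hg0, one_mul, ← hg2]
      have := L.hu'
      nlinarith
    have h2 : 2 / (q1 : ℝ) ^ 2 ≤ 1 / 8 / g := by
      rw [div_le_div_iff₀ (by positivity) hg0, ← hg2]
      nlinarith [pow_pos hg0 3]
    have e : 9 / 8 / g = 1 / g + 1 / 8 / g := by ring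
    linarith
  have hrβ : (r : ℝ) * β - B = D * (q0 * β - b0) + ((D * b0 - B : ℤ) : ℝ) := by
    have h1 : (r : ℝ) = D * q0 := by exact_mod_cast hrDE
    rw [h1]
    push_cast
    ring
  have hβ' : |(r : ℝ) * β - B| ≤ 1 / 16 := by
    have h1 : 4 * |(r : ℝ) * β - B| ≤ g * |r * β - B| := by gcongr
    linarith
  have hz : D * b0 - B = 0 := by
    have h1 : |((D * b0 - B : ℤ) : ℝ)| < 1 := by
      have e : ((D * b0 - B : ℤ) : ℝ) = (r * β - B) - D * (q0 * β - b0) := by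
        rw [hrβ]
        ring
      rw [e]
      refine lt_of_le_of_lt (abs_sub _ _) ?_
      rw [abs_mul, abs_of_pos hc0p]
      have h2 : |(D : ℝ)| * (q0 * β - b0) ≤ g / 4 * (9 / 8 / g) :=
        mul_le_mul hDg hc0' hc0p.le (by positivity)
      have h3 : g / 4 * (9 / 8 / g) = 9 / 32 := by
        field_simp
        norm_num
      linarith
    have h2 : |D * b0 - B| < 1 := by exact_mod_cast h1
    exact Int.abs_lt_one_iff.1 h2
  rw [hrβ, hz, Int.cast_zero, add_zero, abs_mul, abs_of_pos hc0p] at hcon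
  have h1 : g * (1 * (1 / (2 * g))) ≤ g * (|(D : ℝ)| * (q0 * β - b0)) := by gcongr
  have h2 : g * (1 * (1 / (2 * g))) = 1 / 2 := by
    field_simp
  linarith

end Level

end Q271.Coset
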