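import Pool.Agent.Q271.CosetCore
import Pool.Agent.Q271.CosetDef

set_option autoImplicit false

/-! # A coset on which half of the targets are badly approximable -/

namespace Q271.Coset

open Matrix MeasureTheory Filter
open scoped ENNReal

/-- the sequences of scales and centres -/
lemma exists_seq : ∃ ε z : ℕ → ℝ, (∀ k, 0 < ε k) ∧ (∀ k, ε k ≤ 1) ∧ (∀ k, 0 ≤ z k) ∧
    (∀ k, z k ≤ 1 / 2) ∧ (∃ᶠ k in atTop, ε k = 1) ∧
    ∀ y c : ℝ, 0 ≤ y → y ≤ 1 / 2 → 0 < c → ∃ᶠ k in atTop, ε k ≤ c ∧ |y - z k| ≤ c * ε k := by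
  let e : ℕ ≃ ℕ × ℚ × ℕ := (Denumerable.eqv (ℕ × ℚ × ℕ)).symm
  have hinf : ∀ (N : ℕ) (r : ℚ), ∃ᶠ k in atTop, (e k).1 = N ∧ (e k).2.1 = r := by
    intro N r
    rw [Nat.frequently_atTop_iff_infinite]
    refine Set.infinite_of_injective_forall_mem (f := fun j : ℕ => e.symm (N, r, j)) ?_ ?_
    · intro j j' h
      have := e.symm.injective h
      simpa using this
    · intro j
      simp
  refine ⟨fun k => 1 / (((e k).1 : ℝ) + 1), fun k => max 0 (min (1 / 2) ((e k).2.1 : ℝ)),
    fun k => by positivity, fun k => ?_, fun k => le_max_left _ _, fun k => ?_, ?_, ?_⟩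
  · rw [div_le_one (by positivity)]
    have : (0 : ℝ) ≤ ((e k).1 : ℝ) := by positivity
    linarith
  · exact max_le (by norm_num) (min_le_left _ _)
  · refine (hinf 0 0).mono fun k hk => ?_
    show 1 / (((e k).1 : ℝ) + 1) = 1
    rw [hk.1]
    norm_num
  · intro y c hy0 hy1 hc
    obtain ⟨N, hN⟩ := exists_nat_one_div_lt hc
    have hpos : (0 : ℝ) < c * (1 / ((N : ℝ) + 1)) := by positivity
    obtain ⟨r, hr1, hr2⟩ := exists_rat_btwn (show y < y + c * (1 / ((N : ℝ) + 1)) by linarith)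
    refine (hinf N r).mono fun k hk => ?_
    show 1 / (((e k).1 : ℝ) + 1) ≤ c ∧ |y - max 0 (min (1 / 2) ((e k).2.1 : ℝ))| ≤
      c * (1 / (((e k).1 : ℝ) + 1))
    rw [hk.1, hk.2]
    refine ⟨hN.le, ?_⟩
    rw [abs_le]
    rcases le_total (1 / 2 : ℝ) r with h | h
    · rw [min_eq_left h, max_eq_right (by norm_num)]
      constructor <;> linarith
    · rw [min_eq_right h, max_eq_right (by linarith)]
      constructor <;> linarith

/-- the column vector `(α, β)` -/
def col (α β : ℝ) : Matrix (Fin 2) (Fin 1) ℝ := Matrix.of ![![α], ![β]]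

lemma norm_fin_one (q : Fin 1 → ℤ) : ‖q‖ = |(q 0 : ℝ)| := by
  rw [Pi.norm_def, Finset.univ_unique, Finset.sup_singleton]
  simp [Int.norm_eq_abs]

lemma norm_fin_two (v : Fin 2 → UnitAddCircle) : ‖v‖ = max ‖v 0‖ ‖v 1‖ := by
  apply le_antisymm
  · rw [pi_norm_le_iff_of_nonneg (le_max_of_le_left (norm_nonneg _))]
    intro i
    fin_cases i
    · exact le_max_left _ _
    · exact le_max_right _ _
  · exact max_le (norm_le_pi_norm v 0) (norm_le_pi_norm v 1)

lemma imageT_col (α β : ℝ) (q : Fin 1 → ℤ) :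
    imageT (col α β) q = ![((q 0 * α : ℝ) : UnitAddCircle), ((q 0 * β : ℝ) : UnitAddCircle)] := by
  funext i
  fin_cases i
  · simp [imageT, col, Matrix.mulVec, dotProduct, mul_comm]
  · simp [imageT, col, Matrix.mulVec, dotProduct, mul_comm]

/-- the norm in the circle as a minimum over integers -/
lemma norm_le_abs (x : ℝ) (P : ℤ) : ‖(x : UnitAddCircle)‖ ≤ |x - P| := by
  rw [UnitAddCircle.norm_eq]
  exact round_le x P

lemma rpow_half (x : ℝ) : x ^ (((1 : ℕ) : ℝ) / ((2 : ℕ) : ℝ)) = √x := by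
  rw [Real.sqrt_eq_rpow]
  norm_num

/-- the point `(ξ, y)` of the torus -/
def pt (ξ : ℝ) (t : UnitAddCircle) : Fin 2 → UnitAddCircle := ![(ξ : UnitAddCircle), t]

lemma norm_image_sub (α β ξ y : ℝ) (q : Fin 1 → ℤ) :
    ‖imageT (col α β) q - pt ξ (y : UnitAddCircle)‖ =
      max ‖((q 0 * α - ξ : ℝ) : UnitAddCircle)‖ ‖((q 0 * β - y : ℝ) : UnitAddCircle)‖ := by
  rw [norm_fin_two, imageT_col]
  rfl

/-- **Main construction.** -/
theorem main : ∃ A : Matrix (Fin 2) (Fin 1) ℝ, ¬ Singular A ∧ ∃ ξ : ℝ,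
    ∀ y : ℝ, 0 ≤ y → y < 1 → (pt ξ (y : UnitAddCircle) ∈ Bad A ↔ 1 / 2 < y) := by
  obtain ⟨ε, z, hε0, hε1, hz0, hz1, hone, hall⟩ := exists_seq
  have hξ2 : |√2| ≤ 2 := by
    rw [abs_of_nonneg (Real.sqrt_nonneg _), Real.sqrt_le_left (by norm_num)]
    norm_num
  obtain ⟨α, β, hbad, hgood, hns⟩ := core (√2) irrational_sqrt_two hξ2 ε z hε0 hε1 hz0 hz1
  refine ⟨col α β, ?_, √2, ?_⟩
  · -- non-singular
    intro hsing
    obtain ⟨T₀, hT₀⟩ := hsing (1 / 8) (by norm_num)
    obtain ⟨T, hT, hT0, hT'⟩ := hns hone T₀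
    obtain ⟨q, hq0, hqT, hq⟩ := hT₀ T hT
    rw [norm_fin_one] at hq0 hqT
    have hr : q 0 ≠ 0 := by
      intro h0
      rw [h0] at hq0
      simp at hq0
    have h1 := hT' (q 0) hr hqT (round (q 0 * α)) (round (q 0 * β))
    have h2 : ‖imageT (col α β) q‖ = max |q 0 * α - round (q 0 * α)| |q 0 * β - round (q 0 * β)| := by
      rw [norm_fin_two, imageT_col]
      show max ‖((q 0 * α : ℝ) : UnitAddCircle)‖ ‖((q 0 * β : ℝ) : UnitAddCircle)‖ = _
      rw [UnitAddCircle.norm_eq, UnitAddCircle.norm_eq]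
    rw [← h2] at h1
    rw [Real.rpow_neg hT0.le, rpow_half] at hq
    have h3 : √T * ‖imageT (col α β) q‖ ≤ √T * (1 / 8 * (√T)⁻¹) := by gcongr
    have h4 : 0 < √T := Real.sqrt_pos.2 hT0
    have h5 : √T * (1 / 8 * (√T)⁻¹) = 1 / 8 := by
      field_simp
    linarith
  · intro y hy0 hy1
    constructor
    · -- bad targets have `y > 1/2`
      rintro ⟨c, hc, R, hR⟩
      by_contra hy
      rw [not_lt] at hy
      obtain ⟨Q, P, B, hQR, hQ⟩ := hgood y (c / 16) (by positivity)
        (hall y (c / 16) hy0 hy (by positivity)) R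
      have h1 := hR (fun _ => Q) (by rw [norm_fin_one]; exact hQR)
      rw [norm_image_sub, rpow_half, norm_fin_one] at h1
      have h2 : max ‖((Q * α - √2 : ℝ) : UnitAddCircle)‖ ‖((Q * β - y : ℝ) : UnitAddCircle)‖ ≤
          max |Q * α - √2 - P| |Q * β - y - B| :=
        max_le_max (norm_le_abs _ _) (norm_le_abs _ _)
      have h3 := mul_le_mul_of_nonneg_left h2 (Real.sqrt_nonneg |(Q : ℝ)|)
      have h4 : c ≤ 8 * (c / 16) := h1.trans (h3.trans hQ)
      linarith
    · intro hy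
      obtain ⟨c, hc, R, hR⟩ := hbad y hy hy1
      refine ⟨c, hc, R, fun q hq => ?_⟩
      rw [norm_fin_one] at hq
      have h1 := hR (q 0) (round (q 0 * α - √2)) (round (q 0 * β - y)) hq
      rw [norm_image_sub, rpow_half, norm_fin_one, UnitAddCircle.norm_eq, UnitAddCircle.norm_eq]
      exact h1.le

/-- the homomorphism `t ↦ (0, t)` -/
def lineHom : (Fin 1 → UnitAddCircle) →+ (Fin 2 → UnitAddCircle) where
  toFun t := ![0, t 0]
  map_zero' := by
    funext i
    fin_cases i <;> rfl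
  map_add' s t := by
    funext i
    fin_cases i
    · exact (add_zero (0 : UnitAddCircle)).symm
    · rfl

lemma continuous_lineHom : Continuous lineHom := by
  apply continuous_pi
  intro i
  fin_cases i
  · exact continuous_const
  · exact continuous_apply 0

lemma injective_lineHom : Function.Injective lineHom := by
  intro s t h
  funext i
  rw [Subsingleton.elim i 0]
  exact congrFun h 1

/-- the Haar probability measure of the coset `(ξ, 0) + {0} × T` -/
noncomputable def lineMeasure (ξ : ℝ) : Measure (Fin 2 → UnitAddCircle) :=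
  Measure.map (fun t => pt ξ 0 + lineHom t) volume

lemma isAlgebraic_lineMeasure (ξ : ℝ) : IsAlgebraic 1 (lineMeasure ξ) :=
  ⟨pt ξ 0, lineHom, continuous_lineHom, injective_lineHom, rfl⟩

lemma measurableEmbedding_line (ξ : ℝ) :
    MeasurableEmbedding (fun t : Fin 1 → UnitAddCircle => pt ξ 0 + lineHom t) := by
  apply Topology.IsClosedEmbedding.measurableEmbedding
  apply Continuous.isClosedEmbedding
  · exact continuous_const.add continuous_lineHom
  · intro s t h
    exact injective_lineHom (add_left_cancel h)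

lemma lineMeasure_apply (ξ : ℝ) (S : Set (Fin 2 → UnitAddCircle)) :
    lineMeasure ξ S = volume {t : Fin 1 → UnitAddCircle | pt ξ (t 0) ∈ S} := by
  rw [lineMeasure, (measurableEmbedding_line ξ).map_apply]
  congr 1
  ext t
  simp only [Set.mem_preimage, Set.mem_ofPred_eq]
  have : pt ξ 0 + lineHom t = pt ξ (t 0) := by
    funext i
    fin_cases i
    · exact add_zero (ξ : UnitAddCircle)
    · exact zero_add (t 0)
  rw [this]

lemma volume_fin_one (S : Set UnitAddCircle) (hS : MeasurableSet S) :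
    volume {t : Fin 1 → UnitAddCircle | t 0 ∈ S} = volume S := by
  have h := (volume_preserving_funUnique (Fin 1) UnitAddCircle).measure_preimage
    hS.nullMeasurableSet
  rw [← h]
  rfl

lemma isProb (ξ : ℝ) : IsProbabilityMeasure (lineMeasure ξ) := by
  constructor
  rw [lineMeasure_apply]
  have h := volume_fin_one Set.univ MeasurableSet.univ
  rw [UnitAddCircle.measure_univ] at h
  exact h

lemma coe_inj {y y' : ℝ} (h : (y' : UnitAddCircle) = (y : UnitAddCircle)) (hlt : |y' - y| < 1) :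
    y' = y := by
  have h1 : ((y' - y : ℝ) : UnitAddCircle) = 0 := by
    rw [AddCircle.coe_sub, h, sub_self]
  obtain ⟨n, hn⟩ := (AddCircle.coe_eq_zero_iff (1 : ℝ)).1 h1
  rw [zsmul_eq_mul, mul_one] at hn
  rw [← hn] at hlt
  have h2 : |n| < 1 := by exact_mod_cast hlt
  have h3 := Int.abs_lt_one_iff.1 h2
  rw [h3] at hn
  have : y' - y = 0 := by
    rw [← hn]
    simp
  linarith

/-- the upper half of the circle has measure `1/2` -/
lemma volume_half : volume ((fun y : ℝ => (y : UnitAddCircle)) '' Set.Ioo (1 / 2) 1) = 1 / 2 := by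
  have hopen : IsOpen ((fun y : ℝ => (y : UnitAddCircle)) '' Set.Ioo (1 / 2) 1) :=
    QuotientAddGroup.isOpenMap_coe _ isOpen_Ioo
  have h := (UnitAddCircle.measurePreserving_mk 0).measure_preimage
    hopen.measurableSet.nullMeasurableSet
  rw [← h, Measure.restrict_apply₀]
  · have e : (fun y : ℝ => (y : UnitAddCircle)) ⁻¹' ((fun y : ℝ => (y : UnitAddCircle)) ''
        Set.Ioo (1 / 2) 1) ∩ Set.Ioc 0 (0 + 1) = Set.Ioo (1 / 2) 1 := by
      ext y
      constructor
      · rintro ⟨⟨y', hy', hyy⟩, hy⟩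
        have h1 : y' = y := by
          refine coe_inj hyy ?_
          have a1 := hy'.1
          have a2 := hy'.2
          have a3 := hy.1
          have a4 := hy.2
          rw [abs_lt]
          constructor <;> linarith
        rw [← h1]
        exact hy'
      · intro hy
        refine ⟨⟨y, hy, rfl⟩, ?_, ?_⟩
        · linarith [hy.1]
        · linarith [hy.2]
    rw [e, Real.volume_Ioo, show (1 : ℝ) - 1 / 2 = 1 / 2 by norm_num,
      ENNReal.ofReal_div_of_pos (by norm_num)]
    simp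
  · exact (hopen.measurableSet.preimage (by fun_prop)).nullMeasurableSet

/-- **Summary.** There is a non-singular `2 × 1` matrix and a one-dimensional algebraic measure
giving measure `1/2` to the badly approximable targets. -/
theorem summary : ∃ A : Matrix (Fin 2) (Fin 1) ℝ, ¬ Singular A ∧
    ∃ μ : Measure (Fin 2 → UnitAddCircle), IsProbabilityMeasure μ ∧ IsAlgebraic 1 μ ∧
      μ (Bad A) = 1 / 2 := by
  obtain ⟨A, hA, ξ, hξ⟩ := main
  refine ⟨A, hA, lineMeasure ξ, isProb ξ, isAlgebraic_lineMeasure ξ, ?_⟩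
  rw [lineMeasure_apply]
  have e : {t : Fin 1 → UnitAddCircle | pt ξ (t 0) ∈ Bad A} =
      {t : Fin 1 → UnitAddCircle | t 0 ∈ (fun y : ℝ => (y : UnitAddCircle)) ''
        Set.Ioo (1 / 2) 1} := by
    ext t
    simp only [Set.mem_ofPred_eq]
    obtain ⟨y, hy, hyt⟩ : ∃ y ∈ Set.Ico (0 : ℝ) (0 + 1), (y : UnitAddCircle) = t 0 := by
      have h := AddCircle.coe_image_Ico_eq (1 : ℝ) 0
      have h1 : t 0 ∈ (fun y : ℝ => (y : UnitAddCircle)) '' Set.Ico (0 : ℝ) (0 + 1) := by
        rw [show ((fun y : ℝ => (y : UnitAddCircle)) '' Set.Ico (0 : ℝ) (0 + 1)) = Set.univ from h]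
        exact Set.mem_univ _
      obtain ⟨y, hy, h2⟩ := h1
      exact ⟨y, hy, h2⟩
    have hy0 : 0 ≤ y := hy.1
    have hy1 : y < 1 := by linarith [hy.2]
    rw [← hyt, hξ y hy0 hy1]
    constructor
    · intro h
      exact ⟨y, ⟨h, hy1⟩, rfl⟩
    · rintro ⟨y', hy', hyy⟩
      have h1 : y' = y := by
        refine coe_inj hyy ?_
        have a1 := hy'.1
        have a2 := hy'.2
        rw [abs_lt]
        constructor <;> linarith
      rw [← h1]
      exact hy'.1
  rw [e, volume_fin_one _ ?_, volume_half]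
  exact (QuotientAddGroup.isOpenMap_coe _ isOpen_Ioo).measurableSet

end Q271.Coset
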