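import Mathlib

set_option autoImplicit false

/-! # Unions of rotated triangular lattices and dense forests -/

namespace Q271.Forest

open Complex Filter Topology
open scoped Real ComplexConjugate

/-- the second generator `1/2 + (√3/2) i` of the triangular lattice -/
noncomputable def tau : ℂ := ⟨1 / 2, √3 / 2⟩

/-- the triangular lattice `ℤ + ℤ tau`; the plane is identified with `ℂ` -/
def Lam : Set ℂ := {z | ∃ m n : ℤ, z = m + n * tau}

/-- union of the sets `r_θ(Λ) + x`; the rotation by the angle `θ` is the multiplication by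
`exp (i θ)` -/
def TBG (k : ℕ) (θ : Fin k → AddCircle (2 * π)) (x : Fin k → ℂ) : Set ℂ :=
  {z | ∃ i : Fin k, ∃ w ∈ Lam, z = (AddCircle.toCircle (θ i) : ℂ) * w + x i}

/-- dense forests in the plane -/
def DenseForest (D : Set ℂ) : Prop :=
  ∀ ε : ℝ, 0 < ε → ∃ V : ℝ, 0 < V ∧ ∀ a b : ℂ, dist a b = V →
    ∃ s ∈ segment ℝ a b, ∃ p ∈ D, dist s p < ε

/-- uniformly discrete sets in the plane -/
def UniformlyDiscrete (D : Set ℂ) : Prop :=
  ∃ r : ℝ, 0 < r ∧ ∀ p ∈ D, ∀ q ∈ D, p ≠ q → r ≤ dist p q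

lemma tau_re : tau.re = 1 / 2 := rfl
lemma tau_im : tau.im = √3 / 2 := rfl

lemma tau_sq : tau * tau = tau - 1 := by
  have h3 : √3 * √3 = 3 := Real.mul_self_sqrt (by norm_num)
  apply Complex.ext
  · simp only [mul_re, tau_re, tau_im, sub_re, one_re]
    linarith
  · simp only [mul_im, tau_re, tau_im, sub_im, one_im]
    ring

lemma conj_tau : conj tau = 1 - tau := by
  apply Complex.ext
  · simp only [conj_re, tau_re, sub_re, one_re]
    norm_num
  · simp only [conj_im, tau_im, sub_im, one_im]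
    ring

lemma one_mem : (1 : ℂ) ∈ Lam := ⟨1, 0, by simp⟩

lemma add_mem {z w : ℂ} (hz : z ∈ Lam) (hw : w ∈ Lam) : z + w ∈ Lam := by
  obtain ⟨m, n, rfl⟩ := hz
  obtain ⟨m', n', rfl⟩ := hw
  exact ⟨m + m', n + n', by push_cast; ring⟩

lemma neg_mem {z : ℂ} (hz : z ∈ Lam) : -z ∈ Lam := by
  obtain ⟨m, n, rfl⟩ := hz
  exact ⟨-m, -n, by push_cast; ring⟩

lemma sub_mem {z w : ℂ} (hz : z ∈ Lam) (hw : w ∈ Lam) : z - w ∈ Lam := by
  rw [sub_eq_add_neg]
  exact add_mem hz (neg_mem hw)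

lemma mul_mem {z w : ℂ} (hz : z ∈ Lam) (hw : w ∈ Lam) : z * w ∈ Lam := by
  obtain ⟨m, n, rfl⟩ := hz
  obtain ⟨m', n', rfl⟩ := hw
  refine ⟨m * m' - n * n', m * n' + n * m' + n * n', ?_⟩
  have h := tau_sq
  push_cast
  linear_combination (n : ℂ) * n' * h

lemma conj_mem {z : ℂ} (hz : z ∈ Lam) : conj z ∈ Lam := by
  obtain ⟨m, n, rfl⟩ := hz
  refine ⟨m + n, -n, ?_⟩
  rw [map_add, map_mul, conj_tau]
  simp only [map_intCast]
  push_cast
  ring

/-- covering radius -/
lemma cover (z : ℂ) : ∃ w ∈ Lam, ‖z - w‖ ≤ 1 := by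
  have h3 : 0 < √3 := by positivity
  set b : ℝ := 2 * z.im / √3 with hb
  set a : ℝ := z.re - b / 2 with ha
  have hz : z = a + b * tau := by
    apply Complex.ext
    · simp only [add_re, ofReal_re, mul_re, ofReal_im, tau_re, tau_im]
      rw [ha]
      ring
    · simp only [add_im, ofReal_re, mul_im, ofReal_im, tau_re, tau_im]
      rw [hb]
      field_simp
      ring
  refine ⟨(round a : ℤ) + (round b : ℤ) * tau, ⟨_, _, rfl⟩, ?_⟩
  have htau : ‖tau‖ = 1 := by
    have h : ‖tau‖ ^ 2 = 1 := by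
      rw [Complex.sq_norm, Complex.normSq_apply, tau_re, tau_im]
      have h3 : √3 * √3 = 3 := Real.mul_self_sqrt (by norm_num)
      linarith
    nlinarith [norm_nonneg tau]
  have e : z - ((round a : ℤ) + (round b : ℤ) * tau) =
      ((a - round a : ℝ) : ℂ) + ((b - round b : ℝ) : ℂ) * tau := by
    conv_lhs => rw [hz]
    push_cast
    ring
  rw [e]
  refine (norm_add_le _ _).trans ?_
  rw [norm_mul, htau, mul_one, Complex.norm_real, Complex.norm_real, Real.norm_eq_abs,
    Real.norm_eq_abs]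
  have h1 := abs_sub_round a
  have h2 := abs_sub_round b
  linarith

lemma cover_scaled (g z : ℂ) : ∃ w ∈ Lam, ‖z - g * w‖ ≤ ‖g‖ ∨ g = 0 := by
  by_cases hg : g = 0
  · exact ⟨1, one_mem, Or.inr hg⟩
  · obtain ⟨w, hw, h⟩ := cover (z / g)
    refine ⟨w, hw, Or.inl ?_⟩
    have e : z - g * w = g * (z / g - w) := by
      field_simp
    rw [e, norm_mul]
    exact mul_le_of_le_one_right (norm_nonneg _) h

/-- If the line `ℝ u` stays away from `α Λ + a` then `u` is a rational direction of `α Λ`. -/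
lemma gap_rational (α a u : ℂ) (hu : ‖u‖ = 1) (ε : ℝ) (hε : 0 < ε)
    (h : ∀ w ∈ Lam, ∀ t : ℝ, ε ≤ ‖α * w + a - t * u‖) :
    ∃ w ∈ Lam, w ≠ 0 ∧ ∃ t : ℝ, α * w = t * u := by
  have huu : u * conj u = 1 := by
    rw [Complex.mul_conj, Complex.normSq_eq_norm_sq, hu]
    norm_num
  have hreal : ∀ z : ℂ, (z * conj u).im = 0 → z = ((z * conj u).re : ℂ) * u := by
    intro z hz
    have h1 : z * conj u = ((z * conj u).re : ℂ) := by
      apply Complex.ext
      · simp
      · simpa using hz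
    rw [← h1, mul_assoc, mul_comm (conj u), huu, mul_one]
  have hgap : ∀ z : ℂ, ‖z - ((z * conj u).re : ℂ) * u‖ = |(z * conj u).im| := by
    intro z
    have h1 : (z - ((z * conj u).re : ℂ) * u) * conj u = ((z * conj u).im : ℂ) * I := by
      rw [sub_mul, mul_assoc, huu, mul_one]
      apply Complex.ext
      · simp
      · simp
    have h2 : ‖(z - ((z * conj u).re : ℂ) * u) * conj u‖ = ‖z - ((z * conj u).re : ℂ) * u‖ := by
      rw [norm_mul, RCLike.norm_conj, hu, mul_one]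
    rw [← h2, h1, norm_mul, Complex.norm_I, mul_one, Complex.norm_real, Real.norm_eq_abs]
  set φ : ℂ → ℝ := fun z => (z * conj u).im with hφ
  have hφadd : ∀ z w, φ (z + w) = φ z + φ w := by
    intro z w
    simp only [hφ, add_mul, add_im]
  have hφint : ∀ (m : ℤ) (z : ℂ), φ (m * z) = m * φ z := by
    intro m z
    simp only [hφ, mul_assoc]
    rw [← Complex.ofReal_intCast, Complex.im_ofReal_mul]
  rcases (AddSubgroup.closure {φ α, φ (α * tau)}).dense_or_cyclic with hd | ⟨s, hs⟩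
  · exfalso
    obtain ⟨y, hy1, hy2⟩ := hd.exists_dist_lt (-φ a) hε
    obtain ⟨m, n, hmn⟩ := AddSubgroup.mem_closure_pair.1 hy1
    have h1 : φ (α * (m + n * tau)) = y := by
      rw [← hmn]
      have e : α * (m + n * tau) = m * α + n * (α * tau) := by ring
      rw [e, hφadd, hφint, hφint, zsmul_eq_mul, zsmul_eq_mul]
    have h2 := h (m + n * tau) ⟨m, n, rfl⟩
      (((α * (m + n * tau) + a) * conj u).re)
    rw [hgap] at h2
    change ε ≤ |φ (α * (m + n * tau) + a)| at h2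
    rw [hφadd, h1] at h2
    rw [Real.dist_eq] at hy2
    have h3 : |-φ a - y| = |y + φ a| := by
      rw [← abs_neg]
      congr 1
      ring
    rw [h3] at hy2
    linarith
  · have hk : φ α ∈ AddSubgroup.closure {s} := by
      rw [← hs]
      exact AddSubgroup.subset_closure (by simp)
    have hl : φ (α * tau) ∈ AddSubgroup.closure {s} := by
      rw [← hs]
      exact AddSubgroup.subset_closure (by simp)
    obtain ⟨k, hk⟩ := AddSubgroup.mem_closure_singleton.1 hk
    obtain ⟨l, hl⟩ := AddSubgroup.mem_closure_singleton.1 hl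
    by_cases hk0 : k = 0
    · refine ⟨1, one_mem, one_ne_zero, _, hreal _ ?_⟩
      rw [mul_one]
      change φ α = 0
      rw [← hk, hk0, zero_smul]
    · refine ⟨l + ((-k : ℤ) : ℂ) * tau, ⟨l, -k, rfl⟩, ?_, _, hreal _ ?_⟩
      · intro h0
        have h1 := congrArg Complex.im h0
        simp only [add_im, intCast_im, mul_im, intCast_re, tau_im, tau_re, zero_im, zero_add,
          zero_mul, add_zero] at h1
        have h3 : 0 < √3 := by positivity
        rcases mul_eq_zero.1 h1 with h4 | h4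
        · apply hk0
          have : (-k : ℤ) = 0 := by exact_mod_cast h4
          omega
        · linarith
      · change φ (α * (l + ((-k : ℤ) : ℂ) * tau)) = 0
        have e : α * (l + ((-k : ℤ) : ℂ) * tau) = l * α + ((-k : ℤ) : ℂ) * (α * tau) := by ring
        rw [e, hφadd, hφint, hφint, ← hk, ← hl, zsmul_eq_mul, zsmul_eq_mul]
        push_cast
        ring

/-- **Two rotated lattices without a common rational direction form a dense forest.** -/
lemma denseForest_of_pair (α β x y : ℂ) (hα : ‖α‖ = 1) (hβ : ‖β‖ = 1)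
    (h : ∀ w ∈ Lam, ∀ w' ∈ Lam, w ≠ 0 → w' ≠ 0 → ∀ t : ℝ, α * w ≠ t * (β * w')) (D : Set ℂ)
    (hD1 : ∀ w ∈ Lam, α * w + x ∈ D) (hD2 : ∀ w ∈ Lam, β * w + y ∈ D) : DenseForest D := by
  intro ε hε
  by_contra hcon
  push Not at hcon
  have hV : ∀ n : ℕ, (0 : ℝ) < 2 * ((n : ℝ) + 1) := fun n => by positivity
  choose A B hAB hfar using fun n : ℕ => hcon (2 * ((n : ℝ) + 1)) (hV n)
  set m : ℕ → ℂ := fun n => (A n + B n) / 2 with hm
  set u : ℕ → ℂ := fun n => (B n - A n) / ((2 * ((n : ℝ) + 1) : ℝ) : ℂ) with hu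
  have hu1 : ∀ n, ‖u n‖ = 1 := by
    intro n
    simp only [hu]
    rw [norm_div, Complex.norm_real, Real.norm_eq_abs, abs_of_pos (hV n)]
    have h1 : ‖B n - A n‖ = 2 * ((n : ℝ) + 1) := by
      rw [← hAB n, dist_eq_norm, norm_sub_rev]
    rw [h1]
    exact div_self (hV n).ne'
  have hseg : ∀ (n : ℕ) (t : ℝ), |t| ≤ (n : ℝ) + 1 → m n + t * u n ∈ segment ℝ (A n) (B n) := by
    intro n t ht
    obtain ⟨ht1, ht2⟩ := abs_le.1 ht
    have hn := hV n
    rw [segment_eq_image']
    refine ⟨(t + ((n : ℝ) + 1)) / (2 * ((n : ℝ) + 1)), ⟨?_, ?_⟩, ?_⟩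
    · apply div_nonneg (by linarith) hn.le
    · rw [div_le_one hn]
      linarith
    · simp only [hm, hu]
      rw [Complex.real_smul]
      have h2 : ((2 * ((n : ℝ) + 1) : ℝ) : ℂ) ≠ 0 := by exact_mod_cast hn.ne'
      push_cast at h2 ⊢
      have h3 : (n : ℂ) + 1 ≠ 0 := by
        intro h0
        apply h2
        rw [h0, mul_zero]
      field_simp
      ring
  -- translated lattices with bounded shifts
  have hα0 : α ≠ 0 := by
    intro h0
    rw [h0, norm_zero] at hα
    exact zero_ne_one hα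
  have hβ0 : β ≠ 0 := by
    intro h0
    rw [h0, norm_zero] at hβ
    exact zero_ne_one hβ
  have hcov : ∀ (γ : ℂ), ‖γ‖ = 1 → γ ≠ 0 → ∀ z : ℂ, ∃ w ∈ Lam, ‖z - γ * w‖ ≤ 1 := by
    intro γ h1 h0 z
    obtain ⟨w, hw, h2⟩ := cover_scaled γ z
    rcases h2 with h2 | h2
    · exact ⟨w, hw, h2.trans h1.le⟩
    · exact absurd h2 h0
  choose w₁ hw₁ hw₁' using fun n => hcov α hα hα0 (x - m n)
  choose w₂ hw₂ hw₂' using fun n => hcov β hβ hβ0 (y - m n)
  let s : ℕ → ℂ × ℂ × ℂ := fun n => (x - m n - α * w₁ n, y - m n - β * w₂ n, u n)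
  have hcomp : IsCompact (Metric.closedBall (0 : ℂ) 1 ×ˢ (Metric.closedBall (0 : ℂ) 1 ×ˢ
      Metric.sphere (0 : ℂ) 1)) :=
    (isCompact_closedBall _ _).prod ((isCompact_closedBall _ _).prod (isCompact_sphere _ _))
  obtain ⟨⟨a, b, v⟩, hmem, ψ, hψ, hlim⟩ := hcomp.tendsto_subseq (x := s) (fun n =>
    ⟨by simpa [s] using hw₁' n, by simpa [s] using hw₂' n, by simpa [s] using hu1 n⟩)
  have hv1 : ‖v‖ = 1 := by simpa using hmem.2.2
  have hla : Tendsto (fun n => (s (ψ n)).1) atTop (𝓝 a) :=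
    (continuous_fst.tendsto _).comp hlim
  have hlb : Tendsto (fun n => (s (ψ n)).2.1) atTop (𝓝 b) :=
    ((continuous_fst.comp continuous_snd).tendsto _).comp hlim
  have hlv : Tendsto (fun n => (s (ψ n)).2.2) atTop (𝓝 v) :=
    ((continuous_snd.comp continuous_snd).tendsto _).comp hlim
  have hlarge : ∀ t : ℝ, ∀ᶠ n in atTop, |t| ≤ (ψ n : ℝ) + 1 := by
    intro t
    have h1 : Tendsto (fun n => ((ψ n : ℕ) : ℝ)) atTop atTop :=
      tendsto_natCast_atTop_atTop.comp hψ.tendsto_atTop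
    filter_upwards [h1.eventually_ge_atTop |t|] with n hn
    linarith
  have hga : ∀ w ∈ Lam, ∀ t : ℝ, ε ≤ ‖α * w + a - t * v‖ := by
    intro w hw t
    have h1 : Tendsto (fun n => ‖α * w + (s (ψ n)).1 - t * (s (ψ n)).2.2‖) atTop
        (𝓝 ‖α * w + a - t * v‖) :=
      ((hla.const_add _).sub (hlv.const_mul _)).norm
    apply ge_of_tendsto h1
    filter_upwards [hlarge t] with n hn
    have h2 := hfar (ψ n) (m (ψ n) + t * u (ψ n)) (hseg _ t hn) (α * (w - w₁ (ψ n)) + x)
      (hD1 _ (sub_mem hw (hw₁ _)))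
    rw [dist_eq_norm, norm_sub_rev] at h2
    refine h2.trans (le_of_eq ?_)
    congr 1
    simp only [s]
    ring
  have hgb : ∀ w ∈ Lam, ∀ t : ℝ, ε ≤ ‖β * w + b - t * v‖ := by
    intro w hw t
    have h1 : Tendsto (fun n => ‖β * w + (s (ψ n)).2.1 - t * (s (ψ n)).2.2‖) atTop
        (𝓝 ‖β * w + b - t * v‖) :=
      ((hlb.const_add _).sub (hlv.const_mul _)).norm
    apply ge_of_tendsto h1
    filter_upwards [hlarge t] with n hn
    have h2 := hfar (ψ n) (m (ψ n) + t * u (ψ n)) (hseg _ t hn) (β * (w - w₂ (ψ n)) + y)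
      (hD2 _ (sub_mem hw (hw₂ _)))
    rw [dist_eq_norm, norm_sub_rev] at h2
    refine h2.trans (le_of_eq ?_)
    congr 1
    simp only [s]
    ring
  obtain ⟨w, hw, hw0, t, ht⟩ := gap_rational α a v hv1 ε hε hga
  obtain ⟨w', hw', hw0', t', ht'⟩ := gap_rational β b v hv1 ε hε hgb
  have ht0 : (t' : ℂ) ≠ 0 := by
    intro h0
    rw [h0, zero_mul] at ht'
    rcases mul_eq_zero.1 ht' with h1 | h1
    · exact hβ0 h1
    · exact hw0' h1
  apply h w hw w' hw' hw0 hw0' (t / t')
  rw [ht, ht']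
  push_cast
  field_simp

/-- **Incommensurable rotated lattices:** the union is not uniformly discrete. -/
lemma not_uniformlyDiscrete_of_pair (α β x y : ℂ) (hα : ‖α‖ = 1) (hβ : ‖β‖ = 1)
    (h : ∀ w ∈ Lam, ∀ w' ∈ Lam, w ≠ 0 → α * w ≠ β * w') (D : Set ℂ)
    (hD1 : ∀ w ∈ Lam, α * w + x ∈ D) (hD2 : ∀ w ∈ Lam, β * w + y ∈ D) :
    ¬ UniformlyDiscrete D := by
  rintro ⟨r, hr, hD⟩
  have hα0 : α ≠ 0 := by
    intro h0
    rw [h0, norm_zero] at hα
    exact zero_ne_one hα
  have hβ0 : β ≠ 0 := by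
    intro h0
    rw [h0, norm_zero] at hβ
    exact zero_ne_one hβ
  -- differences in the unit disc
  have hcov : ∀ z : ℂ, ∃ w ∈ Lam, ‖z - β * w‖ ≤ 1 := by
    intro z
    obtain ⟨w, hw, h2⟩ := cover_scaled β z
    rcases h2 with h2 | h2
    · exact ⟨w, hw, h2.trans hβ.le⟩
    · exact absurd h2 hβ0
  choose g hg hg' using fun n : ℕ => hcov (α * n)
  let s : ℕ → ℂ := fun n => α * n - β * g n
  -- a small nonzero element of the difference group
  have hsmall : ∀ δ : ℝ, 0 < δ → ∃ w ∈ Lam, ∃ w' ∈ Lam, α * w - β * w' ≠ 0 ∧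
      ‖α * w - β * w'‖ < δ := by
    intro δ hδ
    obtain ⟨a, -, ψ, hψ, hlim⟩ := (isCompact_closedBall (0 : ℂ) 1).tendsto_subseq (x := s)
      (fun n => by simpa [s] using hg' n)
    have h1 := Metric.tendsto_atTop.1 hlim (δ / 2) (by positivity)
    obtain ⟨N, hN⟩ := h1
    have h2 := hN N le_rfl
    have h3 := hN (N + 1) (by omega)
    have hlt : ψ N < ψ (N + 1) := hψ (by omega)
    refine ⟨((ψ (N + 1) : ℕ) : ℂ) - ((ψ N : ℕ) : ℂ), ?_, g (ψ (N + 1)) - g (ψ N),
      sub_mem (hg _) (hg _), ?_, ?_⟩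
    · exact ⟨(ψ (N + 1) : ℤ) - ψ N, 0, by push_cast; ring⟩
    · rw [sub_ne_zero]
      apply h _ ⟨(ψ (N + 1) : ℤ) - ψ N, 0, by push_cast; ring⟩ _ (sub_mem (hg _) (hg _))
      rw [sub_ne_zero]
      intro h4
      have : ψ (N + 1) = ψ N := by exact_mod_cast h4
      omega
    · have e : α * (((ψ (N + 1) : ℕ) : ℂ) - ((ψ N : ℕ) : ℂ)) - β * (g (ψ (N + 1)) - g (ψ N)) =
          (s (ψ (N + 1)) - a) - (s (ψ N) - a) := by
        simp only [s]
        ring
      rw [e]
      refine lt_of_le_of_lt (norm_sub_le _ _) ?_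
      rw [← dist_eq_norm, ← dist_eq_norm]
      simp only [Function.comp] at h2 h3
      linarith
  -- the difference group is dense
  have hdense : ∀ (z : ℂ) (δ : ℝ), 0 < δ → ∃ w ∈ Lam, ∃ w' ∈ Lam,
      ‖z - (α * w - β * w')‖ < δ := by
    intro z δ hδ
    obtain ⟨w, hw, w', hw', hne, hlt⟩ := hsmall δ hδ
    obtain ⟨v, hv, hv'⟩ := cover_scaled (α * w - β * w') z
    rcases hv' with hv' | hv'
    · refine ⟨w * v, mul_mem hw hv, w' * v, mul_mem hw' hv, ?_⟩
      have e : α * (w * v) - β * (w' * v) = (α * w - β * w') * v := by ring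
      rw [e]
      exact lt_of_le_of_lt hv' hlt
    · exact absurd hv' hne
  -- close points
  obtain ⟨w, hw, w', hw', hlt⟩ := hdense (y - x + (r / 2 : ℝ)) (r / 2) (by positivity)
  have h1 := hD _ (hD1 w hw) _ (hD2 w' hw')
  have e : α * w + x - (β * w' + y) = (r / 2 : ℝ) -
      (y - x + (r / 2 : ℝ) - (α * w - β * w')) := by ring
  have hne : α * w + x ≠ β * w' + y := by
    intro h0
    rw [h0, sub_self] at e
    have h2 : ((r / 2 : ℝ) : ℂ) = y - x + (r / 2 : ℝ) - (α * w - β * w') := by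
      rw [← sub_eq_zero]
      exact e.symm
    rw [← h2, Complex.norm_real, Real.norm_eq_abs, abs_of_pos (by positivity)] at hlt
    exact lt_irrefl _ hlt
  have h2 := h1 hne
  rw [dist_eq_norm, e] at h2
  have h3 := norm_sub_le ((r / 2 : ℝ) : ℂ) (y - x + (r / 2 : ℝ) - (α * w - β * w'))
  rw [Complex.norm_real, Real.norm_eq_abs, abs_of_pos (show 0 < r / 2 by positivity)] at h3
  linarith

lemma im_mem {z : ℂ} (hz : z ∈ Lam) : ∃ n : ℤ, z.im = n * (√3 / 2) := by
  obtain ⟨m, n, rfl⟩ := hz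
  exact ⟨n, by simp [tau_im]⟩

/-- **Commensurable rotated lattices:** the union is not a dense forest. -/
lemma not_denseForest_of_comm {k : ℕ} (α x : Fin k → ℂ)
    (v : ℂ) (hv : v ≠ 0) (c : Fin k → ℂ) (hc : ∀ i, c i ∈ Lam) (hvc : ∀ i, v = α i * c i) :
    ¬ DenseForest {z | ∃ i : Fin k, ∃ w ∈ Lam, z = α i * w + x i} := by
  have hc0 : ∀ i, c i ≠ 0 := by
    intro i h0
    have := hvc i
    rw [h0, mul_zero] at this
    exact hv this
  -- the possible values of `Im (z / v)`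
  let T : Fin k → Set ℝ := fun i =>
    Set.range (fun n : ℤ => (n : ℝ) * (√3 / 2 / Complex.normSq (c i)) + (x i / v).im)
  have hval : ∀ i, ∀ w ∈ Lam, ((α i * w + x i) / v).im ∈ T i := by
    intro i w hw
    obtain ⟨n, hn⟩ := im_mem (mul_mem hw (conj_mem (hc i)))
    refine ⟨n, ?_⟩
    have hα0 : α i ≠ 0 := by
      intro h0
      have := hvc i
      rw [h0, zero_mul] at this
      exact hv this
    have hns : (Complex.normSq (c i) : ℂ) ≠ 0 := by
      exact_mod_cast (Complex.normSq_pos.2 (hc0 i)).ne'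
    have e : (α i * w + x i) / v = ((Complex.normSq (c i))⁻¹ : ℝ) * (w * conj (c i)) + x i / v := by
      rw [add_div]
      congr 1
      rw [hvc i]
      have h1 : (Complex.normSq (c i) : ℂ) = c i * conj (c i) := (Complex.mul_conj _).symm
      have hcc : conj (c i) ≠ 0 := by
        intro h0
        apply hns
        rw [h1, h0, mul_zero]
      have := hc0 i
      push_cast
      rw [h1]
      field_simp
    rw [e, add_im, Complex.im_ofReal_mul, hn]
    simp only
    ring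
  have hclosed : ∀ i, IsClosed (T i) := by
    intro i
    have hpos : 0 < √3 / 2 / Complex.normSq (c i) := by
      have := Complex.normSq_pos.2 (hc0 i)
      positivity
    have h1 : IsClosed (Set.range (fun n : ℤ => (n : ℝ))) := Int.isClosedEmbedding_coe_real.isClosed_range
    have h2 : T i = (Homeomorph.trans (Homeomorph.mulRight₀ _ hpos.ne')
        (Homeomorph.addRight (x i / v).im)) '' (Set.range (fun n : ℤ => (n : ℝ))) := by
      rw [← Set.range_comp]
      rfl
    rw [h2]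
    exact (Homeomorph.isClosedMap _) _ h1
  have hclosedU : IsClosed (⋃ i, T i) := isClosed_iUnion_of_finite hclosed
  have hcount : (⋃ i, T i).Countable := Set.countable_iUnion fun i => Set.countable_range _
  obtain ⟨y, hy⟩ : ∃ y : ℝ, y ∉ ⋃ i, T i := by
    by_contra h
    push Not at h
    have : (⋃ i, T i) = Set.univ := Set.eq_univ_of_forall h
    rw [this] at hcount
    exact not_countable (Set.countable_univ_iff.1 hcount)
  obtain ⟨δ, hδ, hball⟩ := Metric.isOpen_iff.1 hclosedU.isOpen_compl y hy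
  intro hdf
  obtain ⟨V, hV, hVs⟩ := hdf (‖v‖ * δ) (mul_pos (norm_pos_iff.2 hv) hδ)
  set a : ℂ := v * (y * I) with ha
  set b : ℂ := v * ((V / ‖v‖ : ℝ) + y * I) with hb
  have hvn : 0 < ‖v‖ := norm_pos_iff.2 hv
  have hab : dist a b = V := by
    rw [dist_eq_norm, ha, hb, ← mul_sub]
    have e : (y : ℂ) * I - ((V / ‖v‖ : ℝ) + y * I) = ((-(V / ‖v‖) : ℝ) : ℂ) := by
      push_cast
      ring
    rw [e, norm_mul, Complex.norm_real, Real.norm_eq_abs, abs_neg, abs_of_pos (by positivity)]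
    field_simp
  obtain ⟨s, hs, p, ⟨i, w, hw, rfl⟩, hsp⟩ := hVs a b hab
  rw [segment_eq_image'] at hs
  obtain ⟨t, -, rfl⟩ := hs
  have him : ((a + t • (b - a)) / v).im = y := by
    have e : (a + t • (b - a)) / v = ((t * (V / ‖v‖) : ℝ) : ℂ) + y * I := by
      rw [ha, hb, Complex.real_smul]
      push_cast
      field_simp
      ring
    rw [e]
    simp
  have h1 : ‖v‖ * |((α i * w + x i) / v).im - y| ≤
      dist (a + t • (b - a)) (α i * w + x i) := by
    have h2 : |(((α i * w + x i) - (a + t • (b - a))) / v).im| ≤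
        ‖((α i * w + x i) - (a + t • (b - a))) / v‖ := Complex.abs_im_le_norm _
    rw [sub_div, sub_im, him, ← sub_div, norm_div] at h2
    rw [dist_comm, dist_eq_norm]
    rw [le_div_iff₀ hvn] at h2
    linarith
  have h2 : δ ≤ |((α i * w + x i) / v).im - y| := by
    by_contra h3
    rw [not_le] at h3
    have h4 := hball (show ((α i * w + x i) / v).im ∈ Metric.ball y δ from by
      rw [Metric.mem_ball, Real.dist_eq]
      exact h3)
    exact h4 (Set.mem_iUnion.2 ⟨i, hval i w hw⟩)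
  have h3 := mul_le_mul_of_nonneg_left h2 hvn.le
  linarith

end Q271.Forest
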