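import Pool.Agent.Q271.Forest

set_option autoImplicit false

/-! # Almost every pair of rotations gives a dense forest -/

namespace Q271.Forest

open Complex Filter Topology MeasureTheory
open scoped Real ComplexConjugate

/-- the circle `ℝ / 2π ℤ` carries its length measure -/
instance instTwoPiPos : Fact (0 < 2 * π) := ⟨Real.two_pi_pos⟩

/-- differences of angles leading to a common rational direction -/
def badAngles : Set (AddCircle (2 * π)) :=
  {φ | ∃ w ∈ Lam, ∃ w' ∈ Lam, w ≠ 0 ∧ w' ≠ 0 ∧ ∃ t : ℝ, (AddCircle.toCircle φ : ℂ) * w = t * w'}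

lemma countable_badAngles : badAngles.Countable := by
  have hsub : badAngles ⊆ ⋃ p : (ℤ × ℤ) × (ℤ × ℤ),
      {φ | (p.1.1 : ℂ) + p.1.2 * tau ≠ 0 ∧ (p.2.1 : ℂ) + p.2.2 * tau ≠ 0 ∧
        ∃ t : ℝ, (AddCircle.toCircle φ : ℂ) * (p.1.1 + p.1.2 * tau) =
          t * (p.2.1 + p.2.2 * tau)} := by
    rintro φ ⟨w, ⟨m, n, rfl⟩, w', ⟨m', n', rfl⟩, h1, h2, t, ht⟩
    exact Set.mem_iUnion.2 ⟨((m, n), (m', n')), h1, h2, t, ht⟩
  refine Set.Countable.mono hsub (Set.countable_iUnion fun p => ?_)
  set w : ℂ := (p.1.1 : ℂ) + p.1.2 * tau with hw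
  set w' : ℂ := (p.2.1 : ℂ) + p.2.2 * tau with hw'
  have hinj : Function.Injective (fun φ : AddCircle (2 * π) => (AddCircle.toCircle φ : ℂ)) := by
    intro φ ψ h
    exact AddCircle.injective_toCircle (by positivity) (Circle.ext h)
  have hfin : (({((‖w‖ / ‖w'‖ : ℝ) : ℂ) * (w' / w), -(((‖w‖ / ‖w'‖ : ℝ) : ℂ) * (w' / w))} :
      Set ℂ)).Finite := Set.toFinite _
  refine Set.Finite.countable (Set.Finite.subset (hfin.preimage hinj.injOn) ?_)
  rintro φ ⟨h1, h2, t, ht⟩
  have hn := congrArg norm ht
  rw [norm_mul, norm_mul, Circle.norm_coe, one_mul, Complex.norm_real, Real.norm_eq_abs] at hn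
  have hw0 : 0 < ‖w‖ := norm_pos_iff.2 h1
  have hw0' : 0 < ‖w'‖ := norm_pos_iff.2 h2
  have ht' : |t| = ‖w‖ / ‖w'‖ := by
    rw [hn]
    field_simp
  have hφ : (AddCircle.toCircle φ : ℂ) = t * (w' / w) := by
    rw [eq_comm, ← mul_div_assoc, ← ht]
    field_simp
  show (AddCircle.toCircle φ : ℂ) ∈
    ({((‖w‖ / ‖w'‖ : ℝ) : ℂ) * (w' / w), -(((‖w‖ / ‖w'‖ : ℝ) : ℂ) * (w' / w))} : Set ℂ)
  rw [hφ, ← ht']
  rcases abs_choice t with h3 | h3
  · left
    rw [h3]
  · right
    rw [h3]
    push_cast
    show (t : ℂ) * (w' / w) = -(-(t : ℂ) * (w' / w))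
    ring

/-- hyperplanes in the torus are null sets -/
lemma volume_hyperplane {k : ℕ} (i j : Fin k) (hij : i ≠ j) (c : AddCircle (2 * π)) :
    volume {θ : Fin k → AddCircle (2 * π) | θ i - θ j = c} = 0 := by
  classical
  let A : AddCircle (2 * π) → Set (Fin k → AddCircle (2 * π)) := fun s => {θ | θ i - θ j = c + s}
  have hAm : ∀ s, MeasurableSet (A s) := by
    intro s
    apply IsClosed.measurableSet
    exact isClosed_eq ((continuous_apply i).sub (continuous_apply j)) continuous_const
  have hdisj : Pairwise (Function.onFun Disjoint A) := by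
    intro s s' hss
    rw [Function.onFun, Set.disjoint_left]
    intro θ h1 h2
    apply hss
    have h3 : c + s = c + s' := by
      rw [← (show θ i - θ j = c + s from h1), ← (show θ i - θ j = c + s' from h2)]
    exact add_left_cancel h3
  have hμ : ∀ s, volume (A s) = volume (A 0) := by
    intro s
    have h1 : A 0 = (fun θ => Pi.single i s + θ) ⁻¹' (A s) := by
      ext θ
      simp only [A, Set.mem_ofPred_eq, Set.mem_preimage, Pi.add_apply, Pi.single_eq_same,
        Pi.single_eq_of_ne hij.symm, zero_add, add_zero]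
      constructor
      · intro h
        rw [← h]
        abel
      · intro h
        have h2 : s + (θ i - θ j) = s + c := by
          rw [add_comm s c, ← h]
          abel
        exact add_left_cancel h2
    rw [h1, measure_preimage_add]
  have hcount := Measure.countable_meas_pos_of_disjoint_of_meas_iUnion_ne_top
    (volume : Measure (Fin k → AddCircle (2 * π))) hAm hdisj (measure_ne_top _ _)
  have h0 : volume (A 0) = 0 := by
    by_contra hne
    have huniv : {s | 0 < volume (A s)} = Set.univ := by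
      apply Set.eq_univ_of_forall
      intro s
      show 0 < volume (A s)
      rw [hμ s]
      exact pos_iff_ne_zero.2 hne
    rw [huniv] at hcount
    have h1 : (Set.univ : Set ℝ).Countable := by
      have h2 : (Set.Ico (0 : ℝ) (0 + 2 * π)).Countable := by
        have e := AddCircle.equivIco (2 * π) 0
        have h3 : Countable (AddCircle (2 * π)) := Set.countable_univ_iff.1 hcount
        have h4 : Countable (Set.Ico (0 : ℝ) (0 + 2 * π)) := e.symm.injective.countable
        exact h4
      have h3 := (not_countable_iff.2 (inferInstance : Uncountable ℝ))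
      exfalso
      have h5 : ¬ (Set.Ico (0 : ℝ) (0 + 2 * π)).Countable := by
        apply Cardinal.Real.Ico_countable_iff.not.2
        push Not
        have := Real.two_pi_pos
        linarith
      exact h5 h2
    exact not_countable (Set.countable_univ_iff.1 h1)
  have : {θ : Fin k → AddCircle (2 * π) | θ i - θ j = c} = A 0 := by
    ext θ
    simp [A]
  rw [this, h0]

/-- **For every `k ≥ 2` almost every choice of the parameters gives a dense forest.** -/
theorem ae_denseForest (k : ℕ) (hk : 2 ≤ k) :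
    ∀ᵐ P : (Fin k → AddCircle (2 * π)) × (Fin k → ℂ), DenseForest (TBG k P.1 P.2) := by
  set i : Fin k := ⟨0, by omega⟩ with hi
  set j : Fin k := ⟨1, by omega⟩ with hj
  have hij : i ≠ j := by
    intro h
    have := congrArg Fin.val h
    simp [hi, hj] at this
  have hnull : volume {θ : Fin k → AddCircle (2 * π) | θ i - θ j ∈ badAngles} = 0 := by
    have e : {θ : Fin k → AddCircle (2 * π) | θ i - θ j ∈ badAngles} =
        ⋃ c ∈ badAngles, {θ : Fin k → AddCircle (2 * π) | θ i - θ j = c} := by
      ext θ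
      simp
    rw [e, measure_biUnion_null_iff countable_badAngles]
    exact fun c _ => volume_hyperplane i j hij c
  have hae : ∀ᵐ θ : Fin k → AddCircle (2 * π), θ i - θ j ∉ badAngles := by
    rw [ae_iff]
    simpa using hnull
  have h2 : ∀ᵐ P : (Fin k → AddCircle (2 * π)) × (Fin k → ℂ), P.1 i - P.1 j ∉ badAngles :=
    (Measure.quasiMeasurePreserving_fst (μ := (volume : Measure (Fin k → AddCircle (2 * π))))
      (ν := (volume : Measure (Fin k → ℂ)))).ae hae
  filter_upwards [h2] with P hP
  refine denseForest_of_pair (AddCircle.toCircle (P.1 i) : ℂ) (AddCircle.toCircle (P.1 j) : ℂ)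
    (P.2 i) (P.2 j) (Circle.norm_coe _) (Circle.norm_coe _) ?_ _ ?_ ?_
  · intro w hw w' hw' hw0 hw0' t ht
    apply hP
    refine ⟨w, hw, w', hw', hw0, hw0', t, ?_⟩
    rw [sub_eq_add_neg, AddCircle.toCircle_add, AddCircle.toCircle_neg, Circle.coe_mul,
      Circle.coe_inv]
    have h0 : (AddCircle.toCircle (P.1 j) : ℂ) ≠ 0 := Circle.coe_ne_zero _
    field_simp
    linear_combination ht
  · exact fun w hw => ⟨i, w, hw, rfl⟩
  · exact fun w hw => ⟨j, w, hw, rfl⟩

end Q271.Forest
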