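import Mathlib

/-!
# Slices of sets of small Hausdorff dimension
-/

set_option autoImplicit false

namespace Q271

open MeasureTheory Filter Topology Set
open scoped ENNReal NNReal

variable {X : Type} [MetricSpace X]

/-- a good cover of a null set -/
lemma exists_cover [MeasurableSpace X] [BorelSpace X] (S : Set X) (s : ℝ) (hs : 0 < s)
    (h : μH[s] S = 0) (r ε : ℝ≥0∞) (hr : 0 < r) (hε : 0 < ε) :
    ∃ t : ℕ → Set X, S ⊆ ⋃ n, t n ∧ (∀ n, Metric.ediam (t n) ≤ r) ∧
      ∑' n, Metric.ediam (t n) ^ s < ε := by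
  rw [Measure.hausdorffMeasure_apply] at h
  have h1 : (⨅ (t : ℕ → Set X) (_ : S ⊆ ⋃ n, t n) (_ : ∀ n, Metric.ediam (t n) ≤ r),
      ∑' n, ⨆ _ : (t n).Nonempty, Metric.ediam (t n) ^ s) < ε := by
    refine lt_of_le_of_lt ?_ hε
    rw [← h]
    exact le_iSup₂ (f := fun (r : ℝ≥0∞) (_ : 0 < r) =>
      ⨅ (t : ℕ → Set X) (_ : S ⊆ ⋃ n, t n) (_ : ∀ n, Metric.ediam (t n) ≤ r),
      ∑' n, ⨆ _ : (t n).Nonempty, Metric.ediam (t n) ^ s) r hr
  simp only [iInf_lt_iff] at h1
  obtain ⟨t, ht1, ht2, ht3⟩ := h1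
  refine ⟨t, ht1, ht2, lt_of_le_of_lt (ENNReal.tsum_le_tsum fun n => ?_) ht3⟩
  rcases (t n).eq_empty_or_nonempty with he | hne
  · rw [he, Metric.ediam_empty, ENNReal.zero_rpow_of_pos hs]
    exact bot_le
  · exact le_iSup (f := fun _ : (t n).Nonempty => Metric.ediam (t n) ^ s) hne

/-- **Slices of null sets.** -/
theorem ae_slice_null [MeasurableSpace X] [BorelSpace X] (f : X → ℝ) (hf : LipschitzWith 1 f)
    (S : Set X) (s : ℝ) (hs : 0 < s) (h : μH[s + 1] S = 0) :
    ∀ᵐ y : ℝ, μH[s] (S ∩ f ⁻¹' {y}) = 0 := by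
  have hpos : ∀ k : ℕ, (0:ℝ≥0∞) < (2⁻¹ : ℝ≥0∞) ^ k := fun k =>
    ENNReal.pow_pos (by norm_num) k
  choose t ht1 ht2 ht3 using fun k : ℕ => exists_cover S (s + 1) (by linarith) h
    ((2⁻¹ : ℝ≥0∞) ^ k) ((2⁻¹ : ℝ≥0∞) ^ k) (hpos k) (hpos k)
  have hfin : ∀ k n, Metric.ediam (t k n) ≠ ∞ := fun k n =>
    ne_top_of_le_ne_top (ENNReal.pow_ne_top (by norm_num)) (ht2 k n)
  -- intervals that contain the images
  have hJ : ∀ k n, ∃ c : ℝ, ∀ z ∈ t k n, f z ∈ Metric.closedBall c (Metric.ediam (t k n)).toReal := by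
    intro k n
    rcases (t k n).eq_empty_or_nonempty with he | ⟨z0, hz0⟩
    · exact ⟨0, fun z hz => by rw [he] at hz; exact absurd hz (notMem_empty z)⟩
    · refine ⟨f z0, fun z hz => ?_⟩
      rw [Metric.mem_closedBall]
      have h1 : edist (f z) (f z0) ≤ Metric.ediam (t k n) := by
        refine (hf z z0).trans ?_
        rw [ENNReal.coe_one, one_mul]
        exact Metric.edist_le_ediam_of_mem hz hz0
      rw [dist_edist]
      exact ENNReal.toReal_mono (hfin k n) h1
  choose c hc using hJ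
  set F : ℕ → ℝ → ℝ≥0∞ := fun k y => ∑' n, (Metric.closedBall (c k n)
    (Metric.ediam (t k n)).toReal).indicator (fun _ => Metric.ediam (t k n) ^ s) y with hF
  have hFm : ∀ k, Measurable (F k) := fun k =>
    Measurable.ennreal_tsum fun n => (measurable_const.indicator measurableSet_closedBall)
  have hint : ∀ k, ∫⁻ y, F k y ≤ 2 * (2⁻¹ : ℝ≥0∞) ^ k := by
    intro k
    rw [hF, lintegral_tsum fun n =>
      (measurable_const.indicator measurableSet_closedBall).aemeasurable]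
    calc ∑' n, ∫⁻ y, (Metric.closedBall (c k n) (Metric.ediam (t k n)).toReal).indicator
          (fun _ => Metric.ediam (t k n) ^ s) y
        = ∑' n, 2 * Metric.ediam (t k n) ^ (s + 1) := by
          congr 1
          funext n
          rw [lintegral_indicator_const measurableSet_closedBall, Real.volume_closedBall,
            ENNReal.ofReal_mul (by norm_num), ENNReal.ofReal_toReal (hfin k n),
            ENNReal.rpow_add_of_nonneg s 1 hs.le zero_le_one, ENNReal.rpow_one]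
          norm_num
          ring
      _ = 2 * ∑' n, Metric.ediam (t k n) ^ (s + 1) := ENNReal.tsum_mul_left
      _ ≤ _ := by gcongr; exact (ht3 k).le
  have hsum : ∫⁻ y, ∑' k, F k y ≠ ∞ := by
    rw [lintegral_tsum fun k => (hFm k).aemeasurable]
    apply ne_top_of_le_ne_top _ (ENNReal.tsum_le_tsum hint)
    rw [ENNReal.tsum_mul_left, ENNReal.tsum_geometric]
    norm_num
  have hae : ∀ᵐ y : ℝ, ∑' k, F k y < ∞ := by
    apply ae_lt_top (Measurable.ennreal_tsum hFm) hsum
  filter_upwards [hae] with y hy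
  have hlim : Tendsto (fun k => F k y) atTop (𝓝 0) :=
    ENNReal.tendsto_atTop_zero_of_tsum_ne_top hy.ne
  have h1 := Measure.hausdorffMeasure_le_liminf_tsum (X := X) (β := ℕ) (ι := fun _ => ℕ) s
    (S ∩ f ⁻¹' {y}) (l := atTop) (fun k => (2⁻¹ : ℝ≥0∞) ^ k)
    (ENNReal.tendsto_pow_atTop_nhds_zero_of_lt_one (by norm_num))
    (fun k n => t k n ∩ f ⁻¹' {y})
    (Eventually.of_forall fun k n => (Metric.ediam_mono inter_subset_left).trans (ht2 k n))
    (Eventually.of_forall fun k x hx => by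
      obtain ⟨n, hn⟩ := mem_iUnion.1 (ht1 k hx.1)
      exact mem_iUnion.2 ⟨n, hn, hx.2⟩)
  refine le_antisymm (h1.trans ?_) bot_le
  rw [← hlim.liminf_eq]
  apply liminf_le_liminf (Eventually.of_forall fun k => ?_)
  apply ENNReal.tsum_le_tsum
  intro n
  by_cases hyn : y ∈ Metric.closedBall (c k n) (Metric.ediam (t k n)).toReal
  · rw [indicator_of_mem hyn]
    exact ENNReal.rpow_le_rpow (Metric.ediam_mono inter_subset_left) hs.le
  · have he : t k n ∩ f ⁻¹' {y} = ∅ := by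
      rw [eq_empty_iff_forall_notMem]
      rintro z ⟨hz1, hz2⟩
      apply hyn
      have := hc k n z hz1
      rwa [show f z = y from hz2] at this
    rw [he, Metric.ediam_empty, ENNReal.zero_rpow_of_pos hs]
    exact bot_le

/-- **Dimension from slices.** If almost every slice of `S` has dimension at least `s₀ > 0`,
then `S` has dimension at least `1 + s₀`. -/
theorem le_dimH_of_slices (f : X → ℝ) (hf : LipschitzWith 1 f) (S : Set X) (s₀ : ℝ)
    (hs₀ : 0 < s₀) (h : ∀ᵐ y : ℝ, ENNReal.ofReal s₀ ≤ dimH (S ∩ f ⁻¹' {y})) :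
    ENNReal.ofReal (1 + s₀) ≤ dimH S := by
  borelize X
  by_contra hlt
  push Not at hlt
  have hfin : dimH S ≠ ∞ := (hlt.trans ENNReal.ofReal_lt_top).ne
  have h1 : (dimH S).toReal < 1 + s₀ := by
    have := (ENNReal.lt_ofReal_iff_toReal_lt hfin).1 hlt
    exact this
  obtain ⟨s, hs1, hs2⟩ : ∃ s, max 0 ((dimH S).toReal - 1) < s ∧ s < s₀ :=
    exists_between (max_lt hs₀ (by linarith))
  have hs : 0 < s := lt_of_le_of_lt (le_max_left _ _) hs1
  have hs' : (dimH S).toReal - 1 < s := lt_of_le_of_lt (le_max_right _ _) hs1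
  have h2 : μH[s + 1] S = 0 := by
    have h3 : dimH S < ((Real.toNNReal (s + 1) : ℝ≥0) : ℝ≥0∞) := by
      show dimH S < ENNReal.ofReal (s + 1)
      rw [ENNReal.lt_ofReal_iff_toReal_lt hfin]
      linarith
    have h4 := hausdorffMeasure_of_dimH_lt h3
    rwa [Real.coe_toNNReal _ (by linarith)] at h4
  have h5 := ae_slice_null f hf S s hs h2
  obtain ⟨y, hy1, hy2⟩ := (h.and h5).exists
  have h6 : dimH (S ∩ f ⁻¹' {y}) ≤ ENNReal.ofReal s := by
    have h7 : μH[((Real.toNNReal s : ℝ≥0) : ℝ)] (S ∩ f ⁻¹' {y}) ≠ ∞ := by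
      rw [Real.coe_toNNReal _ hs.le, hy2]
      exact ENNReal.zero_ne_top
    exact dimH_le_of_hausdorffMeasure_ne_top h7
  have h8 := hy1.trans h6
  rw [ENNReal.ofReal_le_ofReal_iff hs.le] at h8
  linarith

end Q271
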