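import Pool.Agent.Q271.LineMain

/-!
# Lines and affine subspaces are of Khintchine type for divergence
-/

set_option autoImplicit false

namespace Pool.Agent.Q271.Line

open Finset MeasureTheory Filter

/-- Almost every point of a line is approximable: version with a normalised function. -/
theorem line_norm {ι : Type} [Fintype ι] (α β : ι → ℝ) (ψ : ℕ → ℝ) (hpos : ∀ q, 0 < ψ q)
    (hle : ∀ q, ψ q ≤ 1) (hanti : Antitone ψ)
    (hdiv : ¬ Summable (fun q : ℕ => ψ q ^ (Fintype.card ι + 1))) :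
    ∀ᵐ x : ℝ, ∀ q0 : ℕ, ∃ q ≥ q0, ∃ p : ℤ, Good α β (ψ q) (ψ q) x q p := by
  have h1 : ∀ R q0 : ℕ, ∀ᵐ x : ℝ, x ∈ Set.Icc (-(R:ℝ)) R →
      ∃ q ≥ q0, ∃ p : ℤ, Good α β (ψ q) (ψ q) x q p := by
    intro R q0
    have h2 := core α β ψ hpos hle hanti hdiv
      {x | x ∈ Set.Icc (-(R:ℝ)) R ∧ ∀ q ≥ q0, ∀ p : ℤ, ¬ Good α β (ψ q) (ψ q) x q p} R q0
      (fun x hx => hx.1) (fun x hx => hx.2)
    rw [ae_iff]
    convert h2 using 2
    ext x
    simp only [Set.mem_setOf_eq]
    push Not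
    rfl
  have h3 : ∀ᵐ x : ℝ, ∀ R q0 : ℕ, x ∈ Set.Icc (-(R:ℝ)) R →
      ∃ q ≥ q0, ∃ p : ℤ, Good α β (ψ q) (ψ q) x q p := by
    rw [ae_all_iff]
    intro R
    rw [ae_all_iff]
    exact h1 R
  filter_upwards [h3] with x hx q0
  obtain ⟨R, hR⟩ := exists_nat_ge |x|
  exact hx R q0 (abs_le.mp hR)

/-- Almost every point of a line `{b + s u}` in `ℝ^n` is `ψ`-approximable. -/
theorem line_ae {n : ℕ} (b u : Fin n → ℝ) (hu : u ≠ 0) (ψ : ℕ → ℝ) (hnn : ∀ q, 0 ≤ ψ q)
    (hanti : Antitone ψ) (hdiv : ¬ Summable (fun q : ℕ => ψ q ^ n)) :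
    ∀ᵐ s : ℝ, ∃ᶠ q : ℕ in atTop, ∀ i : Fin n,
      |(q : ℝ) * (b i + s * u i) - (round ((q : ℝ) * (b i + s * u i)) : ℝ)| < ψ q := by
  classical
  obtain ⟨j, hj⟩ : ∃ j, u j ≠ 0 := by
    by_contra h
    push Not at h
    exact hu (funext h)
  have hn : n ≠ 0 := by
    rintro rfl
    exact j.elim0
  have hpos : ∀ q, 0 < ψ q := by
    intro q
    rcases (hnn q).lt_or_eq with h | h
    · exact h
    · exfalso
      apply hdiv
      apply summable_of_ne_finset_zero (s := Finset.range q)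
      intro q' hq'
      rw [Finset.mem_range, not_lt] at hq'
      have h1 : ψ q' = 0 := le_antisymm ((hanti hq').trans h.symm.le) (hnn q')
      rw [h1, zero_pow hn]
  set α : {i : Fin n // i ≠ j} → ℝ := fun i => u i / u j with hα
  set β : {i : Fin n // i ≠ j} → ℝ := fun i => b i - b j * (u i / u j) with hβ
  set C : ℝ := ∑ i, |α i| with hC
  have hC0 : 0 ≤ C := Finset.sum_nonneg (fun i _ => abs_nonneg _)
  have hαC : ∀ i, |α i| ≤ C := fun i =>
    Finset.single_le_sum (f := fun i => |α i|) (fun i _ => abs_nonneg _) (Finset.mem_univ i)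
  set φ : ℕ → ℝ := fun q => min (ψ q) 1 / (C + 1) with hφ
  have hφpos : ∀ q, 0 < φ q := fun q => div_pos (lt_min (hpos q) one_pos) (by linarith)
  have hφle : ∀ q, φ q ≤ 1 := by
    intro q
    rw [hφ, div_le_one (by linarith)]
    linarith [min_le_right (ψ q) 1]
  have hφanti : Antitone φ := by
    intro a b hab
    simp only [hφ]
    have := hanti hab
    gcongr
  have hcard : Fintype.card {i : Fin n // i ≠ j} + 1 = n := by
    rw [Fintype.card_subtype_compl]
    simp
    omega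
  have hφdiv : ¬ Summable (fun q : ℕ => φ q ^ (Fintype.card {i : Fin n // i ≠ j} + 1)) := by
    rw [hcard]
    intro hs
    apply hdiv
    have h1 : Summable (fun q : ℕ => (min (ψ q) 1) ^ n) := by
      have h2 := hs.mul_left ((C + 1) ^ n)
      refine h2.congr (fun q => ?_)
      rw [hφ, div_pow]
      field_simp
    have h3 : Tendsto (fun q : ℕ => (min (ψ q) 1) ^ n) atTop (nhds 0) := h1.tendsto_atTop_zero
    have h4 : ∀ᶠ q in atTop, ψ q < 1 := by
      have h5 := h3.eventually (gt_mem_nhds (show (0:ℝ) < 1 by norm_num))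
      filter_upwards [h5] with q hq
      by_contra h6
      push Not at h6
      rw [min_eq_right h6, one_pow] at hq
      exact lt_irrefl _ hq
    rw [eventually_atTop] at h4
    obtain ⟨Q, hQ⟩ := h4
    rw [← summable_nat_add_iff Q] at h1 ⊢
    refine h1.congr (fun q => ?_)
    rw [min_eq_left (hQ (q + Q) (by omega)).le]
  have hx := line_norm α β φ hφpos hφle hφanti hφdiv
  have hs : ∀ᵐ s : ℝ, ∀ q0 : ℕ, ∃ q ≥ q0, ∃ p : ℤ, Good α β (φ q) (φ q) (b j + s * u j) q p := by
    rw [ae_iff] at hx ⊢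
    have h1 : {s : ℝ | ¬ ∀ q0 : ℕ, ∃ q ≥ q0, ∃ p : ℤ, Good α β (φ q) (φ q) (b j + s * u j) q p}
        = (fun s => s * u j) ⁻¹' ((fun y => b j + y) ⁻¹'
          {x : ℝ | ¬ ∀ q0 : ℕ, ∃ q ≥ q0, ∃ p : ℤ, Good α β (φ q) (φ q) x q p}) := rfl
    rw [h1, Real.volume_preimage_mul_right hj, measure_preimage_add, hx, mul_zero]
  filter_upwards [hs] with s hs
  rw [frequently_atTop]
  intro q0
  obtain ⟨q, hq, p, hg1, hg2⟩ := hs q0
  refine ⟨q, hq, ?_⟩
  have hφψ : (C + 1) * φ q ≤ ψ q := by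
    rw [hφ]
    have h1 : (C + 1) * (min (ψ q) 1 / (C + 1)) = min (ψ q) 1 := by field_simp
    simp only
    rw [h1]
    exact min_le_left _ _
  intro i
  by_cases hij : i = j
  · rw [hij]
    refine lt_of_le_of_lt (round_le _ p) (lt_of_lt_of_le hg1 ?_)
    have := (hφpos q).le
    nlinarith
  · have h1 := hg2 ⟨i, hij⟩
    have h2 := hαC ⟨i, hij⟩
    set y := α ⟨i, hij⟩ * p + β ⟨i, hij⟩ * q with hy
    have h3 : (q:ℝ) * (b i + s * u i) - (round y : ℝ)
        = (y - round y) + α ⟨i, hij⟩ * ((q:ℝ) * (b j + s * u j) - p) := by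
      rw [hy, hα, hβ]
      simp only
      field_simp
      ring
    refine lt_of_le_of_lt (round_le _ (round y)) ?_
    rw [h3]
    calc |(y - round y) + α ⟨i, hij⟩ * ((q:ℝ) * (b j + s * u j) - p)|
        ≤ |y - round y| + |α ⟨i, hij⟩| * |(q:ℝ) * (b j + s * u j) - p| := by
          rw [← abs_mul]; exact abs_add_le _ _
      _ < φ q + C * φ q := by
          have h4 : |α ⟨i, hij⟩| * |(q:ℝ) * (b j + s * u j) - p| ≤ C * φ q := by
            gcongr
          linarith
      _ = (C + 1) * φ q := by ring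
      _ ≤ ψ q := hφψ

/-- Affine subspaces. -/
theorem affine_ae (n d : ℕ) (hd : 1 ≤ d) (a : Fin n → ℝ)
    (A : (Fin d → ℝ) →ₗ[ℝ] (Fin n → ℝ)) (hA : Function.Injective A)
    (ψ : ℕ → ℝ) (hnn : ∀ q, 0 ≤ ψ q) (hanti : Antitone ψ)
    (hdiv : ¬ Summable (fun q : ℕ => ψ q ^ n)) :
    ∀ᵐ t ∂(volume : Measure (Fin d → ℝ)),
      ∃ᶠ q : ℕ in atTop, ∀ i : Fin n,
        |(q : ℝ) * (a i + A t i) - (round ((q : ℝ) * (a i + A t i)) : ℝ)| < ψ q := by
  set G : Set (Fin d → ℝ) := {t | ∃ᶠ q : ℕ in atTop, ∀ i : Fin n,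
        |(q : ℝ) * (a i + A t i) - (round ((q : ℝ) * (a i + A t i)) : ℝ)| < ψ q} with hG
  have hAc : Continuous A := A.continuous_of_finiteDimensional
  have hmeas : MeasurableSet G := by
    have h1 : G = ⋂ N : ℕ, ⋃ q : ℕ, ⋃ _ : N ≤ q, ⋂ i : Fin n,
        {t | |(q : ℝ) * (a i + A t i) - (round ((q : ℝ) * (a i + A t i)) : ℝ)| < ψ q} := by
      ext t
      simp only [hG, Set.mem_setOf_eq, frequently_atTop, Set.mem_iInter, Set.mem_iUnion,
        exists_prop]
    rw [h1]
    refine MeasurableSet.iInter fun N => MeasurableSet.iUnion fun q => MeasurableSet.iUnion fun _ =>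
      MeasurableSet.iInter fun i => ?_
    apply measurableSet_lt _ measurable_const
    have h2 : Measurable fun t : Fin d → ℝ => (q : ℝ) * (a i + A t i) := by
      apply Continuous.measurable
      have : Continuous fun t : Fin d → ℝ => A t i := (continuous_apply i).comp hAc
      fun_prop
    have h3 : Measurable fun y : ℝ => |y - (round y : ℝ)| := by
      simp only [round_eq]
      fun_prop
    exact h3.comp h2
  set e : Fin d → ℝ := Pi.single ⟨0, by omega⟩ 1 with he
  have hene : e ≠ 0 := by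
    intro h
    have := congrFun h ⟨0, by omega⟩
    simp [he] at this
  have hAe : A e ≠ 0 := by
    intro h
    exact hene (hA (by rw [h, map_zero]))
  have key : ∀ᵐ t ∂(volume : Measure (Fin d → ℝ)), t ∈ G := by
    apply ae_mem_of_ae_add_linearMap_mem (LinearMap.toSpanSingleton ℝ (Fin d → ℝ) e) volume volume
      hmeas
    intro y
    have h1 := line_ae (fun i => a i + A y i) (A e) hAe ψ hnn hanti hdiv
    filter_upwards [h1] with s hs
    simp only [hG, Set.mem_setOf_eq]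
    have h2 : ∀ i, a i + A (y + (LinearMap.toSpanSingleton ℝ (Fin d → ℝ) e) s) i
        = a i + A y i + s * A e i := by
      intro i
      rw [LinearMap.toSpanSingleton_apply, map_add, map_smul, Pi.add_apply, Pi.smul_apply,
        smul_eq_mul]
      ring
    simp only [h2]
    exact hs
  exact key

end Pool.Agent.Q271.Line
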