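import Mathlib

/-!
# Lines are of Khintchine type for divergence: the combinatorial core

`Good α β δ η x q p` says that `|q x - p| < η` and that each `α i * p + β i * q` is within `δ` of an
integer, that is, the integer point `(q, p, p')` lies in a box attached to the point `x` of the line
`x ↦ (x, α x + β)`.
-/

set_option autoImplicit false

namespace Pool.Agent.Q271.Line

open Finset

variable {ι : Type} [Fintype ι]

/-- The integer vector `(q, p)` (completed by nearest integers) is in the box of size `(δ, η)`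
at `x`. -/
def Good (α β : ι → ℝ) (δ η x : ℝ) (q : ℕ) (p : ℤ) : Prop :=
  |(q : ℝ) * x - p| < η ∧
    ∀ i, |(α i * p + β i * q) - (round (α i * p + β i * q) : ℝ)| < δ

theorem abs_sub_round_le_of_fract {x y : ℝ} (K : ℕ) (hK : 0 < K)
    (h : ⌊Int.fract x * K⌋ = ⌊Int.fract y * K⌋) :
    |Int.fract x - Int.fract y| < 1 / K := by
  have h1 := Int.abs_sub_lt_one_of_floor_eq_floor h
  rw [← sub_mul, abs_mul, abs_of_nonneg (by positivity : (0:ℝ) ≤ K)] at h1
  rw [lt_div_iff₀ (by positivity)]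
  exact h1

/-- Dirichlet's theorem for the boxes. -/
theorem dirichlet (α β : ι → ℝ) (x : ℝ) (N : ℕ) (δ η : ℝ) (hδ : 0 < δ) (hδ1 : δ ≤ 1)
    (hη : 0 < η) (hη1 : η ≤ 1)
    (hN : (2:ℝ) ^ (Fintype.card ι + 1) ≤ N * (η * δ ^ Fintype.card ι)) :
    ∃ q : ℕ, 1 ≤ q ∧ q ≤ N ∧ ∃ p : ℤ, Good α β δ η x q p := by
  classical
  set m := Fintype.card ι with hm
  set K1 := ⌈1 / η⌉₊ with hK1
  set K2 := ⌈1 / δ⌉₊ with hK2
  have hK1pos : 0 < K1 := Nat.ceil_pos.mpr (by positivity)
  have hK2pos : 0 < K2 := Nat.ceil_pos.mpr (by positivity)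
  have hK1le : (K1 : ℝ) ≤ 2 / η := by
    have h1 : (K1 : ℝ) < 1 / η + 1 := Nat.ceil_lt_add_one (by positivity)
    have h2 : (1:ℝ) ≤ 1 / η := by rw [le_div_iff₀ hη]; linarith
    have h3 : 2 / η = 1 / η + 1 / η := by ring
    linarith
  have hK2le : (K2 : ℝ) ≤ 2 / δ := by
    have h1 : (K2 : ℝ) < 1 / δ + 1 := Nat.ceil_lt_add_one (by positivity)
    have h2 : (1:ℝ) ≤ 1 / δ := by rw [le_div_iff₀ hδ]; linarith
    have h3 : 2 / δ = 1 / δ + 1 / δ := by ring
    linarith
  have hK1inv : 1 / (K1 : ℝ) ≤ η := by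
    rw [div_le_iff₀ (by positivity)]
    have := Nat.le_ceil (1 / η)
    rw [← hK1, div_le_iff₀ hη] at this
    linarith
  have hK2inv : 1 / (K2 : ℝ) ≤ δ := by
    rw [div_le_iff₀ (by positivity)]
    have := Nat.le_ceil (1 / δ)
    rw [← hK2, div_le_iff₀ hδ] at this
    linarith
  have hprod : K1 * K2 ^ m ≤ N := by
    have h1 : ((K1 * K2 ^ m : ℕ) : ℝ) ≤ N := by
      push_cast
      calc (K1 : ℝ) * (K2:ℝ) ^ m ≤ (2 / η) * (2 / δ) ^ m := by gcongr
        _ = 2 ^ (m + 1) / (η * δ ^ m) := by rw [div_pow, pow_succ]; field_simp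
        _ ≤ N := by
            rw [div_le_iff₀ (by positivity)]
            exact hN
    exact_mod_cast h1
  set f : ℕ → ℤ × (ι → ℤ) := fun q =>
    (⌊Int.fract ((q:ℝ) * x) * K1⌋,
      fun i => ⌊Int.fract (α i * ⌊(q:ℝ) * x⌋ + β i * q) * K2⌋) with hf
  have hmem : ∀ (y : ℝ) (K : ℕ), 0 < K → ⌊Int.fract y * K⌋ ∈ Finset.Ico (0:ℤ) K := by
    intro y K hK
    rw [Finset.mem_Ico]
    constructor
    · exact Int.floor_nonneg.mpr (mul_nonneg (Int.fract_nonneg _) (by positivity))
    · rw [Int.floor_lt]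
      have := Int.fract_lt_one y
      have hK' : (0:ℝ) < K := by exact_mod_cast hK
      have : Int.fract y * K < 1 * K := by
        exact mul_lt_mul_of_pos_right this hK'
      simpa using this
  have hcard : ((Finset.Ico (0:ℤ) K1) ×ˢ (Fintype.piFinset (fun _ : ι => Finset.Ico (0:ℤ) K2))).card
      < (Finset.range (N + 1)).card := by
    rw [Finset.card_product, Fintype.card_piFinset]
    simp only [Int.card_Ico, sub_zero, Int.toNat_natCast, Finset.prod_const, Finset.card_univ,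
      Finset.card_range]
    rw [← hm]
    omega
  obtain ⟨q1, hq1, q2, hq2, hne, hEq⟩ := Finset.exists_ne_map_eq_of_card_lt_of_maps_to hcard
    (f := f) (by
      intro q _
      simp only [Finset.coe_product, Set.mem_prod, Finset.mem_coe, Fintype.mem_piFinset, hf]
      exact ⟨hmem _ _ hK1pos, fun i => hmem _ _ hK2pos⟩)
  wlog hlt : q1 < q2 generalizing q1 q2
  · exact this q2 hq2 q1 hq1 hne.symm hEq.symm (by omega)
  rw [Finset.mem_range] at hq1 hq2
  simp only [hf, Prod.mk.injEq] at hEq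
  obtain ⟨hE1, hE2⟩ := hEq
  refine ⟨q2 - q1, by omega, by omega, ⌊(q2:ℝ) * x⌋ - ⌊(q1:ℝ) * x⌋, ?_, ?_⟩
  · have h1 := abs_sub_round_le_of_fract K1 hK1pos hE1
    rw [abs_sub_comm] at h1
    have h2 : ((q2 - q1 : ℕ) : ℝ) * x - ((⌊(q2:ℝ) * x⌋ - ⌊(q1:ℝ) * x⌋ : ℤ) : ℝ)
        = Int.fract ((q2:ℝ) * x) - Int.fract ((q1:ℝ) * x) := by
      rw [Nat.cast_sub hlt.le, Int.fract, Int.fract]
      push_cast
      ring
    rw [h2]
    linarith
  · intro i
    have h1 := abs_sub_round_le_of_fract K2 hK2pos (congrFun hE2 i)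
    rw [abs_sub_comm] at h1
    set y1 := α i * ⌊(q1:ℝ) * x⌋ + β i * q1
    set y2 := α i * ⌊(q2:ℝ) * x⌋ + β i * q2
    have h2 : α i * ((⌊(q2:ℝ) * x⌋ - ⌊(q1:ℝ) * x⌋ : ℤ) : ℝ) + β i * ((q2 - q1 : ℕ) : ℝ)
        = y2 - y1 := by
      rw [Nat.cast_sub hlt.le]
      push_cast
      ring
    rw [h2]
    have h3 := round_le (y2 - y1) (⌊y2⌋ - ⌊y1⌋)
    have h4 : (y2 - y1) - ((⌊y2⌋ - ⌊y1⌋ : ℤ) : ℝ) = Int.fract y2 - Int.fract y1 := by
      rw [Int.fract, Int.fract]; push_cast; ring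
    rw [h4] at h3
    linarith

/-- A disjoint subfamily carrying a fixed proportion of the total weight. -/
theorem greedy {V : Type} [DecidableEq V] (E : V → Set ℝ) (w : V → ℝ) (C : ℝ)
    (P : V → Prop) (hne : ∀ v, P v → (E v).Nonempty)
    (key : ∀ T : Finset V, (∀ v ∈ T, P v) → T.Nonempty → ∃ v' ∈ T, ∀ S : Finset V, S ⊆ T →
      (∀ v ∈ S, (E v ∩ E v').Nonempty) → ∑ v ∈ S, w v ≤ C * w v') :
    ∀ T : Finset V, (∀ v ∈ T, P v) → ∃ S : Finset V, S ⊆ T ∧
      (∀ v ∈ S, ∀ v' ∈ S, v ≠ v' → Disjoint (E v) (E v')) ∧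
      ∑ v ∈ T, w v ≤ C * ∑ v ∈ S, w v := by
  classical
  intro T
  induction T using Finset.strongInduction with
  | H T ih =>
    intro hT
    rcases T.eq_empty_or_nonempty with rfl | hTne
    · exact ⟨∅, by simp, by simp, by simp⟩
    obtain ⟨v', hv', hv'key⟩ := key T hT hTne
    set T' := T.filter (fun v => ¬ (E v ∩ E v').Nonempty) with hT'
    have hss : T' ⊂ T := by
      rw [Finset.ssubset_iff_of_subset (Finset.filter_subset _ _)]
      refine ⟨v', hv', ?_⟩
      simp only [hT', Finset.mem_filter, not_and, not_not]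
      intro _
      rw [Set.inter_self]
      exact hne _ (hT _ hv')
    obtain ⟨S, hST, hSd, hSsum⟩ := ih T' hss (fun v hv => hT v (hss.1 hv))
    refine ⟨insert v' S, ?_, ?_, ?_⟩
    · exact Finset.insert_subset hv' (hST.trans hss.1)
    · have hd : ∀ v ∈ S, Disjoint (E v) (E v') := by
        intro v hv
        have := hST hv
        simp only [hT', Finset.mem_filter] at this
        exact Set.disjoint_iff_inter_eq_empty.mpr (Set.not_nonempty_iff_eq_empty.mp this.2)
      intro a ha b hb hab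
      rw [Finset.mem_insert] at ha hb
      rcases ha with rfl | ha <;> rcases hb with rfl | hb
      · exact absurd rfl hab
      · exact (hd b hb).symm
      · exact hd a ha
      · exact hSd a ha b hb hab
    · have hv'S : v' ∉ S := by
        intro h
        have := hST h
        simp only [hT', Finset.mem_filter] at this
        apply this.2
        rw [Set.inter_self]
        exact hne _ (hT _ hv')
      rw [Finset.sum_insert hv'S, mul_add,
        ← Finset.sum_filter_add_sum_filter_not T (fun v => (E v ∩ E v').Nonempty)]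
      have h1 := hv'key (T.filter (fun v => (E v ∩ E v').Nonempty)) (Finset.filter_subset _ _)
        (by intro v hv; exact (Finset.mem_filter.mp hv).2)
      linarith

/-- Sum of `1 / q` over a family with boundedly many members in each dyadic block. -/
theorem class_sum {V : Type} [DecidableEq V] (S : Finset V) (q : V → ℕ) (q' : ℕ) (hq' : 1 ≤ q')
    (hq : ∀ v ∈ S, q' ≤ q v) (C : ℕ)
    (hC : ∀ k : ℕ, (S.filter (fun v => Nat.log 2 (q v) = k)).card ≤ C) :
    ∑ v ∈ S, (1:ℝ) / q v ≤ 4 * C / q' := by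
  classical
  set k' := Nat.log 2 q' with hk'
  set K := (S.sup (fun v => Nat.log 2 (q v))) + 1 with hK
  have hmaps : ∀ v ∈ S, Nat.log 2 (q v) ∈ Finset.Ico k' K := by
    intro v hv
    rw [Finset.mem_Ico]
    refine ⟨Nat.log_mono_right (hq v hv), ?_⟩
    have := Finset.le_sup (f := fun v => Nat.log 2 (q v)) hv
    omega
  rw [← Finset.sum_fiberwise_of_maps_to hmaps]
  have h1 : ∀ k ∈ Finset.Ico k' K, ∑ v ∈ S.filter (fun v => Nat.log 2 (q v) = k), (1:ℝ) / q v
      ≤ C * (1/2:ℝ) ^ k := by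
    intro k _
    calc ∑ v ∈ S.filter (fun v => Nat.log 2 (q v) = k), (1:ℝ) / q v
        ≤ ∑ v ∈ S.filter (fun v => Nat.log 2 (q v) = k), (1/2:ℝ) ^ k := by
          apply Finset.sum_le_sum
          intro v hv
          rw [Finset.mem_filter] at hv
          have hpos : 1 ≤ q v := hq'.trans (hq v hv.1)
          have h2 : 2 ^ k ≤ q v := by
            rw [← hv.2]
            exact Nat.pow_log_le_self 2 (by omega)
          rw [div_pow, one_pow]
          apply one_div_le_one_div_of_le (by positivity)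
          exact_mod_cast h2
      _ = (S.filter (fun v => Nat.log 2 (q v) = k)).card * (1/2:ℝ) ^ k := by
          rw [Finset.sum_const, nsmul_eq_mul]
      _ ≤ C * (1/2:ℝ) ^ k := by
          gcongr
          exact_mod_cast hC k
  have hgeo : ∀ K : ℕ, k' ≤ K → ∑ k ∈ Finset.Ico k' K, (1/2:ℝ) ^ k
      = 2 * (1/2:ℝ) ^ k' - 2 * (1/2:ℝ) ^ K := by
    intro K hK
    induction K, hK using Nat.le_induction with
    | base => simp
    | succ n hn ih =>
      rw [Finset.sum_Ico_succ_top hn, ih]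
      ring
  calc ∑ k ∈ Finset.Ico k' K, ∑ v ∈ S.filter (fun v => Nat.log 2 (q v) = k), (1:ℝ) / q v
      ≤ ∑ k ∈ Finset.Ico k' K, C * (1/2:ℝ) ^ k := Finset.sum_le_sum h1
    _ = C * ∑ k ∈ Finset.Ico k' K, (1/2:ℝ) ^ k := by rw [Finset.mul_sum]
    _ ≤ C * (2 * (1/2:ℝ) ^ k') := by
        gcongr
        rcases le_or_gt k' K with h | h
        · rw [hgeo K h]
          have : (0:ℝ) < (1/2) ^ K := by positivity
          linarith
        · rw [Finset.Ico_eq_empty_of_le h.le]
          simp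
    _ ≤ 4 * C / q' := by
        have h3 : (q' : ℝ) < 2 ^ (k' + 1) := by
          exact_mod_cast Nat.lt_pow_succ_log_self (by norm_num) q'
        have h4 : (0:ℝ) < q' := by exact_mod_cast hq'
        rw [le_div_iff₀ h4, div_pow, one_pow]
        have h5 : (C:ℝ) * (2 * (1 / 2 ^ k')) * q' ≤ (C:ℝ) * (2 * (1 / 2 ^ k')) * 2 ^ (k' + 1) := by
          gcongr
        have h6 : (C:ℝ) * (2 * (1 / 2 ^ k')) * 2 ^ (k' + 1) = 4 * C := by
          rw [pow_succ]; field_simp; ring
        linarith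

/-- Abel summation in the form needed below. -/
theorem abel (ψ : ℕ → ℝ) (hpos : ∀ q, 0 ≤ ψ q) (hanti : Antitone ψ) (m : ℕ) (a : ℕ → ℝ)
    (c C1 : ℝ) (hc : 0 ≤ c) (M : ℕ)
    (hS : ∀ N ≤ M, c * (N * ψ N ^ m) - C1 ≤ ∑ q ∈ Finset.range (N + 1), a q) :
    c / (m + 1) * ∑ N ∈ Finset.range M, ψ (N + 1) ^ (m + 1) - C1 * ψ 0
      ≤ ∑ q ∈ Finset.range (M + 1), ψ q * a q := by
  have hstep : ∀ x y : ℝ, 0 ≤ y → y ≤ x → x ^ (m + 1) - y ^ (m + 1) ≤ (m + 1) * (x ^ m * (x - y)) := by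
    intro x y hy hxy
    have h1 : x ^ (m + 1) - y ^ (m + 1) = (∑ i ∈ Finset.range (m + 1), x ^ i * y ^ (m - i)) * (x - y) := by
      have := (Commute.all x y).geom_sum₂_mul (m + 1)
      simpa using this.symm
    rw [h1]
    have h2 : ∑ i ∈ Finset.range (m + 1), x ^ i * y ^ (m - i) ≤ ∑ i ∈ Finset.range (m + 1), x ^ m := by
      apply Finset.sum_le_sum
      intro i hi
      rw [Finset.mem_range] at hi
      calc x ^ i * y ^ (m - i) ≤ x ^ i * x ^ (m - i) := by
            have : 0 ≤ x := hy.trans hxy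
            gcongr
        _ = x ^ m := by rw [← pow_add]; congr 1; omega
    rw [Finset.sum_const, Finset.card_range, nsmul_eq_mul] at h2
    push_cast at h2
    have h3 : 0 ≤ x - y := by linarith
    calc _ ≤ ((m + 1 : ℝ) * x ^ m) * (x - y) := by gcongr
      _ = _ := by ring
  have main : ∀ M' ≤ M, ψ M' * (∑ q ∈ Finset.range (M' + 1), a q)
      - c / (m + 1) * (M' * ψ M' ^ (m + 1))
      + c / (m + 1) * ∑ N ∈ Finset.range M', ψ (N + 1) ^ (m + 1) - C1 * (ψ 0 - ψ M')
      ≤ ∑ q ∈ Finset.range (M' + 1), ψ q * a q := by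
    intro M' hM'
    induction M' with
    | zero => simp
    | succ M' ih =>
      have ih := ih (by omega)
      rw [Finset.sum_range_succ (fun q => ψ q * a q) (M' + 1),
        Finset.sum_range_succ a (M' + 1),
        Finset.sum_range_succ (fun N => ψ (N + 1) ^ (m + 1)) M']
      have h1 := hS M' (by omega)
      have h2 : 0 ≤ ψ M' - ψ (M' + 1) := by linarith [hanti (Nat.le_succ M')]
      have h3 := hstep (ψ M') (ψ (M' + 1)) (hpos _) (by linarith)
      have h4 : c * (M' * ψ M' ^ m) * (ψ M' - ψ (M' + 1)) - C1 * (ψ M' - ψ (M' + 1))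
          ≤ (∑ q ∈ Finset.range (M' + 1), a q) * (ψ M' - ψ (M' + 1)) := by
        rw [← sub_mul]
        exact mul_le_mul_of_nonneg_right h1 h2
      have h5 : c / (m + 1) * M' * (ψ M' ^ (m + 1) - ψ (M' + 1) ^ (m + 1))
          ≤ c * (M' * ψ M' ^ m) * (ψ M' - ψ (M' + 1)) := by
        calc c / (m + 1) * M' * (ψ M' ^ (m + 1) - ψ (M' + 1) ^ (m + 1))
            ≤ c / (m + 1) * M' * ((m + 1) * (ψ M' ^ m * (ψ M' - ψ (M' + 1)))) := by
              gcongr
          _ = _ := by field_simp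
      push_cast
      set A := ∑ q ∈ Finset.range (M' + 1), a q
      set B := ∑ q ∈ Finset.range (M' + 1), ψ q * a q
      set D := ∑ N ∈ Finset.range M', ψ (N + 1) ^ (m + 1)
      have h6 : c / (m + 1) * M' * (ψ M' ^ (m + 1) - ψ (M' + 1) ^ (m + 1))
          - C1 * (ψ M' - ψ (M' + 1)) ≤ A * (ψ M' - ψ (M' + 1)) := by linarith
      linear_combination ih + h6
  have h := main M le_rfl
  have hM := hS M le_rfl
  have h1 : c / (m + 1) * (M * ψ M ^ (m + 1)) ≤ c * (M * ψ M ^ m) * ψ M := by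
    have h2 : c / (m + 1) ≤ c := div_le_self hc (by linarith [(Nat.cast_nonneg m : (0:ℝ) ≤ m)])
    have h3 : 0 ≤ M * ψ M ^ (m + 1) := mul_nonneg (Nat.cast_nonneg _) (pow_nonneg (hpos _) _)
    calc c / (m + 1) * (M * ψ M ^ (m + 1)) ≤ c * (M * ψ M ^ (m + 1)) :=
          mul_le_mul_of_nonneg_right h2 h3
      _ = _ := by rw [pow_succ]; ring
  have h2 : (c * (M * ψ M ^ m) - C1) * ψ M ≤ (∑ q ∈ Finset.range (M + 1), a q) * ψ M :=
    mul_le_mul_of_nonneg_right hM (hpos _)
  nlinarith [h, h1, h2]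

end Pool.Agent.Q271.Line
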