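import Pool.Agent.Q271.LineMult

/-!
# Lines are of Khintchine type for divergence
-/

set_option autoImplicit false

namespace Pool.Agent.Q271.Line

open Finset MeasureTheory

variable {ι : Type} [Fintype ι]

/-- The vectors which are minimal for some point of `F` at some record level. -/
def Used (α β : ι → ℝ) (ψ : ℕ → ℝ) (F : Set ℝ) (v : ℕ × ℤ) : Prop :=
  ∃ N x, Rec ψ (Fintype.card ι) N ∧ x ∈ F ∧ IsMin α β ψ N x v.1 v.2

/-- The interval of points that `v` approximates. -/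
def Ev (ψ : ℕ → ℝ) (v : ℕ × ℤ) : Set ℝ :=
  Set.Ioo ((v.2 - ψ v.1) / v.1) ((v.2 + ψ v.1) / v.1)

theorem mem_interval {q : ℕ} (hq : 1 ≤ q) (p : ℤ) (y δ : ℝ) :
    y ∈ Set.Ioo (((p:ℝ) - δ) / q) ((p + δ) / q) ↔ |(q:ℝ) * y - p| < δ := by
  have hq' : (0:ℝ) < q := by exact_mod_cast hq
  rw [Set.mem_Ioo, div_lt_iff₀ hq', lt_div_iff₀ hq', abs_lt]
  constructor
  · rintro ⟨h1, h2⟩; constructor <;> linarith
  · rintro ⟨h1, h2⟩; constructor <;> linarith

/-- **Upper bound.** The intervals of used vectors have bounded total length. -/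
theorem upper (α β : ι → ℝ) (ψ : ℕ → ℝ) (hpos : ∀ q, 0 < ψ q) (hle : ∀ q, ψ q ≤ 1)
    (hanti : Antitone ψ) (F : Set ℝ) (R q0 : ℕ) (hF : F ⊆ Set.Icc (-R) R)
    (havoid : ∀ x ∈ F, ∀ q ≥ q0, ∀ p : ℤ, ¬ Good α β (ψ q) (ψ q) x q p)
    (T : Finset (ℕ × ℤ)) (hT : ∀ v ∈ T, Used α β ψ F v ∧ q0 ≤ v.1) :
    ∑ v ∈ T, 2 * (ψ v.1 / v.1) ≤ 2 ^ (Fintype.card ι + 8) * (2 * R + 4) := by
  classical
  set m := Fintype.card ι with hm
  -- witnesses
  choose! Nf xf hrec hxF hmin using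
    (fun (v : ℕ × ℤ) (hv : Used α β ψ F v) => hv)
  have hq1 : ∀ v, Used α β ψ F v → 1 ≤ v.1 := fun v hv => (hmin v hv).1
  have hψN : ∀ v, Used α β ψ F v → ψ (Nf v) ≤ ψ v.1 := fun v hv => hanti (hmin v hv).2.1
  -- points of F are not approximated by used vectors
  have hfar : ∀ v, Used α β ψ F v → q0 ≤ v.1 → ∀ x ∈ F, ψ v.1 ≤ |(v.1:ℝ) * x - v.2| := by
    intro v hv hv0 x hx
    by_contra h
    push Not at h
    exact havoid x hx v.1 hv0 v.2 ⟨h, fun i => lt_of_lt_of_le ((hmin v hv).2.2.1.2 i) (hψN v hv)⟩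
  have hψη : ∀ v, Used α β ψ F v → q0 ≤ v.1 → ψ v.1 < eta ψ m (Nf v) := by
    intro v hv hv0
    exact lt_of_le_of_lt (hfar v hv hv0 _ (hxF v hv)) (hmin v hv).2.2.1.1
  -- the key overlap estimate
  have hcross : ∀ v, Used α β ψ F v → q0 ≤ v.1 → ∀ v', Used α β ψ F v' → q0 ≤ v'.1 →
      (Ev ψ v ∩ Ev ψ v').Nonempty →
      |(v.1:ℝ) * ((v'.2 - ψ v'.1) / v'.1) - v.2| < eta ψ m (Nf v) ∨
      |(v.1:ℝ) * ((v'.2 + ψ v'.1) / v'.1) - v.2| < eta ψ m (Nf v) := by
    intro v hv hv0 v' hv' hv0' hne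
    obtain ⟨y, hy1, hy2⟩ := hne
    have hy1' := (mem_interval (hq1 v hv) v.2 y (ψ v.1)).1 hy1
    have hyI : y ∈ Set.Ioo (((v.2:ℝ) - eta ψ m (Nf v)) / v.1) ((v.2 + eta ψ m (Nf v)) / v.1) :=
      (mem_interval (hq1 v hv) v.2 y _).2 (lt_trans hy1' (hψη v hv hv0))
    have hxI : xf v ∈ Set.Ioo (((v.2:ℝ) - eta ψ m (Nf v)) / v.1) ((v.2 + eta ψ m (Nf v)) / v.1) :=
      (mem_interval (hq1 v hv) v.2 _ _).2 (hmin v hv).2.2.1.1
    have hxE : xf v ∉ Ev ψ v' := by
      intro h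
      have h1 := (mem_interval (hq1 v' hv') v'.2 (xf v) (ψ v'.1)).1 h
      exact absurd h1 (not_lt.mpr (hfar v' hv' hv0' _ (hxF v hv)))
    rw [Ev, Set.mem_Ioo] at hy2 hxE
    rw [Set.mem_Ioo] at hyI hxI
    rcases le_or_gt (xf v) ((v'.2 - ψ v'.1) / v'.1) with h1 | h1
    · left
      rw [← mem_interval (hq1 v hv)]
      exact ⟨by linarith, by linarith⟩
    · right
      have h2 : ¬ xf v < (v'.2 + ψ v'.1) / v'.1 := fun h2 => hxE ⟨h1, h2⟩
      push Not at h2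
      rw [← mem_interval (hq1 v hv)]
      exact ⟨by linarith, by linarith⟩
  have hside : ∀ (e : ℝ) (q' : ℕ), 1 ≤ q' → ∀ S : Finset (ℕ × ℤ),
      (∀ v ∈ S, Used α β ψ F v ∧ q0 ≤ v.1 ∧ q' ≤ v.1 ∧ |(v.1:ℝ) * e - v.2| < eta ψ m (Nf v)) →
      ∑ v ∈ S, 2 * (ψ v.1 / v.1) ≤ 2 ^ (m + 7) * (2 * (ψ q' / q')) := by
    intro e q' hq' S hS
    have h1 := class_sum S (fun v => v.1) q' hq' (fun v hv => (hS v hv).2.2.1) (2 ^ (m + 5)) (by
      intro k
      apply mult α β ψ hanti (S.filter (fun v => Nat.log 2 v.1 = k)) k e Nf xf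
      · intro v hv
        exact hrec v (hS v (Finset.mem_filter.mp hv).1).1
      · intro v hv
        exact hmin v (hS v (Finset.mem_filter.mp hv).1).1
      · intro v hv
        exact (Finset.mem_filter.mp hv).2
      · intro v hv
        exact (hS v (Finset.mem_filter.mp hv).1).2.2.2)
    calc ∑ v ∈ S, 2 * (ψ v.1 / v.1) ≤ ∑ v ∈ S, 2 * ψ q' * (1 / (v.1:ℝ)) := by
          apply Finset.sum_le_sum
          intro v hv
          have h2 : ψ v.1 ≤ ψ q' := hanti (hS v hv).2.2.1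
          have h3 : (0:ℝ) < v.1 := by
            have := hq1 v (hS v hv).1
            exact_mod_cast this
          rw [mul_one_div, ← mul_div_assoc]
          gcongr
      _ = 2 * ψ q' * ∑ v ∈ S, 1 / (v.1:ℝ) := by rw [Finset.mul_sum]
      _ ≤ 2 * ψ q' * (4 * ((2 ^ (m + 5) : ℕ) : ℝ) / q') := by
          have := (hpos q').le
          gcongr
      _ = 2 ^ (m + 7) * (2 * (ψ q' / q')) := by
          push_cast
          rw [pow_add, pow_add]; ring
  obtain ⟨S, hST, hSd, hSsum⟩ := greedy (Ev ψ) (fun v => 2 * (ψ v.1 / v.1)) (2 ^ (m + 8))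
    (fun v => Used α β ψ F v ∧ q0 ≤ v.1) (by
      intro v hv
      refine ⟨v.2 / v.1, ?_⟩
      have h1 : (0:ℝ) < v.1 := by exact_mod_cast hq1 v hv.1
      have := hpos v.1
      exact (mem_interval (hq1 v hv.1) v.2 _ _).2 (by
        rw [mul_div_cancel₀ _ h1.ne', sub_self, abs_zero]; exact this)) (by
      intro T hT hTne
      obtain ⟨v', hv', hv'min⟩ := Finset.exists_min_image T (fun v => v.1) hTne
      refine ⟨v', hv', ?_⟩
      intro S hST hSn
      set e1 := ((v'.2 : ℝ) - ψ v'.1) / v'.1 with he1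
      set e2 := ((v'.2 : ℝ) + ψ v'.1) / v'.1 with he2
      rw [← Finset.sum_filter_add_sum_filter_not S
        (fun v => |(v.1:ℝ) * e1 - v.2| < eta ψ m (Nf v))]
      have hq' := hq1 v' (hT v' hv').1
      have h1 := hside e1 v'.1 hq' (S.filter (fun v => |(v.1:ℝ) * e1 - v.2| < eta ψ m (Nf v)))
        (by
          intro v hv
          rw [Finset.mem_filter] at hv
          exact ⟨(hT v (hST hv.1)).1, (hT v (hST hv.1)).2, hv'min v (hST hv.1), hv.2⟩)
      have h2 := hside e2 v'.1 hq' (S.filter (fun v => ¬ |(v.1:ℝ) * e1 - v.2| < eta ψ m (Nf v)))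
        (by
          intro v hv
          rw [Finset.mem_filter] at hv
          refine ⟨(hT v (hST hv.1)).1, (hT v (hST hv.1)).2, hv'min v (hST hv.1), ?_⟩
          rcases hcross v (hT v (hST hv.1)).1 (hT v (hST hv.1)).2 v' (hT v' hv').1 (hT v' hv').2
            (hSn v hv.1) with h | h
          · exact absurd h hv.2
          · exact h)
      have h3 : (2:ℝ) ^ (m + 8) = 2 ^ (m + 7) + 2 ^ (m + 7) := by
        rw [pow_succ]; ring
      rw [h3, add_mul]
      exact add_le_add h1 h2) T hT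
  refine hSsum.trans ?_
  apply mul_le_mul_of_nonneg_left _ (by positivity)
  -- disjoint intervals inside a bounded interval
  have hvol : ∀ v ∈ S, volume (Ev ψ v) = ENNReal.ofReal (2 * (ψ v.1 / v.1)) := by
    intro v _
    rw [Ev, Real.volume_Ioo]
    congr 1
    ring
  have hsub : (⋃ v ∈ S, Ev ψ v) ⊆ Set.Icc (-(R:ℝ) - 2) (R + 2) := by
    intro y hy
    simp only [Set.mem_iUnion, exists_prop] at hy
    obtain ⟨v, hv, hyv⟩ := hy
    have hU := (hT v (hST hv)).1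
    have hv1 := hq1 v hU
    have hv1' : (1:ℝ) ≤ v.1 := by exact_mod_cast hv1
    have h1 := (mem_interval hv1 v.2 y _).1 hyv
    have h2 := (hmin v hU).2.2.1.1
    have h3 := (hrec v hU).eta_le_one
    have h4 := hF (hxF v hU)
    have h5 := hle v.1
    have h6 : (v.1:ℝ) * |y - xf v| < 2 := by
      have h7 : (v.1:ℝ) * |y - xf v| = |(v.1:ℝ) * (y - xf v)| := by
        rw [abs_mul, abs_of_nonneg (by linarith : (0:ℝ) ≤ (v.1:ℝ))]
      have h8 : (v.1:ℝ) * (y - xf v) = ((v.1:ℝ) * y - v.2) - ((v.1:ℝ) * xf v - v.2) := by ring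
      rw [h7, h8]
      calc _ ≤ |((v.1:ℝ) * y - v.2)| + |((v.1:ℝ) * xf v - v.2)| := abs_sub _ _
        _ < 2 := by linarith
    have h9 : |y - xf v| < 2 := by
      have := abs_nonneg (y - xf v)
      nlinarith
    rw [abs_lt] at h9
    rw [Set.mem_Icc] at h4 ⊢
    constructor <;> linarith [h4.1, h4.2]
  have hmeas : volume (⋃ v ∈ S, Ev ψ v) = ∑ v ∈ S, volume (Ev ψ v) := by
    apply measure_biUnion_finset
    · intro v hv v' hv' hne
      exact hSd v hv v' hv' hne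
    · intro v _
      exact measurableSet_Ioo
  have h1 : ∑ v ∈ S, volume (Ev ψ v) ≤ ENNReal.ofReal (2 * R + 4) := by
    rw [← hmeas]
    refine (measure_mono hsub).trans ?_
    rw [Real.volume_Icc]
    apply ENNReal.ofReal_le_ofReal
    linarith
  rw [Finset.sum_congr rfl hvol, ← ENNReal.ofReal_sum_of_nonneg] at h1
  · rwa [ENNReal.ofReal_le_ofReal_iff (by positivity)] at h1
  · intro v _
    have := (hpos v.1).le
    positivity

end Pool.Agent.Q271.Line
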