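import Pool.Agent.Q271.LineCore

/-!
# Lines are of Khintchine type for divergence: conclusion
-/

set_option autoImplicit false

namespace Pool.Agent.Q271.Line

open Finset MeasureTheory

variable {ι : Type} [Fintype ι]

/-- Every number has a record at or below it. -/
theorem exists_record (ψ : ℕ → ℝ) (m N : ℕ) (hN : (2:ℝ) ^ (m + 1) ≤ hh ψ m N) (hN1 : 1 ≤ N) :
    ∃ N' ≤ N, Rec ψ m N' ∧ hh ψ m N ≤ hh ψ m N' := by
  obtain ⟨N', hN', hmax⟩ := Finset.exists_max_image (Finset.Icc 1 N) (hh ψ m)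
    ⟨N, Finset.mem_Icc.mpr ⟨hN1, le_rfl⟩⟩
  rw [Finset.mem_Icc] at hN'
  have h1 := hmax N (Finset.mem_Icc.mpr ⟨hN1, le_rfl⟩)
  refine ⟨N', hN'.2, ⟨hN'.1, hN.trans h1, ?_⟩, h1⟩
  intro M hM
  rcases Nat.eq_zero_or_pos M with rfl | hM0
  · have h2 : (0:ℝ) < 2 ^ (m + 1) := by positivity
    have h3 : hh ψ m 0 = 0 := by simp [hh]
    rw [h3]
    linarith
  · exact hmax M (Finset.mem_Icc.mpr ⟨hM0, hM.trans hN'.2⟩)

/-- The core: the points of the line which are not approximated beyond `q0` form a null set. -/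
theorem core (α β : ι → ℝ) (ψ : ℕ → ℝ) (hpos : ∀ q, 0 < ψ q) (hle : ∀ q, ψ q ≤ 1)
    (hanti : Antitone ψ) (hdiv : ¬ Summable (fun q : ℕ => ψ q ^ (Fintype.card ι + 1)))
    (F : Set ℝ) (R q0 : ℕ) (hF : F ⊆ Set.Icc (-R) R)
    (havoid : ∀ x ∈ F, ∀ q ≥ q0, ∀ p : ℤ, ¬ Good α β (ψ q) (ψ q) x q p) :
    volume F = 0 := by
  classical
  set m := Fintype.card ι with hm
  by_contra hne
  have hfin : volume F ≠ ⊤ := by
    refine ne_top_of_le_ne_top ?_ (measure_mono hF)
    rw [Real.volume_Icc]
    exact ENNReal.ofReal_ne_top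
  set μ : ℝ := (volume F).toReal with hμ
  have hμpos : 0 < μ := ENNReal.toReal_pos hne hfin
  set c : ℝ := μ / 2 ^ (m + 2) with hc
  have hcpos : 0 < c := by positivity
  set C1 : ℝ := 3 * (R + 1) * q0 + c * 2 ^ (m + 1) with hC1
  have hC1pos : 0 ≤ C1 := by positivity
  apply hdiv
  -- it suffices to bound the partial sums
  suffices hbd : ∀ M : ℕ, ∑ N ∈ Finset.range M, ψ (N + 1) ^ (m + 1)
      ≤ (2 ^ (m + 8) * (2 * R + 4) + C1 * ψ 0) * ((m + 1) / c) by
    rw [← summable_nat_add_iff 1]
    exact summable_of_sum_range_le (fun n => (pow_pos (hpos _) _).le) hbd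
  intro M
  set P : Finset ℤ := Finset.Icc (-(((R + 1) * M : ℕ) : ℤ)) (((R + 1) * M : ℕ) : ℤ) with hP
  set VV : ℕ × ℤ → Prop := fun v => Used α β ψ F v ∧ q0 ≤ v.1 with hVV
  set a : ℕ → ℝ := fun q => ∑ p ∈ P, if VV (q, p) then 1 / (q:ℝ) else 0 with ha
  have hanonneg : ∀ q, 0 ≤ a q := by
    intro q
    apply Finset.sum_nonneg
    intro p _
    split_ifs <;> positivity
  -- the bound on p
  have hpbound : ∀ N x q p, Rec ψ m N → x ∈ F → IsMin α β ψ N x q p →
      |p| ≤ (((R + 1) * q : ℕ) : ℤ) := by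
    intro N x q p hrec hx hmin
    have h1 := hmin.2.2.1.1
    have h2 := hrec.eta_le_one
    have h3 := hF hx
    rw [Set.mem_Icc] at h3
    have hq1 : (1:ℝ) ≤ q := by exact_mod_cast hmin.1
    have h4 : |(q:ℝ) * x - p| < 1 := lt_of_lt_of_le h1 h2
    rw [abs_lt] at h4
    have h5 : |(p:ℝ)| ≤ (R + 1) * q := by
      rw [abs_le]
      constructor
      · nlinarith [h3.1, h4.1, h4.2]
      · nlinarith [h3.2, h4.1, h4.2]
    have h6 : ((|p| : ℤ) : ℝ) ≤ (((R + 1) * q : ℕ) : ℝ) := by
      push_cast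
      exact h5
    exact_mod_cast h6
  -- lower bound for the counting function
  have hlow : ∀ N ≤ M, c * (N * ψ N ^ m) - C1 ≤ ∑ q ∈ Finset.range (N + 1), a q := by
    intro N hNM
    have hSnn : 0 ≤ ∑ q ∈ Finset.range (N + 1), a q := Finset.sum_nonneg (fun q _ => hanonneg q)
    by_cases hsmall : (2:ℝ) ^ (m + 1) ≤ hh ψ m N
    swap
    · push Not at hsmall
      have h1 : c * (N * ψ N ^ m) ≤ c * 2 ^ (m + 1) := by
        apply mul_le_mul_of_nonneg_left _ hcpos.le
        exact hsmall.le
      have h2 : (0:ℝ) ≤ 3 * (R + 1) * q0 := by positivity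
      linarith
    have hN1 : 1 ≤ N := by
      rcases Nat.eq_zero_or_pos N with rfl | h
      · have h2 : (0:ℝ) < 2 ^ (m + 1) := by positivity
        have h3 : hh ψ m 0 = 0 := by simp [hh]
        rw [h3] at hsmall
        linarith
      · exact h
    obtain ⟨N', hN'N, hrec, hh'⟩ := exists_record ψ m N hsmall hN1
    have hη := hrec.eta_pos
    -- the covering
    set B : Finset (ℕ × ℤ) := (Finset.range (N' + 1)) ×ˢ P with hB
    set TN : Finset (ℕ × ℤ) := B.filter (fun v => ∃ x ∈ F, IsMin α β ψ N' x v.1 v.2) with hTN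
    have hcov : F ⊆ ⋃ v ∈ TN, Set.Ioo (((v.2:ℝ) - eta ψ m N') / v.1)
        ((v.2 + eta ψ m N') / v.1) := by
      intro x hx
      obtain ⟨q, p, hqp⟩ := exists_isMin α β ψ hpos hle N' hrec x
      simp only [Set.mem_iUnion, exists_prop]
      refine ⟨(q, p), ?_, ?_⟩
      · simp only [hTN, hB, Finset.mem_filter, Finset.mem_product, Finset.mem_range]
        refine ⟨⟨by have := hqp.2.1; omega, ?_⟩, x, hx, hqp⟩
        have h1 := hpbound N' x q p hrec hx hqp
        have h2 : (((R + 1) * q : ℕ) : ℤ) ≤ (((R + 1) * M : ℕ) : ℤ) := by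
          have : q ≤ M := hqp.2.1.trans (hN'N.trans hNM)
          exact_mod_cast Nat.mul_le_mul_left _ this
        rw [hP, Finset.mem_Icc, ← abs_le]
        exact h1.trans h2
      · exact (mem_interval hqp.1 p x _).2 hqp.2.2.1.1
    have hmeas : μ ≤ ∑ v ∈ TN, 2 * eta ψ m N' * (1 / (v.1:ℝ)) := by
      have h1 : volume F ≤ ∑ v ∈ TN, ENNReal.ofReal (2 * eta ψ m N' * (1 / (v.1:ℝ))) := by
        refine (measure_mono hcov).trans ((measure_biUnion_finset_le _ _).trans ?_)
        apply Finset.sum_le_sum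
        intro v _
        rw [Real.volume_Ioo]
        apply ENNReal.ofReal_le_ofReal
        apply le_of_eq
        ring
      rw [← ENNReal.ofReal_sum_of_nonneg (fun v _ => by positivity)] at h1
      have h2 : μ ≤ (ENNReal.ofReal (∑ v ∈ TN, 2 * eta ψ m N' * (1 / (v.1:ℝ)))).toReal :=
        ENNReal.toReal_mono ENNReal.ofReal_ne_top h1
      rwa [ENNReal.toReal_ofReal (Finset.sum_nonneg (fun v _ => by positivity))] at h2
    rw [← Finset.mul_sum] at hmeas
    -- split off the small denominators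
    have hsplit : ∑ v ∈ TN, (1 / (v.1:ℝ)) ≤ ∑ q ∈ Finset.range (N + 1), a q
        + 3 * (R + 1) * q0 := by
      rw [← Finset.sum_filter_add_sum_filter_not TN (fun v => q0 ≤ v.1)]
      apply add_le_add
      · have h1 : ∑ q ∈ Finset.range (N + 1), a q
            = ∑ v ∈ ((Finset.range (N + 1)) ×ˢ P).filter VV, 1 / (v.1:ℝ) := by
          rw [Finset.sum_filter, Finset.sum_product]
        rw [h1]
        apply Finset.sum_le_sum_of_subset_of_nonneg
        · intro v hv
          simp only [hTN, hB, Finset.mem_filter, Finset.mem_product, Finset.mem_range] at hv ⊢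
          obtain ⟨⟨⟨h2, h3⟩, x, hx, hmin⟩, h4⟩ := hv
          exact ⟨⟨by omega, h3⟩, ⟨N', x, hrec, hx, hmin⟩, h4⟩
        · intro v _ _
          positivity
      · -- few vectors with small denominators
        calc ∑ v ∈ TN.filter (fun v => ¬ q0 ≤ v.1), (1 / (v.1:ℝ))
            ≤ ∑ v ∈ ((Finset.Ico 1 q0) ×ˢ P).filter
                (fun v => |v.2| ≤ (((R + 1) * v.1 : ℕ) : ℤ)), (1 / (v.1:ℝ)) := by
              apply Finset.sum_le_sum_of_subset_of_nonneg
              · intro v hv
                simp only [hTN, hB, Finset.mem_filter, Finset.mem_product, Finset.mem_range] at hv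
                obtain ⟨⟨⟨h2, h3⟩, x, hx, hmin⟩, h4⟩ := hv
                simp only [Finset.mem_filter, Finset.mem_product, Finset.mem_Ico]
                exact ⟨⟨⟨hmin.1, by omega⟩, h3⟩, hpbound N' x v.1 v.2 hrec hx hmin⟩
              · intro v _ _; positivity
          _ ≤ ∑ q ∈ Finset.Ico 1 q0, ((2 * (R + 1) * q + 1 : ℕ) : ℝ) * (1 / (q:ℝ)) := by
              rw [Finset.sum_filter, Finset.sum_product]
              apply Finset.sum_le_sum
              intro q _
              simp only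
              rw [← Finset.sum_filter, Finset.sum_const, nsmul_eq_mul]
              have h5 : (P.filter (fun p => |p| ≤ (((R + 1) * q : ℕ) : ℤ))).card
                  ≤ 2 * (R + 1) * q + 1 := by
                have h6 : P.filter (fun p => |p| ≤ (((R + 1) * q : ℕ) : ℤ))
                    ⊆ Finset.Icc (-(((R + 1) * q : ℕ) : ℤ)) (((R + 1) * q : ℕ) : ℤ) := by
                  intro p hp
                  rw [Finset.mem_filter] at hp
                  rw [Finset.mem_Icc, ← abs_le]
                  exact hp.2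
                refine (Finset.card_le_card h6).trans ?_
                rw [Int.card_Icc]
                have h7 : (((R + 1) * q : ℕ) : ℤ) + 1 - -(((R + 1) * q : ℕ) : ℤ)
                    = ((2 * (R + 1) * q + 1 : ℕ) : ℤ) := by
                  push_cast; ring
                rw [h7]
                simp
              have h8 : ((P.filter (fun p => |p| ≤ (((R + 1) * q : ℕ) : ℤ))).card : ℝ)
                  ≤ ((2 * (R + 1) * q + 1 : ℕ) : ℝ) := by exact_mod_cast h5
              exact mul_le_mul_of_nonneg_right h8 (by positivity)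
          _ ≤ ∑ q ∈ Finset.Ico 1 q0, 3 * ((R:ℝ) + 1) := by
              apply Finset.sum_le_sum
              intro q hq
              rw [Finset.mem_Ico] at hq
              have hq1 : (1:ℝ) ≤ q := by exact_mod_cast hq.1
              rw [mul_one_div, div_le_iff₀ (by linarith)]
              push_cast
              have hR : (0:ℝ) ≤ R := Nat.cast_nonneg R
              nlinarith
          _ ≤ 3 * (R + 1) * q0 := by
              rw [Finset.sum_const, Nat.card_Ico, nsmul_eq_mul]
              have h1 : ((q0 - 1 : ℕ) : ℝ) ≤ q0 := by exact_mod_cast Nat.sub_le _ _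
              have hR : (0:ℝ) ≤ R := Nat.cast_nonneg R
              nlinarith
    have h1 : μ / (2 * eta ψ m N') ≤ ∑ v ∈ TN, (1 / (v.1:ℝ)) := by
      rw [div_le_iff₀ (by positivity)]
      linarith
    have h2 : c * hh ψ m N' = μ / (2 * eta ψ m N') := by
      have h3 : 0 < hh ψ m N' := lt_of_lt_of_le (by positivity) hrec.2.1
      rw [hc, eta, pow_succ (2:ℝ) (m+1)]
      field_simp
    have h3 : c * (N * ψ N ^ m) ≤ c * hh ψ m N' := mul_le_mul_of_nonneg_left hh' hcpos.le
    have h4 : 0 ≤ c * 2 ^ (m + 1) := by positivity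
    rw [hC1]
    linarith
  have habel := abel ψ (fun q => (hpos q).le) hanti m a c C1 hcpos.le M hlow
  -- the upper bound
  have hup := upper α β ψ hpos hle hanti F R q0 hF havoid
    (((Finset.range (M + 1)) ×ˢ P).filter VV) (by
      intro v hv
      exact (Finset.mem_filter.mp hv).2)
  have hEq : ∑ q ∈ Finset.range (M + 1), ψ q * a q
      = ∑ v ∈ ((Finset.range (M + 1)) ×ˢ P).filter VV, ψ v.1 / v.1 := by
    rw [Finset.sum_filter, Finset.sum_product]
    apply Finset.sum_congr rfl
    intro q _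
    rw [ha, Finset.mul_sum]
    apply Finset.sum_congr rfl
    intro p _
    split_ifs
    · rw [mul_one_div]
    · simp
  rw [← Finset.mul_sum, ← hEq] at hup
  have hnn : 0 ≤ ∑ q ∈ Finset.range (M + 1), ψ q * a q :=
    Finset.sum_nonneg (fun q _ => mul_nonneg (hpos q).le (hanonneg q))
  have h1 : c / (m + 1) * ∑ N ∈ Finset.range M, ψ (N + 1) ^ (m + 1)
      ≤ 2 ^ (m + 8) * (2 * R + 4) + C1 * ψ 0 := by linarith
  have h2 : (0:ℝ) < m + 1 := by positivity
  calc ∑ N ∈ Finset.range M, ψ (N + 1) ^ (m + 1)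
      = (c / (m + 1) * ∑ N ∈ Finset.range M, ψ (N + 1) ^ (m + 1)) * ((m + 1) / c) := by
        field_simp
    _ ≤ _ := by gcongr

end Pool.Agent.Q271.Line
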