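import Pool.Agent.Q271.LineBasic

/-!
# Minimal vectors and their multiplicity
-/

set_option autoImplicit false

namespace Pool.Agent.Q271.Line

open Finset

variable {ι : Type} [Fintype ι]

/-- `h N = N ψ(N)^m`. -/
noncomputable def hh (ψ : ℕ → ℝ) (m N : ℕ) : ℝ := N * ψ N ^ m

/-- The size of the Dirichlet box in the direction of the line. -/
noncomputable def eta (ψ : ℕ → ℝ) (m N : ℕ) : ℝ := 2 ^ (m + 1) / hh ψ m N

/-- Record values of `h`. -/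
def Rec (ψ : ℕ → ℝ) (m N : ℕ) : Prop :=
  1 ≤ N ∧ (2:ℝ) ^ (m + 1) ≤ hh ψ m N ∧ ∀ M ≤ N, hh ψ m M ≤ hh ψ m N

/-- `(q, p)` is a vector with least `q` in the Dirichlet box at `x` of level `N`. -/
def IsMin (α β : ι → ℝ) (ψ : ℕ → ℝ) (N : ℕ) (x : ℝ) (q : ℕ) (p : ℤ) : Prop :=
  1 ≤ q ∧ q ≤ N ∧ Good α β (ψ N) (eta ψ (Fintype.card ι) N) x q p ∧
    ∀ q' : ℕ, 1 ≤ q' → q' < q → ∀ p' : ℤ,
      ¬ Good α β (ψ N) (eta ψ (Fintype.card ι) N) x q' p'

theorem Rec.eta_pos {ψ : ℕ → ℝ} {m N : ℕ} (h : Rec ψ m N) : 0 < eta ψ m N := by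
  have h1 : (0:ℝ) < 2 ^ (m + 1) := by positivity
  have h2 : 0 < hh ψ m N := lt_of_lt_of_le h1 h.2.1
  exact div_pos h1 h2

theorem Rec.eta_le_one {ψ : ℕ → ℝ} {m N : ℕ} (h : Rec ψ m N) : eta ψ m N ≤ 1 := by
  have h1 : (0:ℝ) < 2 ^ (m + 1) := by positivity
  have h2 : 0 < hh ψ m N := lt_of_lt_of_le h1 h.2.1
  rw [eta, div_le_one h2]
  exact h.2.1

theorem Rec.eta_anti {ψ : ℕ → ℝ} {m M N : ℕ} (hM : Rec ψ m M) (h : Rec ψ m N) (hMN : M ≤ N) :
    eta ψ m N ≤ eta ψ m M := by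
  have h1 : (0:ℝ) < 2 ^ (m + 1) := by positivity
  have h2 : 0 < hh ψ m M := lt_of_lt_of_le h1 hM.2.1
  rw [eta, eta]
  exact div_le_div_of_nonneg_left h1.le h2 (h.2.2 M hMN)

theorem exists_isMin (α β : ι → ℝ) (ψ : ℕ → ℝ) (hpos : ∀ q, 0 < ψ q) (hle : ∀ q, ψ q ≤ 1)
    (N : ℕ) (hN : Rec ψ (Fintype.card ι) N) (x : ℝ) :
    ∃ q p, IsMin α β ψ N x q p := by
  classical
  obtain ⟨q, hq1, hqN, p, hp⟩ := dirichlet α β x N (ψ N) (eta ψ (Fintype.card ι) N) (hpos N)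
    (hle N) hN.eta_pos hN.eta_le_one (by
      have h1 : (0:ℝ) < 2 ^ (Fintype.card ι + 1) := by positivity
      have h2 : 0 < hh ψ (Fintype.card ι) N := lt_of_lt_of_le h1 hN.2.1
      have h3 : (N:ℝ) * (eta ψ (Fintype.card ι) N * ψ N ^ Fintype.card ι)
          = 2 ^ (Fintype.card ι + 1) := by
        have h4 : (N:ℝ) * (eta ψ (Fintype.card ι) N * ψ N ^ Fintype.card ι)
            = eta ψ (Fintype.card ι) N * hh ψ (Fintype.card ι) N := by rw [hh]; ring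
        rw [h4, eta, div_mul_cancel₀ _ h2.ne']
      exact h3.ge)
  have hex : ∃ q : ℕ, 1 ≤ q ∧ ∃ p : ℤ, Good α β (ψ N) (eta ψ (Fintype.card ι) N) x q p :=
    ⟨q, hq1, p, hp⟩
  obtain ⟨h1, p', hp'⟩ := Nat.find_spec hex
  refine ⟨Nat.find hex, p', h1, (Nat.find_min' hex ⟨hq1, p, hp⟩).trans hqN, hp', ?_⟩
  intro q' hq' hlt p'' hp''
  exact Nat.find_min hex hlt ⟨hq', p'', hp''⟩

theorem mult (α β : ι → ℝ) (ψ : ℕ → ℝ) (hanti : Antitone ψ)
    (S : Finset (ℕ × ℤ)) (k : ℕ) (e : ℝ) (Nf : ℕ × ℤ → ℕ) (xf : ℕ × ℤ → ℝ)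
    (hrec : ∀ v ∈ S, Rec ψ (Fintype.card ι) (Nf v))
    (hmin : ∀ v ∈ S, IsMin α β ψ (Nf v) (xf v) v.1 v.2)
    (hk : ∀ v ∈ S, Nat.log 2 v.1 = k)
    (he : ∀ v ∈ S, |(v.1:ℝ) * e - v.2| < eta ψ (Fintype.card ι) (Nf v)) :
    S.card ≤ 2 ^ (Fintype.card ι + 5) := by
  classical
  rcases S.eq_empty_or_nonempty with rfl | hne
  · simp
  by_contra hcon
  push Not at hcon
  obtain ⟨v1, hv1, hv1min⟩ := Finset.exists_min_image S Nf hne
  set N1 := Nf v1 with hN1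
  set x1 := xf v1 with hx1
  set η1 := eta ψ (Fintype.card ι) N1 with hη1
  have hη1pos : 0 < η1 := (hrec v1 hv1).eta_pos
  have hηle : ∀ v ∈ S, eta ψ (Fintype.card ι) (Nf v) ≤ η1 := fun v hv =>
    (hrec v1 hv1).eta_anti (hrec v hv) (hv1min v hv)
  have hψle : ∀ v ∈ S, ψ (Nf v) ≤ ψ N1 := fun v hv => hanti (hv1min v hv)
  have hqpos : ∀ v ∈ S, 1 ≤ v.1 := fun v hv => (hmin v hv).1
  have hqlow : ∀ v ∈ S, 2 ^ k ≤ v.1 := by
    intro v hv
    rw [← hk v hv]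
    exact Nat.pow_log_le_self 2 (by have := hqpos v hv; omega)
  have hqup : ∀ v ∈ S, v.1 < 2 ^ (k + 1) := by
    intro v hv
    rw [← hk v hv]
    exact Nat.lt_pow_succ_log_self (by norm_num) _
  set s : ℕ × ℤ → ι → ℝ := fun v i =>
    (α i * v.2 + β i * v.1) - (round (α i * v.2 + β i * v.1) : ℝ) with hs
  set g : ℕ × ℤ → ℕ × ((ι → Bool) × ℤ) := fun v =>
    (4 * v.1 / 2 ^ k, (fun i => decide (0 ≤ s v i), ⌊4 * ((v.1:ℝ) * e - v.2) / η1⌋)) with hg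
  have hcard : ((Finset.Icc 4 7) ×ˢ ((Finset.univ : Finset (ι → Bool)) ×ˢ
      Finset.Icc (-4:ℤ) 3)).card < S.card := by
    rw [Finset.card_product, Finset.card_product]
    simp only [Nat.card_Icc, Int.card_Icc, Finset.card_univ, Fintype.card_fun, Fintype.card_bool]
    have h1 : (7 + 1 - 4) * (2 ^ Fintype.card ι * (3 + 1 - (-4:ℤ)).toNat)
        = 2 ^ (Fintype.card ι + 5) := by
      have : (3 + 1 - (-4:ℤ)).toNat = 8 := by decide
      rw [this, pow_add]; ring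
    rw [h1]
    exact hcon
  obtain ⟨v, hv, v', hv', hne', hEq⟩ := Finset.exists_ne_map_eq_of_card_lt_of_maps_to hcard
    (f := g) (by
      intro v hv
      have hv := Finset.mem_coe.mp hv
      simp only [Finset.coe_product, Set.mem_prod, Finset.mem_coe, Finset.mem_Icc, hg,
        Finset.mem_univ, true_and]
      have h2k : 0 < 2 ^ k := by positivity
      refine ⟨⟨?_, ?_⟩, ?_, ?_⟩
      · rw [Nat.le_div_iff_mul_le h2k]
        have := hqlow v hv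
        omega
      · have h3 : 4 * v.1 / 2 ^ k < 8 := by
          rw [Nat.div_lt_iff_lt_mul h2k]
          have := hqup v hv
          rw [pow_succ] at this
          omega
        omega
      · rw [Int.le_floor]
        push_cast
        rw [le_div_iff₀ hη1pos]
        have := (abs_lt.mp (lt_of_lt_of_le (he v hv) (hηle v hv))).1
        linarith
      · have h4 : ⌊4 * ((v.1:ℝ) * e - v.2) / η1⌋ < 4 := by
          rw [Int.floor_lt]
          push_cast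
          rw [div_lt_iff₀ hη1pos]
          have := (abs_lt.mp (lt_of_lt_of_le (he v hv) (hηle v hv))).2
          linarith
        omega)
  wlog hle : v'.1 ≤ v.1 generalizing v v'
  · exact this v' hv' v hv hne'.symm hEq.symm (by omega)
  simp only [hg, Prod.mk.injEq] at hEq
  obtain ⟨hE1, hE2, hE3⟩ := hEq
  -- the difference vector
  have hq4 : 4 * (v.1 - v'.1) < 2 ^ k := by
    have h2k : 0 < 2 ^ k := by positivity
    have h1 : (4 * v'.1 / 2 ^ k) * 2 ^ k ≤ 4 * v'.1 := Nat.div_mul_le_self _ _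
    have h2 : 4 * v.1 < (4 * v.1 / 2 ^ k + 1) * 2 ^ k := by
      rw [add_mul, one_mul]
      exact Nat.lt_div_mul_add h2k
    rw [hE1, add_mul, one_mul] at h2
    omega
  have hcast : ((v.1 - v'.1 : ℕ) : ℝ) = (v.1 : ℝ) - v'.1 := Nat.cast_sub hle
  have hwe : |((v.1 - v'.1 : ℕ) : ℝ) * e - ((v.2 - v'.2 : ℤ) : ℝ)| < η1 / 4 := by
    have h1 := Int.abs_sub_lt_one_of_floor_eq_floor hE3
    have h2 : 4 * ((v.1:ℝ) * e - v.2) / η1 - 4 * ((v'.1:ℝ) * e - v'.2) / η1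
        = (4 / η1) * (((v.1 - v'.1 : ℕ) : ℝ) * e - ((v.2 - v'.2 : ℤ) : ℝ)) := by
      rw [hcast]; push_cast; field_simp; ring
    rw [h2, abs_mul, abs_of_pos (by positivity : 0 < 4 / η1)] at h1
    rw [lt_div_iff₀ (by norm_num : (0:ℝ) < 4)]
    have h3 : |((v.1 - v'.1 : ℕ) : ℝ) * e - ((v.2 - v'.2 : ℤ) : ℝ)| * 4
        = η1 * (4 / η1 * |((v.1 - v'.1 : ℕ) : ℝ) * e - ((v.2 - v'.2 : ℤ) : ℝ)|) := by
      field_simp
    rw [h3]
    calc _ < η1 * 1 := mul_lt_mul_of_pos_left h1 hη1pos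
      _ = η1 := mul_one _
  have hx1e : (v1.1:ℝ) * |x1 - e| < 2 * η1 := by
    have h1 := (hmin v1 hv1).2.2.1.1
    have h2 := he v1 hv1
    have h3 : (v1.1:ℝ) * (x1 - e) = ((v1.1:ℝ) * x1 - v1.2) - ((v1.1:ℝ) * e - v1.2) := by ring
    have h4 : (v1.1:ℝ) * |x1 - e| = |(v1.1:ℝ) * (x1 - e)| := by
      rw [abs_mul, abs_of_nonneg (Nat.cast_nonneg v1.1 : (0:ℝ) ≤ (v1.1:ℝ))]
    rw [h4, h3]
    calc _ ≤ |((v1.1:ℝ) * x1 - v1.2)| + |((v1.1:ℝ) * e - v1.2)| := abs_sub _ _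
      _ < η1 + η1 := add_lt_add h1 h2
      _ = 2 * η1 := by ring
  have hwx : |((v.1 - v'.1 : ℕ) : ℝ) * x1 - ((v.2 - v'.2 : ℤ) : ℝ)| < η1 := by
    have h1 : ((v.1 - v'.1 : ℕ) : ℝ) * x1 - ((v.2 - v'.2 : ℤ) : ℝ)
        = (((v.1 - v'.1 : ℕ) : ℝ) * e - ((v.2 - v'.2 : ℤ) : ℝ))
          + ((v.1 - v'.1 : ℕ) : ℝ) * (x1 - e) := by ring
    rw [h1]
    have h2 : |((v.1 - v'.1 : ℕ) : ℝ) * (x1 - e)| ≤ η1 / 2 := by
      rw [abs_mul, abs_of_nonneg (Nat.cast_nonneg _)]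
      have h3 : 4 * (v.1 - v'.1) ≤ v1.1 := hq4.le.trans (hqlow v1 hv1)
      have h4 : (4:ℝ) * ((v.1 - v'.1 : ℕ) : ℝ) ≤ v1.1 := by exact_mod_cast h3
      have h5 : (4:ℝ) * ((v.1 - v'.1 : ℕ) : ℝ) * |x1 - e| ≤ v1.1 * |x1 - e| :=
        mul_le_mul_of_nonneg_right h4 (abs_nonneg _)
      linarith
    calc _ ≤ |((v.1 - v'.1 : ℕ) : ℝ) * e - ((v.2 - v'.2 : ℤ) : ℝ)|
          + |((v.1 - v'.1 : ℕ) : ℝ) * (x1 - e)| := abs_add_le _ _
      _ < η1 := by linarith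
  have hwi : ∀ i, |(α i * ((v.2 - v'.2 : ℤ) : ℝ) + β i * ((v.1 - v'.1 : ℕ) : ℝ))
      - (round (α i * ((v.2 - v'.2 : ℤ) : ℝ) + β i * ((v.1 - v'.1 : ℕ) : ℝ)) : ℝ)| < ψ N1 := by
    intro i
    have h1 : |s v i| < ψ N1 := lt_of_lt_of_le ((hmin v hv).2.2.1.2 i) (hψle v hv)
    have h2 : |s v' i| < ψ N1 := lt_of_lt_of_le ((hmin v' hv').2.2.1.2 i) (hψle v' hv')
    have h3 := congrFun hE2 i
    have h4 : |s v i - s v' i| < ψ N1 := by
      rw [abs_lt] at h1 h2 ⊢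
      by_cases h5 : 0 ≤ s v i
      · have h6 : 0 ≤ s v' i := by
          by_contra h7
          simp [h5, h7] at h3
        constructor <;> linarith
      · have h6 : ¬ 0 ≤ s v' i := by
          intro h7
          simp [h5, h7] at h3
        push Not at h5 h6
        constructor <;> linarith
    have h5 := round_le (α i * ((v.2 - v'.2 : ℤ) : ℝ) + β i * ((v.1 - v'.1 : ℕ) : ℝ))
      (round (α i * v.2 + β i * v.1) - round (α i * v'.2 + β i * v'.1))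
    have h6 : (α i * ((v.2 - v'.2 : ℤ) : ℝ) + β i * ((v.1 - v'.1 : ℕ) : ℝ))
        - ((round (α i * v.2 + β i * v.1) - round (α i * v'.2 + β i * v'.1) : ℤ) : ℝ)
        = s v i - s v' i := by
      simp only [hs]
      rw [hcast]
      push_cast
      ring
    rw [h6] at h5
    exact lt_of_le_of_lt h5 h4
  rcases Nat.eq_zero_or_pos (v.1 - v'.1) with h0 | h0
  · -- then the vectors coincide
    have hq : v.1 = v'.1 := by omega
    have h1 : |((v.2 - v'.2 : ℤ) : ℝ)| < 1 := by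
      have := hwx
      rw [h0] at this
      simp only [Nat.cast_zero, zero_mul, zero_sub, abs_neg] at this
      exact lt_of_lt_of_le this (hrec v1 hv1).eta_le_one
    have h2 : v.2 - v'.2 = 0 := by
      have h3 : |v.2 - v'.2| < 1 := by exact_mod_cast h1
      exact Int.abs_lt_one_iff.mp h3
    exact hne' (Prod.ext hq (by omega))
  · have hlt : v.1 - v'.1 < v1.1 := by
      have := hqlow v1 hv1
      omega
    exact (hmin v1 hv1).2.2.2 _ h0 hlt _ ⟨hwx, hwi⟩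

end Pool.Agent.Q271.Line
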