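import Pool.Agent.Q271.LiouvilleLine
import Pool.Agent.Q271.Cantelli

/-!
# Liouville columns have dimension zero
-/

set_option autoImplicit false

namespace Q271.LiouvilleInj

open Metric Set Matrix Filter Topology
open scoped ENNReal NNReal

variable {m : ℕ}

/-- the covering sets of level `q` -/
def Cov (m R a : ℕ) (q : ℕ) (x : Fin m → Fin (2 * (R + 1) * (q + 1) + 1)) :
    Set (Fin m → Fin 1 → ℝ) :=
  closedBall (fun i _ => ((((x i : ℕ) : ℤ) - ((R + 1) * (q + 1) : ℕ) : ℤ) : ℝ) / (q + 1))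
    ((((q : ℝ) + 1) ^ (a + 1))⁻¹)

lemma mem_cov (R a : ℕ) (A : Fin m → Fin 1 → ℝ) (hA : ∀ i j, |A i j| ≤ R)
    (hL : IsLiouville (Matrix.of A)) (n : ℕ) : ∃ q, n ≤ q ∧ ∃ x, A ∈ Cov m R a q x := by
  have h := mt (not_liouville (Matrix.of A) a (n + 1)) (not_not.2 hL)
  push Not at h
  obtain ⟨y, hy2, hyn, x, hyx⟩ := h
  obtain ⟨Q, hQ⟩ := exists_norm_toR y
  rw [hQ] at hy2 hyn hyx
  have hQn : n + 1 < Q := by exact_mod_cast hyn
  obtain ⟨q, rfl⟩ : ∃ q, Q = q + 1 := ⟨Q - 1, by omega⟩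
  have hq0 : (0:ℝ) < (q:ℝ) + 1 := by positivity
  push_cast at hQ hy2 hyn hyx
  have hy0 : |(y 0 : ℝ)| = (q:ℝ) + 1 := by
    rw [← hQ]
    apply le_antisymm (norm_toR_le y 0)
    rw [pi_norm_le_iff_of_nonneg (abs_nonneg _)]
    intro j
    rw [Subsingleton.elim j 0]
    exact le_refl _
  have hyne : (y 0 : ℝ) ≠ 0 := by
    intro h0
    rw [h0, abs_zero] at hy0
    linarith
  -- the entries
  have hent : ∀ i, |A i 0 * y 0 - x i| < (((q:ℝ) + 1) ^ a)⁻¹ := by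
    intro i
    refine lt_of_le_of_lt ?_ hyx
    have h1 := norm_le_pi_norm (Matrix.of A *ᵥ toR y - toR x) i
    have h2 : (Matrix.of A *ᵥ toR y - toR x) i = A i 0 * y 0 - x i := by
      simp [Matrix.mulVec, dotProduct, toR]
    rwa [h2, Real.norm_eq_abs] at h1
  -- the sign
  obtain ⟨e, he, hye⟩ : ∃ e : ℤ, (e = 1 ∨ e = -1) ∧ (y 0 : ℝ) = e * ((q:ℝ) + 1) := by
    rcases abs_cases (y 0 : ℝ) with ⟨h1, -⟩ | ⟨h1, -⟩
    · exact ⟨1, Or.inl rfl, by rw [← hy0, h1]; simp⟩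
    · exact ⟨-1, Or.inr rfl, by rw [← hy0, h1]; simp⟩
  have he1 : |(e:ℝ)| = 1 := by rcases he with rfl | rfl <;> simp
  have hee : (e:ℝ) * e = 1 := by rcases he with rfl | rfl <;> simp
  have hent2 : ∀ i, |A i 0 * ((q:ℝ) + 1) - e * x i| < (((q:ℝ) + 1) ^ a)⁻¹ := by
    intro i
    have h1 := hent i
    have h2 : A i 0 * ((q:ℝ) + 1) - e * x i = e * (A i 0 * y 0 - x i) := by
      rw [hye]
      calc A i 0 * ((q:ℝ) + 1) - e * x i = A i 0 * (1 * ((q:ℝ) + 1)) - e * x i := by ring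
        _ = A i 0 * (((e:ℝ) * e) * ((q:ℝ) + 1)) - e * x i := by rw [hee]
        _ = _ := by ring
    rw [h2, abs_mul, he1, one_mul]
    exact h1
  have hpow : (1:ℝ) ≤ ((q:ℝ) + 1) ^ a := one_le_pow₀ (by linarith)
  have hinv : (((q:ℝ) + 1) ^ a)⁻¹ ≤ 1 := inv_le_one_of_one_le₀ hpow
  have hbd : ∀ i, |e * x i| ≤ (((R + 1) * (q + 1) : ℕ) : ℤ) := by
    intro i
    have h1 : |(e:ℝ) * x i| < (R + 1) * ((q:ℝ) + 1) + 1 := by
      have h2 : |A i 0 * ((q:ℝ) + 1)| ≤ R * ((q:ℝ) + 1) := by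
        rw [abs_mul, abs_of_pos hq0]
        exact mul_le_mul_of_nonneg_right (hA i 0) hq0.le
      have h3 : |(e:ℝ) * x i| ≤ |A i 0 * ((q:ℝ) + 1)| + |A i 0 * ((q:ℝ) + 1) - e * x i| := by
        have := abs_sub (A i 0 * ((q:ℝ) + 1)) (A i 0 * ((q:ℝ) + 1) - e * x i)
        rwa [sub_sub_cancel] at this
      have := hent2 i
      nlinarith
    have h4 : (|e * x i| : ℤ) < (((R + 1) * (q + 1) : ℕ) : ℤ) + 1 := by
      have h5 : ((|e * x i| : ℤ) : ℝ) < (((((R + 1) * (q + 1) : ℕ) : ℤ) + 1 : ℤ) : ℝ) := by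
        push_cast
        exact h1
      exact_mod_cast h5
    omega
  refine ⟨q, by omega, fun i => ⟨(e * x i + (((R + 1) * (q + 1) : ℕ) : ℤ)).toNat, ?_⟩, ?_⟩
  · have h1 := abs_le.1 (hbd i)
    have h2 : (2 * (R + 1) * (q + 1) + 1) = 2 * ((R + 1) * (q + 1)) + 1 := by ring
    rw [h2]
    generalize (R + 1) * (q + 1) = T at *
    omega
  · rw [Cov, mem_closedBall, dist_pi_le_iff (by positivity)]
    intro i
    rw [dist_pi_le_iff (by positivity)]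
    intro j
    rw [Subsingleton.elim j 0, Real.dist_eq]
    have h1 := abs_le.1 (hbd i)
    have h2 : ((((e * x i + (((R + 1) * (q + 1) : ℕ) : ℤ)).toNat : ℕ) : ℤ) -
        (((R + 1) * (q + 1) : ℕ) : ℤ)) = e * x i := by
      generalize (R + 1) * (q + 1) = T at *
      omega
    show |A i 0 - (((((e * x i + (((R + 1) * (q + 1) : ℕ) : ℤ)).toNat : ℕ) : ℤ) -
        (((R + 1) * (q + 1) : ℕ) : ℤ) : ℤ) : ℝ) / ((q:ℝ) + 1)| ≤ _
    rw [h2]
    have h3 : A i 0 - ((e * x i : ℤ) : ℝ) / ((q:ℝ) + 1) =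
        (A i 0 * ((q:ℝ) + 1) - e * x i) / ((q:ℝ) + 1) := by
      push_cast
      field_simp
    rw [h3, abs_div, abs_of_pos hq0, pow_succ, mul_inv, ← div_eq_mul_inv]
    exact div_le_div_of_nonneg_right (hent2 i).le hq0.le

lemma term_le (m R a q : ℕ) (d : ℝ≥0) (had : (m + 2 : ℝ) < a * d) :
    (Fintype.card (Fin m → Fin (2 * (R + 1) * (q + 1) + 1)) : ℝ≥0∞) *
      ENNReal.ofReal (2 * (((q : ℝ) + 1) ^ (a + 1))⁻¹) ^ (d : ℝ) ≤
    ENNReal.ofReal ((2 * R + 3) ^ m * 2 ^ (d : ℝ) * (1 / ((q + 1 : ℕ) : ℝ) ^ 2)) := by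
  have hq : (1:ℝ) ≤ (q:ℝ) + 1 := by linarith [(Nat.cast_nonneg q : (0:ℝ) ≤ q)]
  have hq0 : (0:ℝ) < (q:ℝ) + 1 := by linarith
  have h1 : (Fintype.card (Fin m → Fin (2 * (R + 1) * (q + 1) + 1)) : ℝ≥0∞) =
      ENNReal.ofReal ((2 * (R + 1) * (q + 1) + 1 : ℝ) ^ m) := by
    rw [Fintype.card_fun, Fintype.card_fin, Fintype.card_fin, ← ENNReal.ofReal_natCast]
    push_cast
    rfl
  rw [h1, ENNReal.ofReal_rpow_of_nonneg (by positivity) (NNReal.coe_nonneg d), ← ENNReal.ofReal_mul (by positivity)]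
  apply ENNReal.ofReal_le_ofReal
  have h2 : (2 * (R + 1) * (q + 1) + 1 : ℝ) ^ m ≤ ((2 * R + 3) * (q + 1)) ^ m := by
    apply pow_le_pow_left₀ (by positivity)
    nlinarith
  have h3 : (2 * (((q : ℝ) + 1) ^ (a + 1))⁻¹) ^ (d : ℝ) =
      2 ^ (d : ℝ) * ((q : ℝ) + 1) ^ (-((a + 1) * d : ℝ)) := by
    rw [Real.mul_rpow (by norm_num) (by positivity), ← Real.rpow_natCast, ← Real.rpow_neg hq0.le,
      ← Real.rpow_mul hq0.le]
    push_cast
    ring_nf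
  have h4 : ((q : ℝ) + 1) ^ (-((a + 1) * d : ℝ)) ≤ ((q : ℝ) + 1) ^ (-((m + 2 : ℕ) : ℝ)) := by
    apply Real.rpow_le_rpow_of_exponent_le hq
    push_cast
    have : (0:ℝ) ≤ d := d.2
    nlinarith
  have h5 : ((q : ℝ) + 1) ^ (-((m + 2 : ℕ) : ℝ)) = (((q:ℝ) + 1) ^ m)⁻¹ * (1 / ((q:ℝ) + 1) ^ 2) := by
    rw [Real.rpow_neg hq0.le, Real.rpow_natCast, pow_add, mul_inv, one_div]
  calc (2 * (R + 1) * (q + 1) + 1 : ℝ) ^ m * (2 * (((q : ℝ) + 1) ^ (a + 1))⁻¹) ^ (d : ℝ)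
      ≤ ((2 * R + 3) * (q + 1)) ^ m * (2 ^ (d : ℝ) * ((((q:ℝ) + 1) ^ m)⁻¹ *
        (1 / ((q:ℝ) + 1) ^ 2))) := by
        rw [h3, ← h5]
        gcongr
    _ = (2 * R + 3) ^ m * 2 ^ (d : ℝ) * (1 / ((q:ℝ) + 1) ^ 2) * (((q:ℝ) + 1) ^ m *
        (((q:ℝ) + 1) ^ m)⁻¹) := by
        rw [mul_pow]; ring
    _ = (2 * R + 3) ^ m * 2 ^ (d : ℝ) * (1 / ((q:ℝ) + 1) ^ 2) := by
        rw [mul_inv_cancel₀ (by positivity), mul_one]
    _ = _ := by push_cast; rfl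

lemma dimH_bounded (m R : ℕ) (d : ℝ≥0) (hd : 0 < d) :
    dimH {A : Fin m → Fin 1 → ℝ | (∀ i j, |A i j| ≤ R) ∧ IsLiouville (Matrix.of A)} ≤ d := by
  -- the exponent
  obtain ⟨a, ha⟩ := exists_nat_gt ((m + 2 : ℝ) / d)
  have hd' : (0:ℝ) < d := hd
  rw [div_lt_iff₀ hd'] at ha
  apply dimH_le_of_cantelli _ d (fun q => (Fin m → Fin (2 * (R + 1) * (q + 1) + 1)))
    (Cov m R a) (fun q => ENNReal.ofReal (2 * (((q : ℝ) + 1) ^ (a + 1))⁻¹))
  · intro q x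
    apply Metric.ediam_le
    intro A hA B hB
    rw [Cov, mem_closedBall] at hA hB
    rw [edist_dist]
    apply ENNReal.ofReal_le_ofReal
    exact (dist_triangle_right A B _).trans ((add_le_add hA hB).trans_eq (by ring))
  · intro q q' hqq
    apply ENNReal.ofReal_le_ofReal
    have : (q:ℝ) ≤ q' := by exact_mod_cast hqq
    gcongr
  · rw [← ENNReal.ofReal_zero]
    apply ENNReal.tendsto_ofReal
    rw [← mul_zero (2:ℝ)]
    apply Tendsto.const_mul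
    apply Tendsto.inv_tendsto_atTop
    have h1 : Tendsto (fun q : ℕ => (q:ℝ) + 1) atTop atTop :=
      tendsto_atTop_add_const_right _ _ tendsto_natCast_atTop_atTop
    exact (tendsto_pow_atTop (by omega)).comp h1
  · rintro A ⟨hA, hL⟩ n
    exact mem_cov R a A hA hL n
  · have hs : Summable fun q : ℕ => (2 * R + 3 : ℝ) ^ m * 2 ^ (d : ℝ) *
        (1 / ((q + 1 : ℕ) : ℝ) ^ 2) := by
      apply Summable.mul_left
      exact (summable_nat_add_iff 1).2 (Real.summable_one_div_nat_pow.2 one_lt_two)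
    apply ne_top_of_le_ne_top _ (ENNReal.tsum_le_tsum fun q => term_le m R a q d ha)
    rw [← ENNReal.ofReal_tsum_of_nonneg (fun q => by positivity) hs]
    exact ENNReal.ofReal_ne_top

/-- **The set of `m × 1` Liouville matrices has Hausdorff dimension zero.** -/
theorem dimH_column (m : ℕ) : dimH {A : Fin m → Fin 1 → ℝ | IsLiouville (Matrix.of A)} = 0 := by
  have h1 : {A : Fin m → Fin 1 → ℝ | IsLiouville (Matrix.of A)} =
      ⋃ R : ℕ, {A : Fin m → Fin 1 → ℝ | (∀ i j, |A i j| ≤ R) ∧ IsLiouville (Matrix.of A)} := by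
    ext A
    simp only [mem_ofPred_eq, mem_iUnion]
    constructor
    · intro h
      obtain ⟨R, hR⟩ := exists_nat_ge ‖A‖
      refine ⟨R, fun i j => ?_, h⟩
      exact ((norm_le_pi_norm (A i) j).trans (norm_le_pi_norm A i)).trans hR
    · rintro ⟨R, -, h⟩
      exact h
  rw [h1, dimH_iUnion]
  refine le_antisymm ?_ bot_le
  apply iSup_le
  intro R
  refine ENNReal.le_of_forall_pos_le_add ?_
  intro e he _
  rw [zero_add]
  exact dimH_bounded m R e he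

end Q271.LiouvilleInj
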