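import Mathlib

set_option autoImplicit false

/-! # Liouville matrices -/

namespace Q271

open Matrix

/-- the real vector with the given integer coordinates -/
def toR {k : ℕ} (x : Fin k → ℤ) : Fin k → ℝ := fun i => (x i : ℝ)

/-- A real `m × n` matrix `M` is a Liouville matrix if
(1) `M y ≠ x` for all integer vectors `y`, `x` that are not both zero;
(2) for every `N` there are integer vectors `y`, `x` with `‖y‖ ≥ 2` and `‖M y - x‖ < ‖y‖ ^ (-N)`.
All norms are sup-norms. (The condition `‖y‖ ≥ 2` replaces `y ≠ 0`: for `‖y‖ = 1` the inequality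
says only `‖M y - x‖ < 1`, which always has a solution `x`. For `m = n = 1` these are the
Liouville numbers.) -/
def IsLiouville {m n : ℕ} (M : Matrix (Fin m) (Fin n) ℝ) : Prop :=
  (∀ (y : Fin n → ℤ) (x : Fin m → ℤ), (y ≠ 0 ∨ x ≠ 0) → M *ᵥ toR y ≠ toR x) ∧
  ∀ N : ℕ, ∃ (y : Fin n → ℤ) (x : Fin m → ℤ), 2 ≤ ‖toR y‖ ∧
    ‖M *ᵥ toR y - toR x‖ < (‖toR y‖ ^ N)⁻¹

end Q271
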