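import Pool.Agent.Q271.LiouvillePath
import Pool.Agent.Q271.LiouvilleColumn

/-!
# Liouville matrices kept Liouville by injective continuous maps
-/

set_option autoImplicit false

namespace Q271.LiouvilleInj

open Metric Set Matrix
open scoped ENNReal

/-- The set `E(U, (f k))` of all matrices `A` in `U` such that `A` and all the matrices `f k A`
are Liouville matrices. (Matrices are functions `Fin m → Fin n → ℝ` here, with the sup metric.) -/
def E {m n : ℕ} (U : Set (Fin m → Fin n → ℝ))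
    (f : ℕ → (Fin m → Fin n → ℝ) → (Fin m → Fin n → ℝ)) : Set (Fin m → Fin n → ℝ) :=
  {A | A ∈ U ∧ IsLiouville (Matrix.of A) ∧ ∀ k, IsLiouville (Matrix.of (f k A))}

variable {m n : ℕ}

/-- the lower bound -/
theorem one_le_dimH (hm : 1 ≤ m) (hn : 2 ≤ n) (U : Set (Fin m → Fin n → ℝ)) (hU : IsOpen U)
    (hne : U.Nonempty) (f : ℕ → (Fin m → Fin n → ℝ) → (Fin m → Fin n → ℝ))
    (hf : ∀ k, ContinuousOn (f k) U ∧ InjOn (f k) U) : 1 ≤ dimH (E U f) := by
  -- all maps, including the identity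
  let g : ℕ → (Fin m → Fin n → ℝ) → (Fin m → Fin n → ℝ) := fun j =>
    Nat.casesOn j id fun k => f k
  have hg : ∀ j, ContinuousOn (g j) U ∧ InjOn (g j) U := by
    intro j
    cases j with
    | zero => exact ⟨continuousOn_id, injOn_id _⟩
    | succ k => exact hf k
  obtain ⟨e, he⟩ := exists_surjective_nat (ℕ × (Fin n → ℤ) × (Fin m → ℤ) × ℕ)
  let W : ℕ → Set (Fin m → Fin n → ℝ) := fun k =>
    U ∩ (g (e k).1) ⁻¹' {A | Good (e k).2.2.2 A ∧ Avoid (e k).2.1 (e k).2.2.1 A}
  have hWo : ∀ k, IsOpen (W k) := fun k =>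
    (hg _).1.isOpen_inter_preimage hU ((isOpen_good _).inter (isOpen_avoid _ _))
  have hE : E U f = U ∩ ⋂ k, W k := by
    ext A
    constructor
    · rintro ⟨h1, h2, h3⟩
      refine ⟨h1, mem_iInter.2 fun k => ⟨h1, ?_⟩⟩
      have h4 : ∀ j, IsLiouville (Matrix.of (g j A)) := by
        intro j
        cases j with
        | zero => exact h2
        | succ k => exact h3 k
      exact ⟨(h4 _).2 _, (h4 _).1 _ _⟩
    · rintro ⟨h1, h2⟩
      have h4 : ∀ j, IsLiouville (Matrix.of (g j A)) := by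
        intro j
        refine ⟨fun q p => ?_, fun N => ?_⟩
        · obtain ⟨k, hk⟩ := he (j, q, p, 0)
          have h5 := (mem_iInter.1 h2 k).2
          simp only [hk] at h5
          exact h5.2
        · obtain ⟨k, hk⟩ := he (j, 0, 0, N)
          have h5 := (mem_iInter.1 h2 k).2
          simp only [hk] at h5
          exact h5.1
      exact ⟨h1, h4 0, fun k => h4 (k + 1)⟩
  have hmain : ∀ s : ℝ, 0 < s → s < 1 → ENNReal.ofReal s ≤ dimH (E U f) := by
    intro s hs hs1
    rw [hE]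
    apply Cantor.le_dimH hs hs1.le hU hne
    intro k x r hr hxU
    have hsub : ball x r ⊆ U := ball_subset_closedBall.trans hxU
    obtain ⟨η, hη, hηm, hd⟩ := exists_good_path hm hn (g (e k).1) x r hr ((hg _).1.mono hsub)
      ((hg _).2.mono hsub) (e k).2.1 (e k).2.2.1 (e k).2.2.2
    obtain ⟨σ, τ, y, h1, h2, h3, h4, h5, h6⟩ := Cantor.points_of_path hs hs1 x r hr
      (W k ∩ ball x r) ((hWo k).inter isOpen_ball) η hη
      (fun t ht => ⟨⟨hsub (hηm t ht).1, (hηm t ht).2⟩, (hηm t ht).1⟩) hd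
    refine ⟨σ, τ, y, h1, h2, h3, h4, ?_, h6⟩
    intro i hi
    exact (h5 i hi).trans (inter_subset_inter_right _ ball_subset_closedBall)
  have h1 : (1 : ℝ≥0∞) = ENNReal.ofReal 1 := by simp
  rw [h1]
  refine le_of_forall_lt fun c hc => ?_
  have hcfin : c ≠ ∞ := (hc.trans ENNReal.ofReal_lt_top).ne
  have hc1 : c.toReal < 1 := by
    have := (ENNReal.lt_ofReal_iff_toReal_lt hcfin).1 hc
    exact this
  set s := (c.toReal + 1) / 2 with hs
  have hc0 : 0 ≤ c.toReal := ENNReal.toReal_nonneg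
  have h2 := hmain s (by rw [hs]; linarith) (by rw [hs]; linarith)
  refine lt_of_lt_of_le ?_ h2
  rw [ENNReal.lt_ofReal_iff_toReal_lt hcfin, hs]
  linarith

/-- the case of one column -/
theorem dimH_E_column (m : ℕ) :
    dimH (E (univ : Set (Fin m → Fin 1 → ℝ)) (fun _ A => A)) = 0 := by
  refine le_antisymm ?_ bot_le
  rw [← dimH_column m]
  exact dimH_mono fun A hA => hA.2.1

end Q271.LiouvilleInj
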