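import Pool.Agent.Q271.LiouvilleDef

set_option autoImplicit false

/-! # Lines of matrices without Liouville matrices -/

namespace Q271

open Matrix MeasureTheory
open scoped ENNReal

/-- measure of a slab: translation trick -/
lemma slab {V : Type} [AddCommGroup V] [Module ℝ V] [MeasurableSpace V] [MeasurableAdd V]
    (μ : Measure V) [μ.IsAddRightInvariant] (f : V →ₗ[ℝ] ℝ) (hf : Measurable f) (e : V)
    (he : 1 ≤ |f e|) (S B : Set V) (hS : MeasurableSet S)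
    (hSB : ∀ a ∈ S, ∀ r : ℝ, 0 ≤ r → r ≤ 1 → a + r • e ∈ B) (c ε : ℝ) (hε : 0 < ε)
    (hε4 : ε ≤ 1 / 4) :
    μ (S ∩ {a | |f a - c| < ε}) ≤ ENNReal.ofReal (4 * ε) * μ B := by
  set S' := S ∩ {a | |f a - c| < ε} with hS'
  have hS'm : MeasurableSet S' := by
    apply hS.inter
    exact measurableSet_lt ((hf.sub_const c).abs) measurable_const
  set K : ℕ := ⌊1 / (2 * ε)⌋₊ with hK
  have hKle : (K : ℝ) ≤ 1 / (2 * ε) := Nat.floor_le (by positivity)
  have hKge : 1 / (4 * ε) ≤ (K : ℝ) := by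
    have h1 : 1 / (2 * ε) - 1 < (K : ℝ) := Nat.sub_one_lt_floor _
    have h2 : 1 ≤ 1 / (4 * ε) := by
      rw [le_div_iff₀ (by positivity)]
      linarith
    have h3 : 1 / (2 * ε) = 1 / (4 * ε) + 1 / (4 * ε) := by
      field_simp
      norm_num
    linarith
  let T : ℕ → Set V := fun k => (fun a => a + (-(2 * ε * k)) • e) ⁻¹' S'
  have hTμ : ∀ k, μ (T k) = μ S' := fun k => measure_preimage_add_right μ _ S'
  have hTm : ∀ k, MeasurableSet (T k) := fun k => (measurable_add_const _) hS'm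
  have hdisj : Set.PairwiseDisjoint (↑(Finset.range K)) T := by
    intro k _ l _ hkl
    rw [Function.onFun, Set.disjoint_left]
    intro a hak hal
    have h1 : |f (a + (-(2 * ε * k)) • e) - c| < ε := hak.2
    have h2 : |f (a + (-(2 * ε * l)) • e) - c| < ε := hal.2
    rw [map_add, map_smul, smul_eq_mul] at h1 h2
    have h3 : |(2 * ε * ((k : ℝ) - l)) * f e| < 2 * ε := by
      have e1 : (2 * ε * ((k : ℝ) - l)) * f e =
          (f a + -(2 * ε * l) * f e - c) - (f a + -(2 * ε * k) * f e - c) := by ring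
      rw [e1]
      refine lt_of_le_of_lt (abs_sub _ _) ?_
      linarith
    rw [abs_mul, abs_mul, abs_of_pos (by positivity : 0 < 2 * ε)] at h3
    have h4 : (1 : ℝ) ≤ |(k : ℝ) - l| := by
      have h5 : (k : ℤ) - l ≠ 0 := by
        intro h
        apply hkl
        omega
      have := Int.one_le_abs h5
      exact_mod_cast this
    have h5 : 2 * ε * 1 * 1 ≤ 2 * ε * |(k : ℝ) - l| * |f e| := by
      apply mul_le_mul _ he (by norm_num) (by positivity)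
      exact mul_le_mul_of_nonneg_left h4 (by positivity)
    linarith
  have hsub : (⋃ k ∈ Finset.range K, T k) ⊆ B := by
    intro a ha
    simp only [Set.mem_iUnion, Finset.mem_range] at ha
    obtain ⟨k, hk, hak⟩ := ha
    have h1 := hSB _ hak.1 (2 * ε * k) (by positivity) ?_
    · rw [neg_smul, neg_add_cancel_right] at h1
      exact h1
    · have h2 : (k : ℝ) ≤ K := by exact_mod_cast hk.le
      have h3 := h2.trans hKle
      rw [le_div_iff₀ (by positivity)] at h3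
      linarith
  have hsum : (K : ℝ≥0∞) * μ S' ≤ μ B := by
    calc (K : ℝ≥0∞) * μ S' = ∑ k ∈ Finset.range K, μ (T k) := by
          rw [Finset.sum_congr rfl (fun k _ => hTμ k), Finset.sum_const, Finset.card_range,
            nsmul_eq_mul]
      _ = μ (⋃ k ∈ Finset.range K, T k) := (measure_biUnion_finset hdisj (fun k _ => hTm k)).symm
      _ ≤ μ B := measure_mono hsub
  calc μ S' = ENNReal.ofReal (4 * ε) * (ENNReal.ofReal (1 / (4 * ε)) * μ S') := by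
        rw [← mul_assoc, ← ENNReal.ofReal_mul (by positivity)]
        have : 4 * ε * (1 / (4 * ε)) = 1 := by field_simp
        rw [this, ENNReal.ofReal_one, one_mul]
    _ ≤ ENNReal.ofReal (4 * ε) * ((K : ℝ≥0∞) * μ S') := by
        gcongr
        rw [← ENNReal.ofReal_natCast]
        exact ENNReal.ofReal_le_ofReal hKge
    _ ≤ ENNReal.ofReal (4 * ε) * μ B := by gcongr

/-- the functional `A ↦ κ₀ (A y)₀ + κ₁ (A y)₁` -/
noncomputable def fn {m n : ℕ} (i₀ i₁ : Fin m) (κ₀ κ₁ : ℝ) (y : Fin n → ℤ) :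
    (Fin m → Fin n → ℝ) →ₗ[ℝ] ℝ where
  toFun A := κ₀ * ∑ j, A i₀ j * y j + κ₁ * ∑ j, A i₁ j * y j
  map_add' A B := by
    simp only [Pi.add_apply, add_mul, Finset.sum_add_distrib]
    ring
  map_smul' r A := by
    simp only [Pi.smul_apply, smul_eq_mul, RingHom.id_apply, mul_assoc, ← Finset.mul_sum]
    ring

lemma fn_apply {m n : ℕ} (i₀ i₁ : Fin m) (κ₀ κ₁ : ℝ) (y : Fin n → ℤ) (A : Fin m → Fin n → ℝ) :
    fn i₀ i₁ κ₀ κ₁ y A = κ₀ * ∑ j, A i₀ j * y j + κ₁ * ∑ j, A i₁ j * y j := rfl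

/-- the box `[-T, T]^(m n)` -/
def box (m n : ℕ) (T : ℝ) : Set (Fin m → Fin n → ℝ) := {A | ∀ i j, |A i j| ≤ T}

lemma box_eq (m n : ℕ) (T : ℝ) :
    box m n T = Set.Icc (fun _ _ => -T) (fun _ _ => T) := by
  ext A
  simp only [box, Set.mem_ofPred_eq, Set.mem_Icc, Pi.le_def, abs_le]
  exact ⟨fun h => ⟨fun i j => (h i j).1, fun i j => (h i j).2⟩, fun h i j => ⟨h.1 i j, h.2 i j⟩⟩

/-- the coefficients eliminating `t` -/
lemma exists_kappa (c₀ c₁ : ℝ) : ∃ κ₀ κ₁ : ℝ, |κ₀| ≤ 1 ∧ |κ₁| ≤ 1 ∧ (|κ₀| = 1 ∨ |κ₁| = 1) ∧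
    κ₀ * c₀ + κ₁ * c₁ = 0 := by
  by_cases h0 : c₀ = 0
  · exact ⟨1, 0, by simp, by simp, by simp, by simp [h0]⟩
  rcases le_total |c₁| |c₀| with h | h
  · refine ⟨- c₁ / c₀, 1, ?_, by simp, by simp, ?_⟩
    · rw [abs_div, abs_neg]
      exact div_le_one_of_le₀ h (abs_nonneg _)
    · field_simp
      ring
  · have h1 : c₁ ≠ 0 := by
      intro h1
      rw [h1, abs_zero] at h
      exact h0 (abs_nonpos_iff.1 h)
    refine ⟨1, - c₀ / c₁, by simp, ?_, by simp, ?_⟩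
    · rw [abs_div, abs_neg]
      exact div_le_one_of_le₀ h (abs_nonneg _)
    · field_simp
      ring

lemma fn_single₀ {m n : ℕ} (i₀ i₁ : Fin m) (h : i₀ ≠ i₁) (κ₀ κ₁ : ℝ) (y : Fin n → ℤ) (j : Fin n) :
    fn i₀ i₁ κ₀ κ₁ y (Pi.single i₀ (Pi.single j 1)) = κ₀ * y j := by
  rw [fn_apply]
  have h1 : ∑ j', (Pi.single i₀ (Pi.single j 1) : Fin m → Fin n → ℝ) i₀ j' * (y j' : ℝ) = y j := by
    rw [Pi.single_eq_same, Finset.sum_eq_single j]
    · simp
    · intro b _ hb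
      simp [Pi.single_eq_of_ne hb]
    · simp
  have h2 : ∑ j', (Pi.single i₀ (Pi.single j 1) : Fin m → Fin n → ℝ) i₁ j' * (y j' : ℝ) = 0 := by
    rw [Pi.single_eq_of_ne h.symm]
    simp
  rw [h1, h2]
  ring

lemma fn_single₁ {m n : ℕ} (i₀ i₁ : Fin m) (h : i₀ ≠ i₁) (κ₀ κ₁ : ℝ) (y : Fin n → ℤ) (j : Fin n) :
    fn i₀ i₁ κ₀ κ₁ y (Pi.single i₁ (Pi.single j 1)) = κ₁ * y j := by
  rw [fn_apply]
  have h1 : ∑ j', (Pi.single i₁ (Pi.single j 1) : Fin m → Fin n → ℝ) i₁ j' * (y j' : ℝ) = y j := by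
    rw [Pi.single_eq_same, Finset.sum_eq_single j]
    · simp
    · intro b _ hb
      simp [Pi.single_eq_of_ne hb]
    · simp
  have h2 : ∑ j', (Pi.single i₁ (Pi.single j 1) : Fin m → Fin n → ℝ) i₀ j' * (y j' : ℝ) = 0 := by
    rw [Pi.single_eq_of_ne h]
    simp
  rw [h1, h2]
  ring

set_option synthInstance.maxSize 10000 in
/-- the slab bound for the functionals `fn` -/
lemma slab_fn {m n : ℕ} (i₀ i₁ : Fin m) (h : i₀ ≠ i₁) (κ₀ κ₁ : ℝ) (hκ : |κ₀| = 1 ∨ |κ₁| = 1)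
    (y : Fin n → ℤ) (hy : y ≠ 0) (T c ε : ℝ) (hε : 0 < ε) (hε4 : ε ≤ 1 / 4) :
    volume (box m n T ∩ {A | |fn i₀ i₁ κ₀ κ₁ y A - c| < ε}) ≤
      ENNReal.ofReal (4 * ε) * volume (box m n (T + 1)) := by
  obtain ⟨j, hj⟩ := Function.ne_iff.1 hy
  have hj1 : (1 : ℝ) ≤ |(y j : ℝ)| := by exact_mod_cast Int.one_le_abs hj
  have hf : Measurable (fn i₀ i₁ κ₀ κ₁ y) :=
    (LinearMap.continuous_of_finiteDimensional (fn i₀ i₁ κ₀ κ₁ y)).measurable
  have hS : MeasurableSet (box m n T) := by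
    rw [box_eq]
    exact measurableSet_Icc
  have hbox : ∀ i : Fin m, ∀ a ∈ box m n T, ∀ r : ℝ, 0 ≤ r → r ≤ 1 →
      a + r • (Pi.single i (Pi.single j 1) : Fin m → Fin n → ℝ) ∈ box m n (T + 1) := by
    intro i a ha r hr0 hr1 i' j'
    have h1 := ha i' j'
    have h2 : |r * (Pi.single i (Pi.single j 1) : Fin m → Fin n → ℝ) i' j'| ≤ 1 := by
      rw [abs_mul, abs_of_nonneg hr0]
      have h3 : |(Pi.single i (Pi.single j 1) : Fin m → Fin n → ℝ) i' j'| ≤ 1 := by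
        by_cases hi : i' = i
        · subst hi
          rw [Pi.single_eq_same]
          by_cases hj' : j' = j
          · subst hj'
            simp
          · rw [Pi.single_eq_of_ne hj']
            simp
        · rw [Pi.single_eq_of_ne hi]
          simp
      have h4 := abs_nonneg ((Pi.single i (Pi.single j 1) : Fin m → Fin n → ℝ) i' j')
      nlinarith
    show |a i' j' + r * (Pi.single i (Pi.single j 1) : Fin m → Fin n → ℝ) i' j'| ≤ T + 1
    exact (abs_add_le _ _).trans (add_le_add h1 h2)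
  rcases hκ with hκ | hκ
  · refine slab volume (fn i₀ i₁ κ₀ κ₁ y) hf (Pi.single i₀ (Pi.single j 1)) ?_ _ _ hS
      (hbox i₀) c ε hε hε4
    rw [fn_single₀ i₀ i₁ h, abs_mul, hκ, one_mul]
    exact hj1
  · refine slab volume (fn i₀ i₁ κ₀ κ₁ y) hf (Pi.single i₁ (Pi.single j 1)) ?_ _ _ hS
      (hbox i₁) c ε hε hε4
    rw [fn_single₁ i₀ i₁ h, abs_mul, hκ, one_mul]
    exact hj1

/-- the exceptional set at the scale `Q` -/
def E (m n : ℕ) (C : Fin m → Fin n → ℝ) (T Q : ℕ) : Set (Fin m → Fin n → ℝ) :=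
  {A | A ∈ box m n T ∧ 2 ≤ Q ∧ ∃ y : Fin n → ℤ, y ≠ 0 ∧ (∀ j, |y j| ≤ Q) ∧ ∃ t : ℝ, |t| ≤ T ∧
    ∃ x : Fin m → ℤ, ∀ i, |∑ j, (A i j + t * C i j) * y j - x i| < ((Q : ℝ) ^ (n + 4))⁻¹}

lemma E_measure (m n : ℕ) (hm : 2 ≤ m) (C : Fin m → Fin n → ℝ) (T : ℕ) :
    ∃ W : ℝ, 0 ≤ W ∧ ∀ Q : ℕ, volume (E m n C T Q) ≤
      ENNReal.ofReal (W * (1 / (Q : ℝ) ^ 2)) * volume (box m n ((T : ℝ) + 1)) := by
  obtain ⟨c₀, hc₀⟩ : ∃ c₀ : ℕ, ∀ i j, |C i j| ≤ c₀ := by
    obtain ⟨c, hc⟩ : ∃ c : ℝ, ∀ i j, |C i j| ≤ c := by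
      refine ⟨∑ i, ∑ j, |C i j|, fun i j => ?_⟩
      refine (Finset.single_le_sum (f := fun j => |C i j|) (fun _ _ => abs_nonneg _)
        (Finset.mem_univ j)).trans ?_
      exact Finset.single_le_sum (f := fun i => ∑ j, |C i j|)
        (fun _ _ => Finset.sum_nonneg fun _ _ => abs_nonneg _) (Finset.mem_univ i)
    obtain ⟨c₀, h⟩ := exists_nat_ge c
    exact ⟨c₀, fun i j => (hc i j).trans h⟩
  set K₁ : ℕ := n * T * (1 + c₀) + 1 with hK₁
  set i₀ : Fin m := ⟨0, by omega⟩ with hi₀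
  set i₁ : Fin m := ⟨1, by omega⟩ with hi₁
  have hi01 : i₀ ≠ i₁ := by
    intro h
    have := congrArg Fin.val h
    simp [hi₀, hi₁] at this
  have hκ := fun y : Fin n → ℤ => exists_kappa (∑ j, C i₀ j * y j) (∑ j, C i₁ j * y j)
  choose κ₀ κ₁ hκ0 hκ1 hκ01 hκs using hκ
  refine ⟨8 * (3 ^ n * (3 * K₁) ^ 2), by positivity, fun Q => ?_⟩
  by_cases hQ : 2 ≤ Q
  swap
  · have : E m n C T Q = ∅ := by
      ext A
      simp only [E, Set.mem_ofPred_eq, Set.mem_empty_iff_false, iff_false]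
      exact fun h => hQ h.2.1
    rw [this, measure_empty]
    exact bot_le
  have hQ2 : (2 : ℝ) ≤ Q := by exact_mod_cast hQ
  set δ : ℝ := ((Q : ℝ) ^ (n + 4))⁻¹ with hδ
  have hδ0 : 0 < δ := by positivity
  have hδ16 : δ ≤ 1 / 16 := by
    rw [hδ, ← one_div]
    apply one_div_le_one_div_of_le (by norm_num)
    calc (16 : ℝ) = 2 ^ 4 := by norm_num
      _ ≤ (Q : ℝ) ^ 4 := by gcongr
      _ ≤ (Q : ℝ) ^ (n + 4) := by
          apply pow_le_pow_right₀ (by linarith)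
          omega
  classical
  set Y : Finset (Fin n → ℤ) :=
    (Fintype.piFinset (fun _ : Fin n => Finset.Icc (-(Q : ℤ)) Q)).filter (fun y => y ≠ 0) with hY
  set R : Finset ℤ := Finset.Icc (-((K₁ * Q : ℕ) : ℤ)) ((K₁ * Q : ℕ) : ℤ) with hR
  have hsub : E m n C T Q ⊆ ⋃ y ∈ Y, ⋃ x₀ ∈ R, ⋃ x₁ ∈ R,
      (box m n T ∩ {A | |fn i₀ i₁ (κ₀ y) (κ₁ y) y A - (κ₀ y * x₀ + κ₁ y * x₁)| < 2 * δ}) := by
    rintro A ⟨hA, -, y, hy0, hyQ, t, ht, x, hx⟩
    have hyQ' : ∀ j, |(y j : ℝ)| ≤ Q := fun j => by exact_mod_cast hyQ j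
    have hxR : ∀ i, x i ∈ R := by
      intro i
      have h1 := hx i
      have h2 : |∑ j, (A i j + t * C i j) * (y j : ℝ)| ≤ n * (T * (1 + c₀) * Q) := by
        refine (Finset.abs_sum_le_sum_abs _ _).trans ?_
        have h3 : ∀ j ∈ Finset.univ, |(A i j + t * C i j) * (y j : ℝ)| ≤ T * (1 + c₀) * Q := by
          intro j _
          rw [abs_mul]
          apply mul_le_mul _ (hyQ' j) (abs_nonneg _) (by positivity)
          refine (abs_add_le _ _).trans ?_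
          rw [abs_mul]
          have h4 := hA i j
          have h5 := mul_le_mul ht (hc₀ i j) (abs_nonneg _) (by positivity)
          linarith
        refine (Finset.sum_le_card_nsmul _ _ _ h3).trans ?_
        rw [Finset.card_univ, Fintype.card_fin, nsmul_eq_mul]
      have h3 : |(x i : ℝ)| ≤ ((K₁ * Q : ℕ) : ℝ) := by
        have e : (x i : ℝ) = ∑ j, (A i j + t * C i j) * (y j : ℝ) -
            (∑ j, (A i j + t * C i j) * (y j : ℝ) - x i) := by ring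
        rw [e]
        refine (abs_sub _ _).trans ?_
        have e2 : ((K₁ * Q : ℕ) : ℝ) = n * (T * (1 + c₀) * Q) + Q := by
          rw [hK₁]
          push_cast
          ring
        rw [e2]
        linarith
      have h4 : |x i| ≤ ((K₁ * Q : ℕ) : ℤ) := by exact_mod_cast h3
      rw [hR, Finset.mem_Icc]
      exact abs_le.1 h4
    simp only [Set.mem_iUnion]
    refine ⟨y, ?_, x i₀, hxR i₀, x i₁, hxR i₁, hA, ?_⟩
    · rw [hY, Finset.mem_filter, Fintype.mem_piFinset]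
      exact ⟨fun j => Finset.mem_Icc.2 (abs_le.1 (hyQ j)), hy0⟩
    · show |fn i₀ i₁ (κ₀ y) (κ₁ y) y A - (κ₀ y * x i₀ + κ₁ y * x i₁)| < 2 * δ
      rw [fn_apply]
      have hsplit : ∀ i, ∑ j, (A i j + t * C i j) * (y j : ℝ) =
          ∑ j, A i j * y j + t * ∑ j, C i j * y j := by
        intro i
        rw [Finset.mul_sum, ← Finset.sum_add_distrib]
        exact Finset.sum_congr rfl fun j _ => by ring
      have h0 := hx i₀
      have h1 := hx i₁
      rw [hsplit] at h0 h1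
      have hs := hκs y
      have e : κ₀ y * ∑ j, A i₀ j * (y j : ℝ) + κ₁ y * ∑ j, A i₁ j * (y j : ℝ) -
          (κ₀ y * x i₀ + κ₁ y * x i₁) =
          κ₀ y * (∑ j, A i₀ j * (y j : ℝ) + t * ∑ j, C i₀ j * (y j : ℝ) - x i₀) +
          κ₁ y * (∑ j, A i₁ j * (y j : ℝ) + t * ∑ j, C i₁ j * (y j : ℝ) - x i₁) := by
        linear_combination (-t) * hs
      rw [e]
      refine lt_of_le_of_lt (abs_add_le _ _) ?_
      rw [abs_mul, abs_mul]
      have h3 := mul_le_mul_of_nonneg_right (hκ0 y)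
        (abs_nonneg (∑ j, A i₀ j * (y j : ℝ) + t * ∑ j, C i₀ j * (y j : ℝ) - x i₀))
      have h4 := mul_le_mul_of_nonneg_right (hκ1 y)
        (abs_nonneg (∑ j, A i₁ j * (y j : ℝ) + t * ∑ j, C i₁ j * (y j : ℝ) - x i₁))
      linarith
  set M := volume (box m n ((T : ℝ) + 1)) with hM
  have hcard : (Y.card * (R.card * R.card) : ℕ) ≤ 3 ^ n * (3 * K₁) ^ 2 * Q ^ (n + 2) := by
    have hYc : Y.card ≤ (3 * Q) ^ n := by
      refine (Finset.card_filter_le _ _).trans ?_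
      rw [Fintype.card_piFinset]
      simp only [Int.card_Icc, Finset.prod_const, Finset.card_univ, Fintype.card_fin]
      apply Nat.pow_le_pow_left
      omega
    have hRc : R.card ≤ 3 * K₁ * Q := by
      rw [hR, Int.card_Icc]
      have : 1 ≤ K₁ * Q := Nat.mul_pos (by omega) (by omega)
      have e : 3 * K₁ * Q = 3 * (K₁ * Q) := by ring
      rw [e]
      omega
    calc Y.card * (R.card * R.card) ≤ (3 * Q) ^ n * ((3 * K₁ * Q) * (3 * K₁ * Q)) := by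
          gcongr
      _ = 3 ^ n * (3 * K₁) ^ 2 * Q ^ (n + 2) := by ring
  calc volume (E m n C T Q) ≤ ∑ y ∈ Y, ∑ x₀ ∈ R, ∑ x₁ ∈ R,
        volume (box m n T ∩
          {A | |fn i₀ i₁ (κ₀ y) (κ₁ y) y A - (κ₀ y * x₀ + κ₁ y * x₁)| < 2 * δ}) := by
        refine (measure_mono hsub).trans ?_
        refine (measure_biUnion_finset_le _ _).trans (Finset.sum_le_sum fun y _ => ?_)
        refine (measure_biUnion_finset_le _ _).trans (Finset.sum_le_sum fun x₀ _ => ?_)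
        exact measure_biUnion_finset_le _ _
    _ ≤ ∑ y ∈ Y, ∑ x₀ ∈ R, ∑ x₁ ∈ R, ENNReal.ofReal (4 * (2 * δ)) * M := by
        refine Finset.sum_le_sum fun y hy => Finset.sum_le_sum fun x₀ _ =>
          Finset.sum_le_sum fun x₁ _ => ?_
        exact slab_fn i₀ i₁ hi01 _ _ (hκ01 y) y (Finset.mem_filter.1 hy).2 _ _ _
          (by positivity) (by linarith)
    _ = ((Y.card * (R.card * R.card) : ℕ) : ℝ≥0∞) * (ENNReal.ofReal (4 * (2 * δ)) * M) := by
        simp only [Finset.sum_const, nsmul_eq_mul]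
        push_cast
        ring
    _ ≤ ((3 ^ n * (3 * K₁) ^ 2 * Q ^ (n + 2) : ℕ) : ℝ≥0∞) * (ENNReal.ofReal (4 * (2 * δ)) * M) := by
        gcongr
    _ = ENNReal.ofReal (8 * (3 ^ n * (3 * K₁) ^ 2) * (1 / (Q : ℝ) ^ 2)) * M := by
        rw [← mul_assoc, ← ENNReal.ofReal_natCast, ← ENNReal.ofReal_mul (by positivity)]
        congr 2
        rw [hδ]
        push_cast
        have hQ0 : (Q : ℝ) ≠ 0 := by linarith
        rw [show n + 4 = (n + 2) + 2 from rfl, pow_add (Q : ℝ) (n + 2) 2]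
        field_simp
        ring

lemma ae_finite (m n : ℕ) (hm : 2 ≤ m) (C : Fin m → Fin n → ℝ) (T : ℕ) :
    ∀ᵐ A : Fin m → Fin n → ℝ, {Q : ℕ | A ∈ E m n C T Q}.Finite := by
  obtain ⟨W, hW0, hW⟩ := E_measure m n hm C T
  apply ae_finite_setOfPred_mem
  have hM : volume (box m n ((T : ℝ) + 1)) ≠ ∞ := by
    rw [box_eq]
    exact (isCompact_Icc.measure_lt_top).ne
  have hsum : ∑' Q : ℕ, ENNReal.ofReal (W * (1 / (Q : ℝ) ^ 2)) ≠ ∞ := by
    have hs : Summable (fun Q : ℕ => W * (1 / (Q : ℝ) ^ 2)) :=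
      (Real.summable_one_div_nat_pow.2 (by norm_num)).mul_left W
    rw [← ENNReal.ofReal_tsum_of_nonneg (fun Q => by positivity) hs]
    exact ENNReal.ofReal_ne_top
  refine ne_top_of_le_ne_top ?_ (ENNReal.tsum_le_tsum hW)
  rw [ENNReal.tsum_mul_right]
  exact ENNReal.mul_ne_top hsum hM

lemma norm_toR_le {k : ℕ} (x : Fin k → ℤ) (i : Fin k) : |(x i : ℝ)| ≤ ‖toR x‖ :=
  norm_le_pi_norm (toR x) i

/-- the norm of an integer vector is a natural number -/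
lemma exists_norm_toR {k : ℕ} (x : Fin k → ℤ) : ∃ Q : ℕ, ‖toR x‖ = Q := by
  by_cases hk : k = 0
  · subst hk
    refine ⟨0, ?_⟩
    have : toR x = 0 := Subsingleton.elim _ _
    rw [this]
    simp
  · have : Nonempty (Fin k) := ⟨⟨0, by omega⟩⟩
    obtain ⟨i, -, hi⟩ := Finset.exists_max_image Finset.univ (fun i => |(x i : ℝ)|)
      Finset.univ_nonempty
    refine ⟨(x i).natAbs, le_antisymm ?_ ?_⟩
    · rw [pi_norm_le_iff_of_nonneg (by positivity)]
      intro j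
      rw [Real.norm_eq_abs]
      refine (hi j (Finset.mem_univ j)).trans ?_
      rw [← Int.cast_abs, Int.abs_eq_natAbs]
      simp
    · refine le_trans ?_ (norm_toR_le x i)
      rw [← Int.cast_abs, Int.abs_eq_natAbs]
      simp

/-- If only finitely many denominators `Q` give a very good approximation, the matrix is not a
Liouville matrix. -/
lemma not_liouville {m n : ℕ} (M : Matrix (Fin m) (Fin n) ℝ) (a Q₁ : ℕ)
    (h : ∀ y : Fin n → ℤ, 2 ≤ ‖toR y‖ → (Q₁ : ℝ) < ‖toR y‖ → ∀ x : Fin m → ℤ,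
      (‖toR y‖ ^ a)⁻¹ ≤ ‖M *ᵥ toR y - toR x‖) : ¬ IsLiouville M := by
  rintro ⟨h1, h2⟩
  -- a bound for `M y` on the bounded vectors `y`
  obtain ⟨B, hB⟩ : ∃ B : ℝ, ∀ y : Fin n → ℤ, ‖toR y‖ ≤ Q₁ → ‖M *ᵥ toR y‖ ≤ B := by
    have hc : Continuous (fun v : Fin n → ℝ => M *ᵥ v) := by fun_prop
    obtain ⟨B, hB⟩ := (isCompact_closedBall (0 : Fin n → ℝ) Q₁).exists_bound_of_continuousOn
      hc.continuousOn
    exact ⟨B, fun y hy => hB _ (by simpa using hy)⟩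
  obtain ⟨B', hB'⟩ := exists_nat_ge (B + 1)
  have hfin : {p : (Fin n → ℤ) × (Fin m → ℤ) | 2 ≤ ‖toR p.1‖ ∧ ‖toR p.1‖ ≤ Q₁ ∧
      ‖toR p.2‖ ≤ B'}.Finite := by
    apply Set.Finite.subset ((Set.finite_Icc (fun _ => -(Q₁ : ℤ)) (fun _ => (Q₁ : ℤ))).prod
      (Set.finite_Icc (fun _ => -(B' : ℤ)) (fun _ => (B' : ℤ))))
    rintro ⟨y, x⟩ ⟨-, hy, hx⟩
    have hy' : ∀ j, |y j| ≤ Q₁ := fun j => by exact_mod_cast (norm_toR_le y j).trans hy
    have hx' : ∀ j, |x j| ≤ B' := fun j => by exact_mod_cast (norm_toR_le x j).trans hx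
    exact ⟨⟨fun j => (abs_le.1 (hy' j)).1, fun j => (abs_le.1 (hy' j)).2⟩,
      ⟨fun j => (abs_le.1 (hx' j)).1, fun j => (abs_le.1 (hx' j)).2⟩⟩
  obtain ⟨ε, hε, hεp⟩ : ∃ ε : ℝ, 0 < ε ∧ ∀ p ∈ {p : (Fin n → ℤ) × (Fin m → ℤ) | 2 ≤ ‖toR p.1‖ ∧
      ‖toR p.1‖ ≤ Q₁ ∧ ‖toR p.2‖ ≤ B'}, ε ≤ ‖M *ᵥ toR p.1 - toR p.2‖ := by
    rcases Set.eq_empty_or_nonempty {p : (Fin n → ℤ) × (Fin m → ℤ) | 2 ≤ ‖toR p.1‖ ∧
      ‖toR p.1‖ ≤ Q₁ ∧ ‖toR p.2‖ ≤ B'} with he | hne
    · exact ⟨1, one_pos, fun p hp => by rw [he] at hp; exact absurd hp (Set.notMem_empty _)⟩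
    · obtain ⟨p, hp, hmin⟩ := Set.exists_min_image _
        (fun p : (Fin n → ℤ) × (Fin m → ℤ) => ‖M *ᵥ toR p.1 - toR p.2‖) hfin hne
      refine ⟨_, ?_, hmin⟩
      rw [norm_pos_iff, sub_ne_zero]
      apply h1
      left
      intro h0
      have h2' := hp.1
      rw [h0] at h2'
      have : toR (0 : Fin n → ℤ) = 0 := by
        ext i
        simp [toR]
      rw [this, norm_zero] at h2'
      norm_num at h2'
  obtain ⟨N₀, hN₀⟩ := exists_pow_lt_of_lt_one hε (show (1 / 2 : ℝ) < 1 by norm_num)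
  obtain ⟨y, x, hy2, hyx⟩ := h2 (max N₀ a)
  have hy1 : (1 : ℝ) ≤ ‖toR y‖ := by linarith
  rcases le_or_gt ‖toR y‖ Q₁ with hle | hgt
  · have hlt1 : ‖M *ᵥ toR y - toR x‖ < (1 / 2) ^ N₀ := by
      refine lt_of_lt_of_le hyx ?_
      rw [one_div, inv_pow]
      apply inv_anti₀ (by positivity)
      calc (2 : ℝ) ^ N₀ ≤ ‖toR y‖ ^ N₀ := by gcongr
        _ ≤ ‖toR y‖ ^ (max N₀ a) := pow_le_pow_right₀ hy1 (le_max_left _ _)
    have hx : ‖toR x‖ ≤ B' := by
      have e : toR x = M *ᵥ toR y - (M *ᵥ toR y - toR x) := by abel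
      rw [e]
      refine (norm_sub_le _ _).trans ?_
      have h3 := hB y hle
      have h4 : ((1 : ℝ) / 2) ^ N₀ ≤ 1 := pow_le_one₀ (by norm_num) (by norm_num)
      linarith
    have := hεp (y, x) ⟨hy2, hle, hx⟩
    linarith
  · have h3 := h y hy2 hgt x
    have h4 : (‖toR y‖ ^ (max N₀ a))⁻¹ ≤ (‖toR y‖ ^ a)⁻¹ := by
      apply inv_anti₀ (by positivity)
      exact pow_le_pow_right₀ hy1 (le_max_right _ _)
    linarith

/-- **Main lemma.** Let `m ≥ 2` and let `C` be a real `m × n` matrix. For Lebesgue-almost every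
real `m × n` matrix `A` the line `A + t C`, `t ∈ ℝ`, contains no Liouville matrix. -/
theorem ae_line (m n : ℕ) (hm : 2 ≤ m) (C : Fin m → Fin n → ℝ) :
    ∀ᵐ A : Fin m → Fin n → ℝ, ∀ t : ℝ,
      ¬ IsLiouville (Matrix.of (fun i j => A i j + t * C i j)) := by
  have h := ae_all_iff.2 (fun T : ℕ => ae_finite m n hm C T)
  filter_upwards [h] with A hA t
  obtain ⟨T, hT⟩ : ∃ T : ℕ, (∀ i j, |A i j| ≤ T) ∧ |t| ≤ T := by
    obtain ⟨T, hT⟩ := exists_nat_ge (∑ i, ∑ j, |A i j| + |t|)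
    refine ⟨T, fun i j => le_trans ?_ hT, le_trans ?_ hT⟩
    · have h1 : |A i j| ≤ ∑ i, ∑ j, |A i j| :=
        (Finset.single_le_sum (f := fun j => |A i j|) (fun _ _ => abs_nonneg _)
          (Finset.mem_univ j)).trans
          (Finset.single_le_sum (f := fun i => ∑ j, |A i j|)
            (fun _ _ => Finset.sum_nonneg fun _ _ => abs_nonneg _) (Finset.mem_univ i))
      linarith [abs_nonneg t]
    · have h1 : 0 ≤ ∑ i, ∑ j, |A i j| :=
        Finset.sum_nonneg fun _ _ => Finset.sum_nonneg fun _ _ => abs_nonneg _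
      linarith
  obtain ⟨Q₁, hQ₁⟩ := (hA T).bddAbove
  apply not_liouville _ (n + 4) Q₁
  intro y hy2 hyQ x
  by_contra hlt
  rw [not_le] at hlt
  obtain ⟨Q, hQ⟩ := exists_norm_toR y
  rw [hQ] at hy2 hyQ hlt
  have hQ2 : 2 ≤ Q := by exact_mod_cast hy2
  have hQ1 : Q₁ < Q := by exact_mod_cast hyQ
  have hmem : A ∈ E m n C T Q := by
    refine ⟨hT.1, hQ2, y, ?_, ?_, t, hT.2, x, ?_⟩
    · rintro rfl
      have : toR (0 : Fin n → ℤ) = 0 := by
        ext i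
        simp [toR]
      rw [this, norm_zero] at hQ
      have : (Q : ℝ) = 0 := hQ.symm
      have : Q = 0 := by exact_mod_cast this
      omega
    · intro j
      have h1 := norm_toR_le y j
      rw [hQ] at h1
      exact_mod_cast h1
    · intro i
      refine lt_of_le_of_lt ?_ hlt
      have h1 := norm_le_pi_norm
        ((Matrix.of (fun i j => A i j + t * C i j)) *ᵥ toR y - toR x) i
      exact h1
  have := hQ₁ hmem
  omega

end Q271
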