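import Pool.Agent.Q271.CantorTree

/-!
# Refinement data from continuous paths
-/

set_option autoImplicit false

namespace Q271.Cantor

open Metric Set

variable {X : Type} [MetricSpace X]

/-- If an open set `O ⊆ W ∩ closedBall x r` contains a path of diameter at least `r / 4`,
then the refinement data exist. -/
lemma points_of_path {s : ℝ} (hs : 0 < s) (hs1 : s < 1) (x : X) (r : ℝ) (hr : 0 < r)
    (O : Set X) (hO : IsOpen O) (η : ℝ → X) (hη : ContinuousOn η (Icc 0 1))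
    (hmem : ∀ t ∈ Icc (0:ℝ) 1, η t ∈ O) (hdist : r / 4 ≤ dist (η 0) (η 1)) :
    ∃ (σ τ : ℝ) (y : ℕ → X), 0 < τ ∧ τ ≤ σ ∧ τ ≤ r / 32 ∧ 16 * σ * r ^ s ≤ r * τ ^ s ∧
      (∀ i : ℕ, 16 * i * σ ≤ r → closedBall (y i) τ ⊆ O) ∧
      (∀ i j : ℕ, 16 * i * σ ≤ r → 16 * j * σ ≤ r → 4 * |(i : ℝ) - j| * σ ≤ dist (y i) (y j)) := by
  obtain ⟨δ, hδ, hδO⟩ := (isCompact_Icc.image_of_continuousOn hη).exists_cthickening_subset_open hO
    (by rintro _ ⟨t, ht, rfl⟩; exact hmem t ht)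
  set κ : ℝ := (1 / 16 : ℝ) ^ (1 / (1 - s)) with hκ
  have h1s : 0 < 1 - s := by linarith
  have hκpos : 0 < κ := Real.rpow_pos_of_pos (by norm_num) _
  have hκs : κ ^ (1 - s) = 1 / 16 := by
    rw [hκ, ← Real.rpow_mul (by norm_num), one_div_mul_cancel h1s.ne', Real.rpow_one]
  set τ : ℝ := min (κ * r) (min δ (r / 32)) with hτ
  have hτpos : 0 < τ := by
    rw [hτ]
    exact lt_min (by positivity) (lt_min hδ (by positivity))
  have hτ1 : τ ≤ κ * r := min_le_left _ _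
  have hτ2 : τ ≤ δ := (min_le_right _ _).trans (min_le_left _ _)
  have hτ3 : τ ≤ r / 32 := (min_le_right _ _).trans (min_le_right _ _)
  -- the points
  have hpt : ∀ i : ℕ, ∃ t ∈ Icc (0:ℝ) 1, 16 * i * τ ≤ r → dist (η t) (η 0) = 4 * i * τ := by
    intro i
    by_cases hi : 16 * i * τ ≤ r
    · have hc : ContinuousOn (fun t => dist (η t) (η 0)) (Icc 0 1) :=
        continuous_dist.comp_continuousOn (hη.prodMk continuousOn_const)
      have hv : (4 * i * τ : ℝ) ∈ Icc (dist (η 0) (η 0)) (dist (η 1) (η 0)) := by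
        rw [dist_self, dist_comm (η 1)]
        constructor
        · positivity
        · linarith
      obtain ⟨t, ht, hte⟩ := intermediate_value_Icc zero_le_one hc hv
      exact ⟨t, ht, fun _ => hte⟩
    · exact ⟨0, by simp, fun h => absurd h hi⟩
  choose t ht hdt using hpt
  refine ⟨τ, τ, fun i => η (t i), hτpos, le_rfl, hτ3, ?_, ?_, ?_⟩
  · have e1 : τ = τ ^ s * τ ^ (1 - s) := by
      rw [← Real.rpow_add hτpos]; simp
    have e2 : r ^ (1 - s) * r ^ s = r := by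
      rw [← Real.rpow_add hr]; simp
    have e3 : τ ^ (1 - s) ≤ (κ * r) ^ (1 - s) := Real.rpow_le_rpow hτpos.le hτ1 h1s.le
    rw [Real.mul_rpow hκpos.le hr.le, hκs] at e3
    have e4 : 0 < τ ^ s := Real.rpow_pos_of_pos hτpos s
    have e5 : 0 < r ^ s := Real.rpow_pos_of_pos hr s
    calc 16 * τ * r ^ s = 16 * (τ ^ s * τ ^ (1 - s)) * r ^ s := by rw [← e1]
      _ ≤ 16 * (τ ^ s * (1 / 16 * r ^ (1 - s))) * r ^ s := by gcongr
      _ = (r ^ (1 - s) * r ^ s) * τ ^ s := by ring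
      _ = r * τ ^ s := by rw [e2]
  · intro i hi
    refine Subset.trans ?_ hδO
    intro z hz
    exact mem_cthickening_of_dist_le z (η (t i)) δ _ ⟨t i, ht i, rfl⟩
      ((mem_closedBall.1 hz).trans hτ2)
  · intro i j hi hj
    have h1 := hdt i hi
    have h2 := hdt j hj
    have h3 : |dist (η (t i)) (η 0) - dist (η (t j)) (η 0)| ≤ dist (η (t i)) (η (t j)) :=
      abs_dist_sub_le _ _ _
    rw [h1, h2] at h3
    have h4 : |4 * (i:ℝ) * τ - 4 * j * τ| = 4 * |(i:ℝ) - j| * τ := by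
      rw [show 4 * (i:ℝ) * τ - 4 * j * τ = (4 * τ) * (i - j) by ring, abs_mul,
        abs_of_pos (by positivity)]
      ring
    rwa [h4] at h3

end Q271.Cantor
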