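import Pool.Agent.Helper514.IoD

/-!
# Pulling back lines by injective continuous maps
-/

set_option autoImplicit false

namespace Q271.PullBack

open Metric Set Module Topology Filter

/-- Invariance of domain between real vector spaces of the same finite dimension. -/
theorem image_mem_nhds_of_injOn {V W : Type*} [NormedAddCommGroup V] [NormedSpace ℝ V]
    [FiniteDimensional ℝ V] [NormedAddCommGroup W] [NormedSpace ℝ W] [FiniteDimensional ℝ W]
    (hdim : finrank ℝ V = finrank ℝ W)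
    (U : Set V) (hU : IsOpen U) (x0 : V) (hx0 : x0 ∈ U) (f : V → W) (hc : ContinuousOn f U)
    (hi : InjOn f U) : f '' U ∈ 𝓝 (f x0) := by
  set n := finrank ℝ V with hn
  let E := EuclideanSpace ℝ (Fin n)
  have hE : finrank ℝ E = n := by simp [E]
  let L : V ≃L[ℝ] E := ContinuousLinearEquiv.ofFinrankEq (by rw [hE])
  let M : W ≃L[ℝ] E := ContinuousLinearEquiv.ofFinrankEq (by rw [hE]; exact hdim.symm)
  have hopen : IsOpen (L.symm ⁻¹' U) := hU.preimage L.symm.continuous
  have hmem : L x0 ∈ L.symm ⁻¹' U := by simpa using hx0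
  obtain ⟨r, hr, hball⟩ := Metric.nhds_basis_closedBall.mem_iff.1 (hopen.mem_nhds hmem)
  have hg := Pool.Agent.Helper514.IoD.image_mem_nhds (E := E) (fun y => M (f (L.symm y))) (L x0) r hr
    (by
      apply M.continuous.comp_continuousOn
      apply hc.comp L.symm.continuous.continuousOn
      intro y hy
      exact hball hy)
    (by
      intro a ha b hb hab
      exact L.symm.injective (hi (hball ha) (hball hb) (M.injective hab)))
  have h0 : M (f (L.symm (L x0))) = M (f x0) := by simp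
  simp only [h0] at hg
  have h1 := M.continuous.continuousAt.preimage_mem_nhds hg
  refine Filter.mem_of_superset h1 ?_
  rintro w ⟨y, hy, hyw⟩
  exact ⟨L.symm y, hball hy, M.injective hyw⟩

variable {V : Type} [NormedAddCommGroup V] [NormedSpace ℝ V] [FiniteDimensional ℝ V]

/-- images of balls are open -/
lemma isOpen_image_ball (g : V → V) (x : V) (r : ℝ) (hc : ContinuousOn g (ball x r))
    (hi : InjOn g (ball x r)) : IsOpen (g '' ball x r) := by
  rw [isOpen_iff_mem_nhds]
  rintro _ ⟨z, hz, rfl⟩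
  exact image_mem_nhds_of_injOn rfl (ball x r) isOpen_ball z hz g hc hi

/-- The inverse of an injective continuous map on a compact set is continuous. -/
lemma inv_continuousOn (g : V → V) (C : Set V) (hC : IsCompact C) (hc : ContinuousOn g C)
    (hi : InjOn g C) : ContinuousOn (Function.invFunOn g C) (g '' C) := by
  rw [continuousOn_iff_isClosed]
  intro F hF
  refine ⟨g '' (C ∩ F), ((hC.inter_right hF).image_of_continuousOn
    (hc.mono inter_subset_left)).isClosed, ?_⟩
  ext w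
  constructor
  · rintro ⟨hw, z, hz, rfl⟩
    have h1 : Function.invFunOn g C (g z) = z := hi.leftInvOn_invFunOn hz
    refine ⟨⟨z, ⟨hz, ?_⟩, rfl⟩, ⟨z, hz, rfl⟩⟩
    have h2 : Function.invFunOn g C (g z) ∈ F := hw
    rwa [h1] at h2
  · rintro ⟨⟨z, ⟨hz, hzF⟩, rfl⟩, -⟩
    have h1 : Function.invFunOn g C (g z) = z := hi.leftInvOn_invFunOn hz
    refine ⟨?_, ⟨z, hz, rfl⟩⟩
    show Function.invFunOn g C (g z) ∈ F
    rwa [h1]

/-- **Pulling back a ray.** -/
lemma exists_path (g : V → V) (x : V) (r : ℝ) (hr : 0 < r) (hc : ContinuousOn g (ball x r))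
    (hi : InjOn g (ball x r)) (A w : V) (hA : A ∈ g '' ball x (r / 4)) (hw : w ≠ 0) :
    ∃ η : ℝ → V, ContinuousOn η (Icc 0 1) ∧
      (∀ t ∈ Icc (0:ℝ) 1, η t ∈ ball x r ∧ ∃ a : ℝ, g (η t) = A + a • w) ∧
      r / 4 ≤ dist (η 0) (η 1) := by
  set C := closedBall x (r / 2) with hC
  have hCc : IsCompact C := isCompact_closedBall _ _
  have hCsub : C ⊆ ball x r := closedBall_subset_ball (by linarith)
  set O := g '' ball x (r / 2) with hO
  have hsub2 : ball x (r / 2) ⊆ ball x r := ball_subset_ball (by linarith)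
  have hOo : IsOpen O := isOpen_image_ball g x (r / 2) (hc.mono hsub2) (hi.mono hsub2)
  have hcC := hc.mono hCsub
  have hiC := hi.mono hCsub
  have hK : IsCompact (g '' C) := hCc.image_of_continuousOn hcC
  have hOK : O ⊆ g '' C := image_mono ball_subset_closedBall
  obtain ⟨z0, hz0, hz0A⟩ := hA
  have hz0C : z0 ∈ ball x (r / 2) := ball_subset_ball (by linarith) hz0
  -- the ray
  set γ : ℝ → V := fun s => A + s • w with hγ
  have hγc : Continuous γ := by fun_prop
  set S : Set ℝ := {s | 0 ≤ s ∧ γ s ∉ O} with hS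
  have hSclosed : IsClosed S := by
    have h1 : S = Ici 0 ∩ γ ⁻¹' Oᶜ := by
      ext s; rfl
    rw [h1]
    exact isClosed_Ici.inter (hOo.isClosed_compl.preimage hγc)
  have hSne : S.Nonempty := by
    obtain ⟨R, hR⟩ := hK.isBounded.exists_norm_le
    have hwpos : 0 < ‖w‖ := norm_pos_iff.2 hw
    refine ⟨(R + ‖A‖ + 1) / ‖w‖, ?_, ?_⟩
    · have h1 : 0 ≤ R := (norm_nonneg _).trans (hR _ (hOK ⟨z0, hz0C, rfl⟩))
      positivity
    · intro hmem
      have h1 := hR _ (hOK hmem)
      have h0 : 0 ≤ R := (norm_nonneg _).trans (hR _ (hOK ⟨z0, hz0C, rfl⟩))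
      have h2 : ‖((R + ‖A‖ + 1) / ‖w‖) • w‖ = R + ‖A‖ + 1 := by
        rw [norm_smul, Real.norm_of_nonneg (by positivity)]
        field_simp
      have h3 : ‖((R + ‖A‖ + 1) / ‖w‖) • w‖ ≤ ‖γ ((R + ‖A‖ + 1) / ‖w‖)‖ + ‖A‖ := by
        have e : ((R + ‖A‖ + 1) / ‖w‖) • w = γ ((R + ‖A‖ + 1) / ‖w‖) - A := by
          simp [hγ]
        calc ‖((R + ‖A‖ + 1) / ‖w‖) • w‖ = ‖γ ((R + ‖A‖ + 1) / ‖w‖) - A‖ := by rw [e]
          _ ≤ _ := norm_sub_le _ _
      linarith
  have hSbdd : BddBelow S := ⟨0, fun s hs => hs.1⟩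
  set s0 := sInf S with hs0
  have hs0S : s0 ∈ S := hSclosed.csInf_mem hSne hSbdd
  have hbelow : ∀ s, 0 ≤ s → s < s0 → γ s ∈ O := by
    intro s h1 h2
    by_contra hcon
    exact absurd (csInf_le hSbdd (show s ∈ S from ⟨h1, hcon⟩)) (not_le.2 h2)
  have hγ0 : γ 0 = g z0 := by simp [hγ, hz0A]
  have hs0pos : 0 < s0 := by
    rcases hs0S.1.lt_or_eq with h | h
    · exact h
    · exfalso
      apply hs0S.2
      rw [← h, hγ0]
      exact ⟨z0, hz0C, rfl⟩
  have hs0K : γ s0 ∈ g '' C := by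
    have h1 : s0 ∈ closure (Ico 0 s0) := by
      rw [closure_Ico hs0pos.ne]
      exact ⟨hs0pos.le, le_rfl⟩
    have h2 : γ s0 ∈ closure (γ '' Ico 0 s0) := by
      exact image_closure_subset_closure_image hγc ⟨s0, h1, rfl⟩
    have h3 : γ '' Ico 0 s0 ⊆ g '' C := by
      rintro _ ⟨s, hs, rfl⟩
      exact hOK (hbelow s hs.1 hs.2)
    exact (closure_minimal h3 hK.isClosed) h2
  have hall : ∀ s ∈ Icc 0 s0, γ s ∈ g '' C := by
    intro s hs
    rcases hs.2.lt_or_eq with h | h
    · exact hOK (hbelow s hs.1 h)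
    · rw [h]; exact hs0K
  set G := Function.invFunOn g C with hG
  have hGc : ContinuousOn G (g '' C) := inv_continuousOn g C hCc hcC hiC
  have hGmem : ∀ v ∈ g '' C, G v ∈ C ∧ g (G v) = v := fun v hv =>
    ⟨Function.invFunOn_mem hv, Function.invFunOn_eq hv⟩
  refine ⟨fun t => G (γ (s0 * t)), ?_, ?_, ?_⟩
  · apply hGc.comp (Continuous.continuousOn (by fun_prop))
    intro t ht
    exact hall _ ⟨by have := ht.1; positivity, by have := ht.2; nlinarith⟩
  · intro t ht
    have h1 := hall (s0 * t) ⟨by have := ht.1; positivity, by have := ht.2; nlinarith⟩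
    obtain ⟨h2, h3⟩ := hGmem _ h1
    exact ⟨hCsub h2, s0 * t, h3⟩
  · simp only [mul_zero, mul_one]
    have h1 : G (γ 0) = z0 := by
      rw [hγ0]
      exact hiC.leftInvOn_invFunOn (ball_subset_closedBall hz0C)
    obtain ⟨h2, h3⟩ := hGmem _ hs0K
    have h4 : ¬ G (γ s0) ∈ ball x (r / 2) := by
      intro hcon
      exact hs0S.2 ⟨_, hcon, h3⟩
    rw [h1]
    rw [mem_ball, not_lt] at h4
    have h5 : dist z0 x < r / 4 := hz0
    have h6 := dist_triangle (G (γ s0)) z0 x
    rw [dist_comm z0 (G (γ s0))]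
    linarith

end Q271.PullBack
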