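import Pool.Agent.Q271.LiouvilleLine
import Pool.Agent.Q271.PathPoints
import Pool.Agent.Q271.PullBack

/-!
# Paths of matrices with good approximations
-/

set_option autoImplicit false

namespace Q271.LiouvilleInj

open Metric Set Matrix

variable {m n : ℕ}

/-- `A` has an approximation of order `N` -/
def Good (N : ℕ) (A : Fin m → Fin n → ℝ) : Prop :=
  ∃ (y : Fin n → ℤ) (x : Fin m → ℤ), 2 ≤ ‖toR y‖ ∧
    ‖Matrix.of A *ᵥ toR y - toR x‖ < (‖toR y‖ ^ N)⁻¹

/-- `A` does not map `q` to `p` -/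
def Avoid (q : Fin n → ℤ) (p : Fin m → ℤ) (A : Fin m → Fin n → ℝ) : Prop :=
  (q ≠ 0 ∨ p ≠ 0) → Matrix.of A *ᵥ toR q ≠ toR p

lemma isLiouville_iff (A : Fin m → Fin n → ℝ) :
    IsLiouville (Matrix.of A) ↔ (∀ q p, Avoid q p A) ∧ ∀ N, Good N A := Iff.rfl

lemma mulVec_continuous (v : Fin n → ℝ) :
    Continuous fun A : Fin m → Fin n → ℝ => Matrix.of A *ᵥ v := by
  apply continuous_pi
  intro i
  simp only [Matrix.mulVec, dotProduct, Matrix.of_apply]
  fun_prop

lemma isOpen_good (N : ℕ) : IsOpen {A : Fin m → Fin n → ℝ | Good N A} := by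
  have h : {A : Fin m → Fin n → ℝ | Good N A} = ⋃ (y : Fin n → ℤ) (x : Fin m → ℤ)
      (_ : 2 ≤ ‖toR y‖), {A | ‖Matrix.of A *ᵥ toR y - toR x‖ < (‖toR y‖ ^ N)⁻¹} := by
    ext A
    simp [Good]
  rw [h]
  refine isOpen_iUnion fun y => isOpen_iUnion fun x => isOpen_iUnion fun _ => ?_
  exact isOpen_lt ((mulVec_continuous _).sub continuous_const).norm continuous_const

lemma isOpen_avoid (q : Fin n → ℤ) (p : Fin m → ℤ) :
    IsOpen {A : Fin m → Fin n → ℝ | Avoid q p A} := by
  by_cases h : q ≠ 0 ∨ p ≠ 0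
  · have h1 : {A : Fin m → Fin n → ℝ | Avoid q p A} = {A | Matrix.of A *ᵥ toR q ≠ toR p} := by
      ext A
      simp [Avoid, h]
    rw [h1]
    exact isOpen_ne_fun (mulVec_continuous _) continuous_const
  · have h1 : {A : Fin m → Fin n → ℝ | Avoid q p A} = univ := by
      ext A
      simp [Avoid, h]
    rw [h1]
    exact isOpen_univ

/-- Rational points on the fibres of `A ↦ A q`. -/
lemma exists_rational (hm : 1 ≤ m) (O : Set (Fin m → Fin n → ℝ)) (hO : IsOpen O)
    (hne : O.Nonempty) (q : Fin n → ℤ) (hq : q ≠ 0) (p : Fin m → ℤ) :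
    ∃ A ∈ O, ∃ (t : ℤ) (x : Fin m → ℤ), 2 ≤ ‖toR (t • q)‖ ∧
      Matrix.of A *ᵥ toR (t • q) = toR x ∧ Matrix.of A *ᵥ toR q ≠ toR p := by
  obtain ⟨A0, hA0⟩ := hne
  obtain ⟨ε, hε, hball⟩ := Metric.isOpen_iff.1 hO A0 hA0
  obtain ⟨j, hj⟩ := Function.ne_iff.1 hq
  obtain ⟨t0, ht0⟩ := exists_nat_gt (1 / ε)
  set t : ℤ := (t0 : ℤ) + 2 with ht
  have htpos : (0:ℝ) < t := by rw [ht]; push_cast; positivity
  have htge : (2:ℝ) ≤ t := by rw [ht]; push_cast; linarith [(Nat.cast_nonneg t0 : (0:ℝ) ≤ t0)]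
  have htε : 1 / (t:ℝ) < ε := by
    rw [div_lt_iff₀ htpos]
    rw [div_lt_iff₀ hε] at ht0
    rw [ht]; push_cast
    nlinarith
  set v : Fin m → ℝ := Matrix.of A0 *ᵥ toR q with hv
  set x : Fin m → ℤ := fun i => ⌊t * v i⌋ + (if ⌊t * v i⌋ = t * p i then 1 else 0) with hx
  have hx1 : ∀ i, x i ≠ t * p i := by
    intro i
    simp only [hx]
    split_ifs with h
    · rw [h]; omega
    · simpa using h
  have hx2 : ∀ i, |(x i : ℝ) / t - v i| ≤ 1 / t := by
    intro i
    have h1 : (x i : ℝ) / t - v i = ((x i : ℝ) - t * v i) / t := by field_simp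
    rw [h1, abs_div, abs_of_pos htpos]
    apply div_le_div_of_nonneg_right _ htpos.le
    have h2 := Int.floor_le ((t:ℝ) * v i)
    have h3 := Int.lt_floor_add_one ((t:ℝ) * v i)
    simp only [hx]
    split_ifs with h
    · push_cast
      rw [abs_le]; constructor <;> linarith
    · push_cast
      rw [abs_le]; constructor <;> linarith
  have hqj : (q j : ℝ) ≠ 0 := by exact_mod_cast hj
  have hqj1 : (1:ℝ) ≤ |(q j : ℝ)| := by
    have := Int.one_le_abs hj
    exact_mod_cast this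
  set A : Fin m → Fin n → ℝ := fun i l => A0 i l + if l = j then ((x i : ℝ) / t - v i) / q j else 0
    with hA
  have hAq : Matrix.of A *ᵥ toR q = fun i => (x i : ℝ) / t := by
    funext i
    have h1 : (Matrix.of A *ᵥ toR q) i = ∑ l, A i l * q l := rfl
    have h2 : v i = ∑ l, A0 i l * q l := rfl
    rw [h1]
    simp only [hA, add_mul, ite_mul, zero_mul, Finset.sum_add_distrib, Finset.sum_ite_eq',
      Finset.mem_univ, if_true]
    rw [← h2]
    field_simp
    ring
  refine ⟨A, hball ?_, t, x, ?_, ?_, ?_⟩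
  · rw [mem_ball, dist_pi_lt_iff hε]
    intro i
    rw [dist_pi_lt_iff hε]
    intro l
    rw [Real.dist_eq]
    simp only [hA, add_sub_cancel_left]
    split_ifs with h
    · rw [abs_div, div_lt_iff₀ (by linarith)]
      have := hx2 i
      nlinarith
    · simpa using hε
  · have h1 : |toR (t • q) j| ≤ ‖toR (t • q)‖ := norm_le_pi_norm (toR (t • q)) j
    have h2 : |toR (t • q) j| = t * |(q j : ℝ)| := by
      simp only [toR, Pi.smul_apply, smul_eq_mul]
      push_cast
      rw [abs_mul, abs_of_pos htpos]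
    nlinarith
  · have h1 : toR (t • q) = (t:ℝ) • toR q := by
      funext l; simp [toR]
    rw [h1, Matrix.mulVec_smul, hAq]
    funext i
    simp only [Pi.smul_apply, smul_eq_mul, toR]
    field_simp
  · rw [hAq]
    intro h
    have h1 := congrFun h ⟨0, hm⟩
    simp only [toR] at h1
    rw [div_eq_iff htpos.ne'] at h1
    apply hx1 ⟨0, hm⟩
    rw [mul_comm]
    exact_mod_cast h1

/-- A nonzero matrix that kills `q`. -/
lemma exists_kill (hm : 1 ≤ m) (hn : 2 ≤ n) (q : Fin n → ℤ) (hq : q ≠ 0) :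
    ∃ w : Fin m → Fin n → ℝ, w ≠ 0 ∧ Matrix.of w *ᵥ toR q = 0 := by
  obtain ⟨j, hj⟩ := Function.ne_iff.1 hq
  obtain ⟨l, hl⟩ : ∃ l : Fin n, l ≠ j := by
    haveI : Nontrivial (Fin n) := Fin.nontrivial_iff_two_le.2 hn
    exact exists_ne j
  refine ⟨fun _ k => if k = l then (q j : ℝ) else if k = j then -(q l : ℝ) else 0, ?_, ?_⟩
  · intro h
    have h1 := congrFun (congrFun h ⟨0, hm⟩) l
    simp at h1
    exact hj h1
  · funext i
    have h1 : ∀ k, (if k = l then (q j : ℝ) else if k = j then -(q l : ℝ) else 0) * q k =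
        (if k = l then (q j : ℝ) * q l else 0) + (if k = j then -((q l : ℝ) * q j) else 0) := by
      intro k
      by_cases h2 : k = l
      · subst h2
        simp [hl]
      · by_cases h3 : k = j
        · subst h3; simp [h2]
        · simp [h2, h3]
    show ∑ k, (if k = l then (q j : ℝ) else if k = j then -(q l : ℝ) else 0) * q k = 0
    rw [Finset.sum_congr rfl (fun k _ => h1 k), Finset.sum_add_distrib]
    simp
    ring

/-- **The path.** -/
lemma exists_good_path (hm : 1 ≤ m) (hn : 2 ≤ n)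
    (g : (Fin m → Fin n → ℝ) → (Fin m → Fin n → ℝ)) (x : Fin m → Fin n → ℝ) (r : ℝ) (hr : 0 < r)
    (hc : ContinuousOn g (ball x r)) (hi : InjOn g (ball x r)) (q : Fin n → ℤ) (p : Fin m → ℤ)
    (N : ℕ) :
    ∃ η : ℝ → (Fin m → Fin n → ℝ), ContinuousOn η (Icc 0 1) ∧
      (∀ t ∈ Icc (0:ℝ) 1, η t ∈ ball x r ∧ Good N (g (η t)) ∧ Avoid q p (g (η t))) ∧
      r / 4 ≤ dist (η 0) (η 1) := by
  have hsub : ball x (r / 4) ⊆ ball x r := ball_subset_ball (by linarith)
  have hO := PullBack.isOpen_image_ball g x (r / 4) (hc.mono hsub) (hi.mono hsub)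
  have hne : (g '' ball x (r / 4)).Nonempty := ⟨g x, x, mem_ball_self (by linarith), rfl⟩
  -- the nonzero vector
  obtain ⟨q', hq', hqq⟩ : ∃ q' : Fin n → ℤ, q' ≠ 0 ∧ (q = 0 ∨ q' = q) := by
    by_cases h : q = 0
    · refine ⟨fun _ => 1, ?_, Or.inl h⟩
      intro h1
      have := congrFun h1 ⟨0, by omega⟩
      simp at this
    · exact ⟨q, h, Or.inr rfl⟩
  obtain ⟨A, hA, t, x', h2, hAx, hAp⟩ := exists_rational hm _ hO hne q' hq' p
  obtain ⟨w, hw, hwq⟩ := exists_kill (m := m) hm hn q' hq'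
  obtain ⟨η, hη, hηm, hd⟩ := PullBack.exists_path g x r hr hc hi A w hA hw
  refine ⟨η, hη, ?_, hd⟩
  intro s hs
  obtain ⟨h3, a, ha⟩ := hηm s hs
  have hlin : ∀ v : Fin n → ℝ, Matrix.of (A + a • w) *ᵥ v =
      Matrix.of A *ᵥ v + a • (Matrix.of w *ᵥ v) := by
    intro v
    have : Matrix.of (A + a • w) = Matrix.of A + a • Matrix.of w := rfl
    rw [this, Matrix.add_mulVec, Matrix.smul_mulVec]
  refine ⟨h3, ⟨t • q', x', h2, ?_⟩, ?_⟩
  · rw [ha, hlin]
    have h4 : toR (t • q') = (t:ℝ) • toR q' := by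
      funext l; simp [toR]
    have h5 : Matrix.of w *ᵥ toR (t • q') = 0 := by
      rw [h4, Matrix.mulVec_smul, hwq, smul_zero]
    rw [h5, hAx, smul_zero, add_zero, sub_self, norm_zero]
    positivity
  · intro hqp
    rcases hqq with h | h
    · subst h
      intro h6
      have h7 : toR (0 : Fin n → ℤ) = 0 := by funext l; simp [toR]
      rw [h7, Matrix.mulVec_zero] at h6
      apply hqp.resolve_left (by simp)
      funext l
      have := congrFun h6 l
      simp only [toR, Pi.zero_apply] at this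
      exact_mod_cast this.symm
    · subst h
      rw [ha, hlin, hwq, smul_zero, add_zero]
      exact hAp

end Q271.LiouvilleInj
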