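import Pool.Agent.Q271.LittleDef

set_option autoImplicit false
set_option linter.unusedSectionVars false

/-! # Bad windows -/

namespace Q271.Little

open Polynomial

section
variable {F : Type} [Field F] [Fintype F]

/-- the shift operator -/
def shift : Module.End F (ℕ → F) where
  toFun x := fun i => x (i + 1)
  map_add' _ _ := rfl
  map_smul' _ _ := rfl

lemma shift_pow (j : ℕ) (x : ℕ → F) (i : ℕ) : ((shift ^ j : Module.End F (ℕ → F)) x) i = x (i + j) := by
  induction j generalizing i with
  | zero => simp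
  | succ j ih =>
    rw [pow_succ', Module.End.mul_apply]
    show ((shift ^ j : Module.End F (ℕ → F)) x) (i + 1) = _
    rw [ih]
    congr 1
    ring

lemma fracMul_eq (P : F[X]) (x : ℕ → F) :
    fracMul P x = (aeval (shift : Module.End F (ℕ → F)) P) x := by
  funext i
  rw [aeval_eq_sum_range, fracMul]
  simp only [LinearMap.sum_apply, LinearMap.smul_apply, Finset.sum_apply, Pi.smul_apply,
    smul_eq_mul, shift_pow]

lemma fracMul_comm (P Q : F[X]) (x : ℕ → F) :
    fracMul P (fracMul Q x) = fracMul Q (fracMul P x) := by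
  rw [fracMul_eq, fracMul_eq, fracMul_eq, fracMul_eq, ← Module.End.mul_apply,
    ← Module.End.mul_apply, ← map_mul, ← map_mul, mul_comm]

lemma fracMul_sub (P Q : F[X]) (x : ℕ → F) :
    fracMul (P - Q) x = fracMul P x - fracMul Q x := by
  rw [fracMul_eq, fracMul_eq, fracMul_eq, map_sub, LinearMap.sub_apply]

lemma fracMul_C_mul (a : F) (P : F[X]) (x : ℕ → F) :
    fracMul (C a * P) x = a • fracMul P x := by
  rw [fracMul_eq, fracMul_eq, map_mul, aeval_C, Module.algebraMap_end_eq_smul_id,
    Module.End.mul_apply, LinearMap.smul_apply, LinearMap.id_apply]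

lemma fracMul_X_pow_mul (v : ℕ) (P : F[X]) (x : ℕ → F) :
    fracMul (X ^ v * P) x = fracMul P (fun j => x (v + j)) := by
  rw [fracMul_eq, fracMul_eq, mul_comm, map_mul, Module.End.mul_apply, map_pow, aeval_X]
  congr 1
  funext j
  rw [shift_pow, add_comm]

/-- the bad events -/
def Bad (L : ℕ → ℕ) (v d : ℕ) (x : ℕ → F) : Prop :=
  ∃ P : F[X], P ≠ 0 ∧ P.natDegree = d ∧
    ∀ i < d + L (v + d), fracMul P (fun j => x (v + j)) i = 0

lemma Bad.monic {L : ℕ → ℕ} {v d : ℕ} {x : ℕ → F} (h : Bad L v d x) :
    ∃ P : F[X], P.Monic ∧ P.natDegree = d ∧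
      ∀ i < d + L (v + d), fracMul P (fun j => x (v + j)) i = 0 := by
  obtain ⟨P, hP0, hPd, hP⟩ := h
  have hl : P.leadingCoeff ≠ 0 := leadingCoeff_ne_zero.2 hP0
  refine ⟨C P.leadingCoeff⁻¹ * P, ?_, ?_, ?_⟩
  · exact monic_C_mul_of_mul_leadingCoeff_eq_one (inv_mul_cancel₀ hl)
  · rw [natDegree_C_mul (inv_ne_zero hl), hPd]
  · intro i hi
    rw [fracMul_C_mul, Pi.smul_apply, hP i hi, smul_zero]

/-- a shorter recurrence persists -/
lemma persist (N P : F[X]) (z : ℕ → F) (d L : ℕ) (hP0 : P ≠ 0) (hPd : P.natDegree = d)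
    (hN : ∀ i < d, fracMul N z i = 0) (hP : ∀ i < d + L, fracMul P z i = 0)
    (hNd : N.natDegree ≤ d) :
    ∀ i < 2 * d + L - N.natDegree, fracMul N z i = 0 := by
  intro e
  induction e using Nat.strong_induction_on with
  | _ e ih =>
    intro he
    by_cases hed : e < d
    · exact hN e hed
    push Not at hed
    -- compare two expressions at `e - d`
    have h1 : fracMul P (fracMul N z) (e - d) = P.coeff d * fracMul N z e := by
      rw [fracMul, hPd, Finset.sum_range_succ]
      rw [Finset.sum_eq_zero, zero_add]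
      · congr 2
        omega
      · intro j hj
        rw [Finset.mem_range] at hj
        rw [ih (e - d + j) (by omega) (by omega), mul_zero]
    have h2 : fracMul N (fracMul P z) (e - d) = 0 := by
      rw [fracMul]
      apply Finset.sum_eq_zero
      intro j hj
      rw [Finset.mem_range] at hj
      rw [hP (e - d + j) (by omega), mul_zero]
    rw [fracMul_comm, h2] at h1
    have h3 : P.coeff d ≠ 0 := by
      rw [← hPd]
      exact leadingCoeff_ne_zero.2 hP0
    rcases mul_eq_zero.1 h1.symm with h4 | h4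
    · exact absurd h4 h3
    · exact h4

/-- **Determinism.** -/
lemma determined (L : ℕ → ℕ) (hL : Monotone L) (v d : ℕ) (x y : ℕ → F) (hx : Bad L v d x)
    (hy : Bad L v d y) (hmin : ∀ d' < d, ¬ Bad L v d' x) (hxy : ∀ j < 2 * d, x (v + j) = y (v + j)) :
    ∀ j < 2 * d + L (v + d), x (v + j) = y (v + j) := by
  obtain ⟨P, hPm, hPd, hP⟩ := hx.monic
  obtain ⟨Q, hQm, hQd, hQ⟩ := hy.monic
  have hPQ : P = Q := by
    by_contra hne
    have hN0 : P - Q ≠ 0 := sub_ne_zero.2 hne
    have hNd : (P - Q).natDegree < d := by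
      have h1 : (P - Q).degree < P.degree := by
        apply degree_sub_lt_left
        · rw [degree_eq_natDegree hPm.ne_zero, degree_eq_natDegree hQm.ne_zero, hPd, hQd]
        · exact hPm.ne_zero
        · rw [hPm.leadingCoeff, hQm.leadingCoeff]
      have := natDegree_lt_natDegree hN0 h1
      omega
    apply hmin _ hNd
    have hN : ∀ i < d, fracMul (P - Q) (fun j => x (v + j)) i = 0 := by
      intro i hi
      rw [fracMul_sub, Pi.sub_apply, hP i (by omega), zero_sub, neg_eq_zero]
      rw [← hQ i (by omega), fracMul, fracMul]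
      apply Finset.sum_congr rfl
      intro j hj
      rw [Finset.mem_range, hQd] at hj
      rw [hxy (i + j) (by omega)]
    refine ⟨P - Q, hN0, rfl, fun i hi => ?_⟩
    apply persist (P - Q) P _ d (L (v + d)) hPm.ne_zero hPd hN hP hNd.le
    have := hL (show v + (P - Q).natDegree ≤ v + d by omega)
    omega
  subst hPQ
  intro j
  induction j using Nat.strong_induction_on with
  | _ j ih =>
    intro hj
    by_cases hjd : j < 2 * d
    · exact hxy j hjd
    push Not at hjd
    have h1 := hP (j - d) (by omega)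
    have h2 := hQ (j - d) (by omega)
    rw [fracMul, hPd, Finset.sum_range_succ] at h1 h2
    have h3 : ∑ k ∈ Finset.range d, P.coeff k * x (v + (j - d + k)) =
        ∑ k ∈ Finset.range d, P.coeff k * y (v + (j - d + k)) := by
      apply Finset.sum_congr rfl
      intro k hk
      rw [Finset.mem_range] at hk
      rw [ih (j - d + k) (by omega) (by omega)]
    have hc : P.coeff d = 1 := by
      rw [← hPd]
      exact hPm
    rw [h3, hc, one_mul, show j - d + d = j by omega] at h1
    rw [hc, one_mul, show j - d + d = j by omega] at h2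
    have h4 := h1.trans h2.symm
    exact add_left_cancel h4

/-- sequences without bad events are counterexamples -/
lemma mem_M (L : ℕ → ℕ) (f : ℕ → ℝ) (c : ℝ) (hc : 0 < c) (x : Digits F)
    (hL : ∀ k, c ≤ f k * ((Fintype.card F : ℝ)⁻¹) ^ (L k)) (hf : ∀ k, 0 ≤ f k)
    (hx : ∀ v d, ¬ Bad L v d x.digit) : x ∈ M F f := by
  refine ⟨c, hc, fun N hN => ?_⟩
  set v := N.natTrailingDegree with hv
  set q : ℝ := (Fintype.card F : ℝ) with hq
  have hq1 : 1 < q := card_pos'
  have hq0 : 0 < q := by linarith
  obtain ⟨P, hP⟩ : ∃ P : F[X], N = X ^ v * P := by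
    have h1 : X ^ v ∣ N := by
      rw [X_pow_dvd_iff]
      intro d hd
      exact coeff_eq_zero_of_lt_natTrailingDegree hd
    exact h1
  have hP0 : P ≠ 0 := by
    rintro rfl
    rw [mul_zero] at hP
    exact hN hP
  have hdeg : N.natDegree = v + P.natDegree := by
    rw [hP, natDegree_mul (pow_ne_zero _ X_ne_zero) hP0, natDegree_X_pow]
  set d := P.natDegree with hd
  have hbad := hx v d
  have hex : ∃ i < d + L (v + d), fracMul P (fun j => x.digit (v + j)) i ≠ 0 := by
    by_contra h
    push Not at h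
    exact hbad ⟨P, hP0, rfl, h⟩
  obtain ⟨i, hi, hne⟩ := hex
  have hfrac : fracMul N x.digit = fracMul P (fun j => x.digit (v + j)) := by
    rw [hP, fracMul_X_pow_mul]
  have habs : q⁻¹ ^ (d + L (v + d)) ≤ absI (fracMul N x.digit) := by
    rw [hfrac]
    classical
    set r := fracMul P (fun j => x.digit (v + j)) with hr
    have hex : ∃ i, r i ≠ 0 := ⟨i, hne⟩
    have h1 : absI r = q⁻¹ ^ (Nat.find hex + 1) := by rw [absI, dif_pos hex]
    rw [h1]
    apply pow_le_pow_of_le_one (inv_nonneg.2 hq0.le) (inv_le_one_of_one_le₀ hq1.le)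
    have := Nat.find_min' hex hne
    omega
  calc c ≤ f (v + d) * q⁻¹ ^ (L (v + d)) := hL _
    _ = f (v + d) * q ^ (v + d) * (q ^ v)⁻¹ * q⁻¹ ^ (d + L (v + d)) := by
        rw [pow_add q v d, pow_add q⁻¹ d, inv_pow q d]
        field_simp
    _ ≤ f (v + d) * q ^ (v + d) * (q ^ v)⁻¹ * absI (fracMul N x.digit) := by
        apply mul_le_mul_of_nonneg_left habs
        have := hf (v + d)
        positivity
    _ = _ := by rw [hdeg]

end

end Q271.Little
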