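import Mathlib

set_option autoImplicit false

/-! # Digit sequences over a finite field and the `t`-adic Littlewood conjecture -/

namespace Q271.Little

open Polynomial

/-- The space `I` of the elements `∑_{i ≥ 1} s_i t ^ (-i)` of `F ((t⁻¹))`; the entry with index
`i` is the coefficient of `t ^ (-(i + 1))`. -/
@[ext] structure Digits (F : Type) : Type where
  /-- the coefficients -/
  digit : ℕ → F

section
variable {F : Type} [Field F] [Fintype F]

open Classical in
/-- The absolute value of `∑ r i t ^ (-(i + 1))`: it is `q ^ (-(i + 1))`, where `i` is the least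
index with `r i ≠ 0` and `q` is the number of elements of `F`, and `0` if there is no such
index. -/
noncomputable def absI (r : ℕ → F) : ℝ :=
  if h : ∃ i, r i ≠ 0 then ((Fintype.card F : ℝ)⁻¹) ^ (Nat.find h + 1) else 0

/-- the digits of the fractional part of `N Θ` -/
def fracMul (N : F[X]) (s : ℕ → F) : ℕ → F :=
  fun i => ∑ j ∈ Finset.range (N.natDegree + 1), N.coeff j * s (i + j)

lemma card_pos' : (1 : ℝ) < Fintype.card F := by
  exact_mod_cast Fintype.one_lt_card

lemma inv_card_pos : (0 : ℝ) < ((Fintype.card F : ℝ))⁻¹ := by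
  have : (1 : ℝ) < Fintype.card F := card_pos'
  positivity

lemma inv_card_lt_one : ((Fintype.card F : ℝ))⁻¹ < 1 :=
  inv_lt_one_of_one_lt₀ card_pos'

lemma absI_zero : absI (0 : ℕ → F) = 0 := by
  rw [absI, dif_neg]
  simp

lemma absI_nonneg (r : ℕ → F) : 0 ≤ absI r := by
  rw [absI]
  split_ifs with h
  · exact pow_nonneg inv_card_pos.le _
  · exact le_refl _

lemma absI_pos {r : ℕ → F} (h : ∃ i, r i ≠ 0) : 0 < absI r := by
  rw [absI, dif_pos h]
  exact pow_pos inv_card_pos _

/-- the key property of the absolute value -/
lemma absI_le_iff (r : ℕ → F) (n : ℕ) :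
    absI r ≤ ((Fintype.card F : ℝ)⁻¹) ^ (n + 1) ↔ ∀ i < n, r i = 0 := by
  classical
  rw [absI]
  split_ifs with h
  · rw [pow_le_pow_iff_right_of_lt_one₀ inv_card_pos inv_card_lt_one]
    constructor
    · intro h1 i hi
      by_contra h2
      have := Nat.find_min' h h2
      omega
    · intro h1
      by_contra h2
      exact Nat.find_spec h (h1 _ (by omega))
  · push Not at h
    constructor
    · intro _ i _
      exact h i
    · intro _
      exact pow_nonneg inv_card_pos.le _

lemma absI_le (r : ℕ → F) : absI r ≤ ((Fintype.card F : ℝ)⁻¹) ^ (0 + 1) := by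
  rw [absI_le_iff]
  intro i hi
  omega

lemma absI_eq_of {r : ℕ → F} {n : ℕ} (h0 : ∀ i < n, r i = 0) (h1 : r n ≠ 0) :
    absI r = ((Fintype.card F : ℝ)⁻¹) ^ (n + 1) := by
  classical
  have h : ∃ i, r i ≠ 0 := ⟨n, h1⟩
  rw [absI, dif_pos h]
  congr 2
  rw [Nat.find_eq_iff]
  refine ⟨h1, fun m hm => ?_⟩
  push Not
  exact h0 m hm

lemma absI_add_le (r r' : ℕ → F) : absI (r + r') ≤ absI r + absI r' := by
  classical
  by_cases h : ∃ i, r i ≠ 0
  · by_cases h' : ∃ i, r' i ≠ 0
    · have e : absI r = ((Fintype.card F : ℝ)⁻¹) ^ (Nat.find h + 1) := by rw [absI, dif_pos h]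
      have e' : absI r' = ((Fintype.card F : ℝ)⁻¹) ^ (Nat.find h' + 1) := by rw [absI, dif_pos h']
      have key : absI (r + r') ≤ ((Fintype.card F : ℝ)⁻¹) ^ (min (Nat.find h) (Nat.find h') + 1) := by
        rw [absI_le_iff]
        intro i hi
        have h1 : r i = 0 := by
          by_contra h2
          have := Nat.find_min' h h2
          omega
        have h3 : r' i = 0 := by
          by_contra h2
          have := Nat.find_min' h' h2
          omega
        rw [Pi.add_apply, h1, h3, add_zero]
      refine key.trans ?_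
      have h1 := absI_nonneg r
      have h2 := absI_nonneg r'
      rcases min_choice (Nat.find h) (Nat.find h') with hm | hm
      · rw [hm, ← e]
        linarith
      · rw [hm, ← e']
        linarith
    · push Not at h'
      have : r' = 0 := funext h'
      rw [this, absI_zero, add_zero, add_zero]
  · push Not at h
    have : r = 0 := funext h
    rw [this, absI_zero, zero_add, zero_add]

lemma absI_neg (r : ℕ → F) : absI (-r) = absI r := by
  classical
  simp only [absI, Pi.neg_apply, ne_eq, neg_eq_zero]

/-- the metric `|Θ - Φ|` on `I` -/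
noncomputable instance : MetricSpace (Digits F) where
  dist x y := absI (x.digit - y.digit)
  dist_self x := by
    show absI (x.digit - x.digit) = 0
    rw [sub_self, absI_zero]
  dist_comm x y := by
    show absI (x.digit - y.digit) = absI (y.digit - x.digit)
    rw [← absI_neg, neg_sub]
  dist_triangle x y z := by
    show absI (x.digit - z.digit) ≤ absI (x.digit - y.digit) +
      absI (y.digit - z.digit)
    rw [← sub_add_sub_cancel x.digit y.digit z.digit]
    exact absI_add_le _ _
  eq_of_dist_eq_zero {x y} h := by
    have h : absI (x.digit - y.digit) = 0 := h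
    by_contra hne
    have h1 : ∃ i, (x.digit - y.digit) i ≠ 0 := by
      by_contra h2
      push Not at h2
      apply hne
      have h3 : x.digit - y.digit = 0 := funext h2
      exact Digits.ext (sub_eq_zero.1 h3)
    exact absurd h (absI_pos h1).ne'

lemma dist_def (x y : Digits F) : dist x y = absI (x.digit - y.digit) := rfl

lemma dist_le_iff (x y : Digits F) (n : ℕ) :
    dist x y ≤ ((Fintype.card F : ℝ)⁻¹) ^ (n + 1) ↔ ∀ i < n, x.digit i = y.digit i := by
  rw [dist_def, absI_le_iff]
  refine forall₂_congr fun i _ => ?_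
  exact sub_eq_zero

variable (F) in
/-- The counterexamples `M_q(f)` to the `t`-adic Littlewood conjecture over `F` with growth
function `f`; here `f k` stands for the value of the growth function at `q ^ k`. The largest power
of `t` dividing `N` is `t ^ N.natTrailingDegree`. -/
def M (f : ℕ → ℝ) : Set (Digits F) :=
  {Θ | ∃ c : ℝ, 0 < c ∧ ∀ N : F[X], N ≠ 0 →
    c ≤ f N.natDegree * (Fintype.card F : ℝ) ^ N.natDegree *
      ((Fintype.card F : ℝ) ^ N.natTrailingDegree)⁻¹ * absI (fracMul N Θ.digit)}

/-- the growth function `log ^ (1 + lam)` -/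
noncomputable def growth (lam : ℝ) (k : ℕ) : ℝ := if k = 0 then 1 else (k : ℝ) ^ (1 + lam)

end

end Q271.Little
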