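import Pool.Agent.Q271.LittleTree

set_option autoImplicit false
set_option linter.unusedSectionVars false

/-! # Hausdorff dimension of the set of counterexamples -/

namespace Q271.Little

open Finset Filter Topology MeasureTheory
open scoped ENNReal NNReal

section
variable {F : Type} [Field F] [Fintype F]

lemma Alive.pred {L : ℕ → ℕ} {l t : ℕ} : ∀ {j n : ℕ} {x : ℕ → F},
    Alive L l t (j + 1) n x → Alive L l t j n x := by
  classical
  intro j
  induction j with
  | zero =>
    intro n x h
    exact h.1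
  | succ j ih =>
    intro n x h
    rw [Alive] at h ⊢
    refine ⟨h.1, h.2.trans (Finset.card_le_card ?_)⟩
    intro y hy
    rw [Finset.mem_filter] at hy ⊢
    exact ⟨hy.1, ih hy.2⟩

lemma Alive.mono {L : ℕ → ℕ} {l t j j' n : ℕ} {x : ℕ → F} (hj : j ≤ j')
    (h : Alive L l t j' n x) : Alive L l t j n x := by
  induction hj with
  | refl => exact h
  | step _ ih => exact ih h.pred

/-- alive forever -/
def Alive' (L : ℕ → ℕ) (l t n : ℕ) (x : ℕ → F) : Prop := ∀ j, Alive L l t j n x

open Classical in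
lemma Alive'.children {L : ℕ → ℕ} {l t n : ℕ} {x : ℕ → F} (h : Alive' L l t n x) :
    t ≤ ((ch l n x).filter (Alive' L l t (n + 1))).card := by
  by_contra hlt
  push Not at hlt
  have hex : ∀ y ∈ ch l n x, ¬ Alive' L l t (n + 1) y → ∃ j, ¬ Alive L l t j (n + 1) y := by
    intro y _ hy
    rw [Alive'] at hy
    push Not at hy
    exact hy
  choose! J hJ using hex
  have h1 := h ((ch l n x).sup J + 1)
  rw [Alive] at h1
  have hsub : (ch l n x).filter (Alive L l t ((ch l n x).sup J) (n + 1)) ⊆
      (ch l n x).filter (Alive' L l t (n + 1)) := by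
    intro y hy
    rw [Finset.mem_filter] at hy ⊢
    refine ⟨hy.1, ?_⟩
    by_contra hy'
    exact hJ y hy.1 hy' (hy.2.mono (Finset.le_sup hy.1))
  have := h1.2.trans (Finset.card_le_card hsub)
  omega

/-- **The branching tree gives many good sequences.** -/
lemma exists_map {L : ℕ → ℕ} {l t : ℕ} (hl : 1 ≤ l)
    (h0 : Alive' L l t 0 (0 : ℕ → F)) :
    ∃ g : (ℕ → Fin t) → Digits F, (∀ c v d, ¬ Bad L v d (g c).digit) ∧
      ∀ (c c' : ℕ → Fin t) (n : ℕ), (∀ i < n * l, (g c).digit i = (g c').digit i) →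
        ∀ i < n, c i = c' i := by
  classical
  -- choice of children
  have hemb : ∀ (n : ℕ) (x : ℕ → F), Alive' L l t n x →
      ∃ e : Fin t → (ℕ → F), Function.Injective e ∧ ∀ i, e i ∈ ch l n x ∧
        Alive' L l t (n + 1) (e i) := by
    intro n x hx
    obtain ⟨S, hS1, hS2⟩ := Finset.exists_subset_card_eq hx.children
    let e := (S.equivFinOfCardEq hS2).symm
    refine ⟨fun i => (e i).1, fun i j hij => e.injective (Subtype.ext hij), fun i => ?_⟩
    exact Finset.mem_filter.1 (hS1 (e i).2)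
  choose e he1 he2 using hemb
  let nd : (c : ℕ → Fin t) → (n : ℕ) → {x : ℕ → F // Alive' L l t n x ∧ trunc (n * l) x = x} :=
    fun c n => Nat.rec (motive := fun n => {x : ℕ → F // Alive' L l t n x ∧ trunc (n * l) x = x})
      ⟨0, h0, by
        funext i
        simp [trunc]⟩
      (fun n x => ⟨e n x.1 x.2.1 (c n), (he2 n x.1 x.2.1 (c n)).2,
        (trunc_of_mem_ch x.2.2 (he2 n x.1 x.2.1 (c n)).1).2⟩) n
  have hnds : ∀ c n, (nd c (n + 1)).1 = e n (nd c n).1 (nd c n).2.1 (c n) := fun c n => rfl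
  have htr : ∀ c n, trunc (n * l) (nd c (n + 1)).1 = (nd c n).1 := by
    intro c n
    rw [hnds]
    exact (trunc_of_mem_ch (nd c n).2.2 (he2 n (nd c n).1 (nd c n).2.1 (c n)).1).1
  have htr' : ∀ c n j, trunc (n * l) (nd c (n + j)).1 = (nd c n).1 := by
    intro c n j
    induction j with
    | zero => exact (nd c n).2.2
    | succ j ih =>
      rw [← ih, ← htr c (n + j), trunc_trunc _ (Nat.mul_le_mul_right l (by omega))]
      rfl
  let gd : (ℕ → Fin t) → (ℕ → F) := fun c i => (nd c (i + 1)).1 i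
  have hgd : ∀ c n i, i < n * l → gd c i = (nd c n).1 i := by
    intro c n i hi
    rcases le_total (i + 1) n with h | h
    · obtain ⟨j, rfl⟩ := Nat.exists_eq_add_of_le h
      have h1 := congrFun (htr' c (i + 1) j) i
      have h2 : i < (i + 1) * l := by nlinarith
      rw [trunc_apply_of_lt _ h2] at h1
      exact h1.symm
    · obtain ⟨j, hj⟩ := Nat.exists_eq_add_of_le h
      have h1 := congrFun (htr' c n j) i
      rw [trunc_apply_of_lt _ hi, ← hj] at h1
      exact h1
  refine ⟨fun c => ⟨gd c⟩, fun c v d hbad => ?_, fun c c' n hn => ?_⟩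
  · set n := v + 2 * d + L (v + d) with hn
    have hgood : Good L l n (nd c n).1 := ((nd c n).2.1 0)
    have hnl : n ≤ n * l := Nat.le_mul_of_pos_right n (by omega)
    refine hgood v d hnl (bad_congr L v d _ _ (fun i hi => ?_) hbad)
    exact hgd c n i (by omega)
  · have hnode : ∀ k ≤ n, (nd c k).1 = (nd c' k).1 := by
      intro k hk
      apply eq_of_trunc (nd c k).2.2 (nd c' k).2.2
      intro i hi
      rw [← hgd c k i hi, ← hgd c' k i hi]
      exact hn i (lt_of_lt_of_le hi (Nat.mul_le_mul_right l hk))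
    intro i hi
    have h1 := hnode i hi.le
    have h2 := hnode (i + 1) hi
    rw [hnds, hnds] at h2
    have h3 : ∀ (x y : {x : ℕ → F // Alive' L l t i x ∧ trunc (i * l) x = x}) (a b : Fin t),
        x.1 = y.1 → e i x.1 x.2.1 a = e i y.1 y.2.1 b → a = b := by
      rintro ⟨x, hx⟩ ⟨y, hy⟩ a b hxy hab
      simp only at hxy
      subst hxy
      exact he1 i x hx.1 hab
    exact h3 (nd c i) (nd c' i) (c i) (c' i) h1 h2

/-- **Lower bound for the dimension from the branching.** -/
lemma le_dimH {L : ℕ → ℕ} {l t : ℕ} (hl : 1 ≤ l) (ht : 2 ≤ t)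
    (h0 : Alive' L l t 0 (0 : ℕ → F)) (θ : ℝ≥0) (hθ : 0 < θ)
    (hθt : ((Fintype.card F : ℝ) ^ l) ^ (θ : ℝ) ≤ t) (S : Set (Digits F))
    (hS : ∀ x : Digits F, (∀ v d, ¬ Bad L v d x.digit) → x ∈ S) : (θ : ℝ≥0∞) ≤ dimH S := by
  obtain ⟨g, hg1, hg2⟩ := exists_map hl h0
  have hginj : Function.Injective g := by
    intro c c' h
    funext i
    exact hg2 c c' (i + 1) (fun j _ => by rw [h]) i (Nat.lt_succ_self i)
  have hne : Nonempty (ℕ → Fin t) := ⟨fun _ => ⟨0, by omega⟩⟩
  let h : Digits F → ℝ := fun x => Real.ofDigits (Function.invFun g x)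
  have hhg : ∀ c, h (g c) = Real.ofDigits c := by
    intro c
    show Real.ofDigits (Function.invFun g (g c)) = _
    rw [Function.leftInverse_invFun hginj c]
  set q : ℝ := (Fintype.card F : ℝ) with hq
  have hq1 : 1 < q := card_pos'
  have hq0 : 0 < q := by linarith
  have ht0 : (0 : ℝ) < t := by
    have : 0 < t := by omega
    exact_mod_cast this
  have hholder : HolderOnWith (t : ℝ≥0) θ h (Set.range g) := by
    rintro _ ⟨c, rfl⟩ _ ⟨c', rfl⟩
    rw [hhg, hhg]
    by_cases hcc : c = c'
    · subst hcc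
      simp
    have hgne : g c ≠ g c' := fun hh => hcc (hginj hh)
    have hex : ∃ i, (g c).digit i ≠ (g c').digit i := by
      by_contra hh
      push Not at hh
      exact hgne (Digits.ext (funext hh))
    classical
    set N := Nat.find hex with hN
    have hagree : ∀ i < N, (g c).digit i = (g c').digit i := by
      intro i hi
      have := Nat.find_min hex hi
      push Not at this
      exact this
    have hdist : dist (g c) (g c') = q⁻¹ ^ (N + 1) := by
      rw [dist_def]
      apply absI_eq_of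
      · intro i hi
        rw [Pi.sub_apply, hagree i hi, sub_self]
      · rw [Pi.sub_apply]
        exact sub_ne_zero.2 (Nat.find_spec hex)
    set n := N / l with hn
    have hnN : n * l ≤ N := Nat.div_mul_le_self _ _
    have hNn : N + 1 ≤ (n + 1) * l := by
      have h1 := Nat.lt_div_mul_add (a := N) (b := l) (by omega)
      rw [← hn] at h1
      rw [add_mul, one_mul]
      omega
    have h1 := Real.abs_ofDigits_sub_ofDigits_le (hg2 c c' n (fun i hi => hagree i (by omega)))
    have h2 : ((t : ℝ) ^ n)⁻¹ ≤ t * dist (g c) (g c') ^ (θ : ℝ) := by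
      rw [hdist]
      have h3 : ((t : ℝ) ^ (n + 1))⁻¹ ≤ (q⁻¹ ^ (N + 1)) ^ (θ : ℝ) := by
        have h4 : (q⁻¹ ^ (N + 1)) ^ (θ : ℝ) = ((q ^ (N + 1)) ^ (θ : ℝ))⁻¹ := by
          rw [inv_pow, Real.inv_rpow (by positivity)]
        rw [h4]
        apply inv_anti₀ (by positivity)
        calc (q ^ (N + 1)) ^ (θ : ℝ) ≤ (q ^ ((n + 1) * l)) ^ (θ : ℝ) := by
              apply Real.rpow_le_rpow (by positivity) _ θ.coe_nonneg
              exact pow_le_pow_right₀ hq1.le hNn
          _ = ((q ^ l) ^ (θ : ℝ)) ^ (n + 1) := by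
              rw [mul_comm (n + 1) l, pow_mul, Real.rpow_pow_comm (by positivity)]
          _ ≤ (t : ℝ) ^ (n + 1) := by
              gcongr
      have h5 : ((t : ℝ) ^ n)⁻¹ = t * ((t : ℝ) ^ (n + 1))⁻¹ := by
        rw [pow_succ]
        field_simp
      rw [h5]
      gcongr
    rw [edist_dist, edist_dist, Real.dist_eq]
    have h6 : |Real.ofDigits c - Real.ofDigits c'| ≤ t * dist (g c) (g c') ^ (θ : ℝ) := h1.trans h2
    refine (ENNReal.ofReal_le_ofReal h6).trans (le_of_eq ?_)
    rw [ENNReal.ofReal_mul ht0.le, ENNReal.ofReal_rpow_of_pos (by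
      rw [hdist]
      positivity)]
    congr 1
    rw [ENNReal.ofReal_natCast]
    simp
  have hdim := hholder.dimH_image_le hθ
  have himg : Set.Icc (0 : ℝ) 1 ⊆ h '' (Set.range g) := by
    intro y hy
    obtain ⟨c, -, hc⟩ := Real.ofDigits_SurjOn (b := t) (by omega) hy
    exact ⟨g c, ⟨c, rfl⟩, by rw [hhg, hc]⟩
  have hIcc : dimH (Set.Icc (0 : ℝ) 1) = 1 := by
    have h1 : Set.Icc (0 : ℝ) 1 ∈ 𝓝 (1 / 2 : ℝ) := Icc_mem_nhds (by norm_num) (by norm_num)
    rw [Real.dimH_of_mem_nhds h1, Module.finrank_self]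
    simp
  have h1 : (1 : ℝ≥0∞) ≤ dimH (Set.range g) / θ := by
    rw [← hIcc]
    exact (dimH_mono himg).trans hdim
  have h2 : (θ : ℝ≥0∞) ≤ dimH (Set.range g) := by
    have hθ0 : (θ : ℝ≥0∞) ≠ 0 := by
      exact_mod_cast hθ.ne'
    rw [ENNReal.le_div_iff_mul_le (Or.inl hθ0) (Or.inl ENNReal.coe_ne_top), one_mul] at h1
    exact h1
  refine h2.trans (dimH_mono ?_)
  rintro _ ⟨c, rfl⟩
  exact hS _ (hg1 c)

/-- the whole space has dimension at most one -/
lemma dimH_le_one (S : Set (Digits F)) : dimH S ≤ 1 := by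
  borelize (Digits F)
  have hμ : μH[(1 : ℝ≥0)] (Set.univ : Set (Digits F)) ≠ ∞ := by
    have h := Measure.hausdorffMeasure_le_liminf_sum (X := Digits F) (β := ℕ)
      (ι := fun n => (Fin n → F)) (1 : ℝ≥0) (Set.univ : Set (Digits F)) (l := atTop)
      (fun n => ENNReal.ofReal ((Fintype.card F : ℝ)⁻¹ ^ (n + 1))) ?_
      (fun n w => {x : Digits F | ∀ i : Fin n, x.digit i = w i}) ?_ ?_
    · refine ne_top_of_le_ne_top ENNReal.one_ne_top (h.trans ?_)
      refine Filter.liminf_le_of_le ?_ ?_
      · isBoundedDefault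
      · intro b hb
        obtain ⟨n, hn⟩ := hb.exists
        refine hn.trans ?_
        calc ∑ w : Fin n → F, Metric.ediam {x : Digits F | ∀ i : Fin n, x.digit i = w i} ^ ((1 : ℝ≥0) : ℝ)
            ≤ ∑ w : Fin n → F, ENNReal.ofReal ((Fintype.card F : ℝ)⁻¹ ^ (n + 1)) := by
              apply Finset.sum_le_sum
              intro w _
              rw [NNReal.coe_one, ENNReal.rpow_one]
              apply Metric.ediam_le_of_forall_dist_le
              intro x hx y hy
              rw [dist_le_iff]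
              intro i hi
              rw [hx ⟨i, hi⟩, hy ⟨i, hi⟩]
          _ = (Fintype.card F ^ n : ℕ) * ENNReal.ofReal ((Fintype.card F : ℝ)⁻¹ ^ (n + 1)) := by
              rw [Finset.sum_const, Finset.card_univ, Fintype.card_fun, Fintype.card_fin,
                nsmul_eq_mul]
          _ ≤ 1 := by
              rw [← ENNReal.ofReal_natCast, ← ENNReal.ofReal_mul (by positivity),
                ← ENNReal.ofReal_one]
              apply ENNReal.ofReal_le_ofReal
              have h1 : (1 : ℝ) < Fintype.card F := card_pos'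
              have h0 : (0 : ℝ) < Fintype.card F := by linarith
              push_cast
              rw [pow_succ, ← mul_assoc, ← mul_pow, mul_inv_cancel₀ h0.ne', one_pow, one_mul]
              exact inv_le_one_of_one_le₀ h1.le
    · rw [← ENNReal.ofReal_zero]
      apply (ENNReal.continuous_ofReal.tendsto _).comp
      exact (tendsto_pow_atTop_nhds_zero_of_lt_one inv_card_pos.le inv_card_lt_one).comp
        (tendsto_add_atTop_nat 1)
    · refine Filter.Eventually.of_forall fun n w => ?_
      apply Metric.ediam_le_of_forall_dist_le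
      intro x hx y hy
      rw [dist_le_iff]
      intro i hi
      rw [hx ⟨i, hi⟩, hy ⟨i, hi⟩]
    · refine Filter.Eventually.of_forall fun n x _ => ?_
      exact Set.mem_iUnion.2 ⟨fun i => x.digit i, fun i => rfl⟩
  refine (dimH_mono (Set.subset_univ S)).trans ?_
  have := dimH_le_of_hausdorffMeasure_ne_top hμ
  simpa using this

end

end Q271.Little
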