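import Pool.Agent.Q271.LittleBad

set_option autoImplicit false
set_option linter.unusedSectionVars false

/-! # The tree of good words -/

namespace Q271.Little

open Finset

section
variable {F : Type} [Field F] [Fintype F]

/-- truncation of a digit sequence -/
def trunc (k : ℕ) (x : ℕ → F) : ℕ → F := fun i => if i < k then x i else 0

lemma trunc_apply_of_lt {k i : ℕ} (x : ℕ → F) (h : i < k) : trunc k x i = x i := if_pos h

lemma trunc_apply_of_le {k i : ℕ} (x : ℕ → F) (h : k ≤ i) : trunc k x i = 0 := if_neg (by omega)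

lemma trunc_trunc {k m : ℕ} (x : ℕ → F) (h : m ≤ k) : trunc m (trunc k x) = trunc m x := by
  funext i
  by_cases hi : i < m
  · rw [trunc_apply_of_lt _ hi, trunc_apply_of_lt _ hi, trunc_apply_of_lt _ (by omega)]
  · rw [trunc_apply_of_le _ (by omega), trunc_apply_of_le _ (by omega)]

lemma eq_of_trunc {k : ℕ} {x y : ℕ → F} (hx : trunc k x = x) (hy : trunc k y = y)
    (h : ∀ i < k, x i = y i) : x = y := by
  rw [← hx, ← hy]
  funext i
  by_cases hi : i < k
  · rw [trunc_apply_of_lt _ hi, trunc_apply_of_lt _ hi, h i hi]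
  · rw [trunc_apply_of_le _ (by omega), trunc_apply_of_le _ (by omega)]

/-- no bad event among the first `n l` digits -/
def Good (L : ℕ → ℕ) (l n : ℕ) (x : ℕ → F) : Prop :=
  ∀ v d, v + 2 * d + L (v + d) ≤ n * l → ¬ Bad L v d x

lemma bad_congr (L : ℕ → ℕ) (v d : ℕ) (x y : ℕ → F)
    (h : ∀ i < v + 2 * d + L (v + d), x i = y i) (hx : Bad L v d x) : Bad L v d y := by
  obtain ⟨P, hP0, hPd, hP⟩ := hx
  refine ⟨P, hP0, hPd, fun i hi => ?_⟩
  rw [← hP i hi, fracMul, fracMul]
  apply Finset.sum_congr rfl
  intro j hj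
  rw [Finset.mem_range, hPd] at hj
  show _ * y (v + (i + j)) = _ * x (v + (i + j))
  rw [h (v + (i + j)) (by omega)]

lemma good_congr (L : ℕ → ℕ) (l n : ℕ) (x y : ℕ → F) (h : ∀ i < n * l, x i = y i)
    (hx : Good L l n x) : Good L l n y := by
  intro v d hvd hbad
  refine hx v d hvd (bad_congr L v d y x (fun i hi => (h i (by omega)).symm) hbad)

/-- the extension of the word `x` of length `n l` by the block `b` -/
def extend (l n : ℕ) (x : ℕ → F) (b : Fin l → F) : ℕ → F :=
  fun i => if i < n * l then x i else if h : i - n * l < l then b ⟨i - n * l, h⟩ else 0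

open Classical in
/-- the children of a word -/
noncomputable def ch (l n : ℕ) (x : ℕ → F) : Finset (ℕ → F) :=
  Finset.univ.image (extend l n x)

lemma extend_injective (l n : ℕ) (x : ℕ → F) : Function.Injective (extend l n x) := by
  intro b b' h
  funext j
  have h1 := congrFun h (n * l + j)
  simp only [extend] at h1
  rw [if_neg (by omega), if_neg (by omega)] at h1
  have h2 : n * l + (j : ℕ) - n * l = j := by omega
  rw [dif_pos (by omega), dif_pos (by omega)] at h1
  have h3 : (⟨n * l + (j : ℕ) - n * l, by omega⟩ : Fin l) = j := Fin.ext h2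
  rw [h3] at h1
  exact h1

lemma card_ch (l n : ℕ) (x : ℕ → F) : (ch l n x).card = Fintype.card F ^ l := by
  classical
  rw [ch, Finset.card_image_of_injective _ (extend_injective l n x), Finset.card_univ,
    Fintype.card_fun, Fintype.card_fin]

lemma trunc_of_mem_ch {l n : ℕ} {x y : ℕ → F} (hx : trunc (n * l) x = x) (hy : y ∈ ch l n x) :
    trunc (n * l) y = x ∧ trunc ((n + 1) * l) y = y := by
  classical
  rw [ch, Finset.mem_image] at hy
  obtain ⟨b, -, rfl⟩ := hy
  constructor
  · rw [← hx]
    funext i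
    by_cases hi : i < n * l
    · rw [trunc_apply_of_lt _ hi, trunc_apply_of_lt _ hi, hx]
      simp only [extend]
      rw [if_pos hi]
    · rw [trunc_apply_of_le _ (by omega), trunc_apply_of_le _ (by omega)]
  · funext i
    by_cases hi : i < (n + 1) * l
    · rw [trunc_apply_of_lt _ hi]
    · rw [trunc_apply_of_le _ (by omega)]
      have h1 : (n + 1) * l = n * l + l := by ring
      simp only [extend]
      rw [if_neg (by omega), dif_neg (by omega)]

open Classical in
/-- a word is alive if it is the root of a good tree of height `j` with branching at least `t` -/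
def Alive (L : ℕ → ℕ) (l t : ℕ) : ℕ → ℕ → (ℕ → F) → Prop
  | 0, n, x => Good L l n x
  | j + 1, n, x => Good L l n x ∧ t ≤ ((ch l n x).filter (Alive L l t j (n + 1))).card

lemma Alive.good {L : ℕ → ℕ} {l t j n : ℕ} {x : ℕ → F} (h : Alive L l t j n x) :
    Good L l n x := by
  cases j with
  | zero => exact h
  | succ j => exact h.1

/-- the labels of the events at level `n + 1` -/
def labels (L : ℕ → ℕ) (l n : ℕ) : Finset (ℕ × ℕ) :=
  ((Finset.range ((n + 1) * l + 1)) ×ˢ (Finset.range ((n + 1) * l + 1))).filter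
    (fun p => n * l < p.1 + 2 * p.2 + L (p.1 + p.2) ∧
      p.1 + 2 * p.2 + L (p.1 + p.2) ≤ (n + 1) * l)

/-- a first bad event -/
def Rem (L : ℕ → ℕ) (p : ℕ × ℕ) (y : ℕ → F) : Prop :=
  Bad L p.1 p.2 y ∧ ∀ d' < p.2, ¬ Bad L p.1 d' y

/-- a bad child of a good word has a first bad event -/
lemma exists_label {L : ℕ → ℕ} (hL : Monotone L) {l n : ℕ} {y : ℕ → F}
    (hgood : Good L l n (trunc (n * l) y)) (hbad : ¬ Good L l (n + 1) y) :
    ∃ p ∈ labels L l n, Rem L p y := by
  classical
  rw [Good] at hbad
  push Not at hbad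
  obtain ⟨v, d, hvd, hb⟩ := hbad
  have hex : ∃ d, v + 2 * d + L (v + d) ≤ (n + 1) * l ∧ Bad L v d y := ⟨d, hvd, hb⟩
  set d₀ := Nat.find hex with hd₀
  obtain ⟨h1, h2⟩ := Nat.find_spec hex
  rw [← hd₀] at h1 h2
  refine ⟨(v, d₀), ?_, h2, fun d' hd' hbad' => ?_⟩
  · rw [labels, Finset.mem_filter, Finset.mem_product, Finset.mem_range, Finset.mem_range]
    refine ⟨⟨?_, ?_⟩, ?_, h1⟩
    · show v < (n + 1) * l + 1
      omega
    · show d₀ < (n + 1) * l + 1
      omega
    · by_contra h3
      push Not at h3
      refine hgood v d₀ h3 (bad_congr L v d₀ y _ (fun i hi => ?_) h2)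
      have h3' : v + 2 * d₀ + L (v + d₀) ≤ n * l := h3
      rw [trunc_apply_of_lt _ (by omega)]
  · have h3 : v + 2 * d' + L (v + d') ≤ (n + 1) * l := by
      have h4 := hL (show v + d' ≤ v + d₀ by
        have : d' < d₀ := hd'
        omega)
      have : d' < d₀ := hd'
      omega
    have := Nat.find_min' hex ⟨h3, hbad'⟩
    have h5 : d' < d₀ := hd'
    omega

/-- few words are removed because of a given event -/
lemma card_fiber {L : ℕ → ℕ} (hL : Monotone L) {l n : ℕ} (hl : 1 ≤ l) (p : ℕ × ℕ)
    (hp : p ∈ labels L l n) (u : ℕ → F) (S : Finset (ℕ → F))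
    (hS : ∀ y ∈ S, trunc ((n + 1) * l) y = y ∧ Rem L p y ∧
      trunc ((p.1 + 2 * p.2) / l * l) y = u) :
    S.card ≤ Fintype.card F ^ l * Fintype.card F ^ l := by
  classical
  set m := (p.1 + 2 * p.2) / l with hm
  have hml : m * l ≤ p.1 + 2 * p.2 := Nat.div_mul_le_self _ _
  have hml' : p.1 + 2 * p.2 < m * l + l := Nat.lt_div_mul_add (by omega)
  rw [labels, Finset.mem_filter] at hp
  obtain ⟨-, hp1, hp2⟩ := hp
  have hcard : (Finset.univ : Finset ((Fin l → F) × (Fin l → F))).card =
      Fintype.card F ^ l * Fintype.card F ^ l := by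
    rw [Finset.card_univ, Fintype.card_prod, Fintype.card_fun, Fintype.card_fin]
  rw [← hcard]
  apply Finset.card_le_card_of_injOn
    (fun y : ℕ → F => ((fun j : Fin l => y (m * l + j)), (fun j : Fin l => y (n * l + j))))
  · intro y _
    exact Finset.mem_coe.2 (Finset.mem_univ _)
  · intro y hy y' hy' h
    obtain ⟨h1, h2, h3⟩ := hS y (Finset.mem_coe.1 hy)
    obtain ⟨h1', h2', h3'⟩ := hS y' (Finset.mem_coe.1 hy')
    have ha : ∀ j : Fin l, y (m * l + j) = y' (m * l + j) := fun j =>
      congrFun (congrArg Prod.fst h) j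
    have hb : ∀ j : Fin l, y (n * l + j) = y' (n * l + j) := fun j =>
      congrFun (congrArg Prod.snd h) j
    -- agreement up to `v + 2 d`
    have s1 : ∀ i < p.1 + 2 * p.2, y i = y' i := by
      intro i hi
      by_cases him : i < m * l
      · have e1 := congrFun h3 i
        have e2 := congrFun h3' i
        rw [trunc_apply_of_lt _ him] at e1 e2
        rw [e1, e2]
      · have := ha ⟨i - m * l, by omega⟩
        simp only at this
        rwa [show m * l + (i - m * l) = i by omega] at this
    have s2 : ∀ i < p.1 + 2 * p.2 + L (p.1 + p.2), y i = y' i := by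
      intro i hi
      by_cases hip : i < p.1
      · exact s1 i (by omega)
      · have := determined L hL p.1 p.2 y y' h2.1 h2'.1 h2.2 (fun j hj => s1 _ (by omega))
          (i - p.1) (by omega)
        rwa [show p.1 + (i - p.1) = i by omega] at this
    refine eq_of_trunc h1 h1' fun i hi => ?_
    by_cases hin : i < p.1 + 2 * p.2 + L (p.1 + p.2)
    · exact s2 i hin
    · have h4 : (n + 1) * l = n * l + l := by ring
      have := hb ⟨i - n * l, by omega⟩
      simp only at this
      rwa [show n * l + (i - n * l) = i by omega] at this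

/-- **The root is alive.** -/
theorem root_alive {L : ℕ → ℕ} (hL : Monotone L) (hL1 : ∀ k, 1 ≤ L k) {l : ℕ} (hl : 1 ≤ l)
    (s t : ℕ) (hst : s + t = Fintype.card F ^ l + 1) (σ : ℝ) (hσ : 0 < σ)
    (hnum : ∀ n, ∑ p ∈ labels L l n, ((Fintype.card F ^ l : ℕ) : ℝ) ^ 2 *
      (σ⁻¹) ^ (n - (p.1 + 2 * p.2) / l) ≤ s - σ) (N : ℕ) :
    Alive L l t N 0 (0 : ℕ → F) := by
  classical
  by_contra hdead
  -- selection of dead children
  have hsel : ∀ (n : ℕ) (x : ℕ → F), n < N → ¬ Alive L l t (N - n) n x → Good L l n x →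
      ∃ S ⊆ ch l n x, S.card = s ∧ ∀ y ∈ S, ¬ Alive L l t (N - (n + 1)) (n + 1) y := by
    intro n x hn hx hg
    have e : N - n = (N - (n + 1)) + 1 := by omega
    rw [e, Alive] at hx
    have h1 : ((ch l n x).filter (Alive L l t (N - (n + 1)) (n + 1))).card < t := by
      by_contra h
      push Not at h
      exact hx ⟨hg, h⟩
    have h2 := Finset.card_filter_add_card_filter_not (s := ch l n x)
      (Alive L l t (N - (n + 1)) (n + 1))
    rw [card_ch] at h2
    obtain ⟨S, hS1, hS2⟩ := Finset.exists_subset_card_eq (s := (ch l n x).filter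
      (fun y => ¬ Alive L l t (N - (n + 1)) (n + 1) y)) (n := s) (by omega)
    exact ⟨S, hS1.trans (Finset.filter_subset _ _), hS2, fun y hy => (Finset.mem_filter.1 (hS1 hy)).2⟩
  choose! sel hsel1 hsel2 hsel3 using hsel
  let D : ℕ → Finset (ℕ → F) := fun n => Nat.rec {0}
    (fun n Dn => (Dn.filter (Good L l n)).biUnion (sel n)) n
  have hD0 : D 0 = {0} := rfl
  have hDs : ∀ n, D (n + 1) = ((D n).filter (Good L l n)).biUnion (sel n) := fun n => rfl
  -- invariants
  have hinv : ∀ n ≤ N, ∀ x ∈ D n, trunc (n * l) x = x ∧ ¬ Alive L l t (N - n) n x ∧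
      ∀ m < n, trunc (m * l) x ∈ (D m).filter (Good L l m) := by
    intro n
    induction n with
    | zero =>
      intro _ x hx
      rw [hD0, Finset.mem_singleton] at hx
      subst hx
      refine ⟨?_, by simpa using hdead, fun m hm => by omega⟩
      funext i
      simp [trunc]
    | succ n ih =>
      intro hn y hy
      rw [hDs, Finset.mem_biUnion] at hy
      obtain ⟨x, hx, hy⟩ := hy
      rw [Finset.mem_filter] at hx
      obtain ⟨h1, h2, h3⟩ := ih (by omega) x hx.1
      have hych := hsel1 n x (by omega) h2 hx.2 hy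
      obtain ⟨h4, h5⟩ := trunc_of_mem_ch h1 hych
      refine ⟨h5, hsel3 n x (by omega) h2 hx.2 y hy, fun m hm => ?_⟩
      rcases Nat.lt_succ_iff_lt_or_eq.1 hm with h6 | h6
      · have h7 := h3 m h6
        rw [← h4, trunc_trunc _ (Nat.mul_le_mul_right l h6.le)] at h7
        exact h7
      · subst h6
        rw [h4, Finset.mem_filter]
        exact hx
  have hcard : ∀ n < N, (D (n + 1)).card = s * ((D n).filter (Good L l n)).card := by
    intro n hn
    rw [hDs, Finset.card_biUnion]
    · rw [Finset.sum_const_nat (m := s), mul_comm]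
      intro x hx
      rw [Finset.mem_filter] at hx
      exact hsel2 n x hn (hinv n hn.le x hx.1).2.1 hx.2
    · intro x hx x' hx' hne
      rw [Finset.mem_coe, Finset.mem_filter] at hx hx'
      rw [Function.onFun, Finset.disjoint_left]
      intro y hy hy'
      apply hne
      have i1 := hinv n hn.le x hx.1
      have i2 := hinv n hn.le x' hx'.1
      have e1 := (trunc_of_mem_ch i1.1 (hsel1 n x hn i1.2.1 hx.2 hy)).1
      have e2 := (trunc_of_mem_ch i2.1 (hsel1 n x' hn i2.2.1 hx'.2 hy')).1
      rw [← e1, ← e2]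
  set a : ℕ → ℕ := fun n => ((D n).filter (Good L l n)).card with ha
  set R : ℕ := Fintype.card F ^ l with hR
  have hstep : ∀ n < N, s * a n ≤ a (n + 1) + ∑ p ∈ labels L l n,
      R * R * a ((p.1 + 2 * p.2) / l) := by
    intro n hn
    rw [ha]
    simp only
    rw [← hcard n hn, ← Finset.card_filter_add_card_filter_not (s := D (n + 1))
      (Good L l (n + 1))]
    apply Nat.add_le_add_left
    have hsub : (D (n + 1)).filter (fun y => ¬ Good L l (n + 1) y) ⊆
        (labels L l n).biUnion (fun p => (D (n + 1)).filter (Rem L p)) := by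
      intro y hy
      rw [Finset.mem_filter] at hy
      have h1 := (hinv (n + 1) hn y hy.1).2.2 n (Nat.lt_succ_self n)
      rw [Finset.mem_filter] at h1
      obtain ⟨p, hp, hrem⟩ := exists_label hL h1.2 hy.2
      rw [Finset.mem_biUnion]
      exact ⟨p, hp, Finset.mem_filter.2 ⟨hy.1, hrem⟩⟩
    refine (Finset.card_le_card hsub).trans (Finset.card_biUnion_le.trans ?_)
    apply Finset.sum_le_sum
    intro p hp
    have hmn : (p.1 + 2 * p.2) / l < n + 1 := by
      rw [Nat.div_lt_iff_lt_mul (by omega)]
      have h1 := hp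
      rw [labels, Finset.mem_filter] at h1
      have h2 := hL1 (p.1 + p.2)
      omega
    apply Finset.card_le_mul_card_image_of_maps_to
      (f := fun y => trunc ((p.1 + 2 * p.2) / l * l) y)
    · intro y hy
      rw [Finset.mem_filter] at hy
      exact (hinv (n + 1) hn y hy.1).2.2 _ hmn
    · intro u hu
      apply card_fiber hL hl p hp u
      intro y hy
      rw [Finset.mem_filter, Finset.mem_filter] at hy
      exact ⟨(hinv (n + 1) hn y hy.1.1).1, hy.1.2, hy.2⟩
  have hgrow : ∀ n < N, σ * (a n : ℝ) ≤ a (n + 1) := by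
    intro n
    induction n using Nat.strong_induction_on with
    | _ n ih =>
      intro hn
      have hback : ∀ j ≤ n, (a (n - j) : ℝ) ≤ (σ⁻¹) ^ j * a n := by
        intro j
        induction j with
        | zero => simp
        | succ j ihj =>
          intro hj
          have h1 := ihj (by omega)
          have h2 := ih (n - (j + 1)) (by omega) (by omega)
          rw [show n - (j + 1) + 1 = n - j by omega] at h2
          rw [pow_succ']
          have h3 : (a (n - (j + 1)) : ℝ) = σ⁻¹ * (σ * (a (n - (j + 1)) : ℝ)) := by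
            field_simp
          rw [h3, mul_assoc]
          apply mul_le_mul_of_nonneg_left (h2.trans h1) (by positivity)
      have h1 : ((s * a n : ℕ) : ℝ) ≤ ((a (n + 1) + ∑ p ∈ labels L l n,
          R * R * a ((p.1 + 2 * p.2) / l) : ℕ) : ℝ) := by exact_mod_cast hstep n hn
      push_cast at h1
      have h2 : ∑ p ∈ labels L l n, (R : ℝ) * R * (a ((p.1 + 2 * p.2) / l) : ℝ) ≤
          (s - σ) * a n := by
        calc ∑ p ∈ labels L l n, (R : ℝ) * R * (a ((p.1 + 2 * p.2) / l) : ℝ)
            ≤ ∑ p ∈ labels L l n, ((R : ℝ) ^ 2 * (σ⁻¹) ^ (n - (p.1 + 2 * p.2) / l)) * a n := by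
              apply Finset.sum_le_sum
              intro p hp
              have hmn : (p.1 + 2 * p.2) / l ≤ n := by
                rw [← Nat.lt_succ_iff, Nat.div_lt_iff_lt_mul (by omega)]
                have h1 := hp
                rw [labels, Finset.mem_filter] at h1
                have h2 := hL1 (p.1 + p.2)
                show p.1 + 2 * p.2 < (n + 1) * l
                omega
              have h3 := hback (n - (p.1 + 2 * p.2) / l) (Nat.sub_le _ _)
              rw [Nat.sub_sub_self hmn] at h3
              calc (R : ℝ) * R * (a ((p.1 + 2 * p.2) / l) : ℝ)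
                  ≤ (R : ℝ) * R * ((σ⁻¹) ^ (n - (p.1 + 2 * p.2) / l) * a n) := by gcongr
                _ = _ := by ring
          _ = (∑ p ∈ labels L l n, (R : ℝ) ^ 2 * (σ⁻¹) ^ (n - (p.1 + 2 * p.2) / l)) * a n := by
              rw [Finset.sum_mul]
          _ ≤ (s - σ) * a n := by
              have := hnum n
              gcongr
      linarith
  have hpos : ∀ n ≤ N, (0 : ℝ) < a n := by
    intro n
    induction n with
    | zero =>
      intro _
      have : 0 < a 0 := by
        rw [ha]
        simp only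
        rw [Finset.card_pos]
        refine ⟨0, Finset.mem_filter.2 ⟨by rw [hD0]; exact Finset.mem_singleton_self _, ?_⟩⟩
        intro v d h
        have := hL1 (v + d)
        omega
      exact_mod_cast this
    | succ n ih =>
      intro hn
      have h1 := ih (by omega)
      have h2 := hgrow n (by omega)
      have h3 := mul_pos hσ h1
      linarith
  have hN := hpos N le_rfl
  have hN' : 0 < a N := by exact_mod_cast hN
  rw [ha] at hN'
  simp only at hN'
  rw [Finset.card_pos] at hN'
  obtain ⟨x, hx⟩ := hN'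
  rw [Finset.mem_filter] at hx
  have h1 := (hinv N le_rfl x hx.1).2.1
  rw [Nat.sub_self] at h1
  exact h1 hx.2

end

end Q271.Little
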